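import Pool.Agent.ROH.Ifc
import Pool.Agent.Helper32.GelfGrow

/-!
ROH block G: `GelfondForm` from Gelfond's criterion with growing degree.
-/

set_option autoImplicit false

namespace Pool.Agent.ROH

theorem gelfondForm : GelfondForm := by
  intro θ hθ C n0 h
  apply hθ
  have hC : 0 < max C 1 := lt_of_lt_of_le one_pos (le_max_right _ _)
  refine Helper32.GelfGrow.gelfond_grow θ (max C 1) (1 / 3) hC (by norm_num) 8 13 (by norm_num)
    n0 fun n hn => ?_
  obtain ⟨P, hP0, hPd, hPc, hPθ⟩ := h n hn
  refine ⟨P, hP0, hPd.trans ?_, fun i => (hPc i).trans ?_, hPθ.trans ?_⟩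
  · exact mul_le_mul_of_nonneg_right (le_max_left _ _) (by positivity)
  · exact Real.exp_le_exp.2 (mul_le_mul_of_nonneg_right (le_max_left _ _) (by positivity))
  · apply le_of_eq
    congr 2
    rw [show (8 + 13 + 1 : ℕ) = 22 by norm_num]
    ring

end Pool.Agent.ROH
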