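import Mathlib

/-!
ROH-LBeta (block L). Real Beta integral and the two special values (reflection and duplication formulas).
-/

set_option autoImplicit false

namespace Pool.Agent.ROH

open MeasureTheory

theorem beta_int (a b : ℝ) (ha : 0 < a) (hb : 0 < b) :
    ∫ u in Set.Ioo (0 : ℝ) 1, u ^ (a - 1) * (1 - u) ^ (b - 1) =
      Real.Gamma a * Real.Gamma b / Real.Gamma (a + b) := by
  have h0 : Real.Gamma a * Real.Gamma b / Real.Gamma (a + b) = (Complex.betaIntegral a b).re :=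
    ProbabilityTheory.beta_eq_betaIntegralReal a b ha hb
  rw [h0, Complex.betaIntegral, intervalIntegral.integral_of_le (by norm_num),
    ← integral_Ioc_eq_integral_Ioo, ← RCLike.re_to_complex, ← integral_re]
  · refine setIntegral_congr_fun measurableSet_Ioc fun x hx => ?_
    obtain ⟨hx1, hx2⟩ := hx
    norm_cast
    rw [← Complex.ofReal_cpow, ← Complex.ofReal_cpow, RCLike.re_to_complex,
      Complex.re_mul_ofReal, Complex.ofReal_re]
    all_goals linarith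
  · have h1 := Complex.betaIntegral_convergent (u := a) (v := b) (by simpa) (by simpa)
    rw [intervalIntegrable_iff_integrableOn_Ioc_of_le (by simp), IntegrableOn] at h1
    exact h1

theorem beta_quarter : ∃ a : ℝ, IsAlgebraic ℚ a ∧ 0 < a ∧
    Real.Gamma (1 / 4) * Real.Gamma (1 / 2) / Real.Gamma (1 / 4 + 1 / 2) =
      a * (Real.Gamma (1 / 4) ^ 2 / Real.sqrt Real.pi) := by
  have hs : (0 : ℝ) < Real.sqrt 2 := Real.sqrt_pos.2 (by norm_num)
  have hs2 : Real.sqrt 2 * Real.sqrt 2 = 2 := Real.mul_self_sqrt (by norm_num)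
  refine ⟨Real.sqrt 2 / 2, ?_, by positivity, ?_⟩
  · refine IsAlgebraic.of_pow (n := 2) (by norm_num) ?_
    have h : (Real.sqrt 2 / 2) ^ 2 = ((1 / 2 : ℚ) : ℝ) := by
      push_cast
      nlinarith
    rw [h]
    exact isAlgebraic_algebraMap (1 / 2 : ℚ)
  · have h1 : Real.Gamma (1 / 4) * Real.Gamma (3 / 4) = Real.pi / (Real.sqrt 2 / 2) := by
      have h := Real.Gamma_mul_Gamma_one_sub (1 / 4)
      rw [show (1 : ℝ) - 1 / 4 = 3 / 4 by norm_num, show Real.pi * (1 / 4) = Real.pi / 4 by ring,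
        Real.sin_pi_div_four] at h
      exact h
    have hG : 0 < Real.Gamma (1 / 4) := Real.Gamma_pos_of_pos (by norm_num)
    have hG3 : 0 < Real.Gamma (3 / 4) := Real.Gamma_pos_of_pos (by norm_num)
    have hp : 0 < Real.sqrt Real.pi := Real.sqrt_pos.2 Real.pi_pos
    have hpp : Real.sqrt Real.pi * Real.sqrt Real.pi = Real.pi := Real.mul_self_sqrt Real.pi_pos.le
    rw [show (1 : ℝ) / 4 + 1 / 2 = 3 / 4 by norm_num, Real.Gamma_one_half_eq, div_eq_iff hG3.ne']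
    rw [eq_div_iff (by positivity)] at h1
    field_simp
    have h2 : Real.Gamma (1 / 4) * Real.Gamma (3 / 4) * Real.sqrt 2 = 2 * Real.pi := by
      linear_combination 2 * h1
    linear_combination 2 * hpp - h2

theorem beta_sixth : ∃ a : ℝ, IsAlgebraic ℚ a ∧ 0 < a ∧
    Real.Gamma (1 / 6) * Real.Gamma (1 / 2) / Real.Gamma (1 / 6 + 1 / 2) =
      a * (Real.Gamma (1 / 3) ^ 3 / Real.pi) := by
  have hc : ((2 : ℝ) ^ (2 / 3 : ℝ)) ^ 3 = 4 := by
    rw [← Real.rpow_natCast, ← Real.rpow_mul (by norm_num)]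
    norm_num
  have hc0 : 0 < (2 : ℝ) ^ (2 / 3 : ℝ) := Real.rpow_pos_of_pos (by norm_num) _
  refine ⟨(2 : ℝ) ^ (2 / 3 : ℝ) * (3 / 4), ?_, by positivity, ?_⟩
  · refine IsAlgebraic.of_pow (n := 3) (by norm_num) ?_
    have h : ((2 : ℝ) ^ (2 / 3 : ℝ) * (3 / 4)) ^ 3 = ((27 / 16 : ℚ) : ℝ) := by
      rw [mul_pow, hc]
      push_cast
      norm_num
    rw [h]
    exact isAlgebraic_algebraMap (27 / 16 : ℚ)
  · have h1 : Real.Gamma (1 / 3) * Real.Gamma (2 / 3) = Real.pi / (Real.sqrt 3 / 2) := by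
      have h := Real.Gamma_mul_Gamma_one_sub (1 / 3)
      rw [show (1 : ℝ) - 1 / 3 = 2 / 3 by norm_num, show Real.pi * (1 / 3) = Real.pi / 3 by ring,
        Real.sin_pi_div_three] at h
      exact h
    have h2 : Real.Gamma (1 / 6) * Real.Gamma (2 / 3) =
        Real.Gamma (1 / 3) * (2 : ℝ) ^ (2 / 3 : ℝ) * Real.sqrt Real.pi := by
      have h := Real.Gamma_mul_Gamma_add_half (1 / 6)
      rw [show (1 : ℝ) / 6 + 1 / 2 = 2 / 3 by norm_num, show (2 : ℝ) * (1 / 6) = 1 / 3 by norm_num,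
        show (1 : ℝ) - 1 / 3 = 2 / 3 by norm_num] at h
      exact h
    have hG : 0 < Real.Gamma (1 / 3) := Real.Gamma_pos_of_pos (by norm_num)
    have hG2 : 0 < Real.Gamma (2 / 3) := Real.Gamma_pos_of_pos (by norm_num)
    have hp : 0 < Real.sqrt Real.pi := Real.sqrt_pos.2 Real.pi_pos
    have hpp : Real.sqrt Real.pi * Real.sqrt Real.pi = Real.pi := Real.mul_self_sqrt Real.pi_pos.le
    have hs : (0 : ℝ) < Real.sqrt 3 := Real.sqrt_pos.2 (by norm_num)
    have hs2 : Real.sqrt 3 * Real.sqrt 3 = 3 := Real.mul_self_sqrt (by norm_num)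
    rw [show (1 : ℝ) / 6 + 1 / 2 = 2 / 3 by norm_num, Real.Gamma_one_half_eq, div_eq_iff hG2.ne']
    rw [eq_div_iff (by positivity)] at h1
    have h3 : Real.Gamma (1 / 6) = Real.Gamma (1 / 3) * (2 : ℝ) ^ (2 / 3 : ℝ) * Real.sqrt Real.pi / Real.Gamma (2 / 3) := by
      rw [eq_div_iff hG2.ne', h2]
    have h4 : 3 * (Real.Gamma (1 / 3) * Real.Gamma (2 / 3)) ^ 2 = 4 * Real.pi ^ 2 := by
      have h5 : Real.Gamma (1 / 3) * Real.Gamma (2 / 3) * Real.sqrt 3 = 2 * Real.pi := by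
        linear_combination 2 * h1
      calc 3 * (Real.Gamma (1 / 3) * Real.Gamma (2 / 3)) ^ 2 =
          (Real.Gamma (1 / 3) * Real.Gamma (2 / 3) * Real.sqrt 3) ^ 2 := by
            rw [mul_pow _ (Real.sqrt 3), pow_two (Real.sqrt 3), hs2]; ring
        _ = 4 * Real.pi ^ 2 := by rw [h5]; ring
    rw [h3]
    have hpi : 0 < Real.pi := Real.pi_pos
    rw [div_mul_eq_mul_div, div_eq_iff hG2.ne']
    have h6 : Real.Gamma (1 / 3) * (2 : ℝ) ^ (2 / 3 : ℝ) * Real.sqrt Real.pi * Real.sqrt Real.pi =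
        Real.Gamma (1 / 3) * (2 : ℝ) ^ (2 / 3 : ℝ) * Real.pi := by
      rw [mul_assoc _ (Real.sqrt Real.pi), hpp]
    rw [h6]
    field_simp
    have h7 : (Real.Gamma (1 / 3) * Real.Gamma (2 / 3)) ^ 2 = Real.Gamma (1 / 3) ^ 2 * Real.Gamma (2 / 3) ^ 2 := mul_pow _ _ _
    rw [h7] at h4
    linarith

end Pool.Agent.ROH
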