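import Pool.Agent.ROH.LConj

/-!
ROH-LFun (block L). The function `℘` on the real interval `(0, ρ)`.

PLAN. For real `x` with `0 < x < ρ` one has `(x : ℂ) ∉ L.lattice`. `℘(x)`, `℘'(x)` are real (`P_conj`,
`dP_conj`, `Complex.conj_ofReal`). `hd`: `℘` is complex differentiable off the lattice
(`PeriodPair.differentiableOn_weierstrassP`, closed lattice `L.isClosed_lattice`), derivative
`℘'` (`PeriodPair.deriv_weierstrassP`), then `HasDerivAt.real_of_complex`. `hr`: the same for `℘'`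
(`PeriodPair.analyticOnNhd_derivWeierstrassP`), derivative `deriv ℘'`. `rc`: `deriv ℘'` is analytic off
the lattice (`AnalyticAt.deriv`), hence continuous; compose with `ofReal` and `re`.
`sq`: `PeriodPair.derivWeierstrassP_sq` for the real point, all quantities real (`g2_real`, `g3_real`).
`top`: `℘(z) = ℘Except 0 z + 1/z^2` for `z ≠ 0` (`PeriodPair.weierstrassPExcept_add` with the element `0`
of the lattice), `℘Except 0` is analytic, hence continuous at `0` (`PeriodPair.analyticAt_weierstrassPExcept`),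
so `pR x = 1/x^2 + O(1) → ∞`.
`half`: `℘'` is odd and has the period `ρ`: `℘'(ρ/2) = ℘'(-ρ/2 + ρ) = ℘'(-ρ/2) = -℘'(ρ/2)`.
-/

set_option autoImplicit false

namespace Pool.Agent.ROH

open Complex ComplexConjugate

private theorem LFun_top (L : PeriodPair) :
    Filter.Tendsto (pR L) (nhdsWithin 0 (Set.Ioi 0)) Filter.atTop := by
  have hpe : ∀ x : ℝ, pR L x = (L.weierstrassPExcept 0 (x : ℂ)).re + (x⁻¹) ^ 2 := by
    intro x
    have h1 := L.weierstrassPExcept_add (0 : L.lattice) (x : ℂ)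
    have h2 : (((0 : L.lattice) : ℂ)) = 0 := rfl
    rw [h2] at h1
    unfold pR
    rw [← h1, Complex.add_re]
    congr 1
    have h3 : (1 / ((x : ℂ) - 0) ^ 2 - 1 / (0 : ℂ) ^ 2) = (((x⁻¹) ^ 2 : ℝ) : ℂ) := by
      rw [sub_zero]
      push_cast
      simp
    rw [h3, Complex.ofReal_re]
  have hfun : pR L = fun x : ℝ => (L.weierstrassPExcept 0 (x : ℂ)).re + (x⁻¹) ^ 2 := funext hpe
  rw [hfun]
  have hc : ContinuousAt (fun x : ℝ => (L.weierstrassPExcept 0 (x : ℂ)).re) 0 := by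
    have h1 : ContinuousAt (L.weierstrassPExcept 0) ((0 : ℝ) : ℂ) := by
      rw [Complex.ofReal_zero]
      exact (L.analyticAt_weierstrassPExcept 0).continuousAt
    have h2 : ContinuousAt (fun x : ℝ => L.weierstrassPExcept 0 (x : ℂ)) 0 :=
      ContinuousAt.comp (f := fun x : ℝ => (x : ℂ)) h1 Complex.continuous_ofReal.continuousAt
    exact Complex.continuous_re.continuousAt.comp h2
  have h1 : Filter.Tendsto (fun x : ℝ => (L.weierstrassPExcept 0 (x : ℂ)).re) (nhdsWithin 0 (Set.Ioi 0))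
      (nhds ((L.weierstrassPExcept 0 ((0 : ℝ) : ℂ)).re)) := hc.tendsto.mono_left nhdsWithin_le_nhds
  have h2 : Filter.Tendsto (fun x : ℝ => (x⁻¹) ^ 2) (nhdsWithin 0 (Set.Ioi 0)) Filter.atTop :=
    (Filter.tendsto_pow_atTop (two_ne_zero)).comp tendsto_inv_nhdsGT_zero
  exact h1.add_atTop h2

theorem realP_of (L : PeriodPair) (ρ : ℝ) (h : RealPer L ρ) :
    RealP (pR L) (dR L) (rR L) ρ L.g₂.re L.g₃.re := by
  have han : ∀ x : ℝ, 0 < x → x < ρ → AnalyticAt ℂ L.weierstrassP (x : ℂ) := fun x h0 h1 =>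
    L.analyticOnNhd_weierstrassP (x : ℂ) (h.nmem x h0 h1)
  have han' : ∀ x : ℝ, 0 < x → x < ρ → AnalyticAt ℂ L.derivWeierstrassP (x : ℂ) := fun x h0 h1 =>
    L.analyticOnNhd_derivWeierstrassP (x : ℂ) (h.nmem x h0 h1)
  have hPr : ∀ x : ℝ, L.weierstrassP (x : ℂ) = ((pR L x : ℝ) : ℂ) := by
    intro x
    have h1 := P_conj L h.cnj (x : ℂ)
    rw [Complex.conj_ofReal] at h1
    exact (Complex.conj_eq_iff_re.1 h1.symm).symm
  have hDr : ∀ x : ℝ, L.derivWeierstrassP (x : ℂ) = ((dR L x : ℝ) : ℂ) := by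
    intro x
    have h1 := dP_conj L h.cnj (x : ℂ)
    rw [Complex.conj_ofReal] at h1
    exact (Complex.conj_eq_iff_re.1 h1.symm).symm
  refine ⟨h.pos, ?_, ?_, ?_, ?_, LFun_top L, ?_⟩
  · intro x h0 h1
    have h2 : HasDerivAt L.weierstrassP (L.derivWeierstrassP (x : ℂ)) (x : ℂ) := by
      have h3 := (han x h0 h1).differentiableAt.hasDerivAt
      rwa [L.deriv_weierstrassP] at h3
    exact h2.real_of_complex
  · intro x h0 h1
    exact (han' x h0 h1).differentiableAt.hasDerivAt.real_of_complex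
  · intro x h0 h1
    have h2 : ContinuousAt (deriv L.derivWeierstrassP) (x : ℂ) := (han' x h0 h1).deriv.continuousAt
    have h3 : ContinuousAt (fun x : ℝ => deriv L.derivWeierstrassP (x : ℂ)) x :=
      ContinuousAt.comp (f := fun x : ℝ => (x : ℂ)) h2 Complex.continuous_ofReal.continuousAt
    exact Complex.continuous_re.continuousAt.comp h3
  · intro x h0 h1
    have h2 := L.derivWeierstrassP_sq (x : ℂ) (h.nmem x h0 h1)
    rw [hPr x, hDr x, g2_real L h.cnj, g3_real L h.cnj] at h2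
    exact_mod_cast h2
  · have h2 : L.derivWeierstrassP ((ρ / 2 : ℝ) : ℂ) = 0 := by
      have h3 := L.derivWeierstrassP_add_coe (-((ρ / 2 : ℝ) : ℂ)) ⟨(ρ : ℂ), h.mem⟩
      rw [L.derivWeierstrassP_neg] at h3
      have h4 : (-((ρ / 2 : ℝ) : ℂ) + ((⟨(ρ : ℂ), h.mem⟩ : L.lattice) : ℂ)) = ((ρ / 2 : ℝ) : ℂ) := by
        show -((ρ / 2 : ℝ) : ℂ) + (ρ : ℂ) = ((ρ / 2 : ℝ) : ℂ)
        push_cast
        ring
      rw [h4] at h3
      exact CharZero.eq_neg_self_iff.1 h3
    show (L.derivWeierstrassP ((ρ / 2 : ℝ) : ℂ)).re = 0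
    rw [h2]
    rfl

end Pool.Agent.ROH
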