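import Pool.Agent.ROH.LScale

/-!
ROH-LHex (block L). The hexagonal lattice.
-/

set_option autoImplicit false

namespace Pool.Agent.ROH

open Complex ComplexConjugate

/-- the cube root of unity `exp (2 π i / 3)` -/
noncomputable def w3 : ℂ := -1 / 2 + (Real.sqrt 3 / 2 : ℝ) * I

/-- the hexagonal lattice -/
noncomputable def hexL : PeriodPair where
  ω₁ := 1
  ω₂ := w3
  indep := by
    rw [LinearIndependent.pair_iff]
    intro s t h
    have h2 := congrArg Complex.im h
    simp [w3] at h2
    subst h2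
    simpa using h

private theorem w3_re : w3.re = -1 / 2 := by
  simp [w3]

private theorem w3_im : w3.im = Real.sqrt 3 / 2 := by
  simp [w3]

private theorem s3 : Real.sqrt 3 * Real.sqrt 3 = 3 := Real.mul_self_sqrt (by norm_num)

private theorem s3pos : 0 < Real.sqrt 3 := Real.sqrt_pos.mpr (by norm_num)

theorem w3_sq : w3 ^ 2 = -1 - w3 := by
  have h := s3
  apply Complex.ext
  · rw [pow_two, Complex.mul_re, Complex.sub_re, w3_re, w3_im]
    simp
    nlinarith [h]
  · rw [pow_two, Complex.mul_im, Complex.sub_im, w3_re, w3_im]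
    simp
    ring

theorem w3_conj : conj w3 = -1 - w3 := by
  apply Complex.ext
  · rw [Complex.conj_re, Complex.sub_re, w3_re]
    simp
    norm_num
  · rw [Complex.conj_im, Complex.sub_im, w3_im]
    simp

theorem hex_mem (z : ℂ) : z ∈ hexL.lattice ↔ ∃ a b : ℤ, z = a + b * w3 := by
  rw [PeriodPair.mem_lattice]
  constructor
  · rintro ⟨m, n, h⟩
    exact ⟨m, n, by rw [← h]; simp [hexL]⟩
  · rintro ⟨a, b, h⟩
    exact ⟨a, b, by rw [h]; simp [hexL]⟩

private theorem im_int (a b : ℤ) : ((a : ℂ) + b * w3).im = b * (Real.sqrt 3 / 2) := by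
  simp [w3_im]

private theorem w3_ne : w3 ≠ 0 := by
  intro h
  have := w3_re
  rw [h] at this
  norm_num at this

theorem hex_g2 : hexL.g₂ = 0 := by
  have h : hexL.G 4 = 0 := by
    refine G_eq_zero_of_mul hexL w3 w3_ne ?_ 4 ?_
    · intro z
      rw [hex_mem, hex_mem]
      constructor
      · rintro ⟨a, b, rfl⟩
        refine ⟨-b, a - b, ?_⟩
        have h2 := w3_sq
        push_cast
        linear_combination (b : ℂ) * h2
      · rintro ⟨a, b, h⟩
        refine ⟨b - a, -a, ?_⟩
        have h2 := w3_sq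
        have h3 : w3 * z = w3 * (((b - a : ℤ) : ℂ) + ((-a : ℤ) : ℂ) * w3) := by
          rw [h]
          push_cast
          linear_combination (a : ℂ) * h2
        exact mul_left_cancel₀ w3_ne h3
    · intro h4
      have h2 := w3_sq
      have h3 : w3 ^ 4 = w3 := by
        linear_combination (w3 ^ 2 - w3) * h2
      rw [h3] at h4
      have h5 := w3_re
      rw [h4] at h5
      norm_num at h5
  rw [PeriodPair.g₂, h, mul_zero]

private theorem im0 {b : ℤ} {v : ℝ} (hv : 0 < v) (h : v * (b * (Real.sqrt 3 / 2)) = 0) : b = 0 := by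
  have h1 := s3pos
  have h2 : (b : ℝ) = 0 := by
    rcases mul_eq_zero.mp h with h3 | h3
    · exact absurd h3 hv.ne'
    · rcases mul_eq_zero.mp h3 with h4 | h4
      · exact h4
      · linarith
  exact_mod_cast h2

theorem hex_per (v : ℝ) (hv : 0 < v) (hc : (v : ℂ) ≠ 0) : RealPer (scale hexL v hc) v := by
  refine ⟨hv, ?_, ?_, ?_⟩
  · rw [mem_scale]
    exact ⟨1, (hex_mem 1).mpr ⟨1, 0, by simp⟩, by simp⟩
  · intro x hx hxv hm
    rw [mem_scale] at hm
    obtain ⟨w, hw, he⟩ := hm
    rw [hex_mem] at hw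
    obtain ⟨a, b, rfl⟩ := hw
    have hi := congrArg Complex.im he
    rw [Complex.ofReal_im, Complex.im_ofReal_mul, im_int] at hi
    have hb := im0 hv hi.symm
    subst hb
    have hr := congrArg Complex.re he
    simp at hr
    rw [hr] at hx hxv
    have ha : (0 : ℝ) < a := by
      by_contra hcon
      push Not at hcon
      nlinarith
    have ha1 : (a : ℝ) < 1 := by
      by_contra hcon
      push Not at hcon
      nlinarith
    have h3 : (0 : ℤ) < a := by exact_mod_cast ha
    have h4 : a < (1 : ℤ) := by exact_mod_cast ha1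
    omega
  · intro z hz
    rw [mem_scale] at hz ⊢
    obtain ⟨w, hw, rfl⟩ := hz
    rw [hex_mem] at hw
    obtain ⟨a, b, rfl⟩ := hw
    refine ⟨((a - b : ℤ) : ℂ) + ((-b : ℤ) : ℂ) * w3, (hex_mem _).mpr ⟨_, _, rfl⟩, ?_⟩
    rw [map_mul, map_add, map_mul, w3_conj, Complex.conj_ofReal]
    simp only [map_intCast]
    push_cast
    ring

theorem hex_per2 (v : ℝ) (hv : 0 < v) (hc : (v * (1 - w3) : ℂ) ≠ 0) :
    RealPer (scale hexL (v * (1 - w3)) hc) (3 * v) := by
  have h2 := w3_sq
  have key : ∀ a b : ℤ, (v : ℂ) * (1 - w3) * (a + b * w3) =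
      v * (((a + b : ℤ) : ℂ) + ((2 * b - a : ℤ) : ℂ) * w3) := by
    intro a b
    push_cast
    linear_combination (-(v : ℂ) * b) * h2
  refine ⟨by linarith, ?_, ?_, ?_⟩
  · rw [mem_scale]
    refine ⟨((2 : ℤ) : ℂ) + ((1 : ℤ) : ℂ) * w3, (hex_mem _).mpr ⟨2, 1, rfl⟩, ?_⟩
    rw [key]
    push_cast
    ring
  · intro x hx hxv hm
    rw [mem_scale] at hm
    obtain ⟨w, hw, he⟩ := hm
    rw [hex_mem] at hw
    obtain ⟨a, b, rfl⟩ := hw
    rw [key] at he
    have hi := congrArg Complex.im he
    rw [Complex.ofReal_im, Complex.im_ofReal_mul, im_int] at hi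
    have hb := im0 hv hi.symm
    have hab : a = 2 * b := by omega
    subst hab
    have hr := congrArg Complex.re he
    rw [hb] at hr
    simp at hr
    rw [hr] at hx hxv
    have ha : (0 : ℝ) < b := by
      by_contra hcon
      push Not at hcon
      nlinarith
    have ha1 : (b : ℝ) < 1 := by
      by_contra hcon
      push Not at hcon
      nlinarith
    have h3 : (0 : ℤ) < b := by exact_mod_cast ha
    have h4 : b < (1 : ℤ) := by exact_mod_cast ha1
    omega
  · intro z hz
    rw [mem_scale] at hz ⊢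
    obtain ⟨w, hw, rfl⟩ := hz
    rw [hex_mem] at hw
    obtain ⟨a, b, rfl⟩ := hw
    refine ⟨(a : ℂ) + ((a - b : ℤ) : ℂ) * w3, (hex_mem _).mpr ⟨_, _, rfl⟩, ?_⟩
    rw [key, key]
    rw [map_mul, map_add, map_mul, w3_conj, Complex.conj_ofReal]
    simp only [map_intCast]
    push_cast
    ring

theorem w3_pow6 : (1 - w3) ^ 6 = -27 := by
  have h2 := w3_sq
  have h3 : (1 - w3) ^ 2 = -3 * w3 := by
    linear_combination h2
  have h4 : w3 ^ 3 = 1 := by
    linear_combination (w3 - 1) * h2
  calc (1 - w3) ^ 6 = ((1 - w3) ^ 2) ^ 3 := by ring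
    _ = -27 := by rw [h3, mul_pow, h4]; norm_num

end Pool.Agent.ROH
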