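import Pool.Agent.ROH.LDef

/-!
ROH-LMono (block L). Pure real analysis: the real function decreases from `∞` to `e` on `(0, ρ/2)`.

PLAN. `c(y) = 4 y^3 - c2 y - c3`, `d^2 = c(p)`. Near `0+` one has `p > e` (`top`), so `d ≠ 0` there.
Let `x0` be the infimum of the zeros of `d` in `(0, ρ/2]` (`ρ/2` is one); `x0 > 0` and `d x0 = 0` by
continuity. On `(0, x0)` `d ≠ 0` has constant sign (intermediate value), negative, because a
function increasing on `(0, x0)` does not tend to `∞` at `0+`. So `p` is strictly decreasing on `(0, x0]`.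
`c(p x0) = 0`, so `p x0 ≤ e` by `hpos`; if `p x0 < e` some `x < x0` has `p x = e`, `d x = 0`,
contradiction: `p x0 = e`.
`x0 = ρ/2`: for `x < x0` differentiate `sq`: `2 d r = (12 p^2 - c2) d` (both sides of `sq` have
derivatives at `x`, uniqueness), so `r = (12 p^2 - c2)/2` on `(0, x0)` and at `x0` by continuity of `r` and
`p`. `12 e^2 - c2 ≥ 0` (as `c > 0` to the right of `e` and `c e = 0`: `c(e+h)/h > 0`, `h → 0`), so `r x0 > 0`.
If `x0 < ρ/2`: `d > 0` on `(x0, x0 + δ)`; let `x1` be the infimum of the zeros of `d` in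
`[x0 + δ/2, ρ/2]`; `d > 0` on `(x0, x1)`, so `p x1 > p x0 = e`, but `c(p x1) = d x1 ^ 2 = 0`: contradiction.
Image: `p '' (0, ρ/2) = (e, ∞)` by strict monotonicity, `top`, and the intermediate value theorem.
-/

set_option autoImplicit false

namespace Pool.Agent.ROH

private theorem first_zero {d : ℝ → ℝ} {a b : ℝ} (hab : a ≤ b) (hc : ContinuousOn d (Set.Icc a b))
    (hb : d b = 0) :
    ∃ x1, a ≤ x1 ∧ x1 ≤ b ∧ d x1 = 0 ∧ ∀ x, a ≤ x → x < x1 → d x ≠ 0 := by
  have hS : IsCompact (Set.Icc a b ∩ d ⁻¹' {0}) := by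
    have := hc.preimage_isClosed_of_isClosed isClosed_Icc (isClosed_singleton (x := (0 : ℝ)))
    exact isCompact_Icc.of_isClosed_subset this Set.inter_subset_left
  obtain ⟨x1, hx1⟩ := hS.exists_isLeast ⟨b, ⟨hab, le_rfl⟩, hb⟩
  refine ⟨x1, hx1.1.1.1, hx1.1.1.2, hx1.1.2, fun x hax hx h0 => ?_⟩
  exact absurd (hx1.2 ⟨⟨hax, hx.le.trans hx1.1.1.2⟩, h0⟩) (not_le.2 hx)

private theorem sign_pos {d : ℝ → ℝ} {s : Set ℝ} (hs : IsPreconnected s) (hc : ContinuousOn d s)
    (hn : ∀ x ∈ s, d x ≠ 0) {a : ℝ} (ha : a ∈ s) (h : 0 < d a) : ∀ x ∈ s, 0 < d x := by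
  intro x hx
  by_contra hcon
  have h1 := hs.intermediate_value hx ha hc ⟨not_lt.1 hcon, h.le⟩
  obtain ⟨y, hy, hy0⟩ := h1
  exact hn y hy hy0

private theorem sign_neg {d : ℝ → ℝ} {s : Set ℝ} (hs : IsPreconnected s) (hc : ContinuousOn d s)
    (hn : ∀ x ∈ s, d x ≠ 0) {a : ℝ} (ha : a ∈ s) (h : d a < 0) : ∀ x ∈ s, d x < 0 := by
  intro x hx
  by_contra hcon
  have h1 := hs.intermediate_value ha hx hc ⟨h.le, not_lt.1 hcon⟩
  obtain ⟨y, hy, hy0⟩ := h1
  exact hn y hy hy0

theorem RealP.mono {p d r : ℝ → ℝ} {ρ c2 c3 e : ℝ} (h : RealP p d r ρ c2 c3)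
    (he : 4 * e ^ 3 - c2 * e - c3 = 0) (hpos : ∀ y, e < y → 0 < 4 * y ^ 3 - c2 * y - c3)
    (hs : 12 * e ^ 2 - c2 ≠ 0) :
    (∀ x, 0 < x → x < ρ / 2 → d x < 0) ∧ p '' Set.Ioo 0 (ρ / 2) = Set.Ioi e := by
  have hρ := h.pos
  have hdc : ∀ x, 0 < x → x < ρ → ContinuousAt d x := fun x h0 h1 => (h.hr x h0 h1).continuousAt
  have hpc : ∀ x, 0 < x → x < ρ → ContinuousAt p x := fun x h0 h1 => (h.hd x h0 h1).continuousAt
  -- the number `12 e ^ 2 - c2` is positive
  have hq : 0 < 12 * e ^ 2 - c2 := by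
    have h1 : 0 ≤ 12 * e ^ 2 - c2 := by
      by_contra hcon
      push Not at hcon
      have hcont : ContinuousAt (fun y : ℝ => 4 * (y ^ 2 + y * e + e ^ 2) - c2) e := by fun_prop
      have h2 : ∀ᶠ y in nhds e, 4 * (y ^ 2 + y * e + e ^ 2) - c2 < 0 := by
        have h3 : (fun y : ℝ => 4 * (y ^ 2 + y * e + e ^ 2) - c2) e < 0 := by
          show 4 * (e ^ 2 + e * e + e ^ 2) - c2 < 0
          nlinarith
        exact hcont.eventually_lt continuousAt_const h3
      obtain ⟨δ, hδ, h4⟩ := Metric.eventually_nhds_iff.1 h2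
      have h5 := h4 (y := e + δ / 2) (by
        rw [Real.dist_eq, add_sub_cancel_left, abs_of_pos (by positivity)]; linarith)
      have h6 := hpos (e + δ / 2) (by linarith)
      have h7 : 4 * (e + δ / 2) ^ 3 - c2 * (e + δ / 2) - c3 =
          (δ / 2) * (4 * ((e + δ / 2) ^ 2 + (e + δ / 2) * e + e ^ 2) - c2) := by
        have : c3 = 4 * e ^ 3 - c2 * e := by linarith
        rw [this]; ring
      rw [h7] at h6
      have h8 : 0 < δ / 2 := by positivity
      nlinarith
    exact lt_of_le_of_ne h1 (Ne.symm hs)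
  -- near zero `p > e`
  have hbig : ∀ y : ℝ, ∃ δ, 0 < δ ∧ δ < ρ / 2 ∧ ∀ x, 0 < x → x < δ → y < p x := by
    intro y
    have h1 := h.top.eventually_gt_atTop y
    rw [eventually_nhdsWithin_iff] at h1
    obtain ⟨δ, hδ, h2⟩ := Metric.eventually_nhds_iff.1 h1
    refine ⟨min δ (ρ / 4), lt_min hδ (by positivity), (min_le_right _ _).trans_lt (by linarith), ?_⟩
    intro x hx0 hx1
    refine h2 ?_ hx0
    rw [Real.dist_eq, sub_zero, abs_of_pos hx0]
    exact hx1.trans_le (min_le_left _ _)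
  obtain ⟨δ, hδ0, hδ1, hδ⟩ := hbig e
  -- first zero
  obtain ⟨x0, hx0a, hx0b, hx0z, hx0f⟩ := first_zero (d := d) (a := δ / 2) (b := ρ / 2) (by linarith)
    (fun x hx => (hdc x (by linarith [hx.1]) (by linarith [hx.2])).continuousWithinAt) h.half
  have hx0pos : 0 < x0 := by linarith
  have hx0ρ : x0 < ρ := by linarith
  have hne : ∀ x ∈ Set.Ioo 0 x0, d x ≠ 0 := by
    intro x hx
    by_cases hxd : x < δ / 2
    · intro h0
      have h1 := h.sq x hx.1 (by linarith)
      have h2 := hpos (p x) (hδ x hx.1 (by linarith))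
      rw [h0] at h1
      nlinarith
    · exact hx0f x (not_lt.1 hxd) hx.2
  have hneg : ∀ x ∈ Set.Ioo 0 x0, d x < 0 := by
    have hmid : x0 / 2 ∈ Set.Ioo 0 x0 := ⟨by linarith, by linarith⟩
    have hdcs : ContinuousOn d (Set.Ioo 0 x0) := fun x hx =>
      (hdc x hx.1 (by linarith [hx.2])).continuousWithinAt
    rcases lt_or_gt_of_ne (hne _ hmid) with h1 | h1
    · exact sign_neg isPreconnected_Ioo hdcs hne hmid h1
    · exfalso
      have h2 := sign_pos isPreconnected_Ioo hdcs hne hmid h1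
      obtain ⟨δ', hδ'0, _, hδ'⟩ := hbig (p (x0 / 2))
      set a := min (δ' / 2) (x0 / 4) with ha
      have ha0 : 0 < a := lt_min (by positivity) (by positivity)
      have ha1 : a < δ' := (min_le_left _ _).trans_lt (by linarith)
      have ha2 : a < x0 / 2 := (min_le_right _ _).trans_lt (by linarith)
      have h3 := hδ' a ha0 ha1
      have h4 : StrictMonoOn p (Set.Icc a (x0 / 2)) := by
        apply strictMonoOn_of_deriv_pos (convex_Icc _ _)
        · exact fun x hx => (hpc x (by linarith [hx.1]) (by linarith [hx.2])).continuousWithinAt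
        · intro x hx
          rw [interior_Icc] at hx
          rw [(h.hd x (by linarith [hx.1]) (by linarith [hx.2])).deriv]
          exact h2 x ⟨by linarith [hx.1], by linarith [hx.2]⟩
      have h5 := h4 ⟨le_rfl, ha2.le⟩ ⟨ha2.le, le_rfl⟩ ha2
      linarith
  have hanti : ∀ a, 0 < a → StrictAntiOn p (Set.Icc a x0) := by
    intro a ha
    apply strictAntiOn_of_deriv_neg (convex_Icc _ _)
    · exact fun x hx => (hpc x (by linarith [hx.1]) (by linarith [hx.2])).continuousWithinAt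
    · intro x hx
      rw [interior_Icc] at hx
      rw [(h.hd x (by linarith [hx.1]) (by linarith [hx.2])).deriv]
      exact hneg x ⟨by linarith [hx.1], by linarith [hx.2]⟩
  have hpx0 : p x0 = e := by
    have h1 := h.sq x0 hx0pos hx0ρ
    rw [hx0z] at h1
    have h2 : p x0 ≤ e := by
      by_contra hcon
      have := hpos (p x0) (not_le.1 hcon)
      linarith
    rcases h2.lt_or_eq with h3 | h3
    · exfalso
      have hs1 : 0 < min (δ / 2) (x0 / 2) := lt_min (by positivity) (by positivity)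
      have hs2 : min (δ / 2) (x0 / 2) < δ := (min_le_left _ _).trans_lt (by linarith)
      have hs3 : min (δ / 2) (x0 / 2) < x0 := (min_le_right _ _).trans_lt (by linarith)
      have h4 := hδ _ hs1 hs2
      have h5 : ContinuousOn p (Set.Icc (min (δ / 2) (x0 / 2)) x0) := fun x hx =>
        (hpc x (by linarith [hx.1]) (by linarith [hx.2])).continuousWithinAt
      obtain ⟨x, hx, hxe⟩ := intermediate_value_Ioo' hs3.le h5 ⟨h3, h4⟩
      have h6 := h.sq x (by linarith [hx.1]) (by linarith [hx.2])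
      rw [hxe, he] at h6
      exact hne x ⟨by linarith [hx.1], hx.2⟩ (pow_eq_zero_iff (two_ne_zero) |>.1 h6)
    · exact h3
  -- the value of `r`
  have hrv : ∀ x ∈ Set.Ioo 0 x0, r x = 6 * p x ^ 2 - c2 / 2 := by
    intro x hx
    have hxρ : x < ρ := by linarith [hx.2]
    have h1 : HasDerivAt (fun y => d y ^ 2) (2 * d x * r x) x := by
      have := (h.hr x hx.1 hxρ).fun_pow 2
      simpa using this
    have h2 : HasDerivAt (fun y => 4 * p y ^ 3 - c2 * p y - c3) (4 * (3 * p x ^ 2 * d x) - c2 * d x) x := by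
      have h3 := (h.hd x hx.1 hxρ).fun_pow 3
      have h4 := ((h3.const_mul 4).sub ((h.hd x hx.1 hxρ).const_mul c2)).sub_const c3
      simpa using h4
    have h3 : (fun y => 4 * p y ^ 3 - c2 * p y - c3) =ᶠ[nhds x] (fun y => d y ^ 2) := by
      filter_upwards [Ioo_mem_nhds hx.1 hxρ] with y hy
      exact (h.sq y hy.1 hy.2).symm
    have h4 := (h3.hasDerivAt_iff).1 h2 |>.unique h1
    have h5 : d x * (2 * r x - (12 * p x ^ 2 - c2)) = 0 := by linarith
    have h6 := (mul_eq_zero.1 h5).resolve_left (hne x hx)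
    linarith
  have hrx0 : r x0 = 6 * e ^ 2 - c2 / 2 := by
    have h1 : Filter.Tendsto r (nhdsWithin x0 (Set.Iio x0)) (nhds (r x0)) :=
      (h.rc x0 hx0pos hx0ρ).tendsto.mono_left nhdsWithin_le_nhds
    have h2 : Filter.Tendsto (fun x => 6 * p x ^ 2 - c2 / 2) (nhdsWithin x0 (Set.Iio x0))
        (nhds (6 * p x0 ^ 2 - c2 / 2)) := by
      have h3 : ContinuousAt (fun x => 6 * p x ^ 2 - c2 / 2) x0 := by
        have := hpc x0 hx0pos hx0ρ
        fun_prop
      exact h3.tendsto.mono_left nhdsWithin_le_nhds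
    have h3 : (fun x => 6 * p x ^ 2 - c2 / 2) =ᶠ[nhdsWithin x0 (Set.Iio x0)] r := by
      filter_upwards [Ioo_mem_nhdsLT hx0pos] with x hx
      exact (hrv x hx).symm
    have h4 := tendsto_nhds_unique h1 (h2.congr' h3)
    rw [h4, hpx0]
  have hrpos : 0 < r x0 := by rw [hrx0]; linarith
  -- `x0 = ρ / 2`
  have hx0e : x0 = ρ / 2 := by
    by_contra hcon
    have hlt : x0 < ρ / 2 := lt_of_le_of_ne hx0b hcon
    -- `d > 0` to the right of `x0`
    have h1 : ∃ a, x0 < a ∧ a < ρ / 2 ∧ ∀ x, x0 < x → x ≤ a → 0 < d x := by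
      have h2 : ∀ᶠ x in nhds x0, 0 < r x :=
        continuousAt_const.eventually_lt (h.rc x0 hx0pos hx0ρ) hrpos
      obtain ⟨η, hη, h3⟩ := Metric.eventually_nhds_iff.1 h2
      refine ⟨min (x0 + η / 2) ((x0 + ρ / 2) / 2), lt_min (by linarith) (by linarith),
        (min_le_right _ _).trans_lt (by linarith), ?_⟩
      intro x hxa hxb
      have hxη : x ≤ x0 + η / 2 := hxb.trans (min_le_left _ _)
      have hxρ : x ≤ (x0 + ρ / 2) / 2 := hxb.trans (min_le_right _ _)
      have h4 : StrictMonoOn d (Set.Icc x0 x) := by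
        apply strictMonoOn_of_deriv_pos (convex_Icc _ _)
        · exact fun y hy => (hdc y (by linarith [hy.1]) (by linarith [hy.2])).continuousWithinAt
        · intro y hy
          rw [interior_Icc] at hy
          rw [(h.hr y (by linarith [hy.1]) (by linarith [hy.2])).deriv]
          refine h3 ?_
          rw [Real.dist_eq, abs_of_pos (by linarith [hy.1])]
          linarith [hy.2]
      have h5 := h4 ⟨le_rfl, hxa.le⟩ ⟨hxa.le, le_rfl⟩ hxa
      rw [hx0z] at h5
      exact h5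
    obtain ⟨a, ha0, ha1, ha2⟩ := h1
    obtain ⟨x1, hx1a, hx1b, hx1z, hx1f⟩ := first_zero (d := d) (a := a) (b := ρ / 2) ha1.le
      (fun x hx => (hdc x (by linarith [hx.1]) (by linarith [hx.2])).continuousWithinAt) h.half
    have hpos1 : ∀ x ∈ Set.Ioo x0 x1, 0 < d x := by
      have hax : a < x1 := by
        refine lt_of_le_of_ne hx1a (fun h0 => ?_)
        have := ha2 a ha0 le_rfl
        rw [h0, hx1z] at this
        exact lt_irrefl _ this
      refine sign_pos (a := a) isPreconnected_Ioo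
        (fun x hx => (hdc x (by linarith [hx.1]) (by linarith [hx.2])).continuousWithinAt) ?_
        ⟨ha0, hax⟩ (ha2 a ha0 le_rfl)
      intro x hx
      by_cases hxa : x ≤ a
      · exact (ha2 x hx.1 hxa).ne'
      · exact hx1f x (not_le.1 hxa).le hx.2
    have hx01 : x0 < x1 := lt_of_lt_of_le ha0 hx1a
    have h4 : StrictMonoOn p (Set.Icc x0 x1) := by
      apply strictMonoOn_of_deriv_pos (convex_Icc _ _)
      · exact fun x hx => (hpc x (by linarith [hx.1]) (by linarith [hx.2])).continuousWithinAt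
      · intro x hx
        rw [interior_Icc] at hx
        rw [(h.hd x (by linarith [hx.1]) (by linarith [hx.2])).deriv]
        exact hpos1 x hx
    have h5 := h4 ⟨le_rfl, hx01.le⟩ ⟨hx01.le, le_rfl⟩ hx01
    rw [hpx0] at h5
    have h6 := hpos _ h5
    have h7 := h.sq x1 (by linarith) (by linarith)
    rw [hx1z] at h7
    linarith
  refine ⟨fun x hx0' hx1' => hneg x ⟨hx0', by rw [hx0e]; exact hx1'⟩, ?_⟩
  apply Set.Subset.antisymm
  · rintro _ ⟨x, hx, rfl⟩
    have h1 := hanti x hx.1 ⟨le_rfl, by rw [hx0e]; exact hx.2.le⟩ ⟨by rw [hx0e]; exact hx.2.le, le_rfl⟩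
      (by rw [hx0e]; exact hx.2)
    rw [hpx0] at h1
    exact h1
  · intro y hy
    obtain ⟨δ', hδ'0, hδ'1, hδ'⟩ := hbig y
    have h1 := hδ' (δ' / 2) (by positivity) (by linarith)
    have h5 : ContinuousOn p (Set.Icc (δ' / 2) x0) := fun x hx =>
      (hpc x (by linarith [hx.1]) (by linarith [hx.2])).continuousWithinAt
    obtain ⟨x, hx, hxe⟩ := intermediate_value_Ioo' (by rw [hx0e]; linarith) h5 ⟨by rw [hpx0]; exact hy, h1⟩
    exact ⟨x, ⟨by linarith [hx.1], by rw [← hx0e]; exact hx.2⟩, hxe⟩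

end Pool.Agent.ROH
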