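import Pool.Agent.ROH.LDef

/-!
ROH-LNon (block L). The invariants are not both zero. Pure real analysis.

PROOF. `d^2 = 4 p^3`, so `p ≥ 0`. Let `x0 > 0` be the infimum of the zeros of `p` in `(0, ρ/2]`; `p x0 = 0`
and `p > 0` on `(0, x0)`. There `q = 1 / sqrt p` has `|q'| = |d| / (2 p^(3/2)) = 1`, so `q` is bounded, but
`p x → 0` as `x → x0`: contradiction.
-/

set_option autoImplicit false

namespace Pool.Agent.ROH

open Filter Topology

private theorem lnon_key {p d : ℝ → ℝ} {x0 : ℝ} (h0 : 0 < x0)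
    (hd : ∀ x, 0 < x → x < x0 → HasDerivAt p (d x) x) (hsq : ∀ x, 0 < x → x < x0 → d x ^ 2 = 4 * p x ^ 3)
    (hpos : ∀ x, 0 < x → x < x0 → 0 < p x) (hc : ContinuousAt p x0) (hz : p x0 = 0) : False := by
  have hq : ∀ x ∈ Set.Ioo (0 : ℝ) x0, HasDerivWithinAt (fun y => (Real.sqrt (p y))⁻¹)
      (-(d x / (2 * Real.sqrt (p x))) / (Real.sqrt (p x)) ^ 2) (Set.Ioo (0 : ℝ) x0) x := by
    intro x hx
    have h1 : HasDerivAt (fun y => Real.sqrt (p y)) (d x / (2 * Real.sqrt (p x))) x :=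
      (hd x hx.1 hx.2).sqrt (hpos x hx.1 hx.2).ne'
    have h2 : Real.sqrt (p x) ≠ 0 := (Real.sqrt_pos.mpr (hpos x hx.1 hx.2)).ne'
    exact (h1.inv h2).hasDerivWithinAt
  have hb : ∀ x ∈ Set.Ioo (0 : ℝ) x0, ‖-(d x / (2 * Real.sqrt (p x))) / (Real.sqrt (p x)) ^ 2‖ ≤ 1 := by
    intro x hx
    have hs : 0 < Real.sqrt (p x) := Real.sqrt_pos.mpr (hpos x hx.1 hx.2)
    have hss : Real.sqrt (p x) ^ 2 = p x := Real.sq_sqrt (hpos x hx.1 hx.2).le
    have hdd : |d x| = 2 * Real.sqrt (p x) ^ 3 := by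
      have h1 : |d x| ^ 2 = (2 * Real.sqrt (p x) ^ 3) ^ 2 := by
        rw [sq_abs, hsq x hx.1 hx.2]
        calc 4 * p x ^ 3 = 4 * (Real.sqrt (p x) ^ 2) ^ 3 := by rw [hss]
          _ = (2 * Real.sqrt (p x) ^ 3) ^ 2 := by ring
      exact (pow_left_inj₀ (abs_nonneg _) (by positivity) (two_ne_zero)).mp h1
    rw [Real.norm_eq_abs, abs_div, abs_neg, abs_div, hdd, abs_of_pos (show 0 < 2 * Real.sqrt (p x) by positivity),
      abs_of_pos (show 0 < Real.sqrt (p x) ^ 2 by positivity)]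
    apply le_of_eq
    field_simp
  have ha : x0 / 2 ∈ Set.Ioo (0 : ℝ) x0 := ⟨by linarith, by linarith⟩
  have hB : ∀ x ∈ Set.Ioo (0 : ℝ) x0, (Real.sqrt (p x))⁻¹ ≤ (Real.sqrt (p (x0 / 2)))⁻¹ + x0 := by
    intro x hx
    have h1 := (convex_Ioo (0 : ℝ) x0).norm_image_sub_le_of_norm_hasDerivWithin_le hq hb ha hx
    rw [Real.norm_eq_abs, Real.norm_eq_abs, one_mul] at h1
    have h2 : |x - x0 / 2| ≤ x0 := by
      rw [abs_le]
      constructor <;> linarith [hx.1, hx.2]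
    have h3 := le_abs_self ((Real.sqrt (p x))⁻¹ - (Real.sqrt (p (x0 / 2)))⁻¹)
    linarith
  set B : ℝ := (Real.sqrt (p (x0 / 2)))⁻¹ + x0 with hBdef
  have hBpos : 0 < B := by
    have : 0 < Real.sqrt (p (x0 / 2)) := Real.sqrt_pos.mpr (hpos _ ha.1 ha.2)
    positivity
  have hlow : ∀ x ∈ Set.Ioo (0 : ℝ) x0, B⁻¹ ≤ Real.sqrt (p x) := by
    intro x hx
    have hs : 0 < Real.sqrt (p x) := Real.sqrt_pos.mpr (hpos x hx.1 hx.2)
    exact inv_le_of_inv_le₀ hs (hB x hx)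
  have hlow2 : ∀ x ∈ Set.Ioo (0 : ℝ) x0, (B⁻¹) ^ 2 ≤ p x := by
    intro x hx
    have hss : Real.sqrt (p x) ^ 2 = p x := Real.sq_sqrt (hpos x hx.1 hx.2).le
    rw [← hss]
    exact pow_le_pow_left₀ (by positivity) (hlow x hx) 2
  have hlim : Tendsto p (𝓝[<] x0) (𝓝 0) := by
    have := hc.tendsto
    rw [hz] at this
    exact this.mono_left nhdsWithin_le_nhds
  have hev : ∀ᶠ x in 𝓝[<] x0, (B⁻¹) ^ 2 ≤ p x := by
    have : Set.Ioo (0 : ℝ) x0 ∈ 𝓝[<] x0 := Ioo_mem_nhdsLT h0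
    filter_upwards [this] with x hx using hlow2 x hx
  have hfin := ge_of_tendsto hlim hev
  have : 0 < (B⁻¹) ^ 2 := by positivity
  linarith

theorem RealP.ne {p d r : ℝ → ℝ} {ρ : ℝ} (h : RealP p d r ρ 0 0) : False := by
  have hρ := h.pos
  have hsq : ∀ x, 0 < x → x < ρ → d x ^ 2 = 4 * p x ^ 3 := by
    intro x h1 h2
    have := h.sq x h1 h2
    linarith
  have hnn : ∀ x, 0 < x → x < ρ → 0 ≤ p x := by
    intro x h1 h2
    by_contra hneg
    push Not at hneg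
    have h3 : p x ^ 3 < 0 := Odd.pow_neg (by decide) hneg
    have h4 := hsq x h1 h2
    have h5 := sq_nonneg (d x)
    linarith
  have hhalf : p (ρ / 2) = 0 := by
    have h1 := hsq (ρ / 2) (by linarith) (by linarith)
    rw [h.half] at h1
    have h2 : p (ρ / 2) ^ 3 = 0 := by linarith
    exact pow_eq_zero_iff (three_ne_zero) |>.mp h2
  -- near zero `p` is positive
  obtain ⟨δ, hδ, hδp⟩ : ∃ δ > 0, ∀ x, 0 < x → x < δ → 0 < p x := by
    have h1 := h.top.eventually (eventually_gt_atTop 0)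
    rw [eventually_nhdsWithin_iff, Metric.eventually_nhds_iff] at h1
    obtain ⟨δ, hδ, hh⟩ := h1
    refine ⟨δ, hδ, fun x hx hx' => hh ?_ hx⟩
    rw [Real.dist_eq, sub_zero, abs_of_pos hx]
    exact hx'
  set Z : Set ℝ := {x | 0 < x ∧ x ≤ ρ / 2 ∧ p x = 0} with hZ
  have hZne : Z.Nonempty := ⟨ρ / 2, by linarith, le_rfl, hhalf⟩
  have hZb : BddBelow Z := ⟨0, fun x hx => hx.1.le⟩
  have hx0 : δ ≤ sInf Z := by
    apply le_csInf hZne
    intro x hx
    by_contra hlt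
    push Not at hlt
    have := hδp x hx.1 hlt
    rw [hx.2.2] at this
    exact lt_irrefl _ this
  have hx0' : sInf Z ≤ ρ / 2 := csInf_le hZb ⟨by linarith, le_rfl, hhalf⟩
  have hpos0 : 0 < sInf Z := lt_of_lt_of_le hδ hx0
  have hc : ContinuousAt p (sInf Z) := (h.hd _ hpos0 (by linarith)).continuousAt
  have hz : p (sInf Z) = 0 := by
    obtain ⟨u, hu1, hu2, hu3⟩ := exists_seq_tendsto_sInf hZne hZb
    have h1 : Tendsto (fun n => p (u n)) atTop (𝓝 (p (sInf Z))) := hc.tendsto.comp hu2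
    have h2 : (fun n => p (u n)) = fun _ => (0 : ℝ) := by
      funext n
      exact (hu3 n).2.2
    rw [h2] at h1
    exact tendsto_nhds_unique h1 tendsto_const_nhds |>.symm ▸ rfl
  refine lnon_key (p := p) (d := d) hpos0 (fun x h1 h2 => h.hd x h1 (by linarith))
    (fun x h1 h2 => hsq x h1 (by linarith)) ?_ hc hz
  intro x h1 h2
  have h3 := hnn x h1 (by linarith)
  rcases h3.lt_or_eq with h4 | h4
  · exact h4
  · exfalso
    have : sInf Z ≤ x := csInf_le hZb ⟨h1, by linarith, h4.symm⟩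
    linarith

end Pool.Agent.ROH
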