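import Pool.Agent.ROH.LScale

/-!
ROH-LSq (block L). The square lattice.

PLAN. `sq_mem`: `PeriodPair.mem_lattice`. `sq_g3`: `G_eq_zero_of_mul` with `c = I`, `n = 6`
(`I ^ 6 = -1 ≠ 1`; `I * (a + b I) = -b + a I`). `sq_per`: elements of `scale sqL v` are `v (a + b I)`
(`mem_scale`); real iff `b = 0`; conj gives `v (a - b I)`. `sq_per2`: elements are
`v (1 - I) (a + b I) = v ((a + b) + (b - a) I)`; real iff `a = b`, and then equal to `2 v b`; the
conjugate is `v ((a + b) - (b - a) I) = v (1 - I) (b + a I)`.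
-/

set_option autoImplicit false

namespace Pool.Agent.ROH

open Complex ComplexConjugate

/-- the lattice of Gaussian integers -/
noncomputable def sqL : PeriodPair where
  ω₁ := 1
  ω₂ := I
  indep := by
    rw [LinearIndependent.pair_iff]
    intro s t h
    have h1 := congrArg Complex.re h
    have h2 := congrArg Complex.im h
    simp at h1 h2
    exact ⟨h1, h2⟩

theorem sq_mem (z : ℂ) : z ∈ sqL.lattice ↔ ∃ a b : ℤ, z = a + b * I := by
  rw [PeriodPair.mem_lattice]
  constructor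
  · rintro ⟨m, n, h⟩
    refine ⟨m, n, ?_⟩
    rw [← h]
    show (m : ℂ) * 1 + (n : ℂ) * I = m + n * I
    rw [mul_one]
  · rintro ⟨a, b, h⟩
    refine ⟨a, b, ?_⟩
    rw [h]
    show (a : ℂ) * 1 + (b : ℂ) * I = a + b * I
    rw [mul_one]

theorem sq_g3 : sqL.g₃ = 0 := by
  have h1 : sqL.G 6 = 0 := by
    refine G_eq_zero_of_mul sqL I I_ne_zero (fun z => ?_) 6 ?_
    · rw [sq_mem, sq_mem]
      constructor
      · rintro ⟨a, b, rfl⟩
        refine ⟨-b, a, ?_⟩
        push_cast
        linear_combination (b : ℂ) * I_sq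
      · rintro ⟨a, b, h⟩
        refine ⟨b, -a, ?_⟩
        push_cast
        have h2 : I * (I * z) = I * (a + b * I) := congrArg (fun w => I * w) h
        linear_combination (-1 : ℂ) * h2 + z * I_sq - (b : ℂ) * I_sq
    · have h2 : (I : ℂ) ^ 6 = -1 := by
        have : (I : ℂ) ^ 6 = (I ^ 2) ^ 3 := by ring
        rw [this, I_sq]; norm_num
      rw [h2]
      intro h
      have h3 := congrArg Complex.re h
      norm_num at h3
  show 140 * sqL.G 6 = 0
  rw [h1, mul_zero]

theorem sq_per (v : ℝ) (hv : 0 < v) (hc : (v : ℂ) ≠ 0) : RealPer (scale sqL v hc) v := by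
  refine ⟨hv, ?_, ?_, ?_⟩
  · rw [mem_scale]
    refine ⟨1, ?_, ?_⟩
    · rw [sq_mem]; exact ⟨1, 0, by push_cast; ring⟩
    · rw [mul_one]
  · intro x hx0 hxv hmem
    rw [mem_scale] at hmem
    obtain ⟨w, hw, hxw⟩ := hmem
    rw [sq_mem] at hw
    obtain ⟨a, b, rfl⟩ := hw
    have h1 := congrArg Complex.re hxw
    simp at h1
    have h2 : 0 < (a : ℝ) := by
      by_contra hc1
      push Not at hc1
      have : v * (a : ℝ) ≤ 0 := mul_nonpos_of_nonneg_of_nonpos hv.le hc1
      linarith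
    have h3 : (a : ℝ) < 1 := by
      by_contra hc1
      push Not at hc1
      have : v * 1 ≤ v * (a : ℝ) := mul_le_mul_of_nonneg_left hc1 hv.le
      linarith
    have h4 : (0 : ℤ) < a := by exact_mod_cast h2
    have h5 : a < (1 : ℤ) := by exact_mod_cast h3
    omega
  · intro z hz
    rw [mem_scale] at hz ⊢
    obtain ⟨w, hw, rfl⟩ := hz
    rw [sq_mem] at hw
    obtain ⟨a, b, rfl⟩ := hw
    refine ⟨a + (-b : ℤ) * I, ?_, ?_⟩
    · rw [sq_mem]; exact ⟨a, -b, rfl⟩
    · apply Complex.ext <;> simp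

theorem sq_per2 (v : ℝ) (hv : 0 < v) (hc : (v * (1 - I) : ℂ) ≠ 0) :
    RealPer (scale sqL (v * (1 - I)) hc) (2 * v) := by
  refine ⟨by linarith, ?_, ?_, ?_⟩
  · rw [mem_scale]
    refine ⟨1 + I, ?_, ?_⟩
    · rw [sq_mem]; exact ⟨1, 1, by push_cast; ring⟩
    · push_cast
      linear_combination (v : ℂ) * I_sq
  · intro x hx0 hxv hmem
    rw [mem_scale] at hmem
    obtain ⟨w, hw, hxw⟩ := hmem
    rw [sq_mem] at hw
    obtain ⟨a, b, rfl⟩ := hw
    have h1 := congrArg Complex.re hxw
    have h2 := congrArg Complex.im hxw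
    simp at h1 h2
    have hab : (b : ℝ) = a := by
      have h3 : v * ((b : ℝ) - a) = 0 := by linarith
      rcases mul_eq_zero.1 h3 with h | h
      · exact absurd h hv.ne'
      · linarith
    rw [hab] at h1
    have h3 : 0 < (a : ℝ) := by
      by_contra hc1
      push Not at hc1
      have : v * (a : ℝ) ≤ 0 := mul_nonpos_of_nonneg_of_nonpos hv.le hc1
      linarith
    have h4 : (a : ℝ) < 1 := by
      by_contra hc1
      push Not at hc1
      have : v * 1 ≤ v * (a : ℝ) := mul_le_mul_of_nonneg_left hc1 hv.le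
      linarith
    have h5 : (0 : ℤ) < a := by exact_mod_cast h3
    have h6 : a < (1 : ℤ) := by exact_mod_cast h4
    omega
  · intro z hz
    rw [mem_scale] at hz ⊢
    obtain ⟨w, hw, rfl⟩ := hz
    rw [sq_mem] at hw
    obtain ⟨a, b, rfl⟩ := hw
    refine ⟨b + a * I, ?_, ?_⟩
    · rw [sq_mem]; exact ⟨b, a, rfl⟩
    · apply Complex.ext
      · simp; ring
      · simp; ring

end Pool.Agent.ROH
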