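import Pool.Agent.ROH.LDef

/-!
ROH-LSub (block L). The change of variables `u = p^(-n)`.

PLAN. On `s = (0, ρ/2)`: `p > 1`, `u x = (p x ^ n)⁻¹ ∈ (0, 1)`, `u' = -n p^(-n-1) d > 0`, and
`d = -sqrt (4 p^3 - 4 p^(3-n)) = -2 p^(3/2) sqrt (1 - p^(-n))`. `u` is injective on `s` (`p` is strictly
decreasing, derivative `< 0`), `u '' s = (0, 1)` (from `him`).
`MeasureTheory.integral_image_eq_integral_abs_deriv_smul` with
`g u = u ^ (1/(2n) - 1) * (1 - u) ^ (1/2 - 1)`: `|u' x| * g (u x) = 2 n` for `x ∈ s`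
(`u^(1/(2n)-1) = p^(n - 1/2)`, `(1-u)^(-1/2) = 1/sqrt (1 - p^(-n))`, `|u'| = n p^(-n-1) 2 p^(3/2) sqrt(1-p^(-n))`),
so the integral of `g` over `(0,1)` is `2 n * (ρ/2)`. (`n = 2`, `n = 3` may be treated separately.)
-/

set_option autoImplicit false

namespace Pool.Agent.ROH

open MeasureTheory

private theorem lsub_X {n : ℕ} (hn : 0 < n) {P : ℝ} (hP : 0 < P) :
    (((P ^ n)⁻¹) ^ ((1 : ℝ) / (2 * n) - 1)) ^ 2 = P ^ (2 * n - 1) := by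
  have hn0 : (n : ℝ) ≠ 0 := by exact_mod_cast hn.ne'
  have h1 : (P ^ n)⁻¹ = P ^ (-(n : ℝ)) := by
    rw [Real.rpow_neg hP.le, Real.rpow_natCast]
  rw [h1, ← Real.rpow_mul hP.le, ← Real.rpow_natCast, ← Real.rpow_mul hP.le, ← Real.rpow_natCast]
  congr 1
  rw [Nat.cast_sub (by omega)]
  push_cast
  field_simp
  ring

private theorem lsub_Y {v : ℝ} (hv : 0 < v) : (v ^ ((1 : ℝ) / 2 - 1)) ^ 2 * v = 1 := by
  rw [← Real.rpow_natCast, ← Real.rpow_mul hv.le]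
  have h : v ^ (((1 : ℝ) / 2 - 1) * ((2 : ℕ) : ℝ)) * v = v ^ (((1 : ℝ) / 2 - 1) * ((2 : ℕ) : ℝ)) * v ^ (1 : ℝ) := by
    rw [Real.rpow_one]
  rw [h, ← Real.rpow_add hv]
  norm_num

private theorem lsub_two {n : ℕ} (hn : n = 2 ∨ n = 3) {P d : ℝ} (hP : 1 < P)
    (hd : d ^ 2 = 4 * P ^ 3 - 4 * P ^ (3 - n)) :
    |(-(n * P ^ (n - 1) * d) / (P ^ n) ^ 2)| * (((P ^ n)⁻¹) ^ ((1 : ℝ) / (2 * n) - 1) *
      (1 - (P ^ n)⁻¹) ^ ((1 : ℝ) / 2 - 1)) = 2 * n := by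
  have hP0 : 0 < P := by linarith
  have hn0 : 0 < n := by omega
  have hPn : 1 < P ^ n := one_lt_pow₀ hP hn0.ne'
  have hu0 : 0 < (P ^ n)⁻¹ := by positivity
  have hu1 : 0 < 1 - (P ^ n)⁻¹ := by
    have := inv_lt_one_of_one_lt₀ hPn
    linarith
  have hX := lsub_X hn0 hP0
  have hY := lsub_Y hu1
  have hX0 : 0 < ((P ^ n)⁻¹) ^ ((1 : ℝ) / (2 * n) - 1) := Real.rpow_pos_of_pos hu0 _
  have hY0 : 0 < (1 - (P ^ n)⁻¹) ^ ((1 : ℝ) / 2 - 1) := Real.rpow_pos_of_pos hu1 _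
  generalize ((P ^ n)⁻¹) ^ ((1 : ℝ) / (2 * n) - 1) = X at hX hX0 ⊢
  generalize (1 - (P ^ n)⁻¹) ^ ((1 : ℝ) / 2 - 1) = Y at hY hY0 ⊢
  have hn' : (0 : ℝ) < n := by exact_mod_cast hn0
  refine (pow_left_inj₀ (by positivity) (by positivity) (two_ne_zero)).1 ?_
  rw [mul_pow, mul_pow, sq_abs, hX, div_pow, neg_sq, mul_pow, hd]
  rcases hn with rfl | rfl
  · norm_num at hY ⊢
    have h1 : Y ^ 2 * (P ^ 2 - 1) = P ^ 2 := by
      field_simp at hY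
      linarith
    field_simp
    linear_combination 16 * h1
  · norm_num at hY ⊢
    have h1 : Y ^ 2 * (P ^ 3 - 1) = P ^ 3 := by
      field_simp at hY
      linarith
    field_simp
    linear_combination 36 * h1

theorem half_period {p d : ℝ → ℝ} {ρ : ℝ} {n : ℕ} (hn : n = 2 ∨ n = 3) (hρ : 0 < ρ)
    (hd : ∀ x, 0 < x → x < ρ / 2 → HasDerivAt p (d x) x)
    (hneg : ∀ x, 0 < x → x < ρ / 2 → d x < 0)
    (him : p '' Set.Ioo 0 (ρ / 2) = Set.Ioi 1)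
    (hsq : ∀ x, 0 < x → x < ρ / 2 → d x ^ 2 = 4 * p x ^ 3 - 4 * p x ^ (3 - n)) :
    ρ / 2 = 1 / (2 * n) * ∫ u in Set.Ioo (0 : ℝ) 1,
      u ^ ((1 : ℝ) / (2 * n) - 1) * (1 - u) ^ ((1 : ℝ) / 2 - 1) := by
  have hn0 : 0 < n := by omega
  have hn' : (0 : ℝ) < n := by exact_mod_cast hn0
  have hp1 : ∀ x ∈ Set.Ioo 0 (ρ / 2), 1 < p x := by
    intro x hx
    have : p x ∈ p '' Set.Ioo 0 (ρ / 2) := ⟨x, hx, rfl⟩
    rw [him] at this
    exact this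
  have hanti : StrictAntiOn p (Set.Ioo 0 (ρ / 2)) := by
    refine strictAntiOn_of_deriv_neg (convex_Ioo _ _) ?_ ?_
    · intro x hx
      exact (hd x hx.1 hx.2).continuousAt.continuousWithinAt
    · intro x hx
      rw [interior_Ioo] at hx
      rw [(hd x hx.1 hx.2).deriv]
      exact hneg x hx.1 hx.2
  -- the function `u`
  have hu : ∀ x ∈ Set.Ioo 0 (ρ / 2), HasDerivWithinAt (fun x => (p x ^ n)⁻¹)
      (-(n * p x ^ (n - 1) * d x) / (p x ^ n) ^ 2) (Set.Ioo 0 (ρ / 2)) x := by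
    intro x hx
    have h1 := ((hd x hx.1 hx.2).fun_pow n).fun_inv (pow_ne_zero n (by linarith [hp1 x hx] : p x ≠ 0))
    exact h1.hasDerivWithinAt
  have hinj : Set.InjOn (fun x => (p x ^ n)⁻¹) (Set.Ioo 0 (ρ / 2)) := by
    intro x hx y hy hxy
    have h1 : p x ^ n = p y ^ n := inv_injective hxy
    have h2 : p x = p y := (pow_left_inj₀ (by linarith [hp1 x hx]) (by linarith [hp1 y hy]) hn0.ne').1 h1
    exact hanti.injOn hx hy h2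
  have himg : (fun x => (p x ^ n)⁻¹) '' Set.Ioo 0 (ρ / 2) = Set.Ioo 0 1 := by
    ext y
    constructor
    · rintro ⟨x, hx, rfl⟩
      have h1 := hp1 x hx
      have h2 : 1 < p x ^ n := one_lt_pow₀ h1 hn0.ne'
      exact ⟨by positivity, inv_lt_one_of_one_lt₀ h2⟩
    · rintro ⟨hy0, hy1⟩
      have h1 : 1 < y⁻¹ := (one_lt_inv₀ hy0).2 hy1
      have h2 : (1 : ℝ) < y⁻¹ ^ ((n : ℝ)⁻¹) := Real.one_lt_rpow h1 (by positivity)
      have h3 : y⁻¹ ^ ((n : ℝ)⁻¹) ∈ p '' Set.Ioo 0 (ρ / 2) := by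
        rw [him]
        exact h2
      obtain ⟨x, hx, hxy⟩ := h3
      refine ⟨x, hx, ?_⟩
      show (p x ^ n)⁻¹ = y
      rw [hxy, Real.rpow_inv_natCast_pow (by positivity) hn0.ne', inv_inv]
  have hint := integral_image_eq_integral_abs_deriv_smul (measurableSet_Ioo : MeasurableSet (Set.Ioo 0 (ρ / 2)))
    hu hinj (fun u : ℝ => u ^ ((1 : ℝ) / (2 * n) - 1) * (1 - u) ^ ((1 : ℝ) / 2 - 1))
  rw [himg] at hint
  rw [hint]
  have hcongr : ∫ x in Set.Ioo 0 (ρ / 2), |(-(n * p x ^ (n - 1) * d x) / (p x ^ n) ^ 2)| •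
      (((p x ^ n)⁻¹) ^ ((1 : ℝ) / (2 * n) - 1) * (1 - (p x ^ n)⁻¹) ^ ((1 : ℝ) / 2 - 1)) =
      ∫ x in Set.Ioo 0 (ρ / 2), (2 * n : ℝ) := by
    refine setIntegral_congr_fun measurableSet_Ioo fun x hx => ?_
    exact lsub_two hn (hp1 x hx) (hsq x hx.1 hx.2)
  rw [hcongr, setIntegral_const]
  have hvol : volume.real (Set.Ioo 0 (ρ / 2)) = ρ / 2 := by
    rw [Real.volume_real_Ioo_of_le (by linarith)]
    ring
  rw [hvol, smul_eq_mul]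
  field_simp

end Pool.Agent.ROH
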