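import Pool.Agent.ROH.Ifc
import Pool.Agent.ROH.LFun
import Pool.Agent.ROH.LMono
import Pool.Agent.ROH.LNon
import Pool.Agent.ROH.LSub
import Pool.Agent.ROH.LBeta
import Pool.Agent.ROH.LSq
import Pool.Agent.ROH.LHex

/-!
ROH block L: assembly, `LatticeI` and `LatticeR`.
-/

set_option autoImplicit false

namespace Pool.Agent.ROH

open Complex ComplexConjugate MeasureTheory

theorem period_sq (L : PeriodPair) (ρ : ℝ) (h : RealPer L ρ) (h2 : L.g₂ = 4) (h3 : L.g₃ = 0) :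
    ρ = 1 / 2 * (Real.Gamma (1 / 4) * Real.Gamma (1 / 2) / Real.Gamma (1 / 4 + 1 / 2)) := by
  have hR := realP_of L ρ h
  rw [h2, h3] at hR
  have e2 : (4 : ℂ).re = 4 := by norm_num
  have e3 : (0 : ℂ).re = 0 := by norm_num
  rw [e2, e3] at hR
  obtain ⟨hn, him⟩ := hR.mono (e := 1) (by norm_num)
    (by
      intro y hy
      nlinarith [mul_pos (show (0 : ℝ) < y by linarith) (show (0 : ℝ) < y - 1 by linarith),
        mul_pos (mul_pos (show (0 : ℝ) < y by linarith) (show (0 : ℝ) < y - 1 by linarith))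
          (show (0 : ℝ) < y + 1 by linarith)])
    (by norm_num)
  have hp := half_period (n := 2) (Or.inl rfl) hR.pos
    (fun x hx hx2 => hR.hd x hx (by linarith [hR.pos])) hn him
    (fun x hx hx2 => by
      have := hR.sq x hx (by linarith [hR.pos])
      rw [this]
      norm_num)
  have hb := beta_int (1 / 4) (1 / 2) (by norm_num) (by norm_num)
  have e4 : ((1 : ℝ) / (2 * ((2 : ℕ) : ℝ))) = 1 / 4 := by norm_num
  rw [e4, hb] at hp
  linarith

theorem period_hex (L : PeriodPair) (ρ : ℝ) (h : RealPer L ρ) (h2 : L.g₂ = 0) (h3 : L.g₃ = 4) :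
    ρ = 1 / 3 * (Real.Gamma (1 / 6) * Real.Gamma (1 / 2) / Real.Gamma (1 / 6 + 1 / 2)) := by
  have hR := realP_of L ρ h
  rw [h2, h3] at hR
  have e2 : (4 : ℂ).re = 4 := by norm_num
  have e3 : (0 : ℂ).re = 0 := by norm_num
  rw [e2, e3] at hR
  obtain ⟨hn, him⟩ := hR.mono (e := 1) (by norm_num)
    (by
      intro y hy
      have h1 : 1 < y ^ 3 := by
        have h0 : (0 : ℝ) < y - 1 := by linarith
        nlinarith [mul_pos h0 h0, mul_pos (mul_pos h0 h0) h0]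
      linarith)
    (by norm_num)
  have hp := half_period (n := 3) (Or.inr rfl) hR.pos
    (fun x hx hx2 => hR.hd x hx (by linarith [hR.pos])) hn him
    (fun x hx hx2 => by
      have := hR.sq x hx (by linarith [hR.pos])
      rw [this]
      norm_num)
  have hb := beta_int (1 / 6) (1 / 2) (by norm_num) (by norm_num)
  have e4 : ((1 : ℝ) / (2 * ((3 : ℕ) : ℝ))) = 1 / 6 := by norm_num
  rw [e4, hb] at hp
  linarith

theorem sq_cnj : ∀ z ∈ sqL.lattice, conj z ∈ sqL.lattice := by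
  intro z hz
  rw [sq_mem] at hz ⊢
  obtain ⟨a, b, rfl⟩ := hz
  exact ⟨a, -b, by simp⟩

theorem hex_cnj : ∀ z ∈ hexL.lattice, conj z ∈ hexL.lattice := by
  intro z hz
  rw [hex_mem] at hz ⊢
  obtain ⟨a, b, rfl⟩ := hz
  refine ⟨a - b, -b, ?_⟩
  rw [map_add, map_mul, w3_conj]
  simp
  ring

private theorem alg_mul {a : ℝ} (ha : IsAlgebraic ℚ a) (q : ℚ) : IsAlgebraic ℚ ((q : ℝ) * a) :=
  (isAlgebraic_algebraMap (R := ℚ) (A := ℝ) q).mul ha

theorem latticeI : LatticeI := by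
  obtain ⟨γ, hγ⟩ : ∃ γ : ℝ, sqL.g₂ = (γ : ℂ) := ⟨_, g2_real sqL sq_cnj⟩
  have hne : γ ≠ 0 := by
    intro h0
    have h1 : ((1 : ℝ) : ℂ) ≠ 0 := by norm_num
    have hR := realP_of _ _ (sq_per 1 one_pos h1)
    rw [g2_scale, g3_scale, hγ, h0, sq_g3] at hR
    simp only [Complex.ofReal_zero, mul_zero, Complex.zero_re] at hR
    exact hR.ne
  obtain ⟨a, ha, ha0, haq⟩ := beta_quarter
  rcases lt_or_gt_of_ne hne with hlt | hgt
  · -- negative case
    obtain ⟨v, hv, hv4⟩ : ∃ v : ℝ, 0 < v ∧ v ^ 4 = -γ / 16 := by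
      refine ⟨(-γ / 16) ^ ((1 : ℝ) / 4), Real.rpow_pos_of_pos (by linarith) _, ?_⟩
      rw [← Real.rpow_natCast, ← Real.rpow_mul (by linarith)]
      norm_num
    have hvc : (v : ℂ) ≠ 0 := by exact_mod_cast hv.ne'
    have hI : (1 - I : ℂ) ≠ 0 := by
      intro h
      have := congrArg Complex.re h
      simp at this
    have hc2 : (v * (1 - I) : ℂ) ≠ 0 := mul_ne_zero hvc hI
    have hv4c : (v : ℂ) ^ 4 = -(γ : ℂ) / 16 := by exact_mod_cast hv4
    have hγc : (γ : ℂ) ≠ 0 := by exact_mod_cast hne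
    have hI4 : (1 - I : ℂ) ^ 4 = -4 := by
      have : (1 - I : ℂ) ^ 2 = -2 * I := by
        have := Complex.I_sq
        linear_combination this
      calc (1 - I : ℂ) ^ 4 = ((1 - I) ^ 2) ^ 2 := by ring
        _ = -4 := by rw [this, mul_pow, Complex.I_sq]; norm_num
    have hP := period_sq (scale sqL (v * (1 - I)) hc2) (2 * v) (sq_per2 v hv hc2)
      (by rw [g2_scale, hγ, mul_pow, hI4, hv4c]; field_simp; norm_num)
      (by rw [g3_scale, sq_g3, mul_zero])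
    refine ⟨v, scale sqL v hvc, -16, ((1 / 4 : ℚ) : ℝ) * a, hv, ?_, ?_, ?_, ?_, alg_mul ha _, ?_, ?_⟩
    · simp [scale, sqL]
    · simp [scale, sqL]
    · rw [g2_scale, hγ, hv4c]
      push_cast
      field_simp
    · rw [g3_scale, sq_g3, mul_zero]
    · have : ((1 / 4 : ℚ) : ℝ) ≠ 0 := by norm_num
      exact mul_ne_zero this ha0.ne'
    · rw [haq] at hP
      push_cast
      linarith
  · obtain ⟨v, hv, hv4⟩ : ∃ v : ℝ, 0 < v ∧ v ^ 4 = γ / 4 := by
      refine ⟨(γ / 4) ^ ((1 : ℝ) / 4), Real.rpow_pos_of_pos (by linarith) _, ?_⟩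
      rw [← Real.rpow_natCast, ← Real.rpow_mul (by linarith)]
      norm_num
    have hvc : (v : ℂ) ≠ 0 := by exact_mod_cast hv.ne'
    have hv4c : (v : ℂ) ^ 4 = (γ : ℂ) / 4 := by exact_mod_cast hv4
    have hγc : (γ : ℂ) ≠ 0 := by exact_mod_cast hne
    have hg2 : (scale sqL v hvc).g₂ = 4 := by
      rw [g2_scale, hγ, hv4c]
      field_simp
    have hP := period_sq (scale sqL v hvc) v (sq_per v hv hvc) hg2
      (by rw [g3_scale, sq_g3, mul_zero])
    refine ⟨v, scale sqL v hvc, 4, ((1 / 2 : ℚ) : ℝ) * a, hv, ?_, ?_, ?_, ?_, alg_mul ha _, ?_, ?_⟩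
    · simp [scale, sqL]
    · simp [scale, sqL]
    · rw [hg2]
      norm_num
    · rw [g3_scale, sq_g3, mul_zero]
    · have : ((1 / 2 : ℚ) : ℝ) ≠ 0 := by norm_num
      exact mul_ne_zero this ha0.ne'
    · rw [haq] at hP
      push_cast
      linarith

theorem latticeR : LatticeR := by
  obtain ⟨γ, hγ⟩ : ∃ γ : ℝ, hexL.g₃ = (γ : ℂ) := ⟨_, g3_real hexL hex_cnj⟩
  have hne : γ ≠ 0 := by
    intro h0
    have h1 : ((1 : ℝ) : ℂ) ≠ 0 := by norm_num
    have hR := realP_of _ _ (hex_per 1 one_pos h1)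
    rw [g2_scale, g3_scale, hγ, h0, hex_g2] at hR
    simp only [Complex.ofReal_zero, mul_zero, Complex.zero_re] at hR
    exact hR.ne
  obtain ⟨a, ha, ha0, haq⟩ := beta_sixth
  rcases lt_or_gt_of_ne hne with hlt | hgt
  · obtain ⟨v, hv, hv4⟩ : ∃ v : ℝ, 0 < v ∧ v ^ 6 = -γ / 108 := by
      refine ⟨(-γ / 108) ^ ((1 : ℝ) / 6), Real.rpow_pos_of_pos (by linarith) _, ?_⟩
      rw [← Real.rpow_natCast, ← Real.rpow_mul (by linarith)]
      norm_num
    have hvc : (v : ℂ) ≠ 0 := by exact_mod_cast hv.ne'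
    have hI : (1 - w3 : ℂ) ≠ 0 := by
      intro h
      have h6 := w3_pow6
      rw [h] at h6
      norm_num at h6
    have hc2 : (v * (1 - w3) : ℂ) ≠ 0 := mul_ne_zero hvc hI
    have hv4c : (v : ℂ) ^ 6 = -(γ : ℂ) / 108 := by exact_mod_cast hv4
    have hγc : (γ : ℂ) ≠ 0 := by exact_mod_cast hne
    have hP := period_hex (scale hexL (v * (1 - w3)) hc2) (3 * v) (hex_per2 v hv hc2)
      (by rw [g2_scale, hex_g2, mul_zero])
      (by rw [g3_scale, hγ, mul_pow, w3_pow6, hv4c]; field_simp; norm_num)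
    refine ⟨v, scale hexL v hvc, -108, ((1 / 9 : ℚ) : ℝ) * a, hv, ?_, ?_, ?_, ?_, alg_mul ha _, ?_, ?_⟩
    · simp [scale, hexL]
    · simp [scale, hexL, w3]
    · rw [g2_scale, hex_g2, mul_zero]
    · rw [g3_scale, hγ, hv4c]
      push_cast
      field_simp
    · have : ((1 / 9 : ℚ) : ℝ) ≠ 0 := by norm_num
      exact mul_ne_zero this ha0.ne'
    · rw [haq] at hP
      push_cast
      linarith
  · obtain ⟨v, hv, hv4⟩ : ∃ v : ℝ, 0 < v ∧ v ^ 6 = γ / 4 := by
      refine ⟨(γ / 4) ^ ((1 : ℝ) / 6), Real.rpow_pos_of_pos (by linarith) _, ?_⟩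
      rw [← Real.rpow_natCast, ← Real.rpow_mul (by linarith)]
      norm_num
    have hvc : (v : ℂ) ≠ 0 := by exact_mod_cast hv.ne'
    have hv4c : (v : ℂ) ^ 6 = (γ : ℂ) / 4 := by exact_mod_cast hv4
    have hγc : (γ : ℂ) ≠ 0 := by exact_mod_cast hne
    have hg3 : (scale hexL v hvc).g₃ = 4 := by
      rw [g3_scale, hγ, hv4c]
      field_simp
    have hP := period_hex (scale hexL v hvc) v (hex_per v hv hvc)
      (by rw [g2_scale, hex_g2, mul_zero]) hg3
    refine ⟨v, scale hexL v hvc, 4, ((1 / 3 : ℚ) : ℝ) * a, hv, ?_, ?_, ?_, ?_, alg_mul ha _, ?_, ?_⟩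
    · simp [scale, hexL]
    · simp [scale, hexL, w3]
    · rw [g2_scale, hex_g2, mul_zero]
    · rw [hg3]
      norm_num
    · have : ((1 / 3 : ℚ) : ℝ) ≠ 0 := by norm_num
      exact mul_ne_zero this ha0.ne'
    · rw [haq] at hP
      push_cast
      linarith

end Pool.Agent.ROH
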