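import Pool.Agent.ROH.SDef

/-!
ROH-SBdd: Cauchy estimate.

PLAN. `Complex.norm_iteratedDeriv_le_of_forall_mem_sphere_norm_le` on the unit circle, `s` is bounded there by compactness.
-/

set_option autoImplicit false

namespace Pool.Agent.ROH

theorem tay_bdd (s : ℂ → ℂ) (hs : Differentiable ℂ s) :
    ∃ C₀ : ℝ, 0 ≤ C₀ ∧ ∀ n : ℕ, ‖iteratedDeriv n s 0‖ ≤ C₀ * n.factorial := by
  obtain ⟨C, hC⟩ := (isCompact_sphere (0 : ℂ) 1).exists_bound_of_continuousOn hs.continuous.continuousOn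
  refine ⟨max C 0, le_max_right _ _, fun n => ?_⟩
  have h := Complex.norm_iteratedDeriv_le_of_forall_mem_sphere_norm_le (c := (0 : ℂ)) (R := 1) (C := max C 0)
    (f := s) n one_pos hs.diffContOnCl (fun z hz => (hC z hz).trans (le_max_left _ _))
  simpa [mul_comm] using h

end Pool.Agent.ROH
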