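import Pool.Agent.ROH.SDef

/-!
ROH-SOdeP: the second derivative of the Weierstrass function.

PLAN. `U = L.latticeᶜ` is open and connected (`Set.Countable.isConnected_compl_of_one_lt_rank`). Differentiate
`derivWeierstrassP_sq` (`deriv_weierstrassP`): `2 ℘' ℘'' = (12 ℘^2 - g₂) ℘'` on `U`. So `℘' * (deriv ℘' - 6 ℘^2 + g₂/2) = 0` on `U`; both
factors are analytic on `U` (`analyticOnNhd_derivWeierstrassP`, `.deriv`, `analyticOnNhd_weierstrassP`), so one of them vanishes on `U`
(`AnalyticOnNhd.eq_zero_or_eq_zero_of_mul_eq_zero`, Mathlib/Analysis/Analytic/IsolatedZeros.lean). It is not `℘'`: `z^3 ℘'(z) = z^3 ℘'[L-0](z) - 2`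
tends to `-2` at `0` (`derivWeierstrassPExcept_sub 0`, `analyticAt_derivWeierstrassPExcept 0`).
-/

set_option autoImplicit false

namespace Pool.Agent.ROH

open Complex

open Filter Topology

theorem hasDerivAt_wP (L : PeriodPair) (z : ℂ) (hz : z ∉ L.lattice) :
    HasDerivAt L.weierstrassP (L.derivWeierstrassP z) z := by
  have h1 := (L.analyticOnNhd_weierstrassP z hz).differentiableAt.hasDerivAt
  rwa [L.deriv_weierstrassP] at h1

private theorem so_conn (L : PeriodPair) : IsPreconnected ((L.lattice : Set ℂ)ᶜ) := by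
  have h1 : (L.lattice : Set ℂ).Countable := by
    have : Countable L.lattice := by
      have e := L.latticeEquivProd
      exact e.toEquiv.countable_iff.2 inferInstance
    exact Set.countable_coe_iff.1 this
  refine (Set.Countable.isConnected_compl_of_one_lt_rank ?_ h1).isPreconnected
  rw [Complex.rank_real_complex]
  exact Nat.one_lt_ofNat

private theorem so_ne (L : PeriodPair) : ¬ ∀ z ∈ ((L.lattice : Set ℂ)ᶜ), L.derivWeierstrassP z = 0 := by
  intro h
  have h1 : ContinuousAt (fun z => z ^ 3 * L.derivWeierstrassPExcept 0 z) 0 :=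
    (continuousAt_id.pow 3).mul (L.analyticAt_derivWeierstrassPExcept 0).continuousAt
  have h2 : Tendsto (fun z => z ^ 3 * L.derivWeierstrassPExcept 0 z) (𝓝[≠] 0) (𝓝 0) := by
    have h3 := h1.tendsto.mono_left (nhdsWithin_le_nhds (s := {0}ᶜ))
    simpa using h3
  have h4 : ∀ᶠ z in 𝓝[≠] (0 : ℂ), z ^ 3 * L.derivWeierstrassPExcept 0 z = 2 := by
    have h5 : ∀ᶠ z in 𝓝[≠] (0 : ℂ), z ∈ ((L.lattice : Set ℂ) \ {0})ᶜ :=
      mem_nhdsWithin_of_mem_nhds (L.compl_lattice_sdiff_singleton_mem_nhds 0)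
    filter_upwards [h5, self_mem_nhdsWithin] with z hz hz0
    have hz0' : z ≠ 0 := hz0
    have hz1 : z ∉ L.lattice := fun h6 => hz ⟨h6, hz0'⟩
    have h7 := L.derivWeierstrassPExcept_def 0 z
    rw [h z hz1] at h7
    simp only [ZeroMemClass.coe_zero, sub_zero, zero_add] at h7
    rw [h7]
    field_simp
  have h5 : Tendsto (fun z => z ^ 3 * L.derivWeierstrassPExcept 0 z) (𝓝[≠] 0) (𝓝 2) :=
    (tendsto_congr' h4).2 tendsto_const_nhds
  have h6 := tendsto_nhds_unique h2 h5
  norm_num at h6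

theorem hasDerivAt_wP' (L : PeriodPair) (z : ℂ) (hz : z ∉ L.lattice) :
    HasDerivAt L.derivWeierstrassP (6 * L.weierstrassP z ^ 2 - L.g₂ / 2) z := by
  have hopen : IsOpen ((L.lattice : Set ℂ)ᶜ) := L.isClosed_lattice.isOpen_compl
  have hP' := L.analyticOnNhd_derivWeierstrassP
  have hP := L.analyticOnNhd_weierstrassP
  have hg : AnalyticOnNhd ℂ (fun z => deriv L.derivWeierstrassP z - (6 * L.weierstrassP z ^ 2 - L.g₂ / 2))
      ((L.lattice : Set ℂ)ᶜ) :=
    hP'.deriv.sub ((analyticOnNhd_const.mul (hP.pow 2)).sub analyticOnNhd_const)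
  have hprod : ∀ z ∈ ((L.lattice : Set ℂ)ᶜ), L.derivWeierstrassP z *
      (deriv L.derivWeierstrassP z - (6 * L.weierstrassP z ^ 2 - L.g₂ / 2)) = 0 := by
    intro z hz
    have h1 : HasDerivAt (fun z => L.derivWeierstrassP z ^ 2)
        (2 * L.derivWeierstrassP z * deriv L.derivWeierstrassP z) z := by
      have h2 := (hP' z hz).differentiableAt.hasDerivAt.pow 2
      refine h2.congr_deriv ?_
      simp
    have h3 : HasDerivAt (fun z => 4 * L.weierstrassP z ^ 3 - L.g₂ * L.weierstrassP z - L.g₃)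
        (12 * L.weierstrassP z ^ 2 * L.derivWeierstrassP z - L.g₂ * L.derivWeierstrassP z) z := by
      have h4 := hasDerivAt_wP L z hz
      have h5 := (((h4.pow 3).const_mul 4).sub (h4.const_mul L.g₂)).sub_const L.g₃
      refine h5.congr_deriv ?_
      simp
      ring
    have h6 : (fun z => L.derivWeierstrassP z ^ 2) =ᶠ[𝓝 z]
        fun z => 4 * L.weierstrassP z ^ 3 - L.g₂ * L.weierstrassP z - L.g₃ := by
      filter_upwards [hopen.mem_nhds hz] with w hw
      exact L.derivWeierstrassP_sq w hw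
    have h7 := (h3.congr_of_eventuallyEq h6).unique h1
    linear_combination -(1 / 2 : ℂ) * h7
  rcases hP'.eq_zero_or_eq_zero_of_mul_eq_zero hg hprod (so_conn L) with h | h
  · exact absurd h (so_ne L)
  · have h1 := (hP' z hz).differentiableAt.hasDerivAt
    have h2 : deriv L.derivWeierstrassP z = 6 * L.weierstrassP z ^ 2 - L.g₂ / 2 := sub_eq_zero.1 (h z hz)
    rwa [h2] at h1

end Pool.Agent.ROH
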