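import Pool.Agent.ROH.SSig
import Pool.Agent.ROH.SOdeP

/-!
ROH-SOde: the bilinear differential equation of the sigma function.

PLAN. On the open set `U = L.latticeᶜ` put `Z = logDeriv (sg L)`, `P = ℘`, `P'`. Then (derivatives on `U`, open, so
`iteratedDeriv` can be computed step by step with `Filter.EventuallyEq.deriv_eq`)
`s' = Z s`, `s'' = (Z^2 - P) s`, `s''' = (Z^3 - 3 Z P - P') s`, `s'''' = (Z^4 - 6 Z^2 P - 4 Z P' + 3 P^2 - P'') s`,
`P'' = 6 P^2 - g₂/2`, and `s s'''' - 4 s' s''' + 3 s''^2 - (g₂/2) s^2 = (6 P^2 - P'' - g₂/2) s^2 = 0` (ring). Outside `U`: both sides are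
continuous functions of `z` (`sg L` is entire, so `iteratedDeriv` is) and `U` is dense.
-/

set_option autoImplicit false

namespace Pool.Agent.ROH

open Complex

private theorem sode_iter {U : Set ℂ} (hU : IsOpen U) (f : ℂ → ℂ) (g : ℕ → ℂ → ℂ) (N : ℕ)
    (h0 : ∀ z ∈ U, f z = g 0 z) (h : ∀ i, i < N → ∀ z ∈ U, HasDerivAt (g i) (g (i + 1) z) z) (i : ℕ)
    (hi : i ≤ N) : ∀ z ∈ U, iteratedDeriv i f z = g i z := by
  induction i with
  | zero =>
    intro z hz
    rw [iteratedDeriv_zero]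
    exact h0 z hz
  | succ i ih =>
    intro z hz
    rw [iteratedDeriv_succ]
    have h1 : iteratedDeriv i f =ᶠ[nhds z] g i := by
      filter_upwards [hU.mem_nhds hz] with w hw
      exact ih (by omega) w hw
    rw [h1.deriv_eq]
    exact (h i (by omega) z hz).deriv

theorem sg_ode (L : PeriodPair) (z : ℂ) :
    sg L z * iteratedDeriv 4 (sg L) z - 4 * iteratedDeriv 1 (sg L) z * iteratedDeriv 3 (sg L) z +
      3 * iteratedDeriv 2 (sg L) z ^ 2 = L.g₂ / 2 * sg L z ^ 2 := by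
  have hU : IsOpen ((L.lattice : Set ℂ)ᶜ) := (PeriodPair.isClosed_lattice (L := L)).isOpen_compl
  have hdiff := differentiable_sg L
  have hs : ∀ w ∈ (L.lattice : Set ℂ)ᶜ, HasDerivAt (sg L) (logDeriv (sg L) w * sg L w) w := by
    intro w hw
    have h1 : logDeriv (sg L) w * sg L w = deriv (sg L) w := by
      rw [logDeriv_apply, div_mul_cancel₀ _ (sg_ne L w hw)]
    rw [h1]
    exact (hdiff w).hasDerivAt
  have hZ : ∀ w ∈ (L.lattice : Set ℂ)ᶜ, HasDerivAt (logDeriv (sg L)) (-(L.weierstrassP w)) w :=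
    fun w hw => hasDerivAt_logDeriv_sg L w hw
  have hP : ∀ w ∈ (L.lattice : Set ℂ)ᶜ, HasDerivAt L.weierstrassP (L.derivWeierstrassP w) w :=
    fun w hw => hasDerivAt_wP L w hw
  have hP' : ∀ w ∈ (L.lattice : Set ℂ)ᶜ,
      HasDerivAt L.derivWeierstrassP (6 * L.weierstrassP w ^ 2 - L.g₂ / 2) w :=
    fun w hw => hasDerivAt_wP' L w hw
  obtain ⟨s, hsdef⟩ : ∃ s, s = sg L := ⟨_, rfl⟩
  obtain ⟨Z, hZdef⟩ : ∃ Z, Z = logDeriv (sg L) := ⟨_, rfl⟩
  obtain ⟨P, hPdef⟩ : ∃ P, P = L.weierstrassP := ⟨_, rfl⟩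
  obtain ⟨P', hP'def⟩ : ∃ P', P' = L.derivWeierstrassP := ⟨_, rfl⟩
  rw [← hZdef, ← hsdef] at hs
  rw [← hZdef, ← hPdef] at hZ
  rw [← hPdef, ← hP'def] at hP
  rw [← hPdef, ← hP'def] at hP'
  rw [← hsdef] at hdiff ⊢
  let g : ℕ → ℂ → ℂ := fun i => match i with
    | 0 => s
    | 1 => fun w => Z w * s w
    | 2 => fun w => (Z w ^ 2 - P w) * s w
    | 3 => fun w => (Z w ^ 3 - 3 * Z w * P w - P' w) * s w
    | _ => fun w => (Z w ^ 4 - 6 * Z w ^ 2 * P w - 4 * Z w * P' w + 3 * P w ^ 2 -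
      (6 * P w ^ 2 - L.g₂ / 2)) * s w
  have hg : ∀ i, i < 4 → ∀ w ∈ (L.lattice : Set ℂ)ᶜ, HasDerivAt (g i) (g (i + 1) w) w := by
    intro i hi w hw
    have e1 := hs w hw
    have e2 := hZ w hw
    have e3 := hP w hw
    have e4 := hP' w hw
    interval_cases i
    · exact e1
    · have := e2.mul e1
      refine this.congr_deriv ?_
      show -P w * s w + Z w * (Z w * s w) = (Z w ^ 2 - P w) * s w
      ring
    · have := ((e2.pow 2).sub e3).mul e1
      refine this.congr_deriv ?_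
      show _ = (Z w ^ 3 - 3 * Z w * P w - P' w) * s w
      simp only [Pi.sub_apply, Pi.pow_apply]
      push_cast
      ring
    · have := (((e2.pow 3).sub ((e2.const_mul 3).mul e3)).sub e4).mul e1
      refine this.congr_deriv ?_
      show _ = (Z w ^ 4 - 6 * Z w ^ 2 * P w - 4 * Z w * P' w + 3 * P w ^ 2 -
        (6 * P w ^ 2 - L.g₂ / 2)) * s w
      simp only [Pi.sub_apply, Pi.pow_apply, Pi.mul_apply]
      push_cast
      ring
  have hit := sode_iter hU s g 4 (fun w _ => rfl) hg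
  have hon : Set.EqOn (fun z => s z * iteratedDeriv 4 s z - 4 * iteratedDeriv 1 s z *
      iteratedDeriv 3 s z + 3 * iteratedDeriv 2 s z ^ 2) (fun z => L.g₂ / 2 * s z ^ 2)
      ((L.lattice : Set ℂ)ᶜ) := by
    intro w hw
    have i1 := hit 1 (by norm_num) w hw
    have i2 := hit 2 (by norm_num) w hw
    have i3 := hit 3 (by norm_num) w hw
    have i4 := hit 4 (by norm_num) w hw
    show s w * iteratedDeriv 4 s w - 4 * iteratedDeriv 1 s w *
      iteratedDeriv 3 s w + 3 * iteratedDeriv 2 s w ^ 2 = L.g₂ / 2 * s w ^ 2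
    rw [i1, i2, i3, i4]
    show s w * ((Z w ^ 4 - 6 * Z w ^ 2 * P w - 4 * Z w * P' w + 3 * P w ^ 2 -
      (6 * P w ^ 2 - L.g₂ / 2)) * s w) - 4 * (Z w * s w) *
      ((Z w ^ 3 - 3 * Z w * P w - P' w) * s w) + 3 * ((Z w ^ 2 - P w) * s w) ^ 2 =
      L.g₂ / 2 * s w ^ 2
    ring
  have hcd : ContDiff ℂ ⊤ s := hdiff.contDiff
  have hc : ∀ m : ℕ, Continuous (iteratedDeriv m s) := fun m =>
    hcd.continuous_iteratedDeriv m (by exact_mod_cast le_top)
  have hdense : Dense ((L.lattice : Set ℂ)ᶜ) := by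
    have hcount : (L.lattice : Set ℂ).Countable := by
      have : Countable L.lattice := inferInstance
      exact Set.countable_coe_iff.1 this
    exact hcount.dense_compl ℝ
  have hfin := Continuous.ext_on hdense
    (((hdiff.continuous.mul (hc 4)).sub ((continuous_const.mul (hc 1)).mul (hc 3))).add
      (continuous_const.mul ((hc 2).pow 2))) (continuous_const.mul (hdiff.continuous.pow 2)) hon
  exact congrFun hfin z

end Pool.Agent.ROH
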