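import Pool.Agent.ROH.SPerA
import Pool.Agent.ROH.SPerB

/-!
ROH-SQP: the quasi-periods of a function with a symmetry (assembly).
-/

set_option autoImplicit false

namespace Pool.Agent.ROH

open Complex ComplexConjugate

theorem qp_of (s : ℂ → ℂ) (hs : Differentiable ℂ s) (h0 : s 0 = 0) (hne : ∃ z, s z ≠ 0) (τ : ℂ) (hτ : ‖τ‖ = 1)
    (hi : 0 < τ.im) (hodd : ∀ z, s (-z) = -s z) (hrot : ∀ z, s (τ * z) = τ * s z)
    (hper : ∀ a b : ℤ, ∃ α c : ℂ, c ≠ 0 ∧ ∀ z, s (z + (a + b * τ)) = c * cexp (α * z) * s z) :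
    ∃ n : ℕ, 0 < n ∧ QP s (n * (Real.pi / τ.im)) τ := by
  obtain ⟨n, hn⟩ := per_of s hs hne τ hτ hi hodd hrot hper
  have hk := kpos_of s hs h0 hne (n * (Real.pi / τ.im)) τ hi hn
  have hpi : 0 < Real.pi / τ.im := div_pos Real.pi_pos hi
  have hn0 : (0 : ℝ) < n := pos_of_mul_pos_left hk hpi.le
  have hn1 : 0 < n := by exact_mod_cast hn0
  obtain ⟨m, rfl⟩ : ∃ m : ℕ, n = m := ⟨n.toNat, (Int.toNat_of_nonneg hn1.le).symm⟩
  refine ⟨m, by exact_mod_cast hn1, hs, ?_, hne, ?_⟩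
  · exact_mod_cast hk
  · intro a b
    obtain ⟨e, he, h⟩ := hn a b
    refine ⟨e, he, fun z => ?_⟩
    have := h z
    push_cast at this ⊢
    exact this

end Pool.Agent.ROH
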