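import Pool.Agent.ROH.SDef

/-!
ROH-SRatB: denominators, size.

PLAN. `fcD q m ≤ q * (m + 6)` (`m ≥ 1`), so `log (cmD q N) ≤ ∑_{m = 1}^N (N / m) (log q + log (N + 6)) ≤ N (1 + log N) (log q + log (N + 6))`
(`harmonic_le_one_add_log` for the harmonic sum), `log N! ≤ N log N`, and `1 ≤ 2 log (N + 2)`, `log (N + 6) ≤ 4 log (N + 2)`. `fcD q m > 0` for
`q > 0` also at `m = 6`.
-/

set_option autoImplicit false

namespace Pool.Agent.ROH

open Finset

private theorem fcD_pos (q : ℕ) (hq : 0 < q) (m : ℕ) : 0 < fcD q m := by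
  unfold fcD
  split_ifs with h
  · exact hq
  · refine Nat.mul_pos hq (Int.natAbs_pos.mpr ?_)
    intro h1
    apply h
    have h2 : (m : ℤ) = 6 := by linarith
    exact_mod_cast h2

theorem cmD_pos (q : ℕ) (hq : 0 < q) (k : ℕ) : 0 < cmD q k := by
  unfold cmD
  exact Finset.prod_pos fun m _ => pow_pos (fcD_pos q hq m) _

theorem cmD_mono (q : ℕ) (k N : ℕ) (h : k ≤ N) : cmD q k ∣ cmD q N := by
  unfold cmD
  refine dvd_trans (Finset.prod_dvd_prod_of_dvd _ (fun m => fcD q m ^ (N / m)) fun m _ =>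
    pow_dvd_pow _ (Nat.div_le_div_right h)) ?_
  exact Finset.prod_dvd_prod_of_subset _ _ _ (Finset.Icc_subset_Icc_right h)

theorem cmD_le (q : ℕ) (hq : 0 < q) : ∃ C : ℝ, 0 ≤ C ∧ ∀ N : ℕ,
    ((cmD q N * N.factorial : ℕ) : ℝ) ≤ Real.exp (C * (N + 1) * Real.log (N + 2) ^ 2) := by
  have hq1 : (1 : ℝ) ≤ q := by exact_mod_cast hq
  have hlq : 0 ≤ Real.log q := Real.log_nonneg hq1
  refine ⟨6 * Real.log q + 14, by positivity, fun N => ?_⟩
  have hpos : (0 : ℝ) < ((cmD q N * N.factorial : ℕ) : ℝ) := by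
    exact_mod_cast Nat.mul_pos (cmD_pos q hq N) N.factorial_pos
  rw [← Real.log_le_iff_le_exp hpos]
  have hN0 : (0 : ℝ) ≤ N := Nat.cast_nonneg N
  obtain ⟨L, hL⟩ : ∃ L, L = Real.log ((N : ℝ) + 2) := ⟨_, rfl⟩
  rw [← hL]
  have hL2 : 1 ≤ 2 * L := by
    have h1 : Real.log 2 ≤ L := by
      rw [hL]
      exact Real.log_le_log (by norm_num) (by linarith)
    have h2 := Real.log_two_gt_d9
    linarith
  have hL0 : 0 ≤ L := by linarith
  have hlogN : Real.log N ≤ L := by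
    rcases Nat.eq_zero_or_pos N with h | h
    · subst h
      simpa using hL0
    · rw [hL]
      exact Real.log_le_log (by exact_mod_cast h) (by linarith)
  have hlog6 : Real.log ((N : ℝ) + 6) ≤ 3 * L := by
    have h1 : Real.log ((N : ℝ) + 6) ≤ Real.log (((N : ℝ) + 2) ^ 3) := by
      refine Real.log_le_log (by linarith) ?_
      nlinarith [mul_nonneg hN0 hN0, mul_nonneg hN0 (mul_nonneg hN0 hN0)]
    rw [Real.log_pow, ← hL] at h1
    exact_mod_cast h1
  have hfc : ∀ m ∈ Finset.Icc 1 N, Real.log (fcD q m : ℝ) ≤ Real.log q + 3 * L := by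
    intro m hm
    obtain ⟨hm1, hm2⟩ := Finset.mem_Icc.mp hm
    have h2 : (0 : ℝ) < fcD q m := by exact_mod_cast fcD_pos q hq m
    have h1 : fcD q m ≤ q * (N + 6) := by
      unfold fcD
      split_ifs with h
      · exact Nat.le_mul_of_pos_right _ (by omega)
      · exact Nat.mul_le_mul_left _ (by omega)
    have h3 : (fcD q m : ℝ) ≤ q * ((N : ℝ) + 6) := by exact_mod_cast h1
    calc Real.log (fcD q m : ℝ) ≤ Real.log (q * ((N : ℝ) + 6)) := Real.log_le_log h2 h3
      _ = Real.log q + Real.log ((N : ℝ) + 6) := by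
          rw [Real.log_mul (by linarith) (by linarith)]
      _ ≤ Real.log q + 3 * L := by linarith
  have hsum : ∑ m ∈ Finset.Icc 1 N, (((N / m : ℕ) : ℝ)) ≤ 3 * N * L := by
    have h1 : ∑ m ∈ Finset.Icc 1 N, (((N / m : ℕ) : ℝ)) ≤ N * ((harmonic N : ℚ) : ℝ) := by
      rw [harmonic_eq_sum_Icc]
      push_cast
      rw [Finset.mul_sum]
      refine Finset.sum_le_sum fun m _ => ?_
      refine Nat.cast_div_le.trans (le_of_eq ?_)
      rw [div_eq_mul_inv]
    have h2 := harmonic_le_one_add_log N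
    calc _ ≤ (N : ℝ) * ((harmonic N : ℚ) : ℝ) := h1
      _ ≤ (N : ℝ) * (1 + Real.log N) := mul_le_mul_of_nonneg_left h2 hN0
      _ ≤ (N : ℝ) * (3 * L) := mul_le_mul_of_nonneg_left (by linarith) hN0
      _ = 3 * N * L := by ring
  have hcm : Real.log (cmD q N : ℝ) ≤ 3 * N * L * (Real.log q + 3 * L) := by
    unfold cmD
    rw [Nat.cast_prod, Real.log_prod (fun m _ => by
      have := fcD_pos q hq m
      exact_mod_cast (pow_pos this _).ne')]
    calc ∑ m ∈ Finset.Icc 1 N, Real.log ((fcD q m ^ (N / m) : ℕ) : ℝ)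
        ≤ ∑ m ∈ Finset.Icc 1 N, (((N / m : ℕ) : ℝ)) * (Real.log q + 3 * L) := by
          refine Finset.sum_le_sum fun m hm => ?_
          rw [Nat.cast_pow, Real.log_pow]
          exact mul_le_mul_of_nonneg_left (hfc m hm) (Nat.cast_nonneg _)
      _ = (∑ m ∈ Finset.Icc 1 N, (((N / m : ℕ) : ℝ))) * (Real.log q + 3 * L) := by
          rw [Finset.sum_mul]
      _ ≤ 3 * N * L * (Real.log q + 3 * L) :=
          mul_le_mul_of_nonneg_right hsum (by positivity)
  have hfac : Real.log (N.factorial : ℝ) ≤ N * L := by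
    have h1 : (N.factorial : ℝ) ≤ (N : ℝ) ^ N := by exact_mod_cast Nat.factorial_le_pow N
    have h2 : (0 : ℝ) < N.factorial := by exact_mod_cast N.factorial_pos
    calc Real.log (N.factorial : ℝ) ≤ Real.log ((N : ℝ) ^ N) := Real.log_le_log h2 h1
      _ = N * Real.log N := by rw [Real.log_pow]
      _ ≤ N * L := mul_le_mul_of_nonneg_left hlogN hN0
  have hc0 : ((cmD q N : ℕ) : ℝ) ≠ 0 := by
    have := cmD_pos q hq N
    exact_mod_cast this.ne'
  have hf0 : ((N.factorial : ℕ) : ℝ) ≠ 0 := by exact_mod_cast N.factorial_ne_zero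
  rw [Nat.cast_mul, Real.log_mul hc0 hf0]
  have hNL : 0 ≤ N * L := mul_nonneg hN0 hL0
  have e1 : 0 ≤ N * L * Real.log q := mul_nonneg hNL hlq
  have e2 : N * L * Real.log q * 1 ≤ N * L * Real.log q * (2 * L) :=
    mul_le_mul_of_nonneg_left hL2 e1
  have e3 : N * L * 1 ≤ N * L * (2 * L) := mul_le_mul_of_nonneg_left hL2 hNL
  have e4 : 0 ≤ L ^ 2 := sq_nonneg L
  nlinarith [mul_nonneg hlq e4, mul_nonneg hN0 e4]

end Pool.Agent.ROH
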