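import Pool.Agent.ROH.SRatA
import Pool.Agent.ROH.SRatB

/-!
ROH-SRatC: rational Taylor coefficients.

PLAN. `q` = product of the denominators of `G` and `r`. By `inZ_rec` every `d n` is `a / cmD q (n - 1)`, so `t n := d n / n!` is rational;
`D := cmD q N * N!`. `hB` gives the bound of the coefficients: `‖d n‖ ≤ C n!`.
-/

set_option autoImplicit false

namespace Pool.Agent.ROH

open Complex Finset

private theorem inZ_rat (q : ℕ) (x : ℚ) (h : x.den ∣ q) : InZ q (x : ℂ) := by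
  obtain ⟨c, rfl⟩ := h
  refine ⟨c * x.num, ?_⟩
  have h1 : ((x.den : ℚ) * x) = x.num := Rat.den_mul_eq_num x
  have h2 : ((x.den : ℂ) * (x : ℂ)) = (x.num : ℂ) := by exact_mod_cast congrArg (fun y : ℚ => (y : ℂ)) h1
  push_cast
  rw [mul_comm (x.den : ℂ) (c : ℂ), mul_assoc, h2]

theorem ratTay_of (s : ℂ → ℂ) (G r : ℚ) (C₀ : ℝ) (hB : ∀ n : ℕ, ‖iteratedDeriv n s 0‖ ≤ C₀ * n.factorial)
    (h0 : iteratedDeriv 0 s 0 = 0) (h1 : iteratedDeriv 1 s 0 = 1) (h2 : iteratedDeriv 2 s 0 = 0)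
    (h7 : iteratedDeriv 7 s 0 = (r : ℂ))
    (hrec : ∀ N : ℕ, ∑ i ∈ range (N + 1), (N.choose i : ℂ) *
      (iteratedDeriv i s 0 * iteratedDeriv (N - i + 4) s 0 -
        4 * (iteratedDeriv (i + 1) s 0 * iteratedDeriv (N - i + 3) s 0) +
        3 * (iteratedDeriv (i + 2) s 0 * iteratedDeriv (N - i + 2) s 0)) =
      (G : ℂ) * ∑ i ∈ range (N + 1), (N.choose i : ℂ) * (iteratedDeriv i s 0 * iteratedDeriv (N - i) s 0)) :
    RatTay s := by
  obtain ⟨q, hq⟩ : ∃ q : ℕ, q = G.den * r.den := ⟨_, rfl⟩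
  have hq0 : 0 < q := by
    rw [hq]
    exact Nat.mul_pos G.den_pos r.den_pos
  have hG : InZ q (G : ℂ) := inZ_rat q G (by rw [hq]; exact Dvd.intro _ rfl)
  have hr : InZ q (iteratedDeriv 7 s 0) := by
    rw [h7]
    exact inZ_rat q r (by rw [hq]; exact Dvd.intro_left _ rfl)
  have hk := inZ_rec (fun n => iteratedDeriv n s 0) (G : ℂ) q hG hr h0 h1 h2 hrec
  have key : ∀ n : ℕ, ∃ t : ℚ, iteratedDeriv n s 0 = (n.factorial : ℂ) * (t : ℂ) ∧
      ∀ N, n ≤ N → ∃ a : ℤ, ((cmD q N * N.factorial : ℕ) : ℚ) * t = a := by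
    intro n
    cases n with
    | zero =>
      refine ⟨0, ?_, ?_⟩
      · rw [h0]
        simp
      · intro N _
        exact ⟨0, by simp⟩
    | succ k =>
      obtain ⟨a, ha⟩ := hk k
      have hc : (cmD q k : ℂ) ≠ 0 := Nat.cast_ne_zero.2 (cmD_pos q hq0 k).ne'
      have hc2 : (cmD q k : ℚ) ≠ 0 := Nat.cast_ne_zero.2 (cmD_pos q hq0 k).ne'
      have hf : ((k + 1).factorial : ℂ) ≠ 0 := Nat.cast_ne_zero.2 (Nat.factorial_ne_zero _)
      have hf2 : ((k + 1).factorial : ℚ) ≠ 0 := Nat.cast_ne_zero.2 (Nat.factorial_ne_zero _)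
      refine ⟨(a : ℚ) / (cmD q k * (k + 1).factorial), ?_, ?_⟩
      · push_cast
        rw [← ha]
        show _ = ((k + 1).factorial : ℂ) * (((cmD q k : ℂ) * iteratedDeriv (k + 1) s 0) / ((cmD q k : ℂ) *
          ((k + 1).factorial : ℂ)))
        field_simp
      · intro N hN
        obtain ⟨c, hc3⟩ := cmD_mono q k N (by omega)
        obtain ⟨e, he⟩ := Nat.factorial_dvd_factorial hN
        refine ⟨(c : ℤ) * e * a, ?_⟩
        rw [hc3, he]
        push_cast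
        field_simp
  choose t ht1 ht2 using key
  obtain ⟨C1, hC1, hC2⟩ := cmD_le q hq0
  refine ⟨t, ht1, C1 + |C₀|, by positivity, ?_, ?_⟩
  · intro n
    have h3 := hB n
    rw [ht1 n, norm_mul, Complex.norm_natCast] at h3
    have h4 : ‖((t n : ℚ) : ℂ)‖ = |((t n : ℚ) : ℝ)| := by
      have h5 : ((t n : ℚ) : ℂ) = (((t n : ℚ) : ℝ) : ℂ) := by push_cast; rfl
      rw [h5, Complex.norm_real, Real.norm_eq_abs]
    rw [h4, mul_comm C₀] at h3
    have h5 : (0 : ℝ) < (n.factorial : ℝ) := Nat.cast_pos.2 (Nat.factorial_pos n)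
    have h6 := le_of_mul_le_mul_left h3 h5
    have h7 := le_abs_self C₀
    linarith
  · intro N
    refine ⟨cmD q N * N.factorial, Nat.mul_pos (cmD_pos q hq0 N) (Nat.factorial_pos N), ?_, ?_⟩
    · refine (hC2 N).trans (Real.exp_le_exp.2 ?_)
      refine mul_le_mul_of_nonneg_right ?_ (sq_nonneg _)
      refine mul_le_mul_of_nonneg_right ?_ (by positivity)
      have := abs_nonneg C₀
      linarith
    · intro n hn
      exact ht2 n N hn

end Pool.Agent.ROH
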