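import Pool.Agent.ROH.SDef

/-!
ROH-SRot: symmetries of the lattice.

The product is reindexed by the symmetry.
-/

set_option autoImplicit false

namespace Pool.Agent.ROH

open Complex

theorem sg_rot (L : PeriodPair) (u : ℂ) (hu : u ≠ 0) (h : ∀ l : ℂ, l ∈ L.lattice ↔ u * l ∈ L.lattice) (z : ℂ) :
    sg L (u * z) = u * sg L z := by
  have hm : ∀ l : ℂ, l ∈ L.lattice → u⁻¹ * l ∈ L.lattice := fun l hl => (h _).2 (by
    rw [mul_inv_cancel_left₀ hu]
    exact hl)
  let e : L.lattice ≃ L.lattice :=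
    { toFun := fun l => ⟨u * l.1, (h l.1).1 l.2⟩
      invFun := fun l => ⟨u⁻¹ * l.1, hm l.1 l.2⟩
      left_inv := fun l => Subtype.ext (inv_mul_cancel_left₀ hu l.1)
      right_inv := fun l => Subtype.ext (mul_inv_cancel_left₀ hu l.1) }
  have h1 : sgP L (u * z) = sgP L z := by
    unfold sgP
    rw [← Equiv.tprod_eq e]
    refine tprod_congr fun l => ?_
    have h2 : u * z / ((e l : L.lattice) : ℂ) = z / (l : ℂ) := mul_div_mul_left z l.1 hu
    rw [h2]
  unfold sg
  rw [h1, mul_assoc]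

theorem sg_neg (L : PeriodPair) (z : ℂ) : sg L (-z) = -sg L z := by
  have h1 := sg_rot L (-1) (by norm_num) (fun l => by rw [neg_one_mul, neg_mem_iff]) z
  rw [neg_one_mul, neg_one_mul] at h1
  exact h1

end Pool.Agent.ROH
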