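import Pool.Agent.ROH.SDef

/-!
ROH-STayA: the recursion for the Taylor coefficients.

PLAN. Apply `iteratedDeriv N · 0` to the equation and use the Leibniz rule `iteratedDeriv_fun_mul` (smoothness: `s` is entire,
`Differentiable.contDiff`), and `iteratedDeriv N (iteratedDeriv k s) = iteratedDeriv (N + k) s` (`iteratedDeriv_eq_iterate`).
-/

set_option autoImplicit false

namespace Pool.Agent.ROH

open Complex Finset

private theorem STayA_comp (s : ℂ → ℂ) (n k : ℕ) :
    iteratedDeriv n (fun z => iteratedDeriv k s z) = iteratedDeriv (k + n) s := by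
  change iteratedDeriv n (iteratedDeriv k s) = _
  rw [iteratedDeriv_eq_iterate, iteratedDeriv_eq_iterate, iteratedDeriv_eq_iterate,
    ← Function.iterate_add_apply, Nat.add_comm]

private theorem STayA_cd (s : ℂ → ℂ) (hs : Differentiable ℂ s) (k n : ℕ) :
    ContDiffAt ℂ n (fun z => iteratedDeriv k s z) 0 := by
  have h1 : ContDiff ℂ ((n + k : ℕ) : WithTop ℕ∞) s := hs.contDiff
  have h2 : ContDiff ℂ n (iteratedDeriv k s) := by
    rw [iteratedDeriv_eq_iterate]
    exact ContDiff.iterate_deriv' n k (by exact_mod_cast h1)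
  exact h2.contDiffAt

private theorem STayA_mul (s : ℂ → ℂ) (hs : Differentiable ℂ s) (a b N : ℕ) :
    iteratedDeriv N (fun z => iteratedDeriv a s z * iteratedDeriv b s z) 0 =
      ∑ i ∈ range (N + 1), (N.choose i : ℂ) *
        (iteratedDeriv (a + i) s 0 * iteratedDeriv (b + (N - i)) s 0) := by
  have h := iteratedDeriv_mul (STayA_cd s hs a N) (STayA_cd s hs b N)
  change iteratedDeriv N ((fun z => iteratedDeriv a s z) * (fun z => iteratedDeriv b s z)) 0 = _
  rw [h]
  refine Finset.sum_congr rfl fun i _ => ?_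
  rw [STayA_comp, STayA_comp]
  ring

theorem tay_rec (s : ℂ → ℂ) (hs : Differentiable ℂ s) (G : ℂ)
    (h : ∀ z, s z * iteratedDeriv 4 s z - 4 * iteratedDeriv 1 s z * iteratedDeriv 3 s z +
      3 * iteratedDeriv 2 s z ^ 2 = G * s z ^ 2) (N : ℕ) :
    ∑ i ∈ range (N + 1), (N.choose i : ℂ) *
      (iteratedDeriv i s 0 * iteratedDeriv (N - i + 4) s 0 -
        4 * (iteratedDeriv (i + 1) s 0 * iteratedDeriv (N - i + 3) s 0) +
        3 * (iteratedDeriv (i + 2) s 0 * iteratedDeriv (N - i + 2) s 0)) =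
      G * ∑ i ∈ range (N + 1), (N.choose i : ℂ) * (iteratedDeriv i s 0 * iteratedDeriv (N - i) s 0) := by
  have h0 : iteratedDeriv 0 s = s := iteratedDeriv_zero
  have e1 : (fun z => iteratedDeriv 0 s z * iteratedDeriv 4 s z -
      4 * (iteratedDeriv 1 s z * iteratedDeriv 3 s z) +
      3 * (iteratedDeriv 2 s z * iteratedDeriv 2 s z)) =
      fun z => G * (iteratedDeriv 0 s z * iteratedDeriv 0 s z) := by
    funext z
    rw [h0]
    have := h z
    linear_combination this
  have e2 := congrFun (congrArg (iteratedDeriv N) e1) 0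
  have c : ∀ k, ContDiffAt ℂ N (fun z => iteratedDeriv k s z) 0 := fun k => STayA_cd s hs k N
  rw [iteratedDeriv_fun_add (((c 0).mul (c 4)).sub (contDiffAt_const.mul ((c 1).mul (c 3))))
      (contDiffAt_const.mul ((c 2).mul (c 2))),
    iteratedDeriv_fun_sub ((c 0).mul (c 4)) (contDiffAt_const.mul ((c 1).mul (c 3))),
    iteratedDeriv_const_mul_field, iteratedDeriv_const_mul_field, iteratedDeriv_const_mul_field,
    STayA_mul s hs, STayA_mul s hs, STayA_mul s hs, STayA_mul s hs] at e2
  rw [Finset.mul_sum, Finset.mul_sum, ← Finset.sum_sub_distrib, ← Finset.sum_add_distrib] at e2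
  refine Eq.trans ?_ (e2.trans ?_)
  · refine Finset.sum_congr rfl fun i _ => ?_
    rw [Nat.zero_add, Nat.add_comm 4, Nat.add_comm 1, Nat.add_comm 3, Nat.add_comm 2 i,
      Nat.add_comm 2]
    ring
  · congr 1
    refine Finset.sum_congr rfl fun i _ => ?_
    rw [Nat.zero_add, Nat.zero_add]

end Pool.Agent.ROH
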