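import Pool.Agent.ROH.SSig

/-!
ROH-STayB: the first Taylor coefficients of the sigma function.

PLAN. `g = sgP L`, entire, `g 0 = 1`; `iteratedDeriv (n + 1) (sg L) 0 = (n + 1) * iteratedDeriv n g 0` (`sg L z = z * g z`, Leibniz rule
`iteratedDeriv_fun_mul`). Near `0`: `deriv g = zet L * g` (`logDeriv_sgP`, `sgP_ne`), `deriv (zet L) = - weierstrassPExcept L 0`
(`hasDerivAt_zet`), `zet L 0 = 0`; `iteratedDeriv n (weierstrassPExcept L 0) 0` is known (`iteratedDeriv_weierstrassPExcept_self`,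
`sumInvPow_zero`, `weierstrassPExcept_zero`, `G_eq_zero_of_odd`). So the derivatives of `zet L` at `0` of order `0, ..., 5` are `0, 0, 0, -6 G 4, 0,
-120 G 6` and by the Leibniz rule those of `g` of order `0, ..., 6` are `1, 0, 0, 0, -6 G 4, 0, -120 G 6`; `g₃ = 140 G 6`.
-/

set_option autoImplicit false

namespace Pool.Agent.ROH

open Complex

private theorem stayB_near (L : PeriodPair) :
    ∀ᶠ z in nhds (0 : ℂ), ∀ l ∈ L.lattice, l ≠ 0 → z ≠ l := by
  filter_upwards [L.compl_lattice_sdiff_singleton_mem_nhds 0] with z hz l hl hl0 hzl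
  apply hz
  rw [hzl]
  exact ⟨hl, hl0⟩

private theorem stayB_zet_an (L : PeriodPair) : AnalyticAt ℂ (zet L) 0 := by
  rw [Complex.analyticAt_iff_eventually_differentiableAt]
  filter_upwards [stayB_near L] with z hz
  exact (hasDerivAt_zet L z hz).differentiableAt

private theorem stayB_a (L : PeriodPair) (n : ℕ) : iteratedDeriv n (L.weierstrassPExcept 0) 0 =
    if n = 0 then 0 else ((n + 1).factorial : ℂ) * L.G (n + 2) := by
  rw [L.iteratedDeriv_weierstrassPExcept_self 0, L.sumInvPow_zero, L.weierstrassPExcept_zero]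

private theorem stayB_z (L : PeriodPair) (n : ℕ) : iteratedDeriv (n + 1) (zet L) 0 =
    -(if n = 0 then 0 else ((n + 1).factorial : ℂ) * L.G (n + 2)) := by
  have h : deriv (zet L) =ᶠ[nhds 0] fun z => -(L.weierstrassPExcept 0 z) := by
    filter_upwards [stayB_near L] with z hz
    exact (hasDerivAt_zet L z hz).deriv
  rw [iteratedDeriv_succ', h.iteratedDeriv_eq, iteratedDeriv_fun_neg, stayB_a]

private theorem stayB_g (L : PeriodPair) (n : ℕ) : iteratedDeriv (n + 1) (sgP L) 0 =
    ∑ i ∈ Finset.range (n + 1), (n.choose i : ℂ) * iteratedDeriv i (zet L) 0 *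
      iteratedDeriv (n - i) (sgP L) 0 := by
  have h : deriv (sgP L) =ᶠ[nhds 0] fun z => zet L z * sgP L z := by
    filter_upwards [stayB_near L] with z hz
    have h1 := logDeriv_sgP L z hz
    have h2 := sgP_ne L z hz
    rw [logDeriv_apply, div_eq_iff h2] at h1
    exact h1
  rw [iteratedDeriv_succ', h.iteratedDeriv_eq, iteratedDeriv_fun_mul (stayB_zet_an L).contDiffAt
    (differentiable_sgP L).contDiff.contDiffAt]

private theorem stayB_s (L : PeriodPair) (n : ℕ) : iteratedDeriv (n + 1) (sg L) 0 =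
    ((n + 1 : ℕ) : ℂ) * iteratedDeriv n (sgP L) 0 := by
  have h : sg L = fun z => z * sgP L z := rfl
  have hid : ContDiffAt ℂ ((n + 1 : ℕ) : WithTop ℕ∞) (fun z : ℂ => z) 0 := contDiff_id.contDiffAt
  rw [h, iteratedDeriv_fun_mul hid (differentiable_sgP L).contDiff.contDiffAt]
  rw [Finset.sum_eq_single 1]
  · simp [iteratedDeriv_fun_id_zero]
  · intro i _ hi
    simp [iteratedDeriv_fun_id_zero, hi]
  · intro h
    exfalso
    apply h
    simp

theorem sg_tay (L : PeriodPair) : iteratedDeriv 0 (sg L) 0 = 0 ∧ iteratedDeriv 1 (sg L) 0 = 1 ∧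
    iteratedDeriv 2 (sg L) 0 = 0 ∧ iteratedDeriv 7 (sg L) 0 = -6 * L.g₃ := by
  have z0 : iteratedDeriv 0 (zet L) 0 = 0 := by rw [iteratedDeriv_zero, zet_zero]
  have z1 : iteratedDeriv 1 (zet L) 0 = 0 := by
    have := stayB_z L 0
    simpa using this
  have z2 : iteratedDeriv 2 (zet L) 0 = 0 := by
    have := stayB_z L 1
    rw [this, L.G_eq_zero_of_odd 3 (by decide)]
    simp
  have z3 : iteratedDeriv 3 (zet L) 0 = -(6 * L.G 4) := by
    have := stayB_z L 2
    rw [this]
    norm_num [Nat.factorial]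
  have z4 : iteratedDeriv 4 (zet L) 0 = 0 := by
    have := stayB_z L 3
    rw [this, L.G_eq_zero_of_odd 5 (by decide)]
    simp
  have z5 : iteratedDeriv 5 (zet L) 0 = -(120 * L.G 6) := by
    have := stayB_z L 4
    rw [this]
    norm_num [Nat.factorial]
  have g0 : iteratedDeriv 0 (sgP L) 0 = 1 := by rw [iteratedDeriv_zero, sgP_zero]
  have g1 : iteratedDeriv 1 (sgP L) 0 = 0 := by
    rw [stayB_g L 0]
    simp only [Finset.sum_range_succ, Finset.sum_range_zero]
    rw [z0]
    simp
  have g2 : iteratedDeriv 2 (sgP L) 0 = 0 := by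
    rw [stayB_g L 1]
    simp only [Finset.sum_range_succ, Finset.sum_range_zero]
    rw [z0, z1]
    simp
  have g3 : iteratedDeriv 3 (sgP L) 0 = 0 := by
    rw [stayB_g L 2]
    simp only [Finset.sum_range_succ, Finset.sum_range_zero]
    rw [z0, z1, z2]
    simp
  have g6 : iteratedDeriv 6 (sgP L) 0 = -(120 * L.G 6) := by
    rw [stayB_g L 5]
    simp only [Finset.sum_range_succ, Finset.sum_range_zero]
    norm_num only [Nat.choose]
    rw [z0, z1, z2, z3, z4, z5, g2, g1, g0]
    simp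
  refine ⟨?_, ?_, ?_, ?_⟩
  · rw [iteratedDeriv_zero]
    simp [sg]
  · rw [stayB_s L 0, g0]
    simp
  · rw [stayB_s L 1, g1]
    simp
  · rw [stayB_s L 6, g6, PeriodPair.g₃]
    push_cast
    ring

end Pool.Agent.ROH
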