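import Pool.Agent.ROH.SPer
import Pool.Agent.ROH.SRot
import Pool.Agent.ROH.SQP
import Pool.Agent.ROH.SOde
import Pool.Agent.ROH.STayA
import Pool.Agent.ROH.STayB
import Pool.Agent.ROH.SRatC
import Pool.Agent.ROH.SBdd

/-!
ROH-SFin: block S.

PLAN. `ratTay_sg`: `ratTay_of` with `G = g₂/2`, `r = -6 g₃`. `qp_sg`: `qp_of` for `z ↦ sg L (v z)`, `τ = ω₂ / v`, with `sg_rot` (the lattice is invariant
under multiplication with `τ`), `sg_add`, `sg_neg`. In the hexagonal case `a + b √3 I = (a + b) + (2 b) τ`, `τ = -1/2 + (√3/2) I`, `τ^2 = -1 - τ`.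
-/

set_option autoImplicit false

namespace Pool.Agent.ROH

open Complex

theorem ratTay_sg (L : PeriodPair) (g g' : ℚ) (h2 : L.g₂ = g) (h3 : L.g₃ = g') : RatTay (sg L) := by
  obtain ⟨C₀, -, hB⟩ := tay_bdd (sg L) (differentiable_sg L)
  obtain ⟨t0, t1, t2, t7⟩ := sg_tay L
  refine ratTay_of (sg L) (g / 2) (-6 * g') C₀ hB t0 t1 t2 ?_ ?_
  · rw [t7, h3]
    push_cast
    ring
  · intro N
    have h := tay_rec (sg L) (differentiable_sg L) (L.g₂ / 2) (sg_ode L) N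
    rw [h2] at h
    rw [h]
    push_cast
    ring

/-- the lattice is invariant under multiplication with `τ` -/
theorem lat_rot (L : PeriodPair) (v : ℝ) (τ : ℂ) (hτ : ‖τ‖ = 1) (hi : 0 < τ.im) (h1 : L.ω₁ = v)
    (h2 : L.ω₂ = v * τ) (hrot : ∃ m n : ℤ, τ ^ 2 = m + n * τ) (l : ℂ) :
    l ∈ L.lattice ↔ τ * l ∈ L.lattice := by
  obtain ⟨m, n, hmn⟩ := hrot
  have hfw : ∀ l : ℂ, l ∈ L.lattice → τ * l ∈ L.lattice := by
    intro l hl
    obtain ⟨a, b, hab⟩ := PeriodPair.mem_lattice.1 hl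
    rw [h1, h2] at hab
    rw [PeriodPair.mem_lattice]
    refine ⟨b * m, a + b * n, ?_⟩
    rw [h1, h2, ← hab]
    push_cast
    linear_combination (-(b * v) : ℂ) * hmn
  refine ⟨hfw l, fun hl => ?_⟩
  have hsq : τ.re ^ 2 + τ.im ^ 2 = 1 := by
    have h3 := Complex.sq_norm τ
    rw [hτ, Complex.normSq_apply] at h3
    nlinarith
  have hre := congrArg Complex.re hmn
  have him := congrArg Complex.im hmn
  rw [pow_two] at hre him
  simp only [Complex.mul_re, Complex.add_re, Complex.intCast_re, Complex.intCast_im, zero_mul, sub_zero] at hre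
  simp only [Complex.mul_im, Complex.add_im, Complex.intCast_re, Complex.intCast_im, zero_mul, add_zero,
    zero_add] at him
  have hn : (n : ℝ) = 2 * τ.re := by
    have h4 : τ.im * ((n : ℝ) - 2 * τ.re) = 0 := by linarith
    rcases mul_eq_zero.1 h4 with h5 | h5
    · exact absurd h5 hi.ne'
    · linarith
  have hm : (m : ℝ) = -1 := by
    rw [hn] at hre
    nlinarith
  have hm' : m = -1 := by exact_mod_cast hm
  have h5 : l = (n : ℤ) • (τ * l) - τ * (τ * l) := by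
    rw [zsmul_eq_mul]
    rw [hm'] at hmn
    push_cast at hmn
    linear_combination l * hmn
  rw [h5]
  exact sub_mem (L.lattice.smul_mem n hl) (hfw _ hl)

theorem qp_sg (L : PeriodPair) (v : ℝ) (hv : 0 < v) (τ : ℂ) (hτ : ‖τ‖ = 1) (hi : 0 < τ.im) (h1 : L.ω₁ = v)
    (h2 : L.ω₂ = v * τ) (hrot : ∃ m n : ℤ, τ ^ 2 = m + n * τ) :
    ∃ n : ℕ, 0 < n ∧ QP (fun z => sg L (v * z)) (n * (Real.pi / τ.im)) τ := by
  have hτ0 : τ ≠ 0 := by
    rintro rfl
    simp at hi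
  refine qp_of (fun z => sg L (v * z)) ?_ ?_ ?_ τ hτ hi ?_ ?_ ?_
  · exact (differentiable_sg L).comp (differentiable_const _ |>.mul differentiable_id)
  · show sg L (v * 0) = 0
    rw [mul_zero, sg_zero]
  · refine ⟨1 / 2, ?_⟩
    apply sg_ne
    have h3 : (v : ℂ) * (1 / 2) = L.ω₁ / 2 := by rw [h1]; ring
    rw [h3]
    exact L.ω₁_div_two_notMem_lattice
  · intro z
    show sg L (v * -z) = -sg L (v * z)
    rw [mul_neg, sg_neg]
  · intro z
    show sg L (v * (τ * z)) = τ * sg L (v * z)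
    rw [← sg_rot L τ hτ0 (lat_rot L v τ hτ hi h1 h2 hrot)]
    congr 1
    ring
  · intro a b
    obtain ⟨α, c, hc, h⟩ := sg_add L (a * L.ω₁ + b * L.ω₂) (PeriodPair.mem_lattice.2 ⟨a, b, rfl⟩)
    refine ⟨α * v, c, hc, fun z => ?_⟩
    show sg L (v * (z + (a + b * τ))) = c * cexp (α * v * z) * sg L (v * z)
    have h3 : (v : ℂ) * (z + (a + b * τ)) = v * z + (a * L.ω₁ + b * L.ω₂) := by
      rw [h1, h2]
      ring
    rw [h3, h, mul_assoc α]

theorem sigmaI : SigmaI := by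
  intro v L g hv h1 h2 hg2 hg3
  obtain ⟨n, hn, h⟩ := qp_sg L v hv I Complex.norm_I (by simp) h1 h2 ⟨-1, 0, by simp⟩
  refine ⟨sg L, n, hn, differentiable_sg L, ratTay_sg L g 0 hg2 (by simp [hg3]), ?_⟩
  rw [Complex.I_im, div_one] at h
  exact h

theorem sigmaR : SigmaR := by
  intro v L g hv h1 h2 hg2 hg3
  have h3 : (Real.sqrt 3 : ℝ) ^ 2 = 3 := Real.sq_sqrt (by norm_num)
  have h30 : 0 < Real.sqrt 3 := Real.sqrt_pos.2 (by norm_num)
  obtain ⟨τ, hτ⟩ : ∃ τ : ℂ, τ = -1 / 2 + (Real.sqrt 3 / 2 : ℝ) * I := ⟨_, rfl⟩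
  rw [← hτ] at h2
  have hre : τ.re = -1 / 2 := by
    rw [hτ]
    simp
  have him : τ.im = Real.sqrt 3 / 2 := by
    rw [hτ]
    simp
  have hnorm : ‖τ‖ = 1 := by
    have h4 : ‖τ‖ ^ 2 = 1 := by
      rw [Complex.sq_norm, Complex.normSq_apply, hre, him]
      nlinarith
    nlinarith [norm_nonneg τ]
  have hsq : τ ^ 2 = ((-1 : ℤ) : ℂ) + ((-1 : ℤ) : ℂ) * τ := by
    apply Complex.ext
    · rw [pow_two, Complex.mul_re, Complex.add_re, Complex.mul_re, Complex.intCast_re, Complex.intCast_im,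
        hre, him]
      push_cast
      nlinarith
    · rw [pow_two, Complex.mul_im, Complex.add_im, Complex.mul_im, Complex.intCast_re, Complex.intCast_im,
        hre, him]
      push_cast
      nlinarith
  obtain ⟨n, hn, h⟩ := qp_sg L v hv τ hnorm (by rw [him]; positivity) h1 h2 ⟨-1, -1, hsq⟩
  have hk : (n : ℝ) * (Real.pi / τ.im) = n * (2 * Real.pi / Real.sqrt 3) := by
    rw [him]
    field_simp
  rw [hk] at h
  refine ⟨sg L, n, hn, differentiable_sg L, ratTay_sg L 0 g (by simp [hg2]) hg3, h.diff, h.kpos, h.ne, ?_⟩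
  intro a b
  obtain ⟨e, he, hz⟩ := h.per (a + b) (2 * b)
  refine ⟨e, he, fun z => ?_⟩
  have h5 : (((a + b : ℤ) : ℂ) + ((2 * b : ℤ) : ℂ) * τ) = (a + b * ((Real.sqrt 3 : ℝ) * I)) := by
    rw [hτ]
    push_cast
    ring
  have h6 := hz z
  rw [h5] at h6
  exact h6

end Pool.Agent.ROH
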