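import Pool.Agent.ROH.ZLev

/-!
Project ROH, block Z, part 3: tuples of level 12.
-/

set_option autoImplicit false

namespace Pool.Agent.ROH

open Finset Pool.Agent.Helper99.Rohr

/-- the indices of the non-integral entries -/
noncomputable def nonInt {r : ℕ} (a : Fin r → ℚ) : Finset (Fin r) :=
  univ.filter fun i => Int.fract (a i) ≠ 0

theorem pt_fract {x : ℚ} (h12 : ∃ z : ℤ, (12 : ℚ) * x = z) (h : Int.fract x ≠ 0) :
    IsPt 12 (Int.fract x) := by
  obtain ⟨z, hz⟩ := h12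
  refine ⟨lt_of_le_of_ne (Int.fract_nonneg _) (Ne.symm h), Int.fract_lt_one _,
    z - 12 * ⌊x⌋, ?_⟩
  have h1 : Int.fract x = x - ⌊x⌋ := rfl
  rw [h1]
  push_cast
  rw [← hz]
  ring

/-- both sides of the question for a tuple of level 12 -/
theorem tuple12 {r : ℕ} (a : Fin r → ℚ) (h12 : ∀ i, ∃ z : ℤ, (12 : ℚ) * a i = z) :
    ∃ A B : ℤ, (∀ m : ℕ, Nat.Coprime m 12 → ∑ i ∈ nonInt a, saw m (Int.fract (a i)) =
        A * saw m (1 / 4) + B * saw m (1 / 3)) ∧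
      ∑ i ∈ nonInt a, lg (Int.fract (a i)) - A * lg (1 / 4) - B * lg (1 / 3) ∈ LogAlg := by
  classical
  have h1 : ∀ i : Fin r, ∃ α β : ℤ, i ∈ nonInt a → ∀ (G : Type) [AddCommGroup G]
      (f : ℚ → G), OddDist 12 f →
      (2 : ℤ) • f (Int.fract (a i)) = (2 * α) • f (1 / 4) + (2 * β) • f (1 / 3) := by
    intro i
    by_cases hi : i ∈ nonInt a
    · obtain ⟨j, hj1, hj2, hj⟩ := pt12_of (pt_fract (h12 i) (mem_filter.1 hi).2)
      obtain ⟨α, β, h⟩ := rel12 hj1 hj2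
      refine ⟨α, β, fun _ G _ f hf => ?_⟩
      rw [hj]
      exact h G f hf
    · exact ⟨0, 0, fun h => absurd h hi⟩
  choose α β h2 using h1
  have h3 : ∀ (G : Type) [AddCommGroup G] (f : ℚ → G), OddDist 12 f →
      (2 : ℤ) • ∑ i ∈ nonInt a, f (Int.fract (a i)) =
        (2 * ∑ i ∈ nonInt a, α i) • f (1 / 4) + (2 * ∑ i ∈ nonInt a, β i) • f (1 / 3) := by
    intro G _ f hf
    rw [smul_sum, sum_congr rfl (fun i hi => h2 i hi G f hf), sum_add_distrib, mul_sum, mul_sum,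
      sum_smul, sum_smul]
  refine ⟨∑ i ∈ nonInt a, α i, ∑ i ∈ nonInt a, β i, fun m hm => ?_, ?_⟩
  · have h4 := h3 ℚ (saw m) (saw_oddDist (by norm_num) hm)
    rw [zsmul_eq_mul, zsmul_eq_mul, zsmul_eq_mul] at h4
    push_cast at h4
    push_cast
    linarith
  · have h4 := h3 (ℝ ⧸ LogAlg) gam (gam_oddDist 12)
    apply LogAlg_div (n := 2) two_pos
    rw [← QuotientAddGroup.eq_zero_iff]
    have h5 : (QuotientAddGroup.mk (s := LogAlg) (((2 : ℕ) : ℝ) * (∑ i ∈ nonInt a, lg (Int.fract (a i)) -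
        ((∑ i ∈ nonInt a, α i : ℤ) : ℝ) * lg (1 / 4) - ((∑ i ∈ nonInt a, β i : ℤ) : ℝ) * lg (1 / 3)))) =
        (2 : ℤ) • ∑ i ∈ nonInt a, gam (Int.fract (a i)) -
        ((2 * ∑ i ∈ nonInt a, α i) • gam (1 / 4) + (2 * ∑ i ∈ nonInt a, β i) • gam (1 / 3)) := by
      have h6 : (((2 : ℕ) : ℝ) * (∑ i ∈ nonInt a, lg (Int.fract (a i)) -
        ((∑ i ∈ nonInt a, α i : ℤ) : ℝ) * lg (1 / 4) - ((∑ i ∈ nonInt a, β i : ℤ) : ℝ) * lg (1 / 3))) =
        (2 : ℤ) • ∑ i ∈ nonInt a, lg (Int.fract (a i)) -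
        ((2 * ∑ i ∈ nonInt a, α i) • lg (1 / 4) + (2 * ∑ i ∈ nonInt a, β i) • lg (1 / 3)) := by
        rw [zsmul_eq_mul, zsmul_eq_mul, zsmul_eq_mul]
        push_cast
        ring
      rw [h6]
      change QuotientAddGroup.mk' LogAlg _ = _
      rw [map_sub, map_add, map_zsmul, map_zsmul, map_zsmul, map_sum]
      rfl
    rw [h5, h4, sub_self]

/-- fractional parts only depend on the multiplier modulo a common denominator -/
theorem fract_congr {N m M : ℕ} (h : M ≡ m [MOD N]) {x : ℚ} (hx : ∃ z : ℤ, (N : ℚ) * x = z) :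
    Int.fract ((M : ℚ) * x) = Int.fract ((m : ℚ) * x) := by
  obtain ⟨z, hz⟩ := hx
  have h1 : (N : ℤ) ∣ (M : ℤ) - m := by
    have h2 := (Nat.modEq_iff_dvd.1 h.symm)
    exact h2
  obtain ⟨k, hk⟩ := h1
  have hk' : (M : ℚ) = m + N * k := by
    have : (M : ℤ) = m + N * k := by linarith
    exact_mod_cast this
  have h3 : (M : ℚ) * x = (m : ℚ) * x + ((k * z : ℤ) : ℚ) := by
    rw [hk']
    push_cast
    rw [← hz]
    ring
  rw [h3, Int.fract_add_intCast]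

/-- lifting units -/
theorem lift_coprime {N L m : ℕ} (hL : 0 < L) (hNL : N ∣ L) (hm : Nat.Coprime m N) :
    ∃ M : ℕ, Nat.Coprime M L ∧ M ≡ m [MOD N] := by
  haveI : NeZero L := ⟨hL.ne'⟩
  obtain ⟨v, hv⟩ := ZMod.unitsMap_surjective hNL (ZMod.unitOfCoprime m hm)
  refine ⟨(v : ZMod L).val, ZMod.val_coe_unit_coprime v, ?_⟩
  rw [← ZMod.natCast_eq_natCast_iff]
  have h1 := congrArg (fun u : (ZMod N)ˣ => (u : ZMod N)) hv
  simp only [ZMod.coe_unitOfCoprime] at h1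
  rw [← h1]
  rw [ZMod.unitsMap_val, ZMod.natCast_val]

/-- the fractional part condition for any common denominator, for tuples of level 12 -/
theorem frac12 {r : ℕ} {a : Fin r → ℚ} (h12 : ∀ i, ∃ z : ℤ, (12 : ℚ) * a i = z) {D : ℕ}
    (hD : 0 < D) (hDa : ∀ i, ∃ z : ℤ, (D : ℚ) * a i = z) :
    (∀ m : ℕ, 1 ≤ m → m ≤ D → Nat.Coprime m D → ∑ i, Int.fract ((m : ℚ) * a i) = (r : ℚ) / 2) ↔
      ∀ m : ℕ, Nat.Coprime m 12 → ∑ i, Int.fract ((m : ℚ) * a i) = (r : ℚ) / 2 := by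
  have h12' : ∀ i, ∃ z : ℤ, ((12 : ℕ) : ℚ) * a i = z := by exact_mod_cast h12
  constructor
  · intro h m hm
    obtain ⟨M, hM, hMm⟩ := lift_coprime (L := 12 * D) (by omega) (Dvd.intro _ rfl) hm
    have hM12 : Nat.Coprime M 12 := Nat.Coprime.coprime_dvd_right (Dvd.intro _ rfl) hM
    have hMD : Nat.Coprime M D := Nat.Coprime.coprime_dvd_right (Dvd.intro_left _ rfl) hM
    have hM1 : 1 ≤ M := by
      rcases Nat.eq_zero_or_pos M with h0 | h0
      · rw [h0] at hM12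
        exact absurd hM12 (by decide)
      · exact h0
    have hk : (M - 1) % D + 1 ≡ M [MOD D] := by
      have h1 : (M - 1) % D ≡ M - 1 [MOD D] := Nat.mod_modEq _ _
      have h2 := h1.add_right 1
      rwa [Nat.sub_add_cancel hM1] at h2
    have h1 := h ((M - 1) % D + 1) (by omega) (by have := Nat.mod_lt (M - 1) hD; omega) (by
      exact hk.gcd_eq.trans hMD)
    rw [← h1]
    apply sum_congr rfl
    intro i _
    rw [fract_congr hk (hDa i), fract_congr hMm (h12' i)]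
  · intro h m _ _ hm
    obtain ⟨M, hM, hMm⟩ := lift_coprime (L := 12 * D) (by omega) (Dvd.intro_left _ rfl) hm
    have hM12 : Nat.Coprime M 12 := Nat.Coprime.coprime_dvd_right (Dvd.intro _ rfl) hM
    rw [← h M hM12]
    apply sum_congr rfl
    intro i _
    rw [fract_congr hMm (hDa i)]

end Pool.Agent.ROH
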