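import Pool.Agent.ROH.ZAlg
import Pool.Agent.ROH.ZTup

/-!
Project ROH, block Z, part 4: the question for the level 12, from the algebraic independence of
`Γ(1/4)/√π` and `Γ(1/3)/√π`.
-/

set_option autoImplicit false

namespace Pool.Agent.ROH

open Finset Pool.Agent.Helper99.Rohr Pool.Agent.GP.DedM IntermediateField

theorem alg_of_zpow {K L : Type*} [Field K] [Field L] [Algebra K L] {t : L} {k : ℤ} (hk : k ≠ 0)
    (h : IsAlgebraic K (t ^ k)) : IsAlgebraic K t := by
  obtain ⟨n, rfl | rfl⟩ := k.eq_nat_or_neg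
  · have hn : 0 < n := by omega
    rw [zpow_natCast] at h
    exact h.of_pow hn
  · have hn : 0 < n := by omega
    rw [zpow_neg, zpow_natCast] at h
    have h1 := h.inv
    rw [inv_inv] at h1
    exact h1.of_pow hn

theorem alg_zpow' {K L : Type*} [Field K] [Field L] [Algebra K L] {t : L} (k : ℤ)
    (h : IsAlgebraic K t) : IsAlgebraic K (t ^ k) := by
  obtain ⟨n, rfl | rfl⟩ := k.eq_nat_or_neg
  · rw [zpow_natCast]
    exact h.pow n
  · rw [zpow_neg, zpow_natCast]
    exact (h.pow n).inv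

/-- Chudnovsky's theorem for `Γ(1/3)` -/
theorem gamma3 : Transcendental ℚ⟮(Real.pi : ℂ)⟯ ((Real.Gamma (1 / 3) : ℝ) : ℂ) := by
  classical
  obtain ⟨j, hj, hja⟩ : ∃ j : ℕ, (j = 1 ∨ j = 2) ∧
      AlgebraicIndependent ℚ ![Real.pi, Real.Gamma ((j : ℝ) / (3 : ℕ))] := by
    have h1 := thmU_pi thmAll (N := 3) (by norm_num) (by norm_num)
    have h2 : (3 : ℕ).totient = 2 := by decide
    rw [h2] at h1
    obtain ⟨j, hj⟩ := Finset.card_pos.1 (Nat.pos_of_ne_zero fun h0 => by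
      rw [h0] at h1
      omega)
    rw [Finset.mem_filter, Finset.mem_Ico] at hj
    exact ⟨j, by omega, hj.2.2⟩
  have hself := self_alg (Real.pi : ℂ)
  have h1 := not_both hja hself
  rcases hj with rfl | rfl
  · have e : (((1 : ℕ) : ℝ)) / ((3 : ℕ) : ℝ) = 1 / 3 := by norm_num
    rwa [e] at h1
  · have e : (((2 : ℕ) : ℝ)) / ((3 : ℕ) : ℝ) = 2 / 3 := by norm_num
    rw [e] at h1
    intro h4
    apply h1
    have h5 := Real.Gamma_mul_Gamma_one_sub (1 / 3)
    have e2 : (1 : ℝ) - 1 / 3 = 2 / 3 := by norm_num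
    rw [e2] at h5
    have hg : Real.Gamma (1 / 3) ≠ 0 := (Real.Gamma_pos_of_pos (by norm_num)).ne'
    have e3 : Real.pi * (1 / 3) = Real.pi / 3 := by ring
    rw [e3, Real.sin_pi_div_three] at h5
    have h6 : Real.Gamma (2 / 3) = Real.pi * (Real.Gamma (1 / 3))⁻¹ * (Real.sqrt 3 / 2)⁻¹ := by
      field_simp
      field_simp at h5
      linarith
    rw [h6]
    push_cast
    refine (hself.mul h4.inv).mul ?_
    have h8 : IsAlgebraic ℚ ((Real.sqrt 3 / 2 : ℝ)) := by
      have h9 : IsAlgebraic ℚ (Real.sqrt 3) := by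
        apply IsAlgebraic.of_pow (n := 2) two_pos
        rw [Real.sq_sqrt (by norm_num)]
        exact isAlgebraic_algebraMap (A := ℝ) (3 : ℚ)
      exact h9.mul (by
        have : ((2 : ℝ)⁻¹) = algebraMap ℚ ℝ (2⁻¹) := by simp
        rw [this]; exact isAlgebraic_algebraMap _)
    have h9 := alg_up (θ := (Real.pi : ℂ)) h8
    push_cast at h9
    exact h9.inv

/-- no power of a number transcendental over `ℚ(π)` is an algebraic multiple of `π ^ (n/2)` -/
theorem no_pi {t : ℝ} (ht : 0 < t) (hT : Transcendental ℚ⟮(Real.pi : ℂ)⟯ (t : ℂ)) (A : ℤ) (n : ℕ)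
    (hn : 0 < n) (h : (A : ℝ) * Real.log t - (n : ℝ) / 2 * Real.log Real.pi ∈ LogAlg) : False := by
  rw [mem_LogAlg] at h
  have h1 : Real.exp (A * Real.log t - (n : ℝ) / 2 * Real.log Real.pi) ^ 2 =
      t ^ (2 * A) * (Real.pi ^ n)⁻¹ := by
    rw [← Real.exp_nat_mul]
    have e : ((2 : ℕ) : ℝ) * (A * Real.log t - (n : ℝ) / 2 * Real.log Real.pi) =
        ((2 * A : ℤ) : ℝ) * Real.log t + -((n : ℝ) * Real.log Real.pi) := by
      push_cast
      ring
    rw [e, Real.exp_add, Real.exp_neg, Real.exp_nat_mul, Real.exp_log Real.pi_pos]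
    congr 1
    rw [mul_comm, Real.exp_mul, Real.exp_log ht, Real.rpow_intCast]
  have h2 := h.pow 2
  rw [h1] at h2
  by_cases hA : A = 0
  · subst hA
    rw [mul_zero, zpow_zero, one_mul] at h2
    have h3 := h2.inv
    rw [inv_inv] at h3
    exact pi_transcendental thmAll (h3.of_pow hn)
  · apply hT
    apply alg_of_zpow (k := 2 * A) (by omega)
    have h3 : ((t : ℂ)) ^ (2 * A) = ((t ^ (2 * A) * (Real.pi ^ n)⁻¹ : ℝ) : ℂ) * (Real.pi : ℂ) ^ n := by
      push_cast
      have : (Real.pi : ℂ) ^ n ≠ 0 := pow_ne_zero _ (by exact_mod_cast Real.pi_ne_zero)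
      field_simp
    rw [h3]
    exact (alg_up h2).mul ((self_alg _).pow n)

/-- division by `√π` does not matter over `ℚ(π)` -/
theorem trans_div {g : ℝ} (hg : Transcendental ℚ⟮(Real.pi : ℂ)⟯ (g : ℂ)) :
    Transcendental ℚ⟮(Real.pi : ℂ)⟯ ((g / Real.sqrt Real.pi : ℝ) : ℂ) := by
  intro h
  apply hg
  have h1 : ((g : ℝ) : ℂ) = ((g / Real.sqrt Real.pi : ℝ) : ℂ) * ((Real.sqrt Real.pi : ℝ) : ℂ) := by
    rw [← Complex.ofReal_mul, div_mul_cancel₀ _ (Real.sqrt_pos.2 Real.pi_pos).ne']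
  rw [h1]
  refine h.mul ?_
  apply alg_int
  rw [Real.sq_sqrt Real.pi_pos.le]
  exact self_alg _

theorem lg4 : lg (1 / 4) = Real.log (Real.Gamma (1 / 4) / Real.sqrt Real.pi) := by
  unfold lg
  rw [Real.log_div (Real.Gamma_pos_of_pos (by norm_num)).ne' (Real.sqrt_pos.2 Real.pi_pos).ne',
    Real.log_sqrt Real.pi_pos.le]
  norm_num

theorem lg3 : lg (1 / 3) = Real.log (Real.Gamma (1 / 3) / Real.sqrt Real.pi) := by
  unfold lg
  rw [Real.log_div (Real.Gamma_pos_of_pos (by norm_num)).ne' (Real.sqrt_pos.2 Real.pi_pos).ne',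
    Real.log_sqrt Real.pi_pos.le]
  norm_num

/-- multiplicative independence -/
theorem mult_ind {x y : ℝ} (hx : 0 < x) (hy : 0 < y) (h : AlgebraicIndependent ℚ ![x, y])
    {A B : ℤ} (hAB : (A : ℝ) * Real.log x + B * Real.log y ∈ LogAlg) : A = 0 ∧ B = 0 := by
  rw [mem_LogAlg] at hAB
  have h1 : Real.exp (A * Real.log x + B * Real.log y) = x ^ A * y ^ B := by
    rw [Real.exp_add]
    congr 1
    · rw [mul_comm, Real.exp_mul, Real.exp_log hx, Real.rpow_intCast]
    · rw [mul_comm, Real.exp_mul, Real.exp_log hy, Real.rpow_intCast]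
  rw [h1] at hAB
  have hB : B = 0 := by
    by_contra hB
    apply not_both h (self_alg (x : ℂ))
    apply alg_of_zpow hB
    have h2 : (y : ℂ) ^ B = ((x ^ A * y ^ B : ℝ) : ℂ) * (x : ℂ) ^ (-A) := by
      have hx' : (x : ℂ) ≠ 0 := by exact_mod_cast hx.ne'
      push_cast
      rw [mul_comm ((x : ℂ) ^ A), mul_assoc, ← zpow_add₀ hx', add_neg_cancel, zpow_zero, mul_one]
    rw [h2]
    exact (alg_up hAB).mul (alg_zpow' _ (self_alg _))
  subst hB
  refine ⟨?_, rfl⟩
  by_contra hA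
  apply not_both (algInd_swap h) (self_alg (y : ℂ))
  apply alg_up
  apply alg_of_zpow hA
  rwa [zpow_zero, mul_one] at hAB

theorem sum_frac {r : ℕ} {a : Fin r → ℚ} (h12 : ∀ i, ∃ z : ℤ, (12 : ℚ) * a i = z) (m : ℕ) :
    ∑ i, Int.fract ((m : ℚ) * a i) = ∑ i ∈ nonInt a, saw m (Int.fract (a i)) +
      ((r : ℚ) - intCount a) / 2 := by
  classical
  have hcard : ((nonInt a).card : ℚ) = r - intCount a := by
    have h1 : (nonInt a).card + intCount a = r := by
      unfold nonInt intCount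
      rw [add_comm]
      have := Finset.card_filter_add_card_filter_not (s := (univ : Finset (Fin r)))
        (fun i => Int.fract (a i) = 0)
      simpa using this
    have h2 : (((nonInt a).card + intCount a : ℕ) : ℚ) = r := by rw [h1]
    push_cast at h2
    linarith
  have h1 : ∑ i, Int.fract ((m : ℚ) * a i) = ∑ i ∈ nonInt a, Int.fract ((m : ℚ) * a i) := by
    symm
    apply sum_subset (subset_univ _)
    intro i _ hi
    have h2 : Int.fract (a i) = 0 := by
      by_contra h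
      exact hi (mem_filter.2 ⟨mem_univ _, h⟩)
    rw [Int.fract_eq_iff] at h2
    obtain ⟨-, -, z, hz⟩ := h2
    rw [sub_zero] at hz
    have h3 : (m : ℚ) * a i = ((m * z : ℤ) : ℚ) := by rw [hz]; push_cast; ring
    rw [h3, Int.fract_intCast]
  have h2 : ∀ i, Int.fract ((m : ℚ) * a i) = saw m (Int.fract (a i)) + 1 / 2 := by
    intro i
    unfold saw
    have h3 : (m : ℚ) * a i = (m : ℚ) * Int.fract (a i) + ((m * ⌊a i⌋ : ℤ) : ℚ) := by
      push_cast
      rw [← mul_add, Int.fract_add_floor]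
    rw [h3, Int.fract_add_intCast]
    ring
  rw [h1, sum_congr rfl (fun i _ => h2 i), sum_add_distrib, sum_const, nsmul_eq_mul, hcard]
  ring

theorem saw_vals : saw 1 (1 / 4) = -1 / 4 ∧ saw 1 (1 / 3) = -1 / 6 ∧ saw 5 (1 / 4) = -1 / 4 ∧
    saw 5 (1 / 3) = 1 / 6 ∧ saw 7 (1 / 4) = 1 / 4 ∧ saw 7 (1 / 3) = -1 / 6 ∧
    saw 11 (1 / 4) = 1 / 4 ∧ saw 11 (1 / 3) = 1 / 6 := by
  unfold saw
  refine ⟨?_, ?_, ?_, ?_, ?_, ?_, ?_, ?_⟩
  · have : Int.fract (((1 : ℕ) : ℚ) * (1 / 4)) = 1 / 4 := by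
      rw [Int.fract_eq_iff]; exact ⟨by norm_num, by norm_num, 0, by norm_num⟩
    rw [this]; norm_num
  · have : Int.fract (((1 : ℕ) : ℚ) * (1 / 3)) = 1 / 3 := by
      rw [Int.fract_eq_iff]; exact ⟨by norm_num, by norm_num, 0, by norm_num⟩
    rw [this]; norm_num
  · have : Int.fract (((5 : ℕ) : ℚ) * (1 / 4)) = 1 / 4 := by
      rw [Int.fract_eq_iff]; exact ⟨by norm_num, by norm_num, 1, by norm_num⟩
    rw [this]; norm_num
  · have : Int.fract (((5 : ℕ) : ℚ) * (1 / 3)) = 2 / 3 := by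
      rw [Int.fract_eq_iff]; exact ⟨by norm_num, by norm_num, 1, by norm_num⟩
    rw [this]; norm_num
  · have : Int.fract (((7 : ℕ) : ℚ) * (1 / 4)) = 3 / 4 := by
      rw [Int.fract_eq_iff]; exact ⟨by norm_num, by norm_num, 1, by norm_num⟩
    rw [this]; norm_num
  · have : Int.fract (((7 : ℕ) : ℚ) * (1 / 3)) = 1 / 3 := by
      rw [Int.fract_eq_iff]; exact ⟨by norm_num, by norm_num, 2, by norm_num⟩
    rw [this]; norm_num
  · have : Int.fract (((11 : ℕ) : ℚ) * (1 / 4)) = 3 / 4 := by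
      rw [Int.fract_eq_iff]; exact ⟨by norm_num, by norm_num, 2, by norm_num⟩
    rw [this]; norm_num
  · have : Int.fract (((11 : ℕ) : ℚ) * (1 / 3)) = 2 / 3 := by
      rw [Int.fract_eq_iff]; exact ⟨by norm_num, by norm_num, 3, by norm_num⟩
    rw [this]; norm_num

/-- the data of a tuple of level 12: exponents and number of integral entries -/
theorem data12 {r : ℕ} (a : Fin r → ℚ) (hnp : ∀ (i : Fin r) (n : ℕ), a i ≠ -(n : ℚ))
    (h12 : ∀ i, ∃ z : ℤ, (12 : ℚ) * a i = z) : ∃ A B : ℤ,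
    (GammaMult a ↔ (A : ℝ) * lg (1 / 4) + B * lg (1 / 3) - (intCount a : ℝ) / 2 * Real.log Real.pi ∈
      LogAlg) ∧
    (∑ i, Int.fract (a i) = -(A : ℚ) / 4 - (B : ℚ) / 6 + ((r : ℚ) - intCount a) / 2) ∧
    (∑ i, Int.fract (5 * a i) = -(A : ℚ) / 4 + (B : ℚ) / 6 + ((r : ℚ) - intCount a) / 2) ∧
    ∀ D : ℕ, 0 < D → (∀ i, ∃ z : ℤ, (D : ℚ) * a i = z) →
      ((∀ m : ℕ, 1 ≤ m → m ≤ D → Nat.Coprime m D → ∑ i, Int.fract ((m : ℚ) * a i) = (r : ℚ) / 2) ↔
        A = 0 ∧ B = 0 ∧ intCount a = 0) := by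
  obtain ⟨A, B, hs, hl⟩ := tuple12 a h12
  obtain ⟨s14, s13, s54, s53, s74, s73, s114, s113⟩ := saw_vals
  have hfr : ∀ m : ℕ, Nat.Coprime m 12 → ∑ i, Int.fract ((m : ℚ) * a i) =
      A * saw m (1 / 4) + B * saw m (1 / 3) + ((r : ℚ) - intCount a) / 2 := by
    intro m hm
    rw [sum_frac h12 m, hs m hm]
  have hadm : Adm 12 a := ⟨by norm_num, hnp, by exact_mod_cast h12⟩
  refine ⟨A, B, ?_, ?_, ?_, fun D hD hDa => ?_⟩
  · rw [gammaMult_iff hadm]
    have e : ∑ i ∈ univ.filter (fun i => Int.fract (a i) ≠ 0), lg (Int.fract (a i)) -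
        (intCount a : ℝ) / 2 * Real.log Real.pi =
        (∑ i ∈ nonInt a, lg (Int.fract (a i)) - A * lg (1 / 4) - B * lg (1 / 3)) +
          (A * lg (1 / 4) + B * lg (1 / 3) - (intCount a : ℝ) / 2 * Real.log Real.pi) := by
      unfold nonInt
      ring
    rw [e]
    constructor
    · intro h
      have h1 := LogAlg.sub_mem h hl
      rwa [add_sub_cancel_left] at h1
    · intro h
      exact LogAlg.add_mem hl h
  · have h := hfr 1 (by decide)
    rw [s14, s13] at h
    push_cast at h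
    simp only [one_mul] at h
    rw [h]
    ring
  · have h := hfr 5 (by decide)
    rw [s54, s53] at h
    push_cast at h
    rw [h]
    ring
  · rw [frac12 h12 hD hDa]
    constructor
    · intro h
      have h1 := (hfr 1 (by decide)).symm.trans (h 1 (by decide))
      have h5 := (hfr 5 (by decide)).symm.trans (h 5 (by decide))
      have h7 := (hfr 7 (by decide)).symm.trans (h 7 (by decide))
      have h11 := (hfr 11 (by decide)).symm.trans (h 11 (by decide))
      rw [s14, s13] at h1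
      rw [s54, s53] at h5
      rw [s74, s73] at h7
      rw [s114, s113] at h11
      have hn : (intCount a : ℚ) = 0 := by linarith
      have hA : (A : ℚ) = 0 := by linarith
      have hB : (B : ℚ) = 0 := by linarith
      exact ⟨by exact_mod_cast hA, by exact_mod_cast hB, by exact_mod_cast hn⟩
    · rintro ⟨rfl, rfl, hn⟩ m hm
      rw [hfr m hm, hn]
      push_cast
      ring

theorem final12 (hind : AlgebraicIndependent ℚ
      ![Real.Gamma (1 / 4) / Real.sqrt Real.pi, Real.Gamma (1 / 3) / Real.sqrt Real.pi]) :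
    (∀ (r : ℕ) (a : Fin r → ℚ), (∀ i, ∃ z : ℤ, (12 : ℚ) * a i = z) →
      (∀ (i : Fin r) (z : ℤ), a i ≠ z) → ∀ D : ℕ, 0 < D → (∀ i, ∃ z : ℤ, (D : ℚ) * a i = z) →
      (GammaMult a ↔
        ∀ m : ℕ, 1 ≤ m → m ≤ D → Nat.Coprime m D → ∑ i, Int.fract ((m : ℚ) * a i) = (r : ℚ) / 2)) ∧
    ∃ u v : ℚ, u ≠ v ∧ u ≠ -v ∧ ∀ (r : ℕ) (a : Fin r → ℚ),
      (∀ (i : Fin r) (n : ℕ), a i ≠ -(n : ℚ)) → (∀ i, ∃ z : ℤ, (12 : ℚ) * a i = z) →
      ∀ D : ℕ, 0 < D → (∀ i, ∃ z : ℤ, (D : ℚ) * a i = z) →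
      ¬ (GammaMult a ↔
        ∀ m : ℕ, 1 ≤ m → m ≤ D → Nat.Coprime m D → ∑ i, Int.fract ((m : ℚ) * a i) = (r : ℚ) / 2) →
      0 < intCount a ∧
      ∑ i, Int.fract (a i) = ((r : ℚ) - intCount a) / 2 + u * intCount a ∧
      ∑ i, Int.fract (5 * a i) = ((r : ℚ) - intCount a) / 2 + v * intCount a := by
  have hG4 : 0 < Real.Gamma (1 / 4) := Real.Gamma_pos_of_pos (by norm_num)
  have hG3 : 0 < Real.Gamma (1 / 3) := Real.Gamma_pos_of_pos (by norm_num)
  have hsp : 0 < Real.sqrt Real.pi := Real.sqrt_pos.2 Real.pi_pos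
  have hx0 := div_pos hG4 hsp
  have hy0 := div_pos hG3 hsp
  have hmi : ∀ A B : ℤ, (A : ℝ) * lg (1 / 4) + B * lg (1 / 3) ∈ LogAlg → A = 0 ∧ B = 0 := by
    intro A B h
    rw [lg4, lg3] at h
    exact mult_ind hx0 hy0 hind h
  -- a tuple without integral entries satisfies the equivalence
  have main : ∀ (r : ℕ) (a : Fin r → ℚ) (A B : ℤ), intCount a = 0 →
      (GammaMult a ↔ (A : ℝ) * lg (1 / 4) + B * lg (1 / 3) -
        (intCount a : ℝ) / 2 * Real.log Real.pi ∈ LogAlg) → (GammaMult a ↔ A = 0 ∧ B = 0) := by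
    intro r a A B h0 h
    rw [h, h0]
    constructor
    · intro h1
      apply hmi
      have e : (A : ℝ) * lg (1 / 4) + B * lg (1 / 3) - ((0 : ℕ) : ℝ) / 2 * Real.log Real.pi =
          (A : ℝ) * lg (1 / 4) + B * lg (1 / 3) := by push_cast; ring
      rwa [e] at h1
    · rintro ⟨rfl, rfl⟩
      have e : ((0 : ℤ) : ℝ) * lg (1 / 4) + ((0 : ℤ) : ℝ) * lg (1 / 3) -
          ((0 : ℕ) : ℝ) / 2 * Real.log Real.pi = 0 := by push_cast; ring
      rw [e]
      exact LogAlg.zero_mem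
  -- a violating tuple
  have viol : ∀ (r : ℕ) (a : Fin r → ℚ),
      (∀ (i : Fin r) (n : ℕ), a i ≠ -(n : ℚ)) → (∀ i, ∃ z : ℤ, (12 : ℚ) * a i = z) →
      ∀ D : ℕ, 0 < D → (∀ i, ∃ z : ℤ, (D : ℚ) * a i = z) →
      ¬ (GammaMult a ↔
        ∀ m : ℕ, 1 ≤ m → m ≤ D → Nat.Coprime m D → ∑ i, Int.fract ((m : ℚ) * a i) = (r : ℚ) / 2) →
      ∃ A B : ℤ, 0 < intCount a ∧
        (∑ i, Int.fract (a i) = -(A : ℚ) / 4 - (B : ℚ) / 6 + ((r : ℚ) - intCount a) / 2) ∧
        (∑ i, Int.fract (5 * a i) = -(A : ℚ) / 4 + (B : ℚ) / 6 + ((r : ℚ) - intCount a) / 2) ∧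
        (A : ℝ) * lg (1 / 4) + B * lg (1 / 3) - (intCount a : ℝ) / 2 * Real.log Real.pi ∈ LogAlg := by
    intro r a hnp h12 D hD hDa hne
    obtain ⟨A, B, hg, h1, h5, hF⟩ := data12 a hnp h12
    rw [hF D hD hDa] at hne
    have h0 : 0 < intCount a := by
      by_contra h0
      have h0' : intCount a = 0 := Nat.eq_zero_of_not_pos h0
      apply hne
      rw [main r a A B h0' hg, h0']
      simp
    have hG : GammaMult a := by
      by_contra hG
      apply hne
      constructor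
      · intro h
        exact absurd h hG
      · rintro ⟨-, -, h2⟩
        omega
    exact ⟨A, B, h0, h1, h5, hg.1 hG⟩
  refine ⟨fun r a h12 hni D hD hDa => ?_, ?_⟩
  · obtain ⟨A, B, hg, h1, h5, hF⟩ := data12 a (fun i n h => hni i (-(n : ℤ)) (by push_cast; exact h)) h12
    have h0 : intCount a = 0 := by
      unfold intCount
      rw [card_eq_zero, filter_eq_empty_iff]
      intro i _ h
      rw [Int.fract_eq_iff] at h
      obtain ⟨-, -, z, hz⟩ := h
      rw [sub_zero] at hz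
      exact hni i z hz
    rw [hF D hD hDa, main r a A B h0 hg, h0]
    simp
  · by_cases hex : ∃ (n : ℕ) (A B : ℤ), 0 < n ∧
      (A : ℝ) * lg (1 / 4) + B * lg (1 / 3) - (n : ℝ) / 2 * Real.log Real.pi ∈ LogAlg
    · obtain ⟨n, A, B, hn, hAB⟩ := hex
      have hnq : (0 : ℚ) < n := by exact_mod_cast hn
      have hB : B ≠ 0 := by
        rintro rfl
        apply no_pi hx0 (trans_div gamma4) A n hn
        rw [← lg4]
        have e : (A : ℝ) * lg (1 / 4) - (n : ℝ) / 2 * Real.log Real.pi =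
          (A : ℝ) * lg (1 / 4) + ((0 : ℤ) : ℝ) * lg (1 / 3) - (n : ℝ) / 2 * Real.log Real.pi := by
          push_cast; ring
        rw [e]
        exact hAB
      have hA : A ≠ 0 := by
        rintro rfl
        apply no_pi hy0 (trans_div gamma3) B n hn
        rw [← lg3]
        have e : (B : ℝ) * lg (1 / 3) - (n : ℝ) / 2 * Real.log Real.pi =
          ((0 : ℤ) : ℝ) * lg (1 / 4) + (B : ℝ) * lg (1 / 3) - (n : ℝ) / 2 * Real.log Real.pi := by
          push_cast; ring
        rw [e]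
        exact hAB
      refine ⟨(-(A : ℚ) / 4 - B / 6) / n, (-(A : ℚ) / 4 + B / 6) / n, ?_, ?_, ?_⟩
      · intro h
        rw [div_left_inj' hnq.ne'] at h
        apply hB
        have : (B : ℚ) = 0 := by linarith
        exact_mod_cast this
      · intro h
        rw [← neg_div, div_left_inj' hnq.ne'] at h
        apply hA
        have : (A : ℚ) = 0 := by linarith
        exact_mod_cast this
      · intro r a hnp h12 D hD hDa hne
        obtain ⟨A', B', h0, h1, h5, hl⟩ := viol r a hnp h12 D hD hDa hne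
        set n' := intCount a with hn'
        have h6 : (((n : ℤ) * A' - n' * A : ℤ) : ℝ) * lg (1 / 4) +
            (((n : ℤ) * B' - n' * B : ℤ) : ℝ) * lg (1 / 3) ∈ LogAlg := by
          have h7 := LogAlg.zsmul_mem hl (n : ℤ)
          have h8 := LogAlg.zsmul_mem hAB (n' : ℤ)
          have h9 := LogAlg.sub_mem h7 h8
          have e : (((n : ℤ) * A' - n' * A : ℤ) : ℝ) * lg (1 / 4) +
            (((n : ℤ) * B' - n' * B : ℤ) : ℝ) * lg (1 / 3) =
            (n : ℤ) • ((A' : ℝ) * lg (1 / 4) + B' * lg (1 / 3) - (n' : ℝ) / 2 * Real.log Real.pi) -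
            (n' : ℤ) • ((A : ℝ) * lg (1 / 4) + B * lg (1 / 3) - (n : ℝ) / 2 * Real.log Real.pi) := by
            rw [zsmul_eq_mul, zsmul_eq_mul]
            push_cast
            ring
          rw [e]
          exact h9
        obtain ⟨hA', hB'⟩ := hmi _ _ h6
        have hA2 : (n : ℚ) * A' = n' * A := by
          have : (n : ℤ) * A' = n' * A := by linarith
          exact_mod_cast this
        have hB2 : (n : ℚ) * B' = n' * B := by
          have : (n : ℤ) * B' = n' * B := by linarith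
          exact_mod_cast this
        have hA3 : (A' : ℚ) = n' * A / n := by
          rw [eq_div_iff hnq.ne']
          linarith
        have hB3 : (B' : ℚ) = n' * B / n := by
          rw [eq_div_iff hnq.ne']
          linarith
        refine ⟨h0, ?_, ?_⟩
        · rw [h1, hA3, hB3]
          ring
        · rw [h5, hA3, hB3]
          ring
    · refine ⟨1, 0, one_ne_zero, by norm_num, ?_⟩
      intro r a hnp h12 D hD hDa hne
      obtain ⟨A', B', h0, h1, h5, hl⟩ := viol r a hnp h12 D hD hDa hne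
      exact absurd ⟨_, A', B', h0, hl⟩ hex

end Pool.Agent.ROH
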