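import Mathlib

/-!
Project ROH (MP_c2409d_nt): algebraic independence of `Γ(1/4)/√π` and `Γ(1/3)/√π`.
Complete proof on paper: /team-store/rohr_h61.md (sections 1 - 8).

`Core` is the analytic set-up: two entire functions `T1 (x, y)`, `T2 (x, w)` on `ℂ²`, quasi-periodic
for a group `O` of vectors `u = (u_x, u_y)`; `T2` is shifted by `(u_x, conj u_y)`.
On `ℂ³` with coordinates `(x, y, w)` the group `O` acts by `(x + u_x, y + u_y, w + conj u_y)`;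
`d = w - conj y` is invariant.
-/

set_option autoImplicit false

namespace Pool.Agent.ROH

open Complex ComplexConjugate Finset

noncomputable section

/-- the analytic core data -/
structure Core where
  al : ℝ
  be : ℝ
  hal : 0 < al
  hbe : 0 < be
  T1 : ℂ × ℂ → ℂ
  T2 : ℂ × ℂ → ℂ
  d1 : Differentiable ℂ T1
  d2 : Differentiable ℂ T2
  O : AddSubgroup (ℂ × ℂ)
  q1 : ∀ u ∈ O, ∃ e : ℂ, ‖e‖ = Real.exp (al * (‖u.1‖ ^ 2 + ‖u.2‖ ^ 2)) ∧ ∀ x y : ℂ,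
    T1 (x + u.1, y + u.2) = e * cexp (2 * al * (conj u.1 * x + conj u.2 * y)) * T1 (x, y)
  q2 : ∀ u ∈ O, ∃ e : ℂ, ‖e‖ = Real.exp (be * (‖u.1‖ ^ 2 + ‖u.2‖ ^ 2)) ∧ ∀ x w : ℂ,
    T2 (x + u.1, w + conj u.2) = e * cexp (2 * be * (conj u.1 * x + u.2 * w)) * T2 (x, w)
  cov : ∃ C0 : ℝ, 0 < C0 ∧ ∀ R r : ℝ, 0 < R → 0 < r → C0 ≤ R * r → ∀ x y : ℂ,
    ∃ u ∈ O, ‖x - u.1‖ ≤ R ∧ ‖y - u.2‖ ≤ r
  low : ∃ c0 : ℝ, 0 < c0 ∧ ∀ d : ℂ, ∃ x y : ℂ, c0 ≤ ‖T1 (x, y)‖ * ‖T2 (x, conj y + d)‖ *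
    Real.exp (-(al * (‖x‖ ^ 2 + ‖y‖ ^ 2) + be * (‖x‖ ^ 2 + ‖conj y + d‖ ^ 2)))

namespace Core

variable (c : Core)

/-- `F_k = (∂_y - 2 al w)^k T1` -/
def F (k : ℕ) (x y w : ℂ) : ℂ :=
  iteratedDeriv k (fun t => c.T1 (x, y + t) * cexp (-(2 * c.al * w * t))) 0

/-- `H_j = (∂_w - 2 be y)^j T2` -/
def H (j : ℕ) (x y w : ℂ) : ℂ :=
  iteratedDeriv j (fun t => c.T2 (x, w + t) * cexp (-(2 * c.be * y * t))) 0

/-- the function `f = ∑ p_kj F_k H_j` -/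
def f (K : ℕ) (p : ℕ → ℕ → ℂ) (x y w : ℂ) : ℂ :=
  ∑ k ∈ range K, ∑ j ∈ range K, p k j * (c.F k x y w * c.H j x y w)

/-- weight of `T1` -/
def w1 (x y : ℂ) : ℝ := Real.exp (-(c.al * (‖x‖ ^ 2 + ‖y‖ ^ 2)))

/-- weight of `T2` -/
def w2 (x w : ℂ) : ℝ := Real.exp (-(c.be * (‖x‖ ^ 2 + ‖w‖ ^ 2)))

/-- the invariant norm of `f` at a point -/
def nf (K : ℕ) (p : ℕ → ℕ → ℂ) (x y w : ℂ) : ℝ := ‖c.f K p x y w‖ * (c.w1 x y * c.w2 x w)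

/-- `S(d)`: the supremum of the invariant norm over all points with `w = conj y + d` -/
def S (K : ℕ) (p : ℕ → ℕ → ℂ) (d : ℂ) : ℝ := ⨆ z : ℂ × ℂ, c.nf K p z.1 z.2 (conj z.2 + d)

/-- `f` vanishes to order `≥ T` at `0` -/
def Van (K : ℕ) (p : ℕ → ℕ → ℂ) (T : ℕ) : Prop :=
  ∀ x y w : ℂ, ∀ n < T, iteratedDeriv n (fun t : ℂ => c.f K p (t * x) (t * y) (t * w)) 0 = 0

end Core

/-- `∂_X^i ∂_Y^l P / (i! l!)` for `P = ∑_{k,j<K} p_kj X^k Y^j` -/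
def Pd (K : ℕ) (p : ℕ → ℕ → ℂ) (i l : ℕ) (X Y : ℂ) : ℂ :=
  ∑ k ∈ range K, ∑ j ∈ range K, p k j * ((k.choose i : ℂ) * (j.choose l : ℂ) *
    (X ^ (k - i) * Y ^ (j - l)))

/-- sum of the absolute values of the coefficients -/
def nP (K : ℕ) (p : ℕ → ℕ → ℂ) : ℝ := ∑ k ∈ range K, ∑ j ∈ range K, ‖p k j‖

end

end Pool.Agent.ROH
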