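import Pool.Agent.ROH.Defs

/-!
ROH-Hol. `F_k`, `H_j`, `f` are entire functions of `(x, y, w)`: the directional derivatives of an entire
function of several variables are entire (Cauchy integral, differentiation under the integral).
-/

set_option autoImplicit false

namespace Pool.Agent.ROH

open Complex ComplexConjugate Finset

private theorem norm_fderiv_le' {E : Type*} [NormedAddCommGroup E] [NormedSpace ℂ E]
    {f : E → ℂ} {y : E} {ρ C : ℝ} (hρ : 0 < ρ) (hC : 0 ≤ C)
    (hf : DifferentiableOn ℂ f (Metric.ball y ρ)) (hb : ∀ x ∈ Metric.ball y ρ, ‖f x‖ ≤ C) :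
    ‖fderiv ℂ f y‖ ≤ C / (ρ / 2) := by
  apply ContinuousLinearMap.opNorm_le_bound _ (by positivity)
  intro v
  by_cases hv : v = 0
  · simp [hv]
  have hv0 : 0 < ‖v‖ := norm_pos_iff.2 hv
  have hfy : DifferentiableAt ℂ f y := (hf y (Metric.mem_ball_self hρ)).differentiableAt
    (Metric.isOpen_ball.mem_nhds (Metric.mem_ball_self hρ))
  have hline : HasDerivAt (fun s : ℂ => y + s • v) v 0 := by
    have := ((hasDerivAt_id (0 : ℂ)).smul_const v).const_add y
    simpa using this
  have hd : HasDerivAt (fun s : ℂ => f (y + s • v)) (fderiv ℂ f y v) 0 := by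
    have h1 : HasFDerivAt f (fderiv ℂ f y) (y + (0 : ℂ) • v) := by
      simpa using hfy.hasFDerivAt
    exact h1.comp_hasDerivAt (0 : ℂ) hline
  have hR : 0 < ρ / 2 / ‖v‖ := by positivity
  have hmem : ∀ s : ℂ, ‖s‖ ≤ ρ / 2 / ‖v‖ → y + s • v ∈ Metric.ball y ρ := by
    intro s hs
    rw [Metric.mem_ball, dist_eq_norm, add_sub_cancel_left, norm_smul]
    calc ‖s‖ * ‖v‖ ≤ ρ / 2 / ‖v‖ * ‖v‖ := by gcongr
      _ = ρ / 2 := div_mul_cancel₀ _ hv0.ne'
      _ < ρ := by linarith
  have key : ‖fderiv ℂ f y v‖ ≤ C / (ρ / 2 / ‖v‖) := by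
    rw [← hd.deriv]
    apply Complex.norm_deriv_le_of_forall_mem_sphere_norm_le hR
    · apply DifferentiableOn.diffContOnCl
      rw [closure_ball _ hR.ne']
      intro s hs
      rw [mem_closedBall_zero_iff] at hs
      have h2 : DifferentiableAt ℂ f (y + s • v) :=
        (hf _ (hmem s hs)).differentiableAt (Metric.isOpen_ball.mem_nhds (hmem s hs))
      apply DifferentiableAt.differentiableWithinAt
      exact h2.comp s (by fun_prop)
    · intro s hs
      rw [mem_sphere_zero_iff_norm] at hs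
      exact hb _ (hmem s hs.le)
  calc ‖fderiv ℂ f y v‖ ≤ C / (ρ / 2 / ‖v‖) := key
    _ = C / (ρ / 2) * ‖v‖ := by field_simp

private theorem differentiable_fderiv_apply {f : (ℂ × ℂ × ℂ) × ℂ → ℂ}
    (hf : Differentiable ℂ f) (e : (ℂ × ℂ × ℂ) × ℂ) :
    Differentiable ℂ (fun y => fderiv ℂ f y e) := by
  intro y0
  obtain ⟨δ, hδ0, hbd⟩ := Metric.continuousAt_iff.1 (hf y0).continuousAt 1 one_pos
  set C : ℝ := ‖f y0‖ + 1 with hC
  have hC0 : 0 ≤ C := by positivity
  have hbδ : ∀ x ∈ Metric.ball y0 δ, ‖f x‖ ≤ C := by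
    intro x hx
    have h1 := hbd (Metric.mem_ball.1 hx)
    rw [dist_eq_norm] at h1
    calc ‖f x‖ = ‖f y0 + (f x - f y0)‖ := by rw [add_sub_cancel]
      _ ≤ ‖f y0‖ + ‖f x - f y0‖ := norm_add_le _ _
      _ ≤ C := by rw [hC]; linarith
  have hfd : ∀ x ∈ Metric.ball y0 (δ / 2), ‖fderiv ℂ f x‖ ≤ C / (δ / 2 / 2) := by
    intro x hx
    have hsub : Metric.ball x (δ / 2) ⊆ Metric.ball y0 δ := by
      apply Metric.ball_subset_ball'
      have := Metric.mem_ball.1 hx
      linarith
    exact norm_fderiv_le' (by positivity) hC0 hf.differentiableOn fun z hz => hbδ z (hsub hz)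
  set κ : ℝ := δ / (4 * (‖e‖ + 1)) with hκ
  have hκ0 : 0 < κ := by positivity
  have hκe : ∀ s : ℂ, ‖s‖ ≤ κ → ‖s • e‖ ≤ δ / 4 := by
    intro s hs
    rw [norm_smul]
    calc ‖s‖ * ‖e‖ ≤ κ * (‖e‖ + 1) := by gcongr; linarith
      _ = δ / 4 := by rw [hκ]; field_simp
  have hmem : ∀ y ∈ Metric.ball y0 (δ / 4), ∀ s : ℂ, ‖s‖ ≤ κ →
      y + s • e ∈ Metric.ball y0 (δ / 2) := by
    intro y hy s hs
    rw [Metric.mem_ball, dist_eq_norm] at hy ⊢
    calc ‖y + s • e - y0‖ = ‖(y - y0) + s • e‖ := by congr 1; abel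
      _ ≤ ‖y - y0‖ + ‖s • e‖ := norm_add_le _ _
      _ < δ / 4 + δ / 4 := add_lt_add_of_lt_of_le hy (hκe s hs)
      _ = δ / 2 := by ring
  set a : ℝ → ℂ := fun θ => (2 * Real.pi * Complex.I : ℂ)⁻¹ *
    (deriv (circleMap 0 κ) θ * ((circleMap 0 κ θ - 0) ^ 2)⁻¹) with ha
  have hcm : Continuous (circleMap (0 : ℂ) κ) := continuous_circleMap 0 κ
  have hcm0 : ∀ θ, circleMap (0 : ℂ) κ θ ≠ 0 := fun θ => circleMap_ne_center hκ0.ne'
  have hac : Continuous a := by
    have h1 : deriv (circleMap (0 : ℂ) κ) = fun θ => circleMap 0 κ θ * Complex.I := by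
      funext θ
      exact deriv_circleMap 0 κ θ
    rw [ha, h1]
    refine continuous_const.mul ((hcm.mul continuous_const).mul ?_)
    refine Continuous.inv₀ ((hcm.sub continuous_const).pow 2) fun θ => ?_
    rw [sub_zero]
    exact pow_ne_zero _ (hcm0 θ)
  have hnc : ∀ θ, ‖circleMap (0 : ℂ) κ θ‖ ≤ κ := fun θ => by
    rw [norm_circleMap_zero, abs_of_pos hκ0]
  have hform : ∀ y, fderiv ℂ f y e =
      ∫ θ in (0 : ℝ)..2 * Real.pi, a θ * f (y + circleMap 0 κ θ • e) := by
    intro y
    have hg : DifferentiableOn ℂ (fun s : ℂ => f (y + s • e)) Set.univ := by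
      intro s _
      apply DifferentiableAt.differentiableWithinAt
      exact (hf (y + s • e)).comp s (by fun_prop)
    have hd : HasDerivAt (fun s : ℂ => f (y + s • e)) (fderiv ℂ f y e) 0 := by
      have hline : HasDerivAt (fun s : ℂ => y + s • e) e 0 := by
        have := ((hasDerivAt_id (0 : ℂ)).smul_const e).const_add y
        simpa using this
      have h1 : HasFDerivAt f (fderiv ℂ f y) (y + (0 : ℂ) • e) := by
        simpa using (hf y).hasFDerivAt
      exact h1.comp_hasDerivAt (0 : ℂ) hline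
    rw [← hd.deriv, ← Complex.two_pi_I_inv_smul_circleIntegral_sub_sq_inv_smul_of_differentiable
      isOpen_univ (Set.subset_univ _) hg (Metric.mem_ball_self hκ0), circleIntegral, smul_eq_mul,
      ← intervalIntegral.integral_const_mul]
    apply intervalIntegral.integral_congr
    intro θ _
    simp only [ha, smul_eq_mul]
    ring
  have hmain : HasFDerivAt (fun y => ∫ θ in (0 : ℝ)..2 * Real.pi, a θ * f (y + circleMap 0 κ θ • e))
      (∫ θ in (0 : ℝ)..2 * Real.pi, a θ • fderiv ℂ f (y0 + circleMap 0 κ θ • e)) y0 := by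
    have hcF : ∀ y, Continuous fun θ => a θ * f (y + circleMap 0 κ θ • e) := by
      intro y
      exact hac.mul (hf.continuous.comp (by fun_prop))
    apply intervalIntegral.hasFDerivAt_integral_of_dominated_of_fderiv_le
      (F := fun y θ => a θ * f (y + circleMap 0 κ θ • e))
      (F' := fun y θ => a θ • fderiv ℂ f (y + circleMap 0 κ θ • e))
      (bound := fun θ => ‖a θ‖ * (C / (δ / 2 / 2)))
      (Metric.ball_mem_nhds y0 (by positivity : 0 < δ / 4))
    · exact Filter.Eventually.of_forall fun y => (hcF y).aestronglyMeasurable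
    · exact (hcF y0).intervalIntegrable _ _
    · apply MeasureTheory.AEStronglyMeasurable.smul hac.aestronglyMeasurable
      have hm : Measurable fun θ => fderiv ℂ f (y0 + circleMap 0 κ θ • e) :=
        (measurable_fderiv ℂ f).comp (Continuous.measurable (by fun_prop))
      exact hm.aestronglyMeasurable
    · refine Filter.Eventually.of_forall fun θ _ y hy => ?_
      rw [norm_smul]
      exact mul_le_mul_of_nonneg_left (hfd _ (hmem y hy _ (hnc θ))) (norm_nonneg _)
    · exact (Continuous.mul hac.norm continuous_const).intervalIntegrable _ _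
    · refine Filter.Eventually.of_forall fun θ _ y _ => ?_
      have h1 : HasFDerivAt f (fderiv ℂ f (y + circleMap 0 κ θ • e))
          (y + circleMap 0 κ θ • e) := (hf _).hasFDerivAt
      have h2 := h1.comp y ((hasFDerivAt_id y).add_const (circleMap 0 κ θ • e))
      rw [ContinuousLinearMap.comp_id] at h2
      exact h2.const_mul (a θ)
  have hev : (fun y => fderiv ℂ f y e) =
      fun y => ∫ θ in (0 : ℝ)..2 * Real.pi, a θ * f (y + circleMap 0 κ θ • e) := by
    funext y
    exact hform y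
  rw [hev]
  exact hmain.differentiableAt

private theorem differentiable_iteratedDeriv' {g : ℂ × ℂ × ℂ → ℂ → ℂ}
    (hg : Differentiable ℂ (fun z : (ℂ × ℂ × ℂ) × ℂ => g z.1 z.2)) (k : ℕ) :
    Differentiable ℂ (fun z : (ℂ × ℂ × ℂ) × ℂ => iteratedDeriv k (g z.1) z.2) := by
  induction k with
  | zero => simpa only [iteratedDeriv_zero] using hg
  | succ k ih =>
    have h1 := differentiable_fderiv_apply ih (0, 1)
    have h2 : (fun z : (ℂ × ℂ × ℂ) × ℂ => iteratedDeriv (k + 1) (g z.1) z.2) =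
        fun z => fderiv ℂ (fun z : (ℂ × ℂ × ℂ) × ℂ => iteratedDeriv k (g z.1) z.2) z (0, 1) := by
      funext z
      rw [iteratedDeriv_succ]
      have h3 : HasDerivAt (fun s : ℂ => (z.1, s)) ((0 : ℂ × ℂ × ℂ), (1 : ℂ)) z.2 :=
        (hasDerivAt_const z.2 z.1).prodMk (hasDerivAt_id z.2)
      have h4 := (ih (z.1, z.2)).hasFDerivAt.comp_hasDerivAt z.2 h3
      exact h4.deriv
    rw [h2]
    exact h1

/-- iterated derivatives of an entire function in one of the variables are entire -/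
theorem differentiable_iteratedDeriv {g : ℂ × ℂ × ℂ → ℂ → ℂ}
    (hg : Differentiable ℂ (fun z : (ℂ × ℂ × ℂ) × ℂ => g z.1 z.2)) (k : ℕ) :
    Differentiable ℂ (fun z : ℂ × ℂ × ℂ => iteratedDeriv k (g z) 0) := by
  have h := differentiable_iteratedDeriv' hg k
  exact h.comp (differentiable_id.prodMk (differentiable_const (0 : ℂ)))

namespace Core

variable (c : Core)

theorem differentiable_F (k : ℕ) :
    Differentiable ℂ (fun z : ℂ × ℂ × ℂ => c.F k z.1 z.2.1 z.2.2) := by
  unfold F
  refine differentiable_iteratedDeriv (g := fun (z : ℂ × ℂ × ℂ) (t : ℂ) =>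
    c.T1 (z.1, z.2.1 + t) * cexp (-(2 * c.al * z.2.2 * t))) ?_ k
  refine Differentiable.mul ?_ ?_
  · exact c.d1.comp (by fun_prop)
  · fun_prop

theorem differentiable_H (j : ℕ) :
    Differentiable ℂ (fun z : ℂ × ℂ × ℂ => c.H j z.1 z.2.1 z.2.2) := by
  unfold H
  refine differentiable_iteratedDeriv (g := fun (z : ℂ × ℂ × ℂ) (t : ℂ) =>
    c.T2 (z.1, z.2.2 + t) * cexp (-(2 * c.be * z.2.1 * t))) ?_ j
  refine Differentiable.mul ?_ ?_
  · exact c.d2.comp (by fun_prop)
  · fun_prop

theorem differentiable_f (K : ℕ) (p : ℕ → ℕ → ℂ) :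
    Differentiable ℂ (fun z : ℂ × ℂ × ℂ => c.f K p z.1 z.2.1 z.2.2) := by
  unfold f
  refine Differentiable.fun_sum fun k _ => Differentiable.fun_sum fun j _ => ?_
  exact (differentiable_const _).mul ((c.differentiable_F k).mul (c.differentiable_H j))

end Core

end Pool.Agent.ROH
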