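import Pool.Agent.ROH.BDefs
import Pool.Agent.ROH.Hol

/-!
ROH-JetMul. Product rule for the coefficients `J` of entire functions of two variables.

For fixed `l` the Leibniz rule (`iteratedDeriv_mul`) in `t` gives
`iteratedDeriv i (g l * h l) 0 / i! = ∑ (iteratedDeriv b (g l) 0 / b!) (iteratedDeriv (i-b) (h l) 0 / (i-b)!)`; the functions
`l ↦ iteratedDeriv b (g l) 0` are entire (`differentiable_iteratedDeriv` with a function of `ℂ × ℂ × ℂ` depending on the first
coordinate only); Leibniz rule in `l`.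
-/

set_option autoImplicit false

namespace Pool.Agent.ROH

open Complex ComplexConjugate Finset

theorem ent2_iteratedDeriv {g : ℂ → ℂ → ℂ} (hg : Ent2 g) (i : ℕ) :
    Differentiable ℂ (fun l => iteratedDeriv i (g l) 0) := by
  have h1 : Differentiable ℂ (fun z : (ℂ × ℂ × ℂ) × ℂ => g z.1.1 z.2) := by
    have h2 : Differentiable ℂ (fun z : (ℂ × ℂ × ℂ) × ℂ => ((z.1.1, z.2) : ℂ × ℂ)) := by fun_prop
    exact Differentiable.comp (g := fun z : ℂ × ℂ => g z.1 z.2) hg h2
  have h3 := differentiable_iteratedDeriv (g := fun (z : ℂ × ℂ × ℂ) t => g z.1 t) h1 i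
  have h4 : Differentiable ℂ (fun l : ℂ => ((l, 0, 0) : ℂ × ℂ × ℂ)) := by fun_prop
  exact h3.comp h4

theorem ent2_right {g : ℂ → ℂ → ℂ} (hg : Ent2 g) (l : ℂ) : Differentiable ℂ (g l) := by
  have h4 : Differentiable ℂ (fun t : ℂ => ((l, t) : ℂ × ℂ)) := by fun_prop
  exact Differentiable.comp (g := fun z : ℂ × ℂ => g z.1 z.2) hg h4

private theorem leib {f g : ℂ → ℂ} (hf : Differentiable ℂ f) (hg : Differentiable ℂ g) (n : ℕ) :
    iteratedDeriv n (fun t => f t * g t) 0 / (n.factorial : ℂ) =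
      ∑ b ∈ range (n + 1), (iteratedDeriv b f 0 / (b.factorial : ℂ)) *
        (iteratedDeriv (n - b) g 0 / ((n - b).factorial : ℂ)) := by
  rw [iteratedDeriv_fun_mul (hf.contDiff (n := n)).contDiffAt (hg.contDiff (n := n)).contDiffAt,
    Finset.sum_div]
  refine Finset.sum_congr rfl fun b hb => ?_
  have hb' : b ≤ n := Nat.lt_succ_iff.1 (Finset.mem_range.1 hb)
  rw [Nat.cast_choose ℂ hb']
  have h1 : (n.factorial : ℂ) ≠ 0 := Nat.cast_ne_zero.2 n.factorial_ne_zero
  have h2 : (b.factorial : ℂ) ≠ 0 := Nat.cast_ne_zero.2 b.factorial_ne_zero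
  have h3 : ((n - b).factorial : ℂ) ≠ 0 := Nat.cast_ne_zero.2 (n - b).factorial_ne_zero
  field_simp

theorem J_mul {g h : ℂ → ℂ → ℂ} (hg : Ent2 g) (hh : Ent2 h) (n i : ℕ) :
    J (fun l t => g l t * h l t) n i =
      ∑ a ∈ range (n + 1), ∑ b ∈ range (i + 1), J g a b * J h (n - a) (i - b) := by
  have hi : (i.factorial : ℂ) ≠ 0 := Nat.cast_ne_zero.2 i.factorial_ne_zero
  have h1 : (fun l => iteratedDeriv i (fun t => g l t * h l t) 0) =
      fun l => ∑ b ∈ range (i + 1), ((i.factorial : ℂ) / ((b.factorial : ℂ) *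
        ((i - b).factorial : ℂ))) * (iteratedDeriv b (g l) 0 * iteratedDeriv (i - b) (h l) 0) := by
    funext l
    have h2 := leib (ent2_right hg l) (ent2_right hh l) i
    rw [div_eq_iff hi] at h2
    rw [h2, Finset.sum_mul]
    refine Finset.sum_congr rfl fun b _ => ?_
    have h2 : (b.factorial : ℂ) ≠ 0 := Nat.cast_ne_zero.2 b.factorial_ne_zero
    have h3 : ((i - b).factorial : ℂ) ≠ 0 := Nat.cast_ne_zero.2 (i - b).factorial_ne_zero
    field_simp
  have hd : ∀ b, Differentiable ℂ fun l => iteratedDeriv b (g l) 0 * iteratedDeriv (i - b) (h l) 0 :=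
    fun b => (ent2_iteratedDeriv hg b).mul (ent2_iteratedDeriv hh (i - b))
  unfold J
  rw [h1, iteratedDeriv_fun_sum (fun b _ => (((hd b).const_mul _).contDiff (n := n)).contDiffAt),
    Finset.sum_div, Finset.sum_comm]
  refine Finset.sum_congr rfl fun b _ => ?_
  rw [iteratedDeriv_const_mul_field]
  have h4 := leib (ent2_iteratedDeriv hg b) (ent2_iteratedDeriv hh (i - b)) n
  have hn : (n.factorial : ℂ) ≠ 0 := Nat.cast_ne_zero.2 n.factorial_ne_zero
  rw [div_eq_iff hn] at h4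
  rw [h4, Finset.sum_mul, Finset.mul_sum, Finset.sum_div]
  refine Finset.sum_congr rfl fun a _ => ?_
  have h2 : (b.factorial : ℂ) ≠ 0 := Nat.cast_ne_zero.2 b.factorial_ne_zero
  have h3 : ((i - b).factorial : ℂ) ≠ 0 := Nat.cast_ne_zero.2 (i - b).factorial_ne_zero
  have h5 : (a.factorial : ℂ) ≠ 0 := Nat.cast_ne_zero.2 a.factorial_ne_zero
  have h6 : ((n - a).factorial : ℂ) ≠ 0 := Nat.cast_ne_zero.2 (n - a).factorial_ne_zero
  field_simp

theorem Ent2.mul {g h : ℂ → ℂ → ℂ} (hg : Ent2 g) (hh : Ent2 h) : Ent2 (fun l t => g l t * h l t) := by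
  exact Differentiable.mul (𝔸 := ℂ) hg hh

end Pool.Agent.ROH
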