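import Pool.Agent.ROH.Ifc
import Pool.Agent.GP.DedMj

/-!
Project ROH, block Z, part 1: from the main theorem on `v1`, `v2` to the algebraic independence of
`Γ(1/4)/√π` and `Γ(1/3)/√π`.
-/

set_option autoImplicit false

namespace Pool.Agent.ROH

open Complex IntermediateField Pool.Agent.GP.DedM

/-- algebraic over `ℚ` implies algebraic over `ℚ(θ)` -/
theorem alg_up {θ : ℂ} {x : ℝ} (h : IsAlgebraic ℚ x) : IsAlgebraic ℚ⟮θ⟯ (x : ℂ) :=
  (alg_complex h).tower_top _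

theorem alg_down {x : ℝ} (h : IsAlgebraic ℚ (x : ℂ)) : IsAlgebraic ℚ x := by
  have h2 : (x : ℂ) = algebraMap ℝ ℂ x := rfl
  rw [h2] at h
  exact (isAlgebraic_algebraMap_iff (algebraMap ℝ ℂ).injective).1 h

theorem alg_int {θ : ℂ} {x : ℝ} (h : IsAlgebraic ℚ⟮θ⟯ ((x ^ 2 : ℝ) : ℂ)) :
    IsAlgebraic ℚ⟮θ⟯ (x : ℂ) := by
  rw [ofReal_pow] at h
  exact h.of_pow two_pos

/-- Chudnovsky's theorem for `Γ(1/4)` -/
theorem gamma4 : Transcendental ℚ⟮(Real.pi : ℂ)⟯ ((Real.Gamma (1 / 4) : ℝ) : ℂ) := by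
  classical
  obtain ⟨j, hj, hja⟩ : ∃ j : ℕ, (j = 1 ∨ j = 3) ∧
      AlgebraicIndependent ℚ ![Real.pi, Real.Gamma ((j : ℝ) / (4 : ℕ))] := by
    have h1 := thmU_pi thmAll (N := 4) (by norm_num) (by norm_num)
    have h2 : (4 : ℕ).totient = 2 := by decide
    rw [h2] at h1
    obtain ⟨j, hj⟩ := Finset.card_pos.1 (Nat.pos_of_ne_zero fun h0 => by
      rw [h0] at h1
      omega)
    rw [Finset.mem_filter, Finset.mem_Ico] at hj
    refine ⟨j, ?_, hj.2.2⟩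
    have h6 := hj.2.1
    have : j = 1 ∨ j = 2 ∨ j = 3 := by omega
    rcases this with rfl | rfl | rfl
    · exact Or.inl rfl
    · exact absurd h6 (by decide)
    · exact Or.inr rfl
  have hself := self_alg (Real.pi : ℂ)
  have h1 := not_both hja hself
  rcases hj with rfl | rfl
  · have e : (((1 : ℕ) : ℝ)) / ((4 : ℕ) : ℝ) = 1 / 4 := by norm_num
    rwa [e] at h1
  · have e : (((3 : ℕ) : ℝ)) / ((4 : ℕ) : ℝ) = 3 / 4 := by norm_num
    rw [e] at h1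
    intro h4
    apply h1
    have h5 := Real.Gamma_mul_Gamma_one_sub (1 / 4)
    have e2 : (1 : ℝ) - 1 / 4 = 3 / 4 := by norm_num
    rw [e2] at h5
    have hg : Real.Gamma (1 / 4) ≠ 0 := (Real.Gamma_pos_of_pos (by norm_num)).ne'
    have e3 : Real.pi * (1 / 4) = Real.pi / 4 := by ring
    rw [e3, Real.sin_pi_div_four] at h5
    have h6 : Real.Gamma (3 / 4) = Real.pi * (Real.Gamma (1 / 4))⁻¹ * (Real.sqrt 2 / 2)⁻¹ := by
      field_simp
      field_simp at h5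
      linarith
    rw [h6]
    push_cast
    refine (hself.mul h4.inv).mul ?_
    have h8 : IsAlgebraic ℚ ((Real.sqrt 2 / 2 : ℝ)) := by
      have h9 : IsAlgebraic ℚ (Real.sqrt 2) := by
        apply IsAlgebraic.of_pow (n := 2) two_pos
        rw [Real.sq_sqrt (by norm_num)]
        exact isAlgebraic_algebraMap (A := ℝ) (2 : ℚ)
      exact h9.mul (by
        have : ((2 : ℝ)⁻¹) = algebraMap ℚ ℝ (2⁻¹) := by simp
        rw [this]; exact isAlgebraic_algebraMap _)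
    have h9 := alg_up (θ := (Real.pi : ℂ)) h8
    push_cast at h9
    exact h9.inv

theorem algInd_main (hM : MainV) (hSI : SigmaI) (hSR : SigmaR) (hLI : LatticeI)
    (hLR : LatticeR) : AlgebraicIndependent ℚ
      ![Real.Gamma (1 / 4) / Real.sqrt Real.pi, Real.Gamma (1 / 3) / Real.sqrt Real.pi] := by
  obtain ⟨v1, L1, g1, a1, hv1, ho1, ho1', hg1, hg1', ha1, ha10, e1⟩ := hLI
  obtain ⟨v2, L2, g2, a2, hv2, ho2, ho2', hg2, hg2', ha2, ha20, e2⟩ := hLR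
  obtain ⟨s1, n1, hn1, hd1, hr1, hq1⟩ := hSI v1 L1 g1 hv1 ho1 ho1' hg1 hg1'
  obtain ⟨s2, n2, hn2, hd2, hr2, hq2⟩ := hSR v2 L2 g2 hv2 ho2 ho2' hg2 hg2'
  have hpi := Real.pi_pos
  have hsp : 0 < Real.sqrt Real.pi := Real.sqrt_pos.2 hpi
  have hG4 : 0 < Real.Gamma (1 / 4) := Real.Gamma_pos_of_pos (by norm_num)
  have hG3 : 0 < Real.Gamma (1 / 3) := Real.Gamma_pos_of_pos (by norm_num)
  set x := Real.Gamma (1 / 4) / Real.sqrt Real.pi with hx
  set y := Real.Gamma (1 / 3) / Real.sqrt Real.pi with hy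
  have hx0 : 0 < x := div_pos hG4 hsp
  have hy0 : 0 < y := div_pos hG3 hsp
  have hs2 : Real.sqrt Real.pi ^ 2 = Real.pi := Real.sq_sqrt hpi.le
  have hth : Real.pi / v1 ^ 2 = (a1 ^ 2 * x ^ 4)⁻¹ := by
    have h1 : v1 ^ 2 = a1 ^ 2 * (Real.Gamma (1 / 4) ^ 4 / Real.pi) := by
      rw [e1]
      have : (a1 * (Real.Gamma (1 / 4) ^ 2 / Real.sqrt Real.pi)) ^ 2 =
        a1 ^ 2 * (Real.Gamma (1 / 4) ^ 4 / Real.sqrt Real.pi ^ 2) := by ring
      rw [this, hs2]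
    have h2 : x ^ 4 = Real.Gamma (1 / 4) ^ 4 / Real.pi ^ 2 := by
      rw [hx, div_pow]
      congr 1
      calc Real.sqrt Real.pi ^ 4 = (Real.sqrt Real.pi ^ 2) ^ 2 := by ring
        _ = Real.pi ^ 2 := by rw [hs2]
    rw [h1, h2]
    field_simp
  have hc : v2 / v1 = a2 / a1 * (y ^ 3 / x ^ 2) := by
    have h2 : x ^ 2 = Real.Gamma (1 / 4) ^ 2 / Real.pi := by
      rw [hx, div_pow, hs2]
    have h3 : y ^ 3 = Real.Gamma (1 / 3) ^ 3 / (Real.pi * Real.sqrt Real.pi) := by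
      rw [hy, div_pow]
      congr 1
      calc Real.sqrt Real.pi ^ 3 = Real.sqrt Real.pi ^ 2 * Real.sqrt Real.pi := by ring
        _ = Real.pi * Real.sqrt Real.pi := by rw [hs2]
    rw [h2, h3, e1, e2]
    have h5 : Real.pi = Real.sqrt Real.pi * Real.sqrt Real.pi := by rw [← sq, hs2]
    have h6 : a2 * (Real.Gamma (1 / 3) ^ 3 / Real.pi) / (a1 * (Real.Gamma (1 / 4) ^ 2 /
        Real.sqrt Real.pi)) = a2 / a1 * (Real.Gamma (1 / 3) ^ 3 / Real.Gamma (1 / 4) ^ 2) *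
          (Real.sqrt Real.pi / Real.pi) := by
      field_simp
    have h7 : a2 / a1 * (Real.Gamma (1 / 3) ^ 3 / (Real.pi * Real.sqrt Real.pi) /
        (Real.Gamma (1 / 4) ^ 2 / Real.pi)) =
        a2 / a1 * (Real.Gamma (1 / 3) ^ 3 / Real.Gamma (1 / 4) ^ 2) * (1 / Real.sqrt Real.pi) := by
      field_simp
    have h8 : Real.sqrt Real.pi / Real.pi = 1 / Real.sqrt Real.pi := by
      rw [div_eq_div_iff hpi.ne' hsp.ne', one_mul, ← h5]
    rw [h6, h7, h8]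
  -- `x` is transcendental, even over `ℚ(π)`... here: `π/v1²` is transcendental
  have hself := self_alg (Real.pi : ℂ)
  have hxT : Transcendental ℚ x := by
    intro hcon
    apply gamma4
    have h1 : Real.Gamma (1 / 4) = x * Real.sqrt Real.pi := by
      rw [hx]; field_simp
    rw [h1]
    push_cast
    refine (alg_up hcon).mul ?_
    apply alg_int
    rw [hs2]
    exact hself
  have hthT : Transcendental ℚ (Real.pi / v1 ^ 2) := by
    intro hcon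
    apply hxT
    apply IsAlgebraic.of_pow (n := 4) (by norm_num)
    have h1 : x ^ 4 = (Real.pi / v1 ^ 2)⁻¹ * (a1 ^ 2)⁻¹ := by
      rw [hth]
      field_simp
    rw [h1]
    exact hcon.inv.mul (ha1.pow 2).inv
  have hthC : Transcendental ℚ ((Real.pi / v1 ^ 2 : ℝ) : ℂ) := fun h => hthT (alg_down h)
  have hmain := hM v1 v2 s1 s2 n1 n2 hv1 hv2 hn1 hn2 hd1 hd2 hr1 hr2 hq1 hq2 hthC
  have hind : AlgebraicIndependent ℚ ![Real.pi / v1 ^ 2, v2 / v1] := algInd2 hthT hmain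
  have hxself := self_alg (x : ℂ)
  have h1 : IsAlgebraic ℚ⟮(x : ℂ)⟯ ((Real.pi / v1 ^ 2 : ℝ) : ℂ) := by
    rw [hth]
    rw [ofReal_inv, ofReal_mul, ofReal_pow x]
    exact ((alg_up (ha1.pow 2)).mul (hxself.pow 4)).inv
  have h2 := not_both hind h1
  apply algInd2 hxT
  intro hya
  apply h2
  rw [hc]
  have h3 : ((a2 / a1 * (y ^ 3 / x ^ 2) : ℝ) : ℂ) =
      ((a2 : ℂ) * (a1 : ℂ)⁻¹) * ((y : ℂ) ^ 3 * ((x : ℂ) ^ 2)⁻¹) := by
    push_cast
    ring
  rw [h3]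
  exact ((alg_up ha2).mul (alg_up ha1).inv).mul ((hya.pow 3).mul (hxself.pow 2).inv)

end Pool.Agent.ROH
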