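import Mathlib

/-!
ROH-Pig. Box principle for complex linear forms (Mathlib only).
-/

set_option autoImplicit false

namespace Pool.Agent.ROH

open Finset

private theorem pig_close (R e t t' : ℝ) (he : 0 < e) (ht : 0 ≤ t + R) (ht' : 0 ≤ t' + R)
    (h : ⌊(t + R) / e⌋₊ = ⌊(t' + R) / e⌋₊) : |t - t'| ≤ e := by
  have h1 : (⌊(t + R) / e⌋₊ : ℝ) ≤ (t + R) / e := Nat.floor_le (div_nonneg ht he.le)
  have h2 : (t + R) / e < ⌊(t + R) / e⌋₊ + 1 := Nat.lt_floor_add_one _
  have h3 : (⌊(t' + R) / e⌋₊ : ℝ) ≤ (t' + R) / e := Nat.floor_le (div_nonneg ht' he.le)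
  have h4 : (t' + R) / e < ⌊(t' + R) / e⌋₊ + 1 := Nat.lt_floor_add_one _
  rw [← h] at h3 h4
  have h5 : (t + R) / e - (t' + R) / e = (t - t') / e := by
    rw [← sub_div]
    congr 1
    ring
  have h6 : |(t - t') / e| ≤ 1 := by
    rw [← h5, abs_le]
    constructor <;> linarith
  rw [abs_div, abs_of_pos he, div_le_one he] at h6
  exact h6

theorem box_principle {ι μ : Type*} [Fintype ι] [Fintype μ] (a : μ → ι → ℂ) (A ε : ℝ) (B : ℕ)
    (hA : 0 ≤ A) (hε : 0 < ε) (ha : ∀ m, ∑ i, ‖a m i‖ ≤ A)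
    (h : 2 * (Fintype.card μ : ℝ) * Real.log (4 * A * B / ε + 2) <
      (Fintype.card ι : ℝ) * Real.log (B + 1)) :
    ∃ N : ι → ℤ, N ≠ 0 ∧ (∀ i, |N i| ≤ B) ∧ ∀ m, ‖∑ i, a m i * (N i : ℂ)‖ ≤ ε := by
  classical
  have hR : 0 ≤ A * B := by positivity
  have he : 0 < ε / 2 := by positivity
  set Q : ℕ := ⌊4 * A * B / ε⌋₊ + 1 with hQ
  -- the linear forms
  let L : μ → (ι → Fin (B + 1)) → ℂ := fun m N => ∑ i, a m i * ((N i : ℕ) : ℂ)
  have hL : ∀ m N, ‖L m N‖ ≤ A * B := by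
    intro m N
    calc ‖L m N‖ ≤ ∑ i, ‖a m i * ((N i : ℕ) : ℂ)‖ := norm_sum_le _ _
      _ ≤ ∑ i, ‖a m i‖ * B := by
        refine Finset.sum_le_sum fun i _ => ?_
        rw [norm_mul, Complex.norm_natCast]
        refine mul_le_mul_of_nonneg_left ?_ (norm_nonneg _)
        exact_mod_cast Nat.lt_succ_iff.1 (N i).2
      _ = (∑ i, ‖a m i‖) * B := by rw [Finset.sum_mul]
      _ ≤ A * B := mul_le_mul_of_nonneg_right (ha m) (Nat.cast_nonneg _)
  have hre : ∀ m N, |(L m N).re| ≤ A * B := fun m N => (Complex.abs_re_le_norm _).trans (hL m N)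
  have him : ∀ m N, |(L m N).im| ≤ A * B := fun m N => (Complex.abs_im_le_norm _).trans (hL m N)
  have hcell : ∀ t : ℝ, |t| ≤ A * B → ⌊(t + A * B) / (ε / 2)⌋₊ < Q := by
    intro t ht
    rw [hQ, Nat.lt_succ_iff]
    apply Nat.floor_le_floor
    have h1 : t + A * B ≤ 2 * (A * B) := by
      have := (abs_le.1 ht).2
      linarith
    rw [div_le_iff₀ he]
    have h2 : 4 * A * B / ε * (ε / 2) = 2 * (A * B) := by
      field_simp
      ring
    rw [h2]
    exact h1
  let g : (ι → Fin (B + 1)) → (μ → Fin Q × Fin Q) := fun N m =>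
    (⟨_, hcell _ (hre m N)⟩, ⟨_, hcell _ (him m N)⟩)
  have hcard : Fintype.card (μ → Fin Q × Fin Q) < Fintype.card (ι → Fin (B + 1)) := by
    simp only [Fintype.card_fun, Fintype.card_prod, Fintype.card_fin]
    have hQ1 : (1 : ℝ) ≤ Q := by
      rw [hQ]
      push_cast
      have : (0 : ℝ) ≤ (⌊4 * A * B / ε⌋₊ : ℝ) := Nat.cast_nonneg _
      linarith
    have hQ2 : (Q : ℝ) ≤ 4 * A * B / ε + 2 := by
      rw [hQ]
      push_cast
      have : (⌊4 * A * B / ε⌋₊ : ℝ) ≤ 4 * A * B / ε := Nat.floor_le (by positivity)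
      linarith
    have hlog : Real.log (((Q : ℝ) * Q) ^ Fintype.card μ) < Real.log (((B : ℝ) + 1) ^ Fintype.card ι) := by
      rw [Real.log_pow, Real.log_pow, Real.log_mul (by positivity) (by positivity)]
      have h1 : Real.log Q ≤ Real.log (4 * A * B / ε + 2) := Real.log_le_log (by positivity) hQ2
      have h2 : (Fintype.card μ : ℝ) * (Real.log Q + Real.log Q) ≤
          2 * (Fintype.card μ : ℝ) * Real.log (4 * A * B / ε + 2) := by
        have h3 : (0 : ℝ) ≤ (Fintype.card μ : ℝ) := Nat.cast_nonneg _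
        nlinarith
      exact h2.trans_lt h
    have h4 := (Real.log_lt_log_iff (by positivity) (by positivity)).1 hlog
    exact_mod_cast h4
  obtain ⟨N1, N2, hne, heq⟩ := Fintype.exists_ne_map_eq_of_card_lt g hcard
  refine ⟨fun i => ((N1 i : ℕ) : ℤ) - ((N2 i : ℕ) : ℤ), ?_, ?_, ?_⟩
  · intro h0
    apply hne
    funext i
    have h1 := congrFun h0 i
    simp only [Pi.zero_apply, sub_eq_zero] at h1
    exact Fin.ext (by exact_mod_cast h1)
  · intro i
    have h1 := (N1 i).2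
    have h2 := (N2 i).2
    show |((N1 i : ℕ) : ℤ) - ((N2 i : ℕ) : ℤ)| ≤ (B : ℤ)
    rw [abs_le]
    constructor <;> omega
  · intro m
    have hsum : ∑ i, a m i * (((((N1 i : ℕ) : ℤ) - ((N2 i : ℕ) : ℤ) : ℤ)) : ℂ) = L m N1 - L m N2 := by
      show _ = ∑ i, a m i * ((N1 i : ℕ) : ℂ) - ∑ i, a m i * ((N2 i : ℕ) : ℂ)
      rw [← Finset.sum_sub_distrib]
      refine Finset.sum_congr rfl fun i _ => ?_
      push_cast
      ring
    rw [hsum]
    have h1 := congrFun heq m
    have h2 := congrArg (fun x => (x.1 : ℕ)) h1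
    have h3 := congrArg (fun x => (x.2 : ℕ)) h1
    have h4 : |(L m N1).re - (L m N2).re| ≤ ε / 2 :=
      pig_close (A * B) (ε / 2) _ _ he (by have := (abs_le.1 (hre m N1)).1; linarith)
        (by have := (abs_le.1 (hre m N2)).1; linarith) h2
    have h5 : |(L m N1).im - (L m N2).im| ≤ ε / 2 :=
      pig_close (A * B) (ε / 2) _ _ he (by have := (abs_le.1 (him m N1)).1; linarith)
        (by have := (abs_le.1 (him m N2)).1; linarith) h3
    calc ‖L m N1 - L m N2‖ ≤ |(L m N1 - L m N2).re| + |(L m N1 - L m N2).im| :=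
          Complex.norm_le_abs_re_add_abs_im _
      _ ≤ ε / 2 + ε / 2 := by
        rw [Complex.sub_re, Complex.sub_im]
        exact add_le_add h4 h5
      _ = ε := by ring

end Pool.Agent.ROH
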