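import Pool.Agent.ROH.Smp
import Pool.Agent.ROH.Pig

/-!
ROH-AuxF. The auxiliary function (section 4 and 8 of the note).

`K = n^12`, `Δ = n^8`, heights `B = ⌊exp(n^13)⌋`, `g = n^11`, `G = g² = n^22`. The coefficients are
`p k j = r1^k r2^j ∑_{d<Δ} N k j d θ^d`, with unknown integers `N k j d`, `|.| ≤ exp(n^13)`.
`log ‖p k j‖ ≤ n^13 + C (K + Δ) ≤ g²` for large `n`. For each point `z` of the net `Z` (`card ≤ C g² = C n^22`) the linear form
`N ↦ f(z) * weights` has the coefficients `a z (k,j,d) = r1^k r2^j θ^d F_k H_j w1 w2`, bounded (use `exists_bound_nf'` for the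
single coefficient family `p = Pi.single`-like, or `exists_bound_F/H`, at `w = conj y`) by `exp(C K log K)`.
Apply `box_principle` with `ε = exp(-g²)/2`: left side `≤ 2 C n^22 (n^22 + n^13 + C K log K + ...) ≤ C' n^44`,
right side `≥ K² Δ (n^13)/2... = n^45/2` (`B + 1 ≥ exp(n^13)`), fine for `n ≥ C''`.
Then `sampling` (its `p` is `0` outside `k, j < K`, or just only these matter).
-/

set_option autoImplicit false

namespace Pool.Agent.ROH

open Complex ComplexConjugate Finset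

/-- the coefficients of the auxiliary function -/
noncomputable def pc (r1 r2 θ : ℂ) (Dl : ℕ) (N : ℕ → ℕ → ℕ → ℤ) (k j : ℕ) : ℂ :=
  r1 ^ k * r2 ^ j * ∑ d ∈ range Dl, (N k j d : ℂ) * θ ^ d

namespace Core

variable (c : Core)

private theorem auxf_pow (C : ℝ) (hC : 1 ≤ C) (K k : ℕ) (hk : k < K) (y : ℂ) :
    C * (C * (Real.sqrt k + ‖conj y - conj y‖)) ^ k ≤ C * (C * Real.sqrt K) ^ K := by
  have hK : (1 : ℝ) ≤ K := by
    have h1 : 1 ≤ K := by omega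
    exact_mod_cast h1
  have h1 : (1 : ℝ) ≤ Real.sqrt K := by
    rw [← Real.sqrt_one]
    exact Real.sqrt_le_sqrt hK
  have h2 : Real.sqrt k ≤ Real.sqrt K := Real.sqrt_le_sqrt (by exact_mod_cast hk.le)
  have h3 : 1 ≤ C * Real.sqrt K := by nlinarith
  refine mul_le_mul_of_nonneg_left ?_ (by linarith)
  rw [sub_self, norm_zero, add_zero]
  have h0 := Real.sqrt_nonneg (k : ℝ)
  calc (C * Real.sqrt k) ^ k ≤ (C * Real.sqrt K) ^ k :=
        pow_le_pow_left₀ (by positivity) (mul_le_mul_of_nonneg_left h2 (by linarith)) k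
    _ ≤ (C * Real.sqrt K) ^ K := pow_le_pow_right₀ h3 hk.le

private theorem auxf_R (R : ℝ) (hR : 1 ≤ R) (r : ℂ) (hr : ‖r‖ ≤ R) (K k : ℕ) (hk : k < K) : ‖r ^ k‖ ≤ R ^ K := by
  rw [norm_pow]
  exact (pow_le_pow_left₀ (norm_nonneg _) hr k).trans (pow_le_pow_right₀ hR hk.le)

/-- the coefficient of the linear form -/
private noncomputable def auxa (r1 r2 θ : ℂ) (x y : ℂ) (k j d : ℕ) : ℂ :=
  r1 ^ k * r2 ^ j * θ ^ d * (c.F k x y (conj y) * c.H j x y (conj y)) * ((c.w1 x y * c.w2 x (conj y) : ℝ) : ℂ)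

private theorem auxa_le (r1 r2 θ : ℂ) (R C : ℝ) (hR : 1 ≤ R) (h1 : ‖r1‖ ≤ R) (h2 : ‖r2‖ ≤ R) (h3 : ‖θ‖ ≤ R) (hC : 1 ≤ C)
    (hF : ∀ (k : ℕ) (x y w : ℂ), ‖c.F k x y w‖ * c.w1 x y ≤ C * (C * (Real.sqrt k + ‖w - conj y‖)) ^ k)
    (hH : ∀ (j : ℕ) (x y w : ℂ), ‖c.H j x y w‖ * c.w2 x w ≤ C * (C * (Real.sqrt j + ‖w - conj y‖)) ^ j)
    (K Dl : ℕ) (x y : ℂ) (k j d : ℕ) (hk : k < K) (hj : j < K) (hd : d < Dl) :
    ‖auxa c r1 r2 θ x y k j d‖ ≤ R ^ K * R ^ K * R ^ Dl * ((C * (C * Real.sqrt K) ^ K) * (C * (C * Real.sqrt K) ^ K)) := by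
  unfold auxa
  have e1 := auxf_R R hR r1 h1 K k hk
  have e2 := auxf_R R hR r2 h2 K j hj
  have e3 := auxf_R R hR θ h3 Dl d hd
  have e4 := (hF k x y (conj y)).trans (auxf_pow C hC K k hk y)
  have e5 := (hH j x y (conj y)).trans (auxf_pow C hC K j hj y)
  have w1p : 0 < c.w1 x y := Real.exp_pos _
  have w2p : 0 < c.w2 x (conj y) := Real.exp_pos _
  rw [norm_mul, norm_mul, norm_mul, norm_mul, norm_mul, Complex.norm_real, Real.norm_of_nonneg (by positivity)]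
  have e6 : ‖r1 ^ k‖ * ‖r2 ^ j‖ * ‖θ ^ d‖ * (‖c.F k x y (conj y)‖ * ‖c.H j x y (conj y)‖) * (c.w1 x y * c.w2 x (conj y)) =
      (‖r1 ^ k‖ * ‖r2 ^ j‖ * ‖θ ^ d‖) * ((‖c.F k x y (conj y)‖ * c.w1 x y) * (‖c.H j x y (conj y)‖ * c.w2 x (conj y))) := by
    ring
  rw [e6]
  refine mul_le_mul ?_ ?_ (by positivity) (by positivity)
  · exact mul_le_mul (mul_le_mul e1 e2 (norm_nonneg _) (by positivity)) e3 (norm_nonneg _) (by positivity)
  · exact mul_le_mul e4 e5 (by positivity) (by positivity)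

private theorem auxf_nf (r1 r2 θ : ℂ) (K Dl : ℕ) (N : ℕ → ℕ → ℕ → ℤ) (x y : ℂ) :
    c.nf K (pc r1 r2 θ Dl N) x y (conj y) =
      ‖∑ k ∈ range K, ∑ j ∈ range K, ∑ d ∈ range Dl, auxa c r1 r2 θ x y k j d * (N k j d : ℂ)‖ := by
  have w1p : 0 < c.w1 x y := Real.exp_pos _
  have w2p : 0 < c.w2 x (conj y) := Real.exp_pos _
  unfold nf
  have e1 : ∑ k ∈ range K, ∑ j ∈ range K, ∑ d ∈ range Dl, auxa c r1 r2 θ x y k j d * (N k j d : ℂ) =
      c.f K (pc r1 r2 θ Dl N) x y (conj y) * ((c.w1 x y * c.w2 x (conj y) : ℝ) : ℂ) := by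
    unfold f
    rw [Finset.sum_mul]
    refine Finset.sum_congr rfl fun k _ => ?_
    rw [Finset.sum_mul]
    refine Finset.sum_congr rfl fun j _ => ?_
    unfold pc auxa
    rw [Finset.mul_sum, Finset.sum_mul, Finset.sum_mul]
    refine Finset.sum_congr rfl fun d _ => ?_
    ring
  rw [e1, norm_mul, Complex.norm_real, Real.norm_of_nonneg (by positivity)]

private theorem auxf_sum (r1 r2 θ : ℂ) (K Dl : ℕ) (N' : Fin K × Fin K × Fin Dl → ℤ) (N : ℕ → ℕ → ℕ → ℤ)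
    (hN : ∀ i : Fin K × Fin K × Fin Dl, N i.1 i.2.1 i.2.2 = N' i) (x y : ℂ) :
    ∑ k ∈ range K, ∑ j ∈ range K, ∑ d ∈ range Dl, auxa c r1 r2 θ x y k j d * (N k j d : ℂ) =
      ∑ i : Fin K × Fin K × Fin Dl, auxa c r1 r2 θ x y i.1 i.2.1 i.2.2 * (N' i : ℂ) := by
  rw [Fintype.sum_prod_type, Finset.sum_range]
  refine Finset.sum_congr rfl fun k _ => ?_
  rw [Fintype.sum_prod_type, Finset.sum_range]
  refine Finset.sum_congr rfl fun j _ => ?_
  rw [Finset.sum_range]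
  refine Finset.sum_congr rfl fun d _ => ?_
  rw [← hN (k, j, d)]

private theorem auxf_pc (r1 r2 θ : ℂ) (R : ℝ) (hR : 1 ≤ R) (h1 : ‖r1‖ ≤ R) (h2 : ‖r2‖ ≤ R) (h3 : ‖θ‖ ≤ R)
    (K Dl : ℕ) (N : ℕ → ℕ → ℕ → ℤ) (B : ℝ) (hN : ∀ k j d, |(N k j d : ℝ)| ≤ B) (k j : ℕ) (hk : k < K) (hj : j < K) :
    ‖pc r1 r2 θ Dl N k j‖ ≤ R ^ K * R ^ K * (Dl * (B * R ^ Dl)) := by
  have hB : 0 ≤ B := (abs_nonneg _).trans (hN 0 0 0)
  unfold pc
  rw [norm_mul, norm_mul]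
  have e1 := auxf_R R hR r1 h1 K k hk
  have e2 := auxf_R R hR r2 h2 K j hj
  refine mul_le_mul (mul_le_mul e1 e2 (norm_nonneg _) (by positivity)) ?_ (norm_nonneg _) (by positivity)
  refine (norm_sum_le _ _).trans ?_
  have e3 : ∀ d ∈ range Dl, ‖(N k j d : ℂ) * θ ^ d‖ ≤ B * R ^ Dl := by
    intro d hd
    rw [norm_mul]
    have e4 := auxf_R R hR θ h3 Dl d (mem_range.1 hd)
    refine mul_le_mul ?_ e4 (norm_nonneg _) hB
    have e5 : ‖(N k j d : ℂ)‖ = |(N k j d : ℝ)| := by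
      rw [← Complex.ofReal_intCast, Complex.norm_real, Real.norm_eq_abs]
    rw [e5]
    exact hN k j d
  refine (Finset.sum_le_card_nsmul _ _ _ e3).trans ?_
  rw [card_range, nsmul_eq_mul]

theorem exists_aux (r1 r2 θ : ℂ) : ∃ n0 : ℕ, ∀ n : ℕ, n0 ≤ n → ∃ N : ℕ → ℕ → ℕ → ℤ,
    (∃ k < n ^ 12, ∃ j < n ^ 12, ∃ d < n ^ 8, N k j d ≠ 0) ∧
    (∀ k j d, |(N k j d : ℝ)| ≤ Real.exp ((n : ℝ) ^ 13)) ∧
    c.S (n ^ 12) (pc r1 r2 θ (n ^ 8) N) 0 ≤ Real.exp (-(n : ℝ) ^ 22) := by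
  obtain ⟨Cs, hCs, hsam⟩ := c.sampling
  obtain ⟨CF, hCF, hF⟩ := c.exists_bound_F
  obtain ⟨CH, hCH, hH⟩ := c.exists_bound_H
  obtain ⟨C, hC, hCFC, hCHC⟩ : ∃ C : ℝ, 1 ≤ C ∧ CF ≤ C ∧ CH ≤ C :=
    ⟨max CF CH, hCF.trans (le_max_left _ _), le_max_left _ _, le_max_right _ _⟩
  have hF' : ∀ (k : ℕ) (x y w : ℂ), ‖c.F k x y w‖ * c.w1 x y ≤ C * (C * (Real.sqrt k + ‖w - conj y‖)) ^ k := by
    intro k x y w
    refine (hF k x y w).trans ?_
    have h0 : 0 ≤ Real.sqrt k + ‖w - conj y‖ := by positivity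
    exact mul_le_mul hCFC (pow_le_pow_left₀ (by positivity) (mul_le_mul_of_nonneg_right hCFC h0) k)
      (by positivity) (by linarith)
  have hH' : ∀ (k : ℕ) (x y w : ℂ), ‖c.H k x y w‖ * c.w2 x w ≤ C * (C * (Real.sqrt k + ‖w - conj y‖)) ^ k := by
    intro k x y w
    refine (hH k x y w).trans ?_
    have h0 : 0 ≤ Real.sqrt k + ‖w - conj y‖ := by positivity
    exact mul_le_mul hCHC (pow_le_pow_left₀ (by positivity) (mul_le_mul_of_nonneg_right hCHC h0) k)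
      (by positivity) (by linarith)
  obtain ⟨R, hR, hR1, hR2, hR3⟩ : ∃ R : ℝ, 1 ≤ R ∧ ‖r1‖ ≤ R ∧ ‖r2‖ ≤ R ∧ ‖θ‖ ≤ R :=
    ⟨max 1 (max ‖r1‖ (max ‖r2‖ ‖θ‖)), le_max_left _ _, (le_max_left _ _).trans (le_max_right _ _),
      ((le_max_left _ _).trans (le_max_right _ _)).trans (le_max_right _ _),
      ((le_max_right _ _).trans (le_max_right _ _)).trans (le_max_right _ _)⟩
  obtain ⟨L, hL, hRL⟩ : ∃ L : ℝ, 0 ≤ L ∧ R = Real.exp L :=
    ⟨Real.log R, Real.log_nonneg hR, (Real.exp_log (by linarith)).symm⟩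
  obtain ⟨Lc, hLc, hCL⟩ : ∃ L : ℝ, 0 ≤ L ∧ C = Real.exp L :=
    ⟨Real.log C, Real.log_nonneg hC, (Real.exp_log (by linarith)).symm⟩
  obtain ⟨n0, hn0⟩ := exists_nat_gt (2 * Cs * (56 + 3 * L + 4 * Lc) + 3 * L + 60)
  refine ⟨n0, fun n hn => ?_⟩
  have hx : 2 * Cs * (56 + 3 * L + 4 * Lc) + 3 * L + 60 < (n : ℝ) :=
    hn0.trans_le (by exact_mod_cast hn)
  obtain ⟨X, hX⟩ : ∃ X : ℝ, X = (n : ℝ) := ⟨_, rfl⟩
  have hprod : 0 ≤ 2 * Cs * (56 + 3 * L + 4 * Lc) := by positivity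
  have hX60 : (60 : ℝ) ≤ X := by
    rw [hX]
    linarith
  have hX1 : (1 : ℝ) ≤ X := by linarith
  have hX0 : (0 : ℝ) < X := by linarith
  have hXe : X ≤ Real.exp X := by
    have := Real.add_one_le_exp X
    linarith
  have hn1 : 1 ≤ n := by
    have h1 : (1 : ℝ) ≤ (n : ℝ) := by rw [← hX]; exact hX1
    exact_mod_cast h1
  -- casts
  have cK : ((n ^ 12 : ℕ) : ℝ) = X ^ 12 := by rw [hX]; push_cast; rfl
  have cD : ((n ^ 8 : ℕ) : ℝ) = X ^ 8 := by rw [hX]; push_cast; rfl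
  have cg : ((n ^ 11 : ℕ) : ℝ) ^ 2 = X ^ 22 := by rw [hX]; push_cast; ring
  -- comparison of powers
  have p1 : X ≤ X ^ 12 := by
    calc X = X ^ 1 := (pow_one X).symm
      _ ≤ X ^ 12 := pow_le_pow_right₀ hX1 (by norm_num)
  have p8 : X ^ 8 ≤ X ^ 12 := pow_le_pow_right₀ hX1 (by norm_num)
  have p12 : X ^ 12 ≤ X ^ 13 := pow_le_pow_right₀ hX1 (by norm_num)
  have p13 : X ^ 13 ≤ X ^ 22 := pow_le_pow_right₀ hX1 (by norm_num)
  have p0 : 1 ≤ X ^ 12 := one_le_pow₀ hX1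
  have hX12 : X * X ^ 12 = X ^ 13 := by ring
  -- the bound of the coefficients
  obtain ⟨E, hE⟩ : ∃ E : ℝ, E = (44 + 3 * L + 4 * Lc) * X ^ 13 := ⟨_, rfl⟩
  have hE0 : 0 ≤ E := by rw [hE]; positivity
  have hsq : Real.sqrt ((n ^ 12 : ℕ) : ℝ) = X ^ 6 := by
    rw [cK, show X ^ 12 = (X ^ 6) ^ 2 by ring, Real.sqrt_sq (by positivity)]
  have hRK : R ^ (n ^ 12) = Real.exp (X ^ 12 * L) := by
    rw [hRL, ← Real.exp_nat_mul, cK]
  have hRD : R ^ (n ^ 8) = Real.exp (X ^ 8 * L) := by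
    rw [hRL, ← Real.exp_nat_mul, cD]
  have hCK : C * (C * Real.sqrt ((n ^ 12 : ℕ) : ℝ)) ^ (n ^ 12) ≤ Real.exp (Lc + X ^ 12 * (Lc + 6 * X)) := by
    rw [Real.exp_add, hsq]
    have h1 : C * X ^ 6 ≤ Real.exp (Lc + 6 * X) := by
      rw [Real.exp_add, hCL]
      refine mul_le_mul_of_nonneg_left ?_ (Real.exp_pos _).le
      have h2 : Real.exp (6 * X) = (Real.exp X) ^ 6 := by
        rw [← Real.exp_nat_mul]
        norm_num
      rw [h2]
      exact pow_le_pow_left₀ hX0.le hXe 6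
    have h2 : (C * X ^ 6) ^ (n ^ 12) ≤ Real.exp (X ^ 12 * (Lc + 6 * X)) := by
      rw [← cK, Real.exp_nat_mul]
      exact pow_le_pow_left₀ (by positivity) h1 _
    exact mul_le_mul hCL.le h2 (by positivity) (Real.exp_pos _).le
  have hcard : ((n ^ 12 : ℕ) : ℝ) * (((n ^ 12 : ℕ) : ℝ) * ((n ^ 8 : ℕ) : ℝ)) = X ^ 32 := by
    rw [cK, cD]
    ring
  have h32 : X ^ 32 ≤ Real.exp (32 * X) := by
    have h2 : Real.exp (32 * X) = (Real.exp X) ^ 32 := by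
      rw [← Real.exp_nat_mul]
      norm_num
    rw [h2]
    exact pow_le_pow_left₀ hX0.le hXe 32
  have hAll : X ^ 32 * (R ^ (n ^ 12) * R ^ (n ^ 12) * R ^ (n ^ 8) * ((C * (C * Real.sqrt ((n ^ 12 : ℕ) : ℝ)) ^ (n ^ 12)) *
      (C * (C * Real.sqrt ((n ^ 12 : ℕ) : ℝ)) ^ (n ^ 12)))) ≤ Real.exp E := by
    have h1 : Real.exp (32 * X) * (Real.exp (X ^ 12 * L) * Real.exp (X ^ 12 * L) * Real.exp (X ^ 8 * L) *
        (Real.exp (Lc + X ^ 12 * (Lc + 6 * X)) * Real.exp (Lc + X ^ 12 * (Lc + 6 * X)))) ≤ Real.exp E := by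
      rw [← Real.exp_add, ← Real.exp_add, ← Real.exp_add, ← Real.exp_add, ← Real.exp_add]
      apply Real.exp_le_exp.2
      rw [hE]
      have a1 : X ^ 12 * L ≤ X ^ 13 * L := mul_le_mul_of_nonneg_right p12 hL
      have a2 : X ^ 8 * L ≤ X ^ 13 * L := mul_le_mul_of_nonneg_right (p8.trans p12) hL
      have a3 : X ^ 12 * Lc ≤ X ^ 13 * Lc := mul_le_mul_of_nonneg_right p12 hLc
      have a4 : Lc ≤ X ^ 13 * Lc := by
        have := mul_le_mul_of_nonneg_right (p0.trans p12) hLc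
        linarith
      have a5 : X ≤ X ^ 13 := p1.trans p12
      nlinarith
    refine le_trans ?_ h1
    rw [hRK, hRD]
    refine mul_le_mul h32 ?_ (by positivity) (Real.exp_pos _).le
    refine mul_le_mul_of_nonneg_left ?_ (by positivity)
    exact mul_le_mul hCK hCK (by positivity) (Real.exp_pos _).le
  -- the net
  obtain ⟨Z, hZ, hsam⟩ := hsam (n ^ 11) (Nat.one_le_pow _ _ hn1)
  rw [cg] at hZ
  -- box principle
  have hB1 : (⌊Real.exp (X ^ 13)⌋₊ : ℝ) ≤ Real.exp (X ^ 13) := Nat.floor_le (Real.exp_pos _).le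
  have hB2 : Real.exp (X ^ 13) < (⌊Real.exp (X ^ 13)⌋₊ : ℝ) + 1 := Nat.lt_floor_add_one _
  obtain ⟨N', hN0, hNB, hNL⟩ := box_principle (ι := Fin (n ^ 12) × Fin (n ^ 12) × Fin (n ^ 8)) (μ := Z)
    (fun z i => auxa c r1 r2 θ z.1.1 z.1.2 i.1 i.2.1 i.2.2) (Real.exp E) (Real.exp (-X ^ 22) / 2)
    ⌊Real.exp (X ^ 13)⌋₊ (Real.exp_pos _).le (by positivity) (by
      intro z
      refine (Finset.sum_le_card_nsmul _ _ _ fun i _ => auxa_le c r1 r2 θ R C hR hR1 hR2 hR3 hC hF' hH'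
        (n ^ 12) (n ^ 8) z.1.1 z.1.2 i.1 i.2.1 i.2.2 i.1.2 i.2.1.2 i.2.2.2).trans ?_
      rw [nsmul_eq_mul, card_univ, Fintype.card_prod, Fintype.card_prod, Fintype.card_fin, Fintype.card_fin,
        Nat.cast_mul, Nat.cast_mul, hcard]
      exact hAll) (by
      rw [Fintype.card_prod, Fintype.card_prod, Fintype.card_fin, Fintype.card_fin, Nat.cast_mul, Nat.cast_mul,
        hcard, Fintype.card_coe]
      have b1 : X ^ 13 ≤ Real.log ((⌊Real.exp (X ^ 13)⌋₊ : ℝ) + 1) := by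
        rw [Real.le_log_iff_exp_le (by positivity)]
        exact hB2.le
      have b2 : Real.log (4 * Real.exp E * (⌊Real.exp (X ^ 13)⌋₊ : ℝ) / (Real.exp (-X ^ 22) / 2) + 2) ≤
          10 + (E + X ^ 13 + X ^ 22) := by
        rw [Real.log_le_iff_le_exp (by positivity)]
        have c1 : Real.exp (-X ^ 22) * Real.exp (X ^ 22) = 1 := by
          rw [← Real.exp_add, neg_add_cancel, Real.exp_zero]
        have c2 : 4 * Real.exp E * (⌊Real.exp (X ^ 13)⌋₊ : ℝ) / (Real.exp (-X ^ 22) / 2) =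
            8 * Real.exp E * (⌊Real.exp (X ^ 13)⌋₊ : ℝ) * Real.exp (X ^ 22) := by
          rw [div_eq_iff (by positivity)]
          linear_combination (-4 * Real.exp E * (⌊Real.exp (X ^ 13)⌋₊ : ℝ)) * c1
        rw [c2]
        have c3 : 8 * Real.exp E * (⌊Real.exp (X ^ 13)⌋₊ : ℝ) * Real.exp (X ^ 22) ≤
            8 * Real.exp (E + X ^ 13 + X ^ 22) := by
          rw [Real.exp_add, Real.exp_add]
          have c4 := mul_le_mul_of_nonneg_left hB1 (show 0 ≤ 8 * Real.exp E by positivity)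
          have c5 := mul_le_mul_of_nonneg_right c4 (Real.exp_pos (X ^ 22)).le
          linarith
        have c4 : 1 ≤ Real.exp (E + X ^ 13 + X ^ 22) := Real.one_le_exp (by positivity)
        have c5 : (11 : ℝ) ≤ Real.exp 10 := by
          have := Real.add_one_le_exp (10 : ℝ)
          linarith
        rw [Real.exp_add 10]
        nlinarith
      have b3 : 10 + (E + X ^ 13 + X ^ 22) ≤ (56 + 3 * L + 4 * Lc) * X ^ 22 := by
        rw [hE]
        have c1 : (44 + 3 * L + 4 * Lc) * X ^ 13 ≤ (44 + 3 * L + 4 * Lc) * X ^ 22 :=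
          mul_le_mul_of_nonneg_left p13 (by positivity)
        have c2 : 1 ≤ X ^ 22 := one_le_pow₀ hX1
        nlinarith
      have hD0 : 0 < 56 + 3 * L + 4 * Lc := by positivity
      calc 2 * (Z.card : ℝ) * Real.log (4 * Real.exp E * (⌊Real.exp (X ^ 13)⌋₊ : ℝ) / (Real.exp (-X ^ 22) / 2) + 2)
          ≤ 2 * (Z.card : ℝ) * ((56 + 3 * L + 4 * Lc) * X ^ 22) :=
            mul_le_mul_of_nonneg_left (b2.trans b3) (by positivity)
        _ ≤ 2 * (Cs * X ^ 22) * ((56 + 3 * L + 4 * Lc) * X ^ 22) :=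
            mul_le_mul_of_nonneg_right (mul_le_mul_of_nonneg_left hZ (by norm_num)) (by positivity)
        _ = (2 * Cs * (56 + 3 * L + 4 * Lc)) * X ^ 44 := by ring
        _ < X * X ^ 44 := by
            refine mul_lt_mul_of_pos_right ?_ (by positivity)
            rw [hX]
            linarith
        _ = X ^ 32 * X ^ 13 := by ring
        _ ≤ X ^ 32 * Real.log ((⌊Real.exp (X ^ 13)⌋₊ : ℝ) + 1) := mul_le_mul_of_nonneg_left b1 (by positivity))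
  -- the coefficients
  obtain ⟨N, hN⟩ : ∃ N : ℕ → ℕ → ℕ → ℤ, N = fun k j d =>
    if h : k < n ^ 12 ∧ j < n ^ 12 ∧ d < n ^ 8 then N' (⟨k, h.1⟩, ⟨j, h.2.1⟩, ⟨d, h.2.2⟩) else 0 := ⟨_, rfl⟩
  have hNN : ∀ i : Fin (n ^ 12) × Fin (n ^ 12) × Fin (n ^ 8), N i.1 i.2.1 i.2.2 = N' i := by
    rintro ⟨k, j, d⟩
    rw [hN]
    show (if h : (k : ℕ) < n ^ 12 ∧ (j : ℕ) < n ^ 12 ∧ (d : ℕ) < n ^ 8 then
      N' (⟨k, h.1⟩, ⟨j, h.2.1⟩, ⟨d, h.2.2⟩) else 0) = N' (k, j, d)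
    rw [dif_pos ⟨k.2, j.2, d.2⟩]
  have hNb : ∀ k j d, |(N k j d : ℝ)| ≤ Real.exp ((n : ℝ) ^ 13) := by
    intro k j d
    rw [hN]
    dsimp only
    split_ifs with h
    · rw [← hX]
      refine le_trans ?_ hB1
      have h1 := hNB (⟨k, h.1⟩, ⟨j, h.2.1⟩, ⟨d, h.2.2⟩)
      exact_mod_cast h1
    · rw [Int.cast_zero, abs_zero]
      exact (Real.exp_pos _).le
  refine ⟨N, ?_, hNb, ?_⟩
  · obtain ⟨i, hi⟩ := Function.ne_iff.1 hN0
    exact ⟨i.1, i.1.2, i.2.1, i.2.1.2, i.2.2, i.2.2.2, by rw [hNN i]; exact hi⟩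
  · have hgoal : (n : ℝ) ^ 22 = ((n ^ 11 : ℕ) : ℝ) ^ 2 := by
      rw [cg, hX]
    rw [hgoal]
    refine hsam (n ^ 12) (pc r1 r2 θ (n ^ 8) N)
      (R ^ (n ^ 12) * R ^ (n ^ 12) * (((n ^ 8 : ℕ) : ℝ) * (Real.exp ((n : ℝ) ^ 13) * R ^ (n ^ 8))))
      (Nat.one_le_pow _ _ hn1) ?_ ?_ ?_
      (fun k hk j hj => auxf_pc r1 r2 θ R hR hR1 hR2 hR3 (n ^ 12) (n ^ 8) N _ hNb k j hk hj) ?_
    · rw [cK, cg]
      have h1 : Real.log (X ^ 12 + 1) ≤ X ^ 10 := by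
        have h2 : X ^ 12 + 1 ≤ 2 * X ^ 12 := by linarith
        have h3 : Real.log (X ^ 12 + 1) ≤ Real.log (2 * X ^ 12) := Real.log_le_log (by positivity) h2
        rw [Real.log_mul (by norm_num) (by positivity), Real.log_pow] at h3
        have h4 : Real.log 2 ≤ 2 := Real.log_le_self (by norm_num)
        have h5 : Real.log X ≤ X := Real.log_le_self hX0.le
        have h6 : (2 : ℝ) + 12 * X ≤ X ^ 2 := by nlinarith
        have h7 : X ^ 2 ≤ X ^ 10 := pow_le_pow_right₀ hX1 (by norm_num)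
        push_cast at h3
        linarith
      calc X ^ 12 * Real.log (X ^ 12 + 1) ≤ X ^ 12 * X ^ 10 := mul_le_mul_of_nonneg_left h1 (by positivity)
        _ = X ^ 22 := by ring
    · have h1 : 1 ≤ R ^ (n ^ 12) := one_le_pow₀ hR
      have h2 : 1 ≤ R ^ (n ^ 8) := one_le_pow₀ hR
      have h3 : 1 ≤ Real.exp ((n : ℝ) ^ 13) := Real.one_le_exp (by positivity)
      have h4 : (1 : ℝ) ≤ ((n ^ 8 : ℕ) : ℝ) := by
        rw [cD]
        exact one_le_pow₀ hX1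
      exact one_le_mul_of_one_le_of_one_le (one_le_mul_of_one_le_of_one_le h1 h1)
        (one_le_mul_of_one_le_of_one_le h4 (one_le_mul_of_one_le_of_one_le h3 h2))
    · rw [hRK, hRD, cD, cg, ← hX, Real.log_le_iff_le_exp (by positivity)]
      have h1 : X ^ 8 ≤ Real.exp (8 * X) := by
        have h2 : Real.exp (8 * X) = (Real.exp X) ^ 8 := by
          rw [← Real.exp_nat_mul]
          norm_num
        rw [h2]
        exact pow_le_pow_left₀ hX0.le hXe 8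
      have h2 : Real.exp (X ^ 12 * L) * Real.exp (X ^ 12 * L) * (X ^ 8 * (Real.exp (X ^ 13) * Real.exp (X ^ 8 * L))) ≤
          Real.exp (X ^ 12 * L) * Real.exp (X ^ 12 * L) *
            (Real.exp (8 * X) * (Real.exp (X ^ 13) * Real.exp (X ^ 8 * L))) :=
        mul_le_mul_of_nonneg_left (mul_le_mul_of_nonneg_right h1 (by positivity)) (by positivity)
      refine h2.trans ?_
      rw [← Real.exp_add, ← Real.exp_add, ← Real.exp_add, ← Real.exp_add]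
      apply Real.exp_le_exp.2
      have a1 : X ^ 12 * L ≤ X ^ 13 * L := mul_le_mul_of_nonneg_right p12 hL
      have a2 : X ^ 8 * L ≤ X ^ 13 * L := mul_le_mul_of_nonneg_right (p8.trans p12) hL
      have a5 : X ≤ X ^ 13 := p1.trans p12
      have a6 : 3 * L + 9 ≤ X := by
        rw [hX]
        linarith
      have a7 : X * X ^ 13 ≤ X ^ 22 := by
        rw [show X * X ^ 13 = X ^ 14 by ring]
        exact pow_le_pow_right₀ hX1 (by norm_num)
      have a8 : (3 * L + 9) * X ^ 13 ≤ X * X ^ 13 := mul_le_mul_of_nonneg_right a6 (by positivity)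
      nlinarith
    · intro z hz
      rw [auxf_nf c r1 r2 θ (n ^ 12) (n ^ 8) N z.1 z.2, auxf_sum c r1 r2 θ (n ^ 12) (n ^ 8) N' N hNN z.1 z.2, cg]
      exact hNL ⟨z, hz⟩

end Core

end Pool.Agent.ROH
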