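import Pool.Agent.ROH.JetMul

/-!
ROH-RepMul. Product of two functions whose coefficients are represented.

`J_mul`: `Da Db D0(θ)^(n+p+q) J(gh) n i = ∑_{a≤n,b≤i} (Da D0(θ)^(a+p) J g a b) (Db D0(θ)^(n-a+q) J h (n-a) (i-b))`; `Rep.mul`
(degree `(a+p) E + (n-a+q) E`), `Rep.sum` over `(n+1)(i+1) ≤ (N+1)²` terms, `Rep.mono`.
-/

set_option autoImplicit false

namespace Pool.Agent.ROH

open Complex ComplexConjugate Finset Polynomial Pool.Agent.GP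

theorem rep_J_mul {δ : ℕ} {ω : Fin (δ + 1) → ℂ} {θ : ℂ} {D0 : ℤ[X]} {E : ℕ} {g h : ℂ → ℂ → ℂ}
    (hg : Ent2 g) (hh : Ent2 h) (N p q Da Db : ℕ) (Xa Xb : ℝ) (hXa : 0 ≤ Xa) (hXb : 0 ≤ Xb)
    (h1 : ∀ n ≤ N, ∀ i ≤ N, Rep (δ + 1) ω θ (Da * aeval θ D0 ^ (n + p) * J g n i) ((n + p) * E) Xa)
    (h2 : ∀ n ≤ N, ∀ i ≤ N, Rep (δ + 1) ω θ (Db * aeval θ D0 ^ (n + q) * J h n i) ((n + q) * E) Xb)
    (n i : ℕ) (hn : n ≤ N) (hi : i ≤ N) :
    Rep (δ + 1) ω θ (((Da * Db : ℕ) : ℂ) * aeval θ D0 ^ (n + (p + q)) * J (fun l t => g l t * h l t) n i)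
      ((n + (p + q)) * E) (((N : ℝ) + 1) ^ 2 * ((δ + 1) * Xa * Xb)) := by
  have hkey : ∀ a ∈ range (n + 1), ∀ b ∈ range (i + 1), Rep (δ + 1) ω θ
      ((Da * aeval θ D0 ^ (a + p) * J g a b) * (Db * aeval θ D0 ^ (n - a + q) * J h (n - a) (i - b)))
      ((n + (p + q)) * E) ((δ + 1) * Xa * Xb) := by
    intro a ha b hb
    have ha' : a ≤ n := Nat.lt_succ_iff.1 (Finset.mem_range.1 ha)
    have hb' : b ≤ i := Nat.lt_succ_iff.1 (Finset.mem_range.1 hb)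
    have h3 := (h1 a (ha'.trans hn) b (hb'.trans hi)).mul
      (h2 (n - a) ((Nat.sub_le _ _).trans hn) (i - b) ((Nat.sub_le _ _).trans hi)) (Nat.succ_pos δ)
    refine h3.mono (le_of_eq ?_) (le_of_eq ?_)
    · obtain ⟨k, rfl⟩ := Nat.exists_eq_add_of_le ha'
      rw [Nat.add_sub_cancel_left]
      ring
    · push_cast
      ring
  have hsum : Rep (δ + 1) ω θ (∑ a ∈ range (n + 1), ∑ b ∈ range (i + 1),
      ((Da * aeval θ D0 ^ (a + p) * J g a b) * (Db * aeval θ D0 ^ (n - a + q) * J h (n - a) (i - b))))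
      ((n + (p + q)) * E) (∑ _a ∈ range (n + 1), ∑ _b ∈ range (i + 1), ((δ + 1) * Xa * Xb)) :=
    Rep.sum _ fun a ha => Rep.sum _ fun b hb => hkey a ha b hb
  have heq : (((Da * Db : ℕ) : ℂ) * aeval θ D0 ^ (n + (p + q)) * J (fun l t => g l t * h l t) n i) =
      ∑ a ∈ range (n + 1), ∑ b ∈ range (i + 1),
      ((Da * aeval θ D0 ^ (a + p) * J g a b) * (Db * aeval θ D0 ^ (n - a + q) * J h (n - a) (i - b))) := by
    rw [J_mul hg hh, Finset.mul_sum]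
    refine Finset.sum_congr rfl fun a ha => ?_
    rw [Finset.mul_sum]
    refine Finset.sum_congr rfl fun b _ => ?_
    have ha' : a ≤ n := Nat.lt_succ_iff.1 (Finset.mem_range.1 ha)
    obtain ⟨k, rfl⟩ := Nat.exists_eq_add_of_le ha'
    rw [Nat.add_sub_cancel_left]
    push_cast
    ring
  rw [heq]
  refine hsum.mono le_rfl ?_
  rw [Finset.sum_const, Finset.sum_const, Finset.card_range, Finset.card_range, nsmul_eq_mul,
    nsmul_eq_mul]
  have hn' : ((n + 1 : ℕ) : ℝ) ≤ (N : ℝ) + 1 := by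
    push_cast
    have : (n : ℝ) ≤ N := by exact_mod_cast hn
    linarith
  have hi' : ((i + 1 : ℕ) : ℝ) ≤ (N : ℝ) + 1 := by
    push_cast
    have : (i : ℝ) ≤ N := by exact_mod_cast hi
    linarith
  have hc : (0 : ℝ) ≤ (δ + 1) * Xa * Xb := by positivity
  rw [← mul_assoc]
  refine mul_le_mul_of_nonneg_right ?_ hc
  rw [pow_two]
  exact mul_le_mul hn' hi' (Nat.cast_nonneg _) (by positivity)

end Pool.Agent.ROH
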