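import Pool.Agent.ROH.BDefs

/-!
ROH-JetLE. The coefficients `J` of `s(u l + v t)` and of `exp(-κ l t)`.

`iteratedDeriv i (fun t => s(u l + v t)) 0 = v^i (iteratedDeriv i s)(u l)` (chain rule for affine maps:
`iteratedDeriv_comp_const_mul`, `iteratedDeriv_comp_add_const`.. or by induction), and then
`iteratedDeriv n (fun l => (iteratedDeriv i s)(u l)) 0 = u^n iteratedDeriv (n+i) s 0`; `(n+i)!/(n! i!) = choose`.
`iteratedDeriv i (fun t => exp(-κ l t)) 0 = (-κ l)^i` (`iteratedDeriv_cexp_const_mul`), and the `n`-th derivative at `0` of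
`(-κ)^i l^i` is `(-κ)^i i!` if `n = i` and `0` otherwise.
-/

set_option autoImplicit false

namespace Pool.Agent.ROH

open Complex ComplexConjugate Finset

private theorem it_aff {s : ℂ → ℂ} (hs : Differentiable ℂ s) (a v : ℂ) (i : ℕ) :
    iteratedDeriv i (fun t => s (a + v * t)) = fun t => v ^ i * iteratedDeriv i s (a + v * t) := by
  have h0 : Differentiable ℂ (fun z => s (a + z)) := hs.comp (by fun_prop)
  have h1 : ContDiff ℂ i (fun z => s (a + z)) := h0.contDiff
  rw [iteratedDeriv_comp_const_mul h1 v]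
  funext t
  rw [iteratedDeriv_comp_const_add]

private theorem it_it (s : ℂ → ℂ) (n i : ℕ) :
    iteratedDeriv n (iteratedDeriv i s) = iteratedDeriv (n + i) s := by
  rw [iteratedDeriv_eq_iterate, iteratedDeriv_eq_iterate, iteratedDeriv_eq_iterate,
    Function.iterate_add_apply]

private theorem it_diff {s : ℂ → ℂ} (hs : Differentiable ℂ s) (i : ℕ) :
    ContDiff ℂ (⊤ : ℕ∞) (iteratedDeriv i s) := by
  have h : ContDiff ℂ (⊤ : ℕ∞) s := hs.contDiff
  exact h.iterate_deriv i |> fun h2 => by rwa [← iteratedDeriv_eq_iterate] at h2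

theorem J_lin {s : ℂ → ℂ} (hs : Differentiable ℂ s) (u v : ℂ) (n i : ℕ) :
    J (fun l t => s (u * l + v * t)) n i =
      ((n + i).choose n : ℂ) * (u ^ n * v ^ i) * (iteratedDeriv (n + i) s 0 / ((n + i).factorial : ℂ)) := by
  have h1 : (fun l : ℂ => iteratedDeriv i (fun t => s (u * l + v * t)) 0) =
      fun l => v ^ i * (fun l => iteratedDeriv i s (u * l)) l := by
    funext l
    rw [it_aff hs]
    simp
  have h2 : ContDiff ℂ n (iteratedDeriv i s) := (it_diff hs i).of_le (by exact_mod_cast le_top)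
  have h3 : ((n + i).choose n : ℂ) * (n.factorial : ℂ) * (i.factorial : ℂ) = ((n + i).factorial : ℂ) := by
    rw [Nat.choose_symm_add]
    exact_mod_cast Nat.add_choose_mul_factorial_mul_factorial n i
  have hn : (n.factorial : ℂ) ≠ 0 := by exact_mod_cast n.factorial_ne_zero
  have hi : (i.factorial : ℂ) ≠ 0 := by exact_mod_cast i.factorial_ne_zero
  have hni : ((n + i).factorial : ℂ) ≠ 0 := by exact_mod_cast (n + i).factorial_ne_zero
  unfold J
  rw [h1, iteratedDeriv_const_mul_field, iteratedDeriv_comp_const_mul h2, it_it]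
  simp only [mul_zero]
  rw [div_eq_iff (mul_ne_zero hn hi), ← h3]
  have hc : ((n + i).choose n : ℂ) ≠ 0 := by
    intro h
    rw [h] at h3
    apply hni
    rw [← h3]
    ring
  field_simp

theorem J_exp (κ : ℂ) (n i : ℕ) :
    J (Gc κ) n i = if n = i then (-κ) ^ n / (n.factorial : ℂ) else 0 := by
  have h1 : (fun l : ℂ => iteratedDeriv i (Gc κ l) 0) =
      fun l => (-κ) ^ i * (fun l => l ^ i) l := by
    funext l
    have h2 : Gc κ l = fun t => cexp ((-κ * l) * t) := by
      funext t
      unfold Gc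
      congr 1
      ring
    rw [h2, iteratedDeriv_cexp_const_mul]
    simp only [mul_zero, Complex.exp_zero, mul_one]
    rw [mul_pow]
  unfold J
  rw [h1, iteratedDeriv_const_mul_field, iteratedDeriv_fun_pow_zero]
  have hi : (i.factorial : ℂ) ≠ 0 := by exact_mod_cast i.factorial_ne_zero
  by_cases h : n = i
  · subst h
    rw [if_pos rfl, if_pos rfl]
    field_simp
  · rw [if_neg h, if_neg h]
    simp

theorem ent2_Ga {s : ℂ → ℂ} (hs : Differentiable ℂ s) (c P : ℂ) : Ent2 (Ga s c P) := by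
  unfold Ent2 Ga
  exact hs.comp (by fun_prop)

theorem ent2_Gb {s : ℂ → ℂ} (hs : Differentiable ℂ s) (c Q : ℂ) : Ent2 (Gb s c Q) := by
  unfold Ent2 Gb
  exact hs.comp (by fun_prop)

theorem ent2_Gc (κ : ℂ) : Ent2 (Gc κ) := by
  unfold Ent2 Gc
  fun_prop

end Pool.Agent.ROH
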