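import Pool.Agent.ROH.Hol

/-!
ROH-IntDir. It is enough to test the vanishing on small integer directions.

Fix `f` entire on `ℂ³` and `n`. `h(x,y,w) = (d/dt)^n f(t x, t y, t w)` at `t = 0` is entire in each variable (use
`differentiable_iteratedDeriv`) and bounded by `C (1 + ‖x‖ + ‖y‖ + ‖w‖)^n`: it is homogeneous of degree `n`
(`iteratedDeriv_comp_const_mul`) and bounded on the unit ball (Cauchy). An entire function `q` of one variable with
`‖q x‖ ≤ C (1+‖x‖)^n` which vanishes at the `n+1` points `0, 1, ..., n` is zero (its Taylor coefficients of order `> n` vanish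
by the Cauchy estimates, so it is a polynomial of degree `≤ n`; or: its `(n+1)`-st derivative is bounded and tends to `0`).
Apply this in `x` (for fixed natural `y, w ≤ n`), then in `y`, then in `w`.
`μ ≠ 0` is a scaling of the directions (homogeneity).
-/

set_option autoImplicit false

namespace Pool.Agent.ROH

open Complex ComplexConjugate Finset

private theorem entire_zero {q : ℂ → ℂ} (hq : Differentiable ℂ q) (n : ℕ) {C A B : ℝ} (hC : 0 ≤ C) (hB : 0 ≤ B)
    (hb : ∀ x, ‖q x‖ ≤ C * (A + B * ‖x‖) ^ n) (hA : 0 ≤ A) (h0 : ∀ a : ℕ, a ≤ n → q a = 0) (x : ℂ) : q x = 0 := by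
  have hD : ∀ k, n < k → iteratedDeriv k q 0 = 0 := by
    intro k hk
    by_contra hne
    have hpos : 0 < ‖iteratedDeriv k q 0‖ := norm_pos_iff.2 hne
    obtain ⟨D, hDdef⟩ : ∃ D, D = ‖iteratedDeriv k q 0‖ := ⟨_, rfl⟩
    rw [← hDdef] at hpos
    have hbound : ∀ R : ℝ, 1 ≤ R → A ≤ R → D * R ≤ k.factorial * (C * (1 + B) ^ n) := by
      intro R h1 h2
      have hR : 0 < R := by linarith
      have h3 := Complex.norm_iteratedDeriv_le_of_forall_mem_sphere_norm_le (C := C * ((1 + B) * R) ^ n) (c := 0)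
        (f := q) k hR hq.diffContOnCl (by
          intro z hz
          have hz' : ‖z‖ = R := by simpa using hz
          refine (hb z).trans ?_
          rw [hz']
          refine mul_le_mul_of_nonneg_left (pow_le_pow_left₀ (by positivity) ?_ n) hC
          nlinarith)
      rw [← hDdef, le_div_iff₀ (by positivity)] at h3
      have h4 : R ^ k = R ^ (k - n - 1) * R ^ n * R := by
        rw [← pow_add, ← pow_succ]
        congr 1
        omega
      have h5 : 1 ≤ R ^ (k - n - 1) := one_le_pow₀ h1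
      have h6 : D * R * R ^ n ≤ k.factorial * (C * (1 + B) ^ n) * R ^ n := by
        calc D * R * R ^ n ≤ D * R * R ^ n * R ^ (k - n - 1) := le_mul_of_one_le_right (by positivity) h5
          _ = D * R ^ k := by rw [h4]; ring
          _ ≤ _ := h3
          _ = _ := by rw [mul_pow]; ring
      exact le_of_mul_le_mul_right h6 (by positivity)
    obtain ⟨W, hW⟩ : ∃ W, W = (k.factorial : ℝ) * (C * (1 + B) ^ n) := ⟨_, rfl⟩
    have h6 := hbound (max 1 (max A ((W + 1) / D))) (le_max_left _ _)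
      ((le_max_left _ _).trans (le_max_right _ _))
    have h7 : W + 1 ≤ D * max 1 (max A ((W + 1) / D)) := by
      calc W + 1 = D * ((W + 1) / D) := by field_simp
        _ ≤ _ := mul_le_mul_of_nonneg_left ((le_max_right _ _).trans (le_max_right _ _)) hpos.le
    rw [← hW] at h6
    linarith
  obtain ⟨P, hPd⟩ : ∃ P : Polynomial ℂ, P = ∑ k ∈ range (n + 1),
      Polynomial.C ((k.factorial : ℂ)⁻¹ * iteratedDeriv k q 0) * Polynomial.X ^ k := ⟨_, rfl⟩
  have hP : ∀ z, q z = P.eval z := by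
    intro z
    have h1 := Complex.taylorSeries_eq_of_entire' 0 z hq
    rw [← h1, tsum_eq_sum (s := range (n + 1))]
    · rw [hPd, Polynomial.eval_finsetSum]
      refine sum_congr rfl fun k _ => ?_
      simp
    · intro k hk
      rw [mem_range, not_lt] at hk
      rw [hD k (by omega)]
      simp
  have hP0 : P = 0 := by
    classical
    refine Polynomial.eq_zero_of_natDegree_lt_card_of_eval_eq_zero' P
      ((range (n + 1)).image (fun a : ℕ => (a : ℂ))) ?_ ?_
    · intro z hz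
      obtain ⟨a, ha, rfl⟩ := mem_image.1 hz
      rw [← hP]
      exact h0 a (Nat.lt_succ_iff.1 (mem_range.1 ha))
    · rw [card_image_of_injective _ Nat.cast_injective, card_range]
      refine Nat.lt_succ_of_le ?_
      rw [hPd]
      refine Polynomial.natDegree_sum_le_of_forall_le _ _ fun k hk => ?_
      exact (Polynomial.natDegree_C_mul_X_pow_le _ _).trans (Nat.lt_succ_iff.1 (mem_range.1 hk))
  rw [hP, hP0, Polynomial.eval_zero]

private theorem dir_diff {f : ℂ × ℂ × ℂ → ℂ} (hf : Differentiable ℂ f) (n : ℕ) :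
    Differentiable ℂ (fun z : ℂ × ℂ × ℂ => iteratedDeriv n (fun t : ℂ => f (t * z.1, t * z.2.1, t * z.2.2)) 0) := by
  refine differentiable_iteratedDeriv (g := fun (z : ℂ × ℂ × ℂ) (t : ℂ) => f (t * z.1, t * z.2.1, t * z.2.2)) ?_ n
  refine hf.comp ?_
  fun_prop

private theorem dir_bound {f : ℂ × ℂ × ℂ → ℂ} (hf : Differentiable ℂ f) (n : ℕ) : ∃ C : ℝ, 0 ≤ C ∧ ∀ x y w : ℂ,
    ‖iteratedDeriv n (fun t : ℂ => f (t * x, t * y, t * w)) 0‖ ≤ C * (1 + ‖x‖ + ‖y‖ + ‖w‖) ^ n := by
  obtain ⟨C, hC⟩ := (isCompact_closedBall (0 : ℂ × ℂ × ℂ) 1).exists_bound_of_continuousOn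
    hf.continuous.continuousOn
  have hC0 : 0 ≤ C := (norm_nonneg _).trans (hC 0 (by simp))
  refine ⟨n.factorial * C, by positivity, fun x y w => ?_⟩
  obtain ⟨R, hR⟩ : ∃ R, R = 1 + ‖x‖ + ‖y‖ + ‖w‖ := ⟨_, rfl⟩
  have hx := norm_nonneg x
  have hy := norm_nonneg y
  have hw := norm_nonneg w
  have hR1 : 0 < R := by rw [hR]; linarith
  have hd : Differentiable ℂ (fun t : ℂ => f (t * x, t * y, t * w)) := by
    refine hf.comp ?_
    fun_prop
  have h3 := Complex.norm_iteratedDeriv_le_of_forall_mem_sphere_norm_le (C := C) (c := 0)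
    (f := fun t : ℂ => f (t * x, t * y, t * w)) n (R := R⁻¹) (by positivity) hd.diffContOnCl (by
      intro z hz
      have hz' : ‖z‖ = R⁻¹ := by simpa using hz
      refine hC _ ?_
      rw [mem_closedBall_zero_iff, Prod.norm_def, Prod.norm_def]
      have key : ∀ a : ℂ, ‖a‖ ≤ R → ‖z * a‖ ≤ 1 := by
        intro a ha
        rw [norm_mul, hz']
        calc R⁻¹ * ‖a‖ ≤ R⁻¹ * R := mul_le_mul_of_nonneg_left ha (by positivity)
          _ = 1 := inv_mul_cancel₀ hR1.ne'
      refine max_le (key x (by rw [hR]; linarith)) (max_le (key y (by rw [hR]; linarith)) (key w (by rw [hR]; linarith))))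
  rw [← hR]
  refine h3.trans (le_of_eq ?_)
  rw [inv_pow, div_inv_eq_mul]

theorem iteratedDeriv_eq_zero_of_int {f : ℂ × ℂ × ℂ → ℂ} (hf : Differentiable ℂ f) (n : ℕ) (μ : ℂ)
    (hμ : μ ≠ 0)
    (h : ∀ a b e : ℕ, a ≤ n → b ≤ n → e ≤ n →
      iteratedDeriv n (fun t : ℂ => f (t * (a * μ), t * (b * μ), t * (e * μ))) 0 = 0)
    (x y w : ℂ) : iteratedDeriv n (fun t : ℂ => f (t * x, t * y, t * w)) 0 = 0 := by
  obtain ⟨C, hC, hb⟩ := dir_bound hf n
  obtain ⟨H, hH⟩ : ∃ H : ℂ → ℂ → ℂ → ℂ, H = fun x y w =>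
    iteratedDeriv n (fun t : ℂ => f (t * (x * μ), t * (y * μ), t * (w * μ))) 0 := ⟨_, rfl⟩
  have hd := dir_diff hf n
  have hHb : ∀ x y w, ‖H x y w‖ ≤ C * (1 + ‖x‖ * ‖μ‖ + ‖y‖ * ‖μ‖ + ‖w‖ * ‖μ‖) ^ n := by
    intro x y w
    rw [hH]
    refine (hb _ _ _).trans (le_of_eq ?_)
    rw [norm_mul, norm_mul, norm_mul]
  have hμ0 := norm_nonneg μ
  have d1 : ∀ y w, Differentiable ℂ (fun x => H x y w) := by
    intro y w
    rw [hH]
    exact hd.comp (f := fun x : ℂ => ((x * μ, y * μ, w * μ) : ℂ × ℂ × ℂ)) (by fun_prop)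
  have d2 : ∀ x w, Differentiable ℂ (fun y => H x y w) := by
    intro x w
    rw [hH]
    exact hd.comp (f := fun y : ℂ => ((x * μ, y * μ, w * μ) : ℂ × ℂ × ℂ)) (by fun_prop)
  have d3 : ∀ x y, Differentiable ℂ (fun w => H x y w) := by
    intro x y
    rw [hH]
    exact hd.comp (f := fun w : ℂ => ((x * μ, y * μ, w * μ) : ℂ × ℂ × ℂ)) (by fun_prop)
  have h1 : ∀ (b e : ℕ), b ≤ n → e ≤ n → ∀ x, H x b e = 0 := by
    intro b e hb' he x
    refine entire_zero (d1 b e) n (A := 1 + ‖(b : ℂ)‖ * ‖μ‖ + ‖(e : ℂ)‖ * ‖μ‖) (B := ‖μ‖) hC hμ0 (fun x => ?_)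
      (by positivity) (fun a ha => ?_) x
    · refine (hHb x b e).trans (le_of_eq ?_)
      congr 2
      ring
    · rw [hH]
      exact h a b e ha hb' he
  have h2 : ∀ (e : ℕ), e ≤ n → ∀ x y, H x y e = 0 := by
    intro e he x y
    refine entire_zero (d2 x e) n (A := 1 + ‖x‖ * ‖μ‖ + ‖(e : ℂ)‖ * ‖μ‖) (B := ‖μ‖) hC hμ0 (fun y => ?_)
      (by positivity) (fun b hb' => h1 b e hb' he x) y
    refine (hHb x y e).trans (le_of_eq ?_)
    congr 2
    ring
  have h3 : ∀ x y w, H x y w = 0 := by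
    intro x y w
    refine entire_zero (d3 x y) n (A := 1 + ‖x‖ * ‖μ‖ + ‖y‖ * ‖μ‖) (B := ‖μ‖) hC hμ0 (fun w => ?_)
      (by positivity) (fun e he => h2 e he x y) w
    refine (hHb x y w).trans (le_of_eq ?_)
    congr 2
    ring
  have h4 := h3 (x / μ) (y / μ) (w / μ)
  rw [hH] at h4
  simp only [div_mul_cancel₀ _ hμ] at h4
  exact h4

end Pool.Agent.ROH
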