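import Pool.Agent.ROH.Shift

/-!
ROH-Expn. The expansion (*) of the note:
at a point with `w = conj y + d` one has
`f(x,y,w) = ∑_{i,l<K} (∂_X^i ∂_Y^l P / i! l!)(-2 al d, 2 be conj d) F_i(x,y,conj y) H_l(x,conj w,w)`.

Proof: `F_shift` with `w' = conj y` (so `w - w' = d`) and `H_shift` with `y' = conj w = y + conj d` (so
`y - y' = - conj d`, `-(2 be (y - y')) = 2 be conj d`), extend the inner sums to `range K` (`choose` vanishes),
and exchange the sums.
-/

set_option autoImplicit false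

namespace Pool.Agent.ROH

open Complex ComplexConjugate Finset

namespace Core

variable (c : Core)

private theorem ex_ext (K k : ℕ) (hk : k < K) (X : ℂ) (G : ℕ → ℂ) :
    ∑ i ∈ range (k + 1), (k.choose i : ℂ) * X ^ (k - i) * G i = ∑ i ∈ range K, (k.choose i : ℂ) * X ^ (k - i) * G i := by
  refine Finset.sum_subset (range_mono hk) fun i _ hi => ?_
  have h1 : k < i := by
    have h2 : ¬ i < k + 1 := fun h => hi (mem_range.2 h)
    omega
  rw [Nat.choose_eq_zero_of_lt h1, Nat.cast_zero, zero_mul, zero_mul]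

theorem f_expand (K : ℕ) (p : ℕ → ℕ → ℂ) (x y d : ℂ) : c.f K p x y (conj y + d) =
    ∑ i ∈ range K, ∑ l ∈ range K, Pd K p i l (-(2 * c.al * d)) (2 * c.be * conj d) *
      (c.F i x y (conj y) * c.H l x (conj (conj y + d)) (conj y + d)) := by
  have hF : ∀ k ∈ range K, c.F k x y (conj y + d) =
      ∑ i ∈ range K, (k.choose i : ℂ) * (-(2 * c.al * d)) ^ (k - i) * c.F i x y (conj y) := by
    intro k hk
    rw [c.F_shift k x y (conj y + d) (conj y), ← ex_ext K k (mem_range.1 hk), add_sub_cancel_left]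
  have hH : ∀ j ∈ range K, c.H j x y (conj y + d) =
      ∑ l ∈ range K, (j.choose l : ℂ) * (2 * c.be * conj d) ^ (j - l) * c.H l x (conj (conj y + d)) (conj y + d) := by
    intro j hj
    rw [c.H_shift j x y (conj (conj y + d)) (conj y + d), ← ex_ext K j (mem_range.1 hj)]
    have h1 : -(2 * (c.be : ℂ) * (y - conj (conj y + d))) = 2 * c.be * conj d := by
      rw [map_add, Complex.conj_conj]
      ring
    rw [h1]
  have hG : c.f K p x y (conj y + d) = ∑ k ∈ range K, ∑ j ∈ range K, ∑ i ∈ range K, ∑ l ∈ range K,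
      (p k j * ((k.choose i : ℂ) * (j.choose l : ℂ) * ((-(2 * c.al * d)) ^ (k - i) * (2 * c.be * conj d) ^ (j - l)))) *
        (c.F i x y (conj y) * c.H l x (conj (conj y + d)) (conj y + d)) := by
    unfold f
    refine sum_congr rfl fun k hk => sum_congr rfl fun j hj => ?_
    rw [hF k hk, hH j hj, sum_mul_sum, mul_sum]
    refine sum_congr rfl fun i _ => ?_
    rw [mul_sum]
    refine sum_congr rfl fun l _ => ?_
    ring
  have hE : ∀ i l, Pd K p i l (-(2 * c.al * d)) (2 * c.be * conj d) *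
      (c.F i x y (conj y) * c.H l x (conj (conj y + d)) (conj y + d)) = ∑ k ∈ range K, ∑ j ∈ range K,
      (p k j * ((k.choose i : ℂ) * (j.choose l : ℂ) * ((-(2 * c.al * d)) ^ (k - i) * (2 * c.be * conj d) ^ (j - l)))) *
        (c.F i x y (conj y) * c.H l x (conj (conj y + d)) (conj y + d)) := by
    intro i l
    unfold Pd
    rw [sum_mul]
    refine sum_congr rfl fun k _ => ?_
    rw [sum_mul]
  rw [hG]
  simp only [hE]
  have e1 : ∀ T : ℕ → ℕ → ℕ → ℕ → ℂ, ∑ k ∈ range K, ∑ j ∈ range K, ∑ i ∈ range K, ∑ l ∈ range K, T k j i l =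
      ∑ i ∈ range K, ∑ l ∈ range K, ∑ k ∈ range K, ∑ j ∈ range K, T k j i l := by
    intro T
    calc ∑ k ∈ range K, ∑ j ∈ range K, ∑ i ∈ range K, ∑ l ∈ range K, T k j i l
        = ∑ k ∈ range K, ∑ i ∈ range K, ∑ j ∈ range K, ∑ l ∈ range K, T k j i l :=
          sum_congr rfl fun k _ => sum_comm
      _ = ∑ i ∈ range K, ∑ k ∈ range K, ∑ j ∈ range K, ∑ l ∈ range K, T k j i l := sum_comm
      _ = ∑ i ∈ range K, ∑ k ∈ range K, ∑ l ∈ range K, ∑ j ∈ range K, T k j i l :=
          sum_congr rfl fun i _ => sum_congr rfl fun k _ => sum_comm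
      _ = ∑ i ∈ range K, ∑ l ∈ range K, ∑ k ∈ range K, ∑ j ∈ range K, T k j i l :=
          sum_congr rfl fun i _ => sum_comm
  exact e1 _

end Core

end Pool.Agent.ROH
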