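import Pool.Agent.ROH.ThreeL

/-!
ROH-SupS. Basic facts on the suprema `S(d)`, from `exists_bound_nf'` and `three_lines`.
-/

set_option autoImplicit false

namespace Pool.Agent.ROH

open Complex ComplexConjugate Finset

namespace Core

variable (c : Core)

theorem nf_nonneg (K : ℕ) (p : ℕ → ℕ → ℂ) (x y w : ℂ) : 0 ≤ c.nf K p x y w := by
  exact mul_nonneg (norm_nonneg _) (mul_nonneg (Real.exp_nonneg _) (Real.exp_nonneg _))

theorem bddAbove_nf (K : ℕ) (p : ℕ → ℕ → ℂ) (d : ℂ) :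
    BddAbove (Set.range fun z : ℂ × ℂ => c.nf K p z.1 z.2 (conj z.2 + d)) := by
  obtain ⟨C, hC1, hC⟩ := c.exists_bound_nf
  refine ⟨C * ∑ k ∈ range K, ∑ j ∈ range K, ‖p k j‖ * (C * (Real.sqrt K + ‖d‖)) ^ (k + j), ?_⟩
  rintro _ ⟨z, rfl⟩
  have h := hC K p z.1 z.2 (conj z.2 + d)
  rwa [add_sub_cancel_left] at h

theorem nf_le_S (K : ℕ) (p : ℕ → ℕ → ℂ) (x y d : ℂ) : c.nf K p x y (conj y + d) ≤ c.S K p d := by
  exact le_ciSup (c.bddAbove_nf K p d) (x, y)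

theorem S_nonneg (K : ℕ) (p : ℕ → ℕ → ℂ) (d : ℂ) : 0 ≤ c.S K p d := by
  exact (c.nf_nonneg K p 0 0 (conj 0 + d)).trans (c.nf_le_S K p 0 0 d)

theorem S_le (K : ℕ) (p : ℕ → ℕ → ℂ) (d : ℂ) (B : ℝ)
    (h : ∀ x y : ℂ, c.nf K p x y (conj y + d) ≤ B) : c.S K p d ≤ B := by
  exact ciSup_le fun z => h z.1 z.2

/-- almost the supremum is attained -/
theorem exists_nf_ge (K : ℕ) (p : ℕ → ℕ → ℂ) (d : ℂ) (e : ℝ) (he : 0 < e) :
    ∃ x y : ℂ, c.S K p d - e ≤ c.nf K p x y (conj y + d) := by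
  have h : c.S K p d - e < ⨆ z : ℂ × ℂ, c.nf K p z.1 z.2 (conj z.2 + d) := by
    change c.S K p d - e < c.S K p d
    linarith
  obtain ⟨z, hz⟩ := exists_lt_of_lt_ciSup h
  exact ⟨z.1, z.2, hz.le⟩

/-- convexity for the suprema -/
theorem S_convex (K : ℕ) (p : ℕ → ℕ → ℂ) (d : ℂ) (s : ℝ) (hs0 : 0 ≤ s) (hs1 : s ≤ 1) :
    c.S K p (s * d) * Real.exp ((c.al + c.be) * (s * ‖d‖) ^ 2 / 2) ≤
      c.S K p 0 ^ (1 - s) * (c.S K p d * Real.exp ((c.al + c.be) * ‖d‖ ^ 2 / 2)) ^ s := by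
  rw [← le_div_iff₀ (Real.exp_pos _)]
  refine c.S_le K p _ _ fun x y => ?_
  rw [le_div_iff₀ (Real.exp_pos _)]
  refine c.three_lines K p d s _ _ hs0 hs1 (c.S_nonneg K p 0) (c.S_nonneg K p d) (fun x y => ?_)
    (fun x y => c.nf_le_S K p x y d) x y
  have h := c.nf_le_S K p x y 0
  rwa [add_zero] at h

/-- growth of `S(d)` in terms of `S(0)` -/
theorem S_grow (K : ℕ) (p : ℕ → ℕ → ℂ) (Y E : ℝ) (hY : 0 < Y) (hE : 0 ≤ E)
    (h0 : Real.exp (-E) ≤ c.S K p 0)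
    (h1 : ∀ d : ℂ, ‖d‖ = Y → c.S K p d * Real.exp ((c.al + c.be) * Y ^ 2 / 2) ≤ Real.exp E)
    (d : ℂ) (hd : ‖d‖ ≤ Y) : c.S K p d ≤ c.S K p 0 * Real.exp (2 * E * ‖d‖ / Y) := by
  rcases eq_or_ne d 0 with h | h
  · subst h
    simp
  · have hd0 : 0 < ‖d‖ := norm_pos_iff.2 h
    have hal := c.hal
    have hbe := c.hbe
    have hs0 : 0 < ‖d‖ / Y := div_pos hd0 hY
    have hs1 : ‖d‖ / Y ≤ 1 := (div_le_one hY).2 hd
    set s : ℝ := ‖d‖ / Y with hs
    have hsY : s * Y = ‖d‖ := div_mul_cancel₀ _ hY.ne'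
    have hsc : (s : ℂ) ≠ 0 := by exact_mod_cast hs0.ne'
    have hd' : ‖d / s‖ = Y := by
      rw [norm_div, Complex.norm_real, Real.norm_of_nonneg hs0.le, ← hsY, mul_comm s Y, mul_div_assoc, div_self hs0.ne',
        mul_one]
    have e1 : (s : ℂ) * (d / s) = d := by
      field_simp
    have h2 := c.S_convex K p (d / s) s hs0.le hs1
    rw [e1, hd'] at h2
    have h3 := h1 (d / s) hd'
    have hSd : 0 ≤ c.S K p d := c.S_nonneg K p d
    have hS0 : 0 < c.S K p 0 := lt_of_lt_of_le (Real.exp_pos _) h0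
    have hSd' : 0 ≤ c.S K p (d / s) := c.S_nonneg K p _
    have h4 : c.S K p d ≤ c.S K p d * Real.exp ((c.al + c.be) * (s * Y) ^ 2 / 2) := by
      have h5 : 1 ≤ Real.exp ((c.al + c.be) * (s * Y) ^ 2 / 2) := by
        rw [← Real.exp_zero]
        exact Real.exp_le_exp.2 (by positivity)
      nlinarith
    have h5 : (c.S K p (d / s) * Real.exp ((c.al + c.be) * Y ^ 2 / 2)) ^ s ≤ Real.exp (E * s) := by
      rw [Real.exp_mul]
      exact Real.rpow_le_rpow (mul_nonneg hSd' (Real.exp_nonneg _)) h3 hs0.le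
    have h6 : c.S K p 0 ^ (1 - s) ≤ c.S K p 0 * Real.exp (E * s) := by
      rw [Real.rpow_sub hS0, Real.rpow_one, div_eq_mul_inv]
      refine mul_le_mul_of_nonneg_left ?_ hS0.le
      have h7 : Real.exp (-E) ^ s ≤ c.S K p 0 ^ s := Real.rpow_le_rpow (Real.exp_nonneg _) h0 hs0.le
      have h8 : Real.exp (-E) ^ s = (Real.exp (E * s))⁻¹ := by
        rw [← Real.exp_mul, ← Real.exp_neg]
        congr 1
        ring
      rw [h8] at h7
      have h9 : 0 < (Real.exp (E * s))⁻¹ := inv_pos.2 (Real.exp_pos _)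
      have h10 := inv_anti₀ h9 h7
      rwa [inv_inv] at h10
    calc c.S K p d ≤ c.S K p d * Real.exp ((c.al + c.be) * (s * Y) ^ 2 / 2) := h4
      _ ≤ c.S K p 0 ^ (1 - s) * (c.S K p (d / s) * Real.exp ((c.al + c.be) * Y ^ 2 / 2)) ^ s := h2
      _ ≤ (c.S K p 0 * Real.exp (E * s)) * Real.exp (E * s) :=
          mul_le_mul h6 h5 (Real.rpow_nonneg (mul_nonneg hSd' (Real.exp_nonneg _)) _)
            (mul_nonneg hS0.le (Real.exp_nonneg _))
      _ = c.S K p 0 * Real.exp (2 * E * ‖d‖ / Y) := by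
          rw [mul_assoc, ← Real.exp_add]
          congr 2
          rw [hs]
          ring

end Core

end Pool.Agent.ROH
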