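import Pool.Agent.ROH.DerP
import Pool.Agent.ROH.Expn
import Pool.Agent.ROH.SupS

/-!
ROH-LowB. Lower bound for `S(0)` (end of section 5).

Apply `exists_good_point` to the rescaled coefficients `p' k j = p k j (-2 al R)^k (2 be R)^j`, `R = C' K` (`C'` large, chosen
at the end; also `2 al R ≥ 1`, `2 be R ≥ 1`). With `δ = R d`: `Pd K p' i l d (conj d) = (-2 al R)^i (2 be R)^l *
Pd K p i l (-2 al δ) (2 be conj δ)`.
In `f_expand` at `(x, y)` from `c.low δ`: `F i x y (conj y)`, `H l x (conj w) w` with their weights are `≤ C (C √i)^i`,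
`C (C √l)^l` (`exists_bound_F/H`, distance `0`); so the terms `(i,l) ≠ (0,0)` sum up to at most
`‖P*‖ C² ∑ (C K/(2 al R))^i ... (√i)^i/i^i ... ≤ ‖P*‖ C² ∑_{(i,l)≠0} (C''/C')^(i+l) ≤ ‖P*‖ c0/2`;
the `(0,0)` term is `P* T1(x,y) T2(x,w)`, of weighted norm `≥ c0 ‖P*‖` (`F 0 = T1`, `H 0 = T2`). Hence `S(δ) ≥ ‖P*‖ c0/2`.
`S_convex` with `2δ` and `s = 1/2`: `S(δ)² ≤ S(0) S(2δ) exp(C R²)` (constants `C K²`), and by `exists_bound_nf`
`S(2δ) ≤ C ∑ ‖p k j‖ (C(√K + 2‖δ‖))^(k+j) ≤ nP K p' * C^K` since `√K + 2‖δ‖ ≤ C R`. So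
`S(0) ≥ ‖P*‖² c0²/4 * exp(-C K²)/(nP K p' C^K) ≥ nP K p' exp(-C K²) ≥ nP K p exp(-C K²)`.
If all `p k j = 0` (`k, j < K`) the statement is trivial.
-/

set_option autoImplicit false

namespace Pool.Agent.ROH

open Complex ComplexConjugate Finset

private theorem lowB_Pd (K : ℕ) (p : ℕ → ℕ → ℂ) (a b : ℂ) (i l : ℕ) (X Y : ℂ) :
    Pd K (fun k j => p k j * (a ^ k * b ^ j)) i l X Y = a ^ i * b ^ l * Pd K p i l (a * X) (b * Y) := by
  unfold Pd
  rw [Finset.mul_sum]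
  refine Finset.sum_congr rfl fun k _ => ?_
  rw [Finset.mul_sum]
  refine Finset.sum_congr rfl fun j _ => ?_
  rcases Nat.lt_or_ge k i with hk | hk
  · rw [Nat.choose_eq_zero_of_lt hk]
    simp
  rcases Nat.lt_or_ge j l with hj | hj
  · rw [Nat.choose_eq_zero_of_lt hj]
    simp
  obtain ⟨k', rfl⟩ := Nat.exists_eq_add_of_le hk
  obtain ⟨j', rfl⟩ := Nat.exists_eq_add_of_le hj
  rw [Nat.add_sub_cancel_left, Nat.add_sub_cancel_left]
  show p (i + k') (l + j') * (a ^ (i + k') * b ^ (l + j')) * _ = _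
  rw [pow_add, pow_add, mul_pow, mul_pow]
  ring

private theorem lowB_geom (q : ℝ) (h0 : 0 ≤ q) (h1 : q ≤ 1 / 2) (K : ℕ) :
    ∑ i ∈ range K, q ^ i ≤ 1 + 2 * q := by
  have h2 : (∑ i ∈ range K, q ^ i) * (1 - q) ≤ 1 := by
    have h3 := geom_sum_mul_neg q K
    rw [h3]
    have := pow_nonneg h0 K
    linarith
  have h4 : 1 ≤ (1 + 2 * q) * (1 - q) := by nlinarith
  have h5 : 0 < 1 - q := by linarith
  exact le_of_mul_le_mul_right (h2.trans h4) h5

private theorem lowB_geom2 (q : ℝ) (h0 : 0 ≤ q) (h1 : q ≤ 1 / 2) (K : ℕ) :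
    ∑ z ∈ range K ×ˢ range K, q ^ (z.1 + z.2) ≤ 1 + 6 * q := by
  rw [Finset.sum_product]
  have h2 : ∑ i ∈ range K, ∑ l ∈ range K, q ^ (i + l) = (∑ i ∈ range K, q ^ i) * ∑ l ∈ range K, q ^ l := by
    rw [Finset.sum_mul_sum]
    exact Finset.sum_congr rfl fun i _ => Finset.sum_congr rfl fun l _ => pow_add q i l
  show ∑ i ∈ range K, ∑ l ∈ range K, q ^ (i + l) ≤ _
  rw [h2]
  have h3 := lowB_geom q h0 h1 K
  have h4 : 0 ≤ ∑ i ∈ range K, q ^ i := Finset.sum_nonneg fun i _ => pow_nonneg h0 i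
  calc (∑ i ∈ range K, q ^ i) * ∑ l ∈ range K, q ^ l ≤ (1 + 2 * q) * (1 + 2 * q) :=
        mul_le_mul h3 h3 h4 (by linarith)
    _ ≤ 1 + 6 * q := by nlinarith

private theorem lowB_sqrt (i : ℕ) : Real.sqrt i ^ i ≤ (i : ℝ) ^ i := by
  rcases Nat.eq_zero_or_pos i with h | h
  · subst h
    simp
  · refine pow_le_pow_left₀ (Real.sqrt_nonneg _) ?_ i
    have h1 : (1 : ℝ) ≤ i := by exact_mod_cast h
    rw [Real.sqrt_le_left (by linarith)]
    nlinarith

private theorem lowB_pos (i : ℕ) : (0 : ℝ) < (i : ℝ) ^ i := by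
  rcases Nat.eq_zero_or_pos i with h | h
  · subst h
    simp
  · have h1 : (0 : ℝ) < i := by exact_mod_cast h
    exact pow_pos h1 i

/-- a sum with a dominant term -/
private theorem lowB_dom (K : ℕ) (hK : 1 ≤ K) (t : ℕ → ℕ → ℂ) (W P q B c0 : ℝ) (hW : 0 ≤ W)
    (hq0 : 0 ≤ q) (hq1 : q ≤ 1 / 2) (hB : 0 ≤ P * B)
    (hmain : P * c0 ≤ ‖t 0 0‖ * W) (ht : ∀ i < K, ∀ l < K, ‖t i l‖ * W ≤ P * B * q ^ (i + l)) :
    P * c0 - P * B * (6 * q) ≤ ‖∑ i ∈ range K, ∑ l ∈ range K, t i l‖ * W := by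
  classical
  rw [← Finset.sum_product' (range K) (range K) t]
  have h00 : ((0, 0) : ℕ × ℕ) ∈ range K ×ˢ range K := by
    rw [Finset.mem_product]
    exact ⟨Finset.mem_range.2 hK, Finset.mem_range.2 hK⟩
  have h1 := Finset.add_sum_erase (range K ×ˢ range K) (fun z => t z.1 z.2) h00
  have h2 : ‖t 0 0‖ ≤ ‖∑ z ∈ range K ×ˢ range K, t z.1 z.2‖ +
      ∑ z ∈ (range K ×ˢ range K).erase (0, 0), ‖t z.1 z.2‖ := by
    have h3 : t 0 0 = (∑ z ∈ range K ×ˢ range K, t z.1 z.2) -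
        ∑ z ∈ (range K ×ˢ range K).erase (0, 0), t z.1 z.2 := by
      rw [← h1]
      ring
    calc ‖t 0 0‖ = ‖(∑ z ∈ range K ×ˢ range K, t z.1 z.2) -
        ∑ z ∈ (range K ×ˢ range K).erase (0, 0), t z.1 z.2‖ := by rw [← h3]
      _ ≤ ‖∑ z ∈ range K ×ˢ range K, t z.1 z.2‖ +
          ‖∑ z ∈ (range K ×ˢ range K).erase (0, 0), t z.1 z.2‖ := norm_sub_le _ _
      _ ≤ _ := by
        have := norm_sum_le ((range K ×ˢ range K).erase (0, 0)) (fun z => t z.1 z.2)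
        linarith
  have h4 : (∑ z ∈ (range K ×ˢ range K).erase (0, 0), ‖t z.1 z.2‖) * W ≤ P * B * (6 * q) := by
    rw [Finset.sum_mul]
    have h5 : ∑ z ∈ (range K ×ˢ range K).erase (0, 0), ‖t z.1 z.2‖ * W ≤
        ∑ z ∈ (range K ×ˢ range K).erase (0, 0), P * B * q ^ (z.1 + z.2) := by
      refine Finset.sum_le_sum fun z hz => ?_
      have hz' := Finset.mem_of_mem_erase hz
      rw [Finset.mem_product] at hz'
      exact ht z.1 (Finset.mem_range.1 hz'.1) z.2 (Finset.mem_range.1 hz'.2)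
    have h6 := Finset.add_sum_erase (range K ×ˢ range K) (fun z => q ^ (z.1 + z.2)) h00
    have h7 := lowB_geom2 q hq0 hq1 K
    rw [← Finset.mul_sum] at h5
    refine h5.trans (mul_le_mul_of_nonneg_left ?_ hB)
    simp only [add_zero, pow_zero] at h6
    linarith
  have h8 := mul_le_mul_of_nonneg_right h2 hW
  rw [add_mul] at h8
  linarith

namespace Core

variable (c : Core)

private theorem lowB_F0 (x y w : ℂ) : c.F 0 x y w = c.T1 (x, y) := by
  unfold F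
  rw [iteratedDeriv_zero]
  simp

private theorem lowB_H0 (x y w : ℂ) : c.H 0 x y w = c.T2 (x, w) := by
  unfold H
  rw [iteratedDeriv_zero]
  simp

/-- lower bound at a good point -/
private theorem lowB_good : ∃ A : ℝ, 1 ≤ A ∧ ∃ D : ℝ, 1 ≤ D ∧ ∃ c0 : ℝ, 0 < c0 ∧
    1 ≤ 2 * c.al * A ∧ 1 ≤ 2 * c.be * A ∧
    ∀ (K : ℕ) (p : ℕ → ℕ → ℂ), 1 ≤ K → (∃ k < K, ∃ j < K, p k j ≠ 0) → ∃ δ : ℂ, ‖δ‖ ≤ A * K * D ∧
      nP K (fun k j => p k j * ((-(2 * c.al * (A * K)) : ℂ) ^ k * (2 * c.be * (A * K) : ℂ) ^ j)) * c0 ≤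
        D ^ K * c.S K p δ := by
  obtain ⟨C1, hC1, hF⟩ := c.exists_bound_F
  obtain ⟨C2, hC2, hH⟩ := c.exists_bound_H
  obtain ⟨D, hD, hgood⟩ := exists_good_point
  obtain ⟨c0, hc0, hlow⟩ := c.low
  have hal := c.hal
  have hbe := c.hbe
  -- the small ratio
  set q : ℝ := min (1 / 2) (c0 / (12 * (C1 * C2))) with hq
  have hCC : 0 < C1 * C2 := by positivity
  have hq0 : 0 < q := lt_min (by norm_num) (by positivity)
  have hq1 : q ≤ 1 / 2 := min_le_left _ _
  have hq2 : C1 * C2 * (6 * q) ≤ c0 / 2 := by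
    have h1 : q ≤ c0 / (12 * (C1 * C2)) := min_le_right _ _
    rw [le_div_iff₀ (by positivity)] at h1
    nlinarith
  -- the constant `A`
  obtain ⟨A, hA1, hA2, hA3, hA4, hA5⟩ : ∃ A : ℝ, 1 ≤ A ∧ 1 ≤ 2 * c.al * A ∧ 1 ≤ 2 * c.be * A ∧
      D * C1 ≤ q * (2 * c.al * A) ∧ D * C2 ≤ q * (2 * c.be * A) := by
    refine ⟨1 + 1 / (2 * c.al) + 1 / (2 * c.be) + D * C1 / (q * (2 * c.al)) + D * C2 / (q * (2 * c.be)),
      ?_, ?_, ?_, ?_, ?_⟩
    · have h1 : 0 ≤ 1 / (2 * c.al) := by positivity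
      have h2 : 0 ≤ 1 / (2 * c.be) := by positivity
      have h3 : 0 ≤ D * C1 / (q * (2 * c.al)) := by positivity
      have h4 : 0 ≤ D * C2 / (q * (2 * c.be)) := by positivity
      linarith
    · have h1 : 2 * c.al * (1 / (2 * c.al)) = 1 := by field_simp
      have h2 : 0 ≤ 2 * c.al * (1 / (2 * c.be)) := by positivity
      have h3 : 0 ≤ 2 * c.al * (D * C1 / (q * (2 * c.al))) := by positivity
      have h4 : 0 ≤ 2 * c.al * (D * C2 / (q * (2 * c.be))) := by positivity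
      nlinarith
    · have h1 : 2 * c.be * (1 / (2 * c.be)) = 1 := by field_simp
      have h2 : 0 ≤ 2 * c.be * (1 / (2 * c.al)) := by positivity
      have h3 : 0 ≤ 2 * c.be * (D * C1 / (q * (2 * c.al))) := by positivity
      have h4 : 0 ≤ 2 * c.be * (D * C2 / (q * (2 * c.be))) := by positivity
      nlinarith
    · have h1 : q * (2 * c.al) * (D * C1 / (q * (2 * c.al))) = D * C1 := by field_simp
      have h2 : 0 ≤ q * (2 * c.al) * (1 / (2 * c.al)) := by positivity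
      have h3 : 0 ≤ q * (2 * c.al) * (1 / (2 * c.be)) := by positivity
      have h4 : 0 ≤ q * (2 * c.al) * (D * C2 / (q * (2 * c.be))) := by positivity
      have h5 : 0 < q * (2 * c.al) := by positivity
      nlinarith
    · have h1 : q * (2 * c.be) * (D * C2 / (q * (2 * c.be))) = D * C2 := by field_simp
      have h2 : 0 ≤ q * (2 * c.be) * (1 / (2 * c.al)) := by positivity
      have h3 : 0 ≤ q * (2 * c.be) * (1 / (2 * c.be)) := by positivity
      have h4 : 0 ≤ q * (2 * c.be) * (D * C1 / (q * (2 * c.al))) := by positivity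
      have h5 : 0 < q * (2 * c.be) := by positivity
      nlinarith
  refine ⟨A, hA1, D, hD, c0 / 2, by positivity, hA2, hA3, ?_⟩
  intro K p hK hp
  have hK1 : (1 : ℝ) ≤ K := by exact_mod_cast hK
  have hA0 : 0 < A := by linarith
  have hne1 : (-(2 * c.al * (A * K)) : ℂ) ≠ 0 := by
    have : (0 : ℝ) < 2 * c.al * (A * K) := by positivity
    have h1 : (-(2 * c.al * (A * K)) : ℂ) = ((-(2 * c.al * (A * K)) : ℝ) : ℂ) := by push_cast; ring
    rw [h1]
    exact_mod_cast (by linarith : (-(2 * c.al * (A * K)) : ℝ) < 0).ne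
  have hne2 : (2 * c.be * (A * K) : ℂ) ≠ 0 := by
    have : (0 : ℝ) < 2 * c.be * (A * K) := by positivity
    have h1 : (2 * c.be * (A * K) : ℂ) = ((2 * c.be * (A * K) : ℝ) : ℂ) := by push_cast; ring
    rw [h1]
    exact_mod_cast this.ne'
  have hn1 : ‖(-(2 * c.al * (A * K)) : ℂ)‖ = 2 * c.al * (A * K) := by
    have h1 : (-(2 * c.al * (A * K)) : ℂ) = ((-(2 * c.al * (A * K)) : ℝ) : ℂ) := by push_cast; ring
    rw [h1, Complex.norm_real, Real.norm_eq_abs, abs_neg, abs_of_nonneg (by positivity)]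
  have hn2 : ‖(2 * c.be * (A * K) : ℂ)‖ = 2 * c.be * (A * K) := by
    have h1 : (2 * c.be * (A * K) : ℂ) = ((2 * c.be * (A * K) : ℝ) : ℂ) := by push_cast; ring
    rw [h1, Complex.norm_real, Real.norm_eq_abs, abs_of_nonneg (by positivity)]
  obtain ⟨d, hd, hP0, hnP, hder⟩ := hgood K
    (fun k j => p k j * ((-(2 * c.al * (A * K)) : ℂ) ^ k * (2 * c.be * (A * K) : ℂ) ^ j)) hK (by
      obtain ⟨k, hk, j, hj, hkj⟩ := hp
      exact ⟨k, hk, j, hj, mul_ne_zero hkj (mul_ne_zero (pow_ne_zero _ hne1) (pow_ne_zero _ hne2))⟩)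
  set δ : ℂ := (A * K : ℝ) * d with hδ
  have hnδ : ‖δ‖ ≤ A * K * D := by
    rw [hδ, norm_mul, Complex.norm_real, Real.norm_eq_abs, abs_of_nonneg (by positivity)]
    exact mul_le_mul_of_nonneg_left hd (by positivity)
  refine ⟨δ, hnδ, ?_⟩
  set P : ℝ := ‖Pd K (fun k j => p k j * ((-(2 * c.al * (A * K)) : ℂ) ^ k * (2 * c.be * (A * K) : ℂ) ^ j))
    0 0 d (conj d)‖ with hP
  -- the coefficients of the expansion
  have hPd : ∀ i l, ‖Pd K (fun k j => p k j * ((-(2 * c.al * (A * K)) : ℂ) ^ k *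
      (2 * c.be * (A * K) : ℂ) ^ j)) i l d (conj d)‖ =
      (2 * c.al * (A * K)) ^ i * (2 * c.be * (A * K)) ^ l *
        ‖Pd K p i l (-(2 * c.al * δ)) (2 * c.be * conj δ)‖ := by
    intro i l
    rw [lowB_Pd, norm_mul, norm_mul, norm_pow, norm_pow, hn1, hn2]
    congr 3
    · rw [hδ]
      push_cast
      ring
    · rw [hδ, map_mul, Complex.conj_ofReal]
      push_cast
      ring
  obtain ⟨x, y, hxy⟩ := hlow δ
  set w : ℂ := conj y + δ with hw
  have hW1 : 0 < c.w1 x y := Real.exp_pos _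
  have hW2 : 0 < c.w2 x w := Real.exp_pos _
  have hWW : Real.exp (-(c.al * (‖x‖ ^ 2 + ‖y‖ ^ 2) + c.be * (‖x‖ ^ 2 + ‖w‖ ^ 2))) = c.w1 x y * c.w2 x w := by
    unfold w1 w2
    rw [← Real.exp_add]
    congr 1
    ring
  rw [hWW] at hxy
  have hPP : P = ‖Pd K p 0 0 (-(2 * c.al * δ)) (2 * c.be * conj δ)‖ := by
    rw [hP, hPd 0 0, pow_zero, pow_zero, one_mul, one_mul]
  have hterm : ∀ i < K, ∀ l < K, ‖Pd K p i l (-(2 * c.al * δ)) (2 * c.be * conj δ) *
      (c.F i x y (conj y) * c.H l x (conj w) w)‖ * (c.w1 x y * c.w2 x w) ≤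
      P * (C1 * C2) * q ^ (i + l) := by
    intro i hi l hl
    have h1 := hF i x y (conj y)
    rw [sub_self, norm_zero, add_zero] at h1
    have h2 := hH l x (conj w) w
    rw [Complex.conj_conj, sub_self, norm_zero, add_zero] at h2
    have h3 := hder i hi l hl
    rw [hPd i l] at h3
    rw [norm_mul, norm_mul]
    set Q : ℝ := ‖Pd K p i l (-(2 * c.al * δ)) (2 * c.be * conj δ)‖ with hQ
    have hQ0 : 0 ≤ Q := norm_nonneg _
    have hii := lowB_pos i
    have hll := lowB_pos l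
    -- `h3 : a^i b^l Q * (i^i l^l) ≤ (D K)^(i+l) P`
    have hFi : ‖c.F i x y (conj y)‖ * c.w1 x y ≤ C1 * (C1 ^ i * (i : ℝ) ^ i) := by
      refine h1.trans (mul_le_mul_of_nonneg_left ?_ (by linarith))
      rw [mul_pow]
      exact mul_le_mul_of_nonneg_left (lowB_sqrt i) (by positivity)
    have hHl : ‖c.H l x (conj w) w‖ * c.w2 x w ≤ C2 * (C2 ^ l * (l : ℝ) ^ l) := by
      refine h2.trans (mul_le_mul_of_nonneg_left ?_ (by linarith))
      rw [mul_pow]
      exact mul_le_mul_of_nonneg_left (lowB_sqrt l) (by positivity)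
    have h4 : Q * (‖c.F i x y (conj y)‖ * ‖c.H l x (conj w) w‖) * (c.w1 x y * c.w2 x w) ≤
        Q * ((C1 * (C1 ^ i * (i : ℝ) ^ i)) * (C2 * (C2 ^ l * (l : ℝ) ^ l))) := by
      have h5 := mul_le_mul hFi hHl (by positivity) (by positivity)
      calc Q * (‖c.F i x y (conj y)‖ * ‖c.H l x (conj w) w‖) * (c.w1 x y * c.w2 x w)
          = Q * (‖c.F i x y (conj y)‖ * c.w1 x y * (‖c.H l x (conj w) w‖ * c.w2 x w)) := by ring
        _ ≤ _ := mul_le_mul_of_nonneg_left h5 hQ0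
    refine h4.trans ?_
    -- multiply by the positive number `a^i b^l`
    set a : ℝ := 2 * c.al * (A * K) with ha
    set b : ℝ := 2 * c.be * (A * K) with hb
    have ha0 : 0 < a := by positivity
    have hb0 : 0 < b := by positivity
    have h6 : D * K * C1 ≤ q * a := by
      calc D * K * C1 = D * C1 * K := by ring
        _ ≤ q * (2 * c.al * A) * K := mul_le_mul_of_nonneg_right hA4 (by linarith)
        _ = q * a := by rw [ha]; ring
    have h7 : D * K * C2 ≤ q * b := by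
      calc D * K * C2 = D * C2 * K := by ring
        _ ≤ q * (2 * c.be * A) * K := mul_le_mul_of_nonneg_right hA5 (by linarith)
        _ = q * b := by rw [hb]; ring
    have h8 : (D * K * C1) ^ i ≤ (q * a) ^ i := pow_le_pow_left₀ (by positivity) h6 i
    have h9 : (D * K * C2) ^ l ≤ (q * b) ^ l := pow_le_pow_left₀ (by positivity) h7 l
    have hab : 0 < a ^ i * b ^ l := by positivity
    have hP0' : 0 ≤ P := norm_nonneg _
    refine le_of_mul_le_mul_left ?_ hab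
    calc a ^ i * b ^ l * (Q * ((C1 * (C1 ^ i * (i : ℝ) ^ i)) * (C2 * (C2 ^ l * (l : ℝ) ^ l))))
        = (a ^ i * b ^ l * Q * ((i : ℝ) ^ i * (l : ℝ) ^ l)) * (C1 * C2 * (C1 ^ i * C2 ^ l)) := by ring
      _ ≤ ((D * K) ^ (i + l) * P) * (C1 * C2 * (C1 ^ i * C2 ^ l)) :=
          mul_le_mul_of_nonneg_right h3 (by positivity)
      _ = P * (C1 * C2) * ((D * K * C1) ^ i * (D * K * C2) ^ l) := by
          rw [pow_add, mul_pow (D * K) C1, mul_pow (D * K) C2]
          ring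
      _ ≤ P * (C1 * C2) * ((q * a) ^ i * (q * b) ^ l) := by
          refine mul_le_mul_of_nonneg_left (mul_le_mul h8 h9 (by positivity) (by positivity)) (by positivity)
      _ = a ^ i * b ^ l * (P * (C1 * C2) * q ^ (i + l)) := by
          rw [mul_pow, mul_pow, pow_add]
          ring
  have hmain : P * c0 ≤ ‖Pd K p 0 0 (-(2 * c.al * δ)) (2 * c.be * conj δ) *
      (c.F 0 x y (conj y) * c.H 0 x (conj w) w)‖ * (c.w1 x y * c.w2 x w) := by
    rw [norm_mul, ← hPP, c.lowB_F0, c.lowB_H0, norm_mul, mul_assoc]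
    exact mul_le_mul_of_nonneg_left hxy hP0.le
  have hdom := lowB_dom K hK (fun i l => Pd K p i l (-(2 * c.al * δ)) (2 * c.be * conj δ) *
      (c.F i x y (conj y) * c.H l x (conj w) w)) (c.w1 x y * c.w2 x w) P q (C1 * C2) c0
      (by positivity) hq0.le hq1 (by positivity) hmain hterm
  have hexp := c.f_expand K p x y δ
  rw [← hw] at hexp
  rw [← hexp] at hdom
  have hS := c.nf_le_S K p x y δ
  unfold nf at hS
  rw [← hw] at hS
  have h10 : P * (c0 / 2) ≤ c.S K p δ := by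
    have h11 : P * (C1 * C2) * (6 * q) ≤ P * (c0 / 2) := by
      calc P * (C1 * C2) * (6 * q) = P * (C1 * C2 * (6 * q)) := by ring
        _ ≤ _ := mul_le_mul_of_nonneg_left hq2 hP0.le
    linarith
  have hDK : 0 < D ^ K := by positivity
  calc _ ≤ D ^ K * P * (c0 / 2) := mul_le_mul_of_nonneg_right hnP (by positivity)
    _ = D ^ K * (P * (c0 / 2)) := by ring
    _ ≤ D ^ K * c.S K p δ := mul_le_mul_of_nonneg_left h10 hDK.le

theorem exists_lower : ∃ C : ℝ, 1 ≤ C ∧ ∀ (K : ℕ) (p : ℕ → ℕ → ℂ), 1 ≤ K →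
    nP K p ≤ c.S K p 0 * Real.exp (C * (K : ℝ) ^ 2) := by
  obtain ⟨A, hA1, D, hD, c0, hc0, hA2, hA3, hgood⟩ := c.lowB_good
  obtain ⟨B, hB, hnf⟩ := c.exists_bound_nf
  have hal := c.hal
  have hbe := c.hbe
  set G : ℝ := c.al + c.be with hG
  have hG0 : 0 < G := by positivity
  set E : ℝ := B * (1 + 2 * (A * D)) with hE
  have hAD : 0 < A * D := by positivity
  have hE1 : 1 ≤ E := by
    rw [hE]
    nlinarith
  refine ⟨1 + B / c0 ^ 2 + 2 * D + 2 * E + 2 * G * (A * D) ^ 2, ?_, ?_⟩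
  · have h1 : 0 ≤ B / c0 ^ 2 := by positivity
    have h2 : 0 ≤ 2 * G * (A * D) ^ 2 := by positivity
    linarith
  intro K p hK
  have hK1 : (1 : ℝ) ≤ K := by exact_mod_cast hK
  have hS0 : 0 ≤ c.S K p 0 := c.S_nonneg K p 0
  by_cases hp : ∃ k < K, ∃ j < K, p k j ≠ 0
  swap
  · have h0 : nP K p = 0 := by
      unfold nP
      refine Finset.sum_eq_zero fun k hk => Finset.sum_eq_zero fun j hj => ?_
      by_contra hcon
      exact hp ⟨k, Finset.mem_range.1 hk, j, Finset.mem_range.1 hj, fun h => hcon (by rw [h, norm_zero])⟩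
    rw [h0]
    exact mul_nonneg hS0 (Real.exp_pos _).le
  obtain ⟨δ, hδ, hlow⟩ := hgood K p hK hp
  have hA0 : 0 < A := by linarith
  have hn1 : ‖(-(2 * c.al * (A * K)) : ℂ)‖ = 2 * c.al * (A * K) := by
    have h1 : (-(2 * c.al * (A * K)) : ℂ) = ((-(2 * c.al * (A * K)) : ℝ) : ℂ) := by push_cast; ring
    rw [h1, Complex.norm_real, Real.norm_eq_abs, abs_neg, abs_of_nonneg (by positivity)]
  have hn2 : ‖(2 * c.be * (A * K) : ℂ)‖ = 2 * c.be * (A * K) := by
    have h1 : (2 * c.be * (A * K) : ℂ) = ((2 * c.be * (A * K) : ℝ) : ℂ) := by push_cast; ring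
    rw [h1, Complex.norm_real, Real.norm_eq_abs, abs_of_nonneg (by positivity)]
  set N : ℝ := nP K (fun k j => p k j * ((-(2 * c.al * (A * K)) : ℂ) ^ k * (2 * c.be * (A * K) : ℂ) ^ j))
    with hN
  have hNeq : N = ∑ k ∈ range K, ∑ j ∈ range K, ‖p k j‖ * ((2 * c.al * (A * K)) ^ k * (2 * c.be * (A * K)) ^ j) := by
    rw [hN]
    unfold nP
    refine Finset.sum_congr rfl fun k _ => Finset.sum_congr rfl fun j _ => ?_
    rw [norm_mul, norm_mul, norm_pow, norm_pow, hn1, hn2]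
  have ha1 : 1 ≤ 2 * c.al * (A * K) := by
    calc (1 : ℝ) ≤ 2 * c.al * A * 1 := by linarith
      _ ≤ 2 * c.al * A * K := mul_le_mul_of_nonneg_left hK1 (by positivity)
      _ = _ := by ring
  have hb1 : 1 ≤ 2 * c.be * (A * K) := by
    calc (1 : ℝ) ≤ 2 * c.be * A * 1 := by linarith
      _ ≤ 2 * c.be * A * K := mul_le_mul_of_nonneg_left hK1 (by positivity)
      _ = _ := by ring
  have haK : (K : ℝ) ≤ 2 * c.al * (A * K) := by
    calc (K : ℝ) = 1 * K := by ring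
      _ ≤ 2 * c.al * A * K := mul_le_mul_of_nonneg_right hA2 (by linarith)
      _ = _ := by ring
  have hbK : (K : ℝ) ≤ 2 * c.be * (A * K) := by
    calc (K : ℝ) = 1 * K := by ring
      _ ≤ 2 * c.be * A * K := mul_le_mul_of_nonneg_right hA3 (by linarith)
      _ = _ := by ring
  -- `nP K p ≤ N`
  have hpN : nP K p ≤ N := by
    rw [hNeq]
    unfold nP
    refine Finset.sum_le_sum fun k _ => Finset.sum_le_sum fun j _ => ?_
    refine le_mul_of_one_le_right (norm_nonneg _) ?_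
    calc (1 : ℝ) = 1 * 1 := by ring
      _ ≤ _ := mul_le_mul (one_le_pow₀ ha1) (one_le_pow₀ hb1) zero_le_one (by positivity)
  -- upper bound at `2 δ`
  have hup : c.S K p (2 * δ) ≤ B * (E ^ (2 * K) * N) := by
    refine c.S_le K p _ _ fun x y => ?_
    refine (hnf K p x y _).trans (mul_le_mul_of_nonneg_left ?_ (by linarith))
    rw [hNeq, Finset.mul_sum]
    refine Finset.sum_le_sum fun k hk => ?_
    rw [Finset.mul_sum]
    refine Finset.sum_le_sum fun j hj => ?_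
    have hk' := Finset.mem_range.1 hk
    have hj' := Finset.mem_range.1 hj
    have h1 : conj y + 2 * δ - conj y = 2 * δ := by ring
    rw [h1, norm_mul, Complex.norm_ofNat]
    have hsq : Real.sqrt K ≤ K := by
      rw [Real.sqrt_le_left (by linarith)]
      nlinarith
    have h2 : B * (Real.sqrt K + 2 * ‖δ‖) ≤ E * K := by
      rw [hE]
      calc B * (Real.sqrt K + 2 * ‖δ‖) ≤ B * (K + 2 * (A * K * D)) :=
            mul_le_mul_of_nonneg_left (by linarith) (by linarith)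
        _ = _ := by ring
    have h0 : 0 ≤ B * (Real.sqrt K + 2 * ‖δ‖) := by positivity
    calc ‖p k j‖ * (B * (Real.sqrt K + 2 * ‖δ‖)) ^ (k + j) ≤ ‖p k j‖ * (E * K) ^ (k + j) :=
          mul_le_mul_of_nonneg_left (pow_le_pow_left₀ h0 h2 _) (norm_nonneg _)
      _ = ‖p k j‖ * (E ^ (k + j) * ((K : ℝ) ^ k * (K : ℝ) ^ j)) := by rw [mul_pow, pow_add (K : ℝ)]
      _ ≤ ‖p k j‖ * (E ^ (2 * K) * ((2 * c.al * (A * K)) ^ k * (2 * c.be * (A * K)) ^ j)) := by
          refine mul_le_mul_of_nonneg_left ?_ (norm_nonneg _)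
          refine mul_le_mul (pow_le_pow_right₀ hE1 (by omega)) ?_ (by positivity) (by positivity)
          exact mul_le_mul (pow_le_pow_left₀ (by positivity) haK _) (pow_le_pow_left₀ (by positivity) hbK _)
            (by positivity) (by positivity)
      _ = E ^ (2 * K) * (‖p k j‖ * ((2 * c.al * (A * K)) ^ k * (2 * c.be * (A * K)) ^ j)) := by ring
  -- convexity
  have hSδ : 0 ≤ c.S K p δ := c.S_nonneg K p δ
  have hS2 : 0 ≤ c.S K p (2 * δ) := c.S_nonneg K p (2 * δ)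
  have hconv : c.S K p δ ^ 2 ≤ c.S K p 0 * (c.S K p (2 * δ) * Real.exp (2 * G * (A * D) ^ 2 * (K : ℝ) ^ 2)) := by
    have h1 := c.S_convex K p (2 * δ) (1 / 2) (by norm_num) (by norm_num)
    have h2 : (((1 / 2 : ℝ)) : ℂ) * (2 * δ) = δ := by
      push_cast
      ring
    rw [h2, ← hG] at h1
    have h3 : c.S K p δ ≤ c.S K p δ * Real.exp (G * (1 / 2 * ‖2 * δ‖) ^ 2 / 2) :=
      le_mul_of_one_le_right hSδ (Real.one_le_exp (by positivity))
    have h4 := h3.trans h1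
    have h5 : (1 : ℝ) - 1 / 2 = 1 / 2 := by norm_num
    rw [h5, ← Real.sqrt_eq_rpow, ← Real.sqrt_eq_rpow, ← Real.sqrt_mul hS0] at h4
    have h6 := pow_le_pow_left₀ hSδ h4 2
    rw [Real.sq_sqrt (by positivity)] at h6
    refine h6.trans (mul_le_mul_of_nonneg_left (mul_le_mul_of_nonneg_left (Real.exp_le_exp.2 ?_) hS2) hS0)
    rw [norm_mul, Complex.norm_ofNat]
    have h7 : ‖δ‖ ^ 2 ≤ (A * K * D) ^ 2 := pow_le_pow_left₀ (norm_nonneg _) hδ 2
    calc G * (2 * ‖δ‖) ^ 2 / 2 = 2 * G * ‖δ‖ ^ 2 := by ring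
      _ ≤ 2 * G * (A * K * D) ^ 2 := mul_le_mul_of_nonneg_left h7 (by positivity)
      _ = _ := by ring
  -- combination
  have hN0 : 0 ≤ N := by
    rw [hNeq]
    positivity
  rcases hN0.eq_or_lt with hN0 | hN0
  · have h1 : nP K p ≤ 0 := by rw [hN0]; exact hpN
    exact h1.trans (mul_nonneg hS0 (Real.exp_pos _).le)
  refine hpN.trans ?_
  set X : ℝ := Real.exp (2 * G * (A * D) ^ 2 * (K : ℝ) ^ 2) with hX
  have hX0 : 0 < X := Real.exp_pos _
  have h8 : (N * c0) ^ 2 ≤ (D ^ K * c.S K p δ) ^ 2 := pow_le_pow_left₀ (by positivity) hlow 2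
  have h9 : N * N * c0 ^ 2 ≤ D ^ (2 * K) * (c.S K p 0 * (B * (E ^ (2 * K) * N) * X)) := by
    calc N * N * c0 ^ 2 = (N * c0) ^ 2 := by ring
      _ ≤ (D ^ K * c.S K p δ) ^ 2 := h8
      _ = D ^ (2 * K) * c.S K p δ ^ 2 := by rw [mul_pow, ← pow_mul, mul_comm K 2]
      _ ≤ D ^ (2 * K) * (c.S K p 0 * (c.S K p (2 * δ) * X)) :=
          mul_le_mul_of_nonneg_left hconv (by positivity)
      _ ≤ _ := by
          refine mul_le_mul_of_nonneg_left (mul_le_mul_of_nonneg_left ?_ hS0) (by positivity)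
          exact mul_le_mul_of_nonneg_right hup hX0.le
  have h10 : N * c0 ^ 2 ≤ c.S K p 0 * (B * (D ^ (2 * K) * E ^ (2 * K) * X)) := by
    refine le_of_mul_le_mul_left ?_ hN0
    calc N * (N * c0 ^ 2) = N * N * c0 ^ 2 := by ring
      _ ≤ D ^ (2 * K) * (c.S K p 0 * (B * (E ^ (2 * K) * N) * X)) := h9
      _ = _ := by ring
  have h11 : N ≤ c.S K p 0 * ((B / c0 ^ 2) * (D ^ (2 * K) * E ^ (2 * K) * X)) := by
    have hc2 : 0 < c0 ^ 2 := by positivity
    refine le_of_mul_le_mul_right ?_ hc2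
    calc N * c0 ^ 2 ≤ _ := h10
      _ = c.S K p 0 * (B / c0 ^ 2 * (D ^ (2 * K) * E ^ (2 * K) * X)) * c0 ^ 2 := by
          field_simp
  refine h11.trans (mul_le_mul_of_nonneg_left ?_ hS0)
  have hKK : (K : ℝ) ≤ (K : ℝ) ^ 2 := by nlinarith
  have hK2 : (1 : ℝ) ≤ (K : ℝ) ^ 2 := by nlinarith
  have hpw : ∀ z : ℝ, 0 < z → z ^ (2 * K) ≤ Real.exp (2 * z * (K : ℝ) ^ 2) := by
    intro z hz
    have h1 : z ≤ Real.exp z := by
      have := Real.add_one_le_exp z
      linarith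
    calc z ^ (2 * K) ≤ Real.exp z ^ (2 * K) := pow_le_pow_left₀ hz.le h1 _
      _ = Real.exp ((2 * K : ℕ) * z) := (Real.exp_nat_mul _ _).symm
      _ ≤ _ := by
        refine Real.exp_le_exp.2 ?_
        push_cast
        nlinarith
  have hBc : B / c0 ^ 2 ≤ Real.exp (B / c0 ^ 2 * (K : ℝ) ^ 2) := by
    have h0 : 0 ≤ B / c0 ^ 2 := by positivity
    calc B / c0 ^ 2 ≤ B / c0 ^ 2 * (K : ℝ) ^ 2 := le_mul_of_one_le_right h0 hK2
      _ ≤ B / c0 ^ 2 * (K : ℝ) ^ 2 + 1 := by linarith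
      _ ≤ _ := Real.add_one_le_exp _
  calc B / c0 ^ 2 * (D ^ (2 * K) * E ^ (2 * K) * X)
      ≤ Real.exp (B / c0 ^ 2 * (K : ℝ) ^ 2) * (Real.exp (2 * D * (K : ℝ) ^ 2) *
          Real.exp (2 * E * (K : ℝ) ^ 2) * X) := by
        refine mul_le_mul hBc ?_ (by positivity) (by positivity)
        refine mul_le_mul_of_nonneg_right ?_ hX0.le
        exact mul_le_mul (hpw D (by linarith)) (hpw E (by linarith)) (by positivity) (by positivity)
    _ = Real.exp (B / c0 ^ 2 * (K : ℝ) ^ 2 + (2 * D * (K : ℝ) ^ 2 + 2 * E * (K : ℝ) ^ 2 +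
          2 * G * (A * D) ^ 2 * (K : ℝ) ^ 2)) := by
        rw [hX, ← Real.exp_add, ← Real.exp_add, ← Real.exp_add]
    _ ≤ _ := by
        refine Real.exp_le_exp.2 ?_
        nlinarith

end Core

end Pool.Agent.ROH
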