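import Pool.Agent.ROH.RepXi

/-!
ROH-PolyXi. The integer polynomial (section 7): norm of `ξ`.

`exists_basis` (GP/Alg) for the four numbers `r3`, `v2/v1`, `κ1 = 2 al/v1²`, `κ2 = 2 be/(v1 v2)` (algebraic over `ℚ(θ)` by hypothesis),
giving `δ, ω, D0, E, X`; enlarge `E`, `X` so that also `aeval θ D0` itself is represented (`Rep.poly`) and `X ≥ 1`
(`Rep.mono`): `env1` (with `c = 1`: `aeval θ D0 * 1`), `env2`. `rep_xi`. `aeval θ D0 ≠ 0` since `θ` is transcendental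
(`aeval_int_eq_zero`). `exists_norm` applied to `D * aeval θ D0 ^ (ν+6) * ξ ≠ 0`: `A ≠ 0` of degree `≤ (δ+1) C n^8`, coefficients
`≤ C' exp((δ+1) C n^13)`, `‖aeval θ A‖ ≤ C'^(C n^8+1) exp(δ C n^13) * D * ‖D0(θ)‖^(ν+6) * ‖ξ‖ ≤ exp(C'' n^13) exp(-n^22 * 9/20) ≤ exp(-n^22/3)`
for large `n`.
-/

set_option autoImplicit false

namespace Pool.Agent.ROH

open Complex ComplexConjugate Finset Polynomial Pool.Agent.GP IntermediateField

private theorem px_pow_le (x : ℝ) (hx : 1 ≤ x) (K : ℕ) (hK : x ≤ K) (m : ℕ) (M : ℝ) (hm : (m : ℝ) ≤ M) :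
    x ^ m ≤ Real.exp (M * K) := by
  have h1 : x ≤ Real.exp K := by
    have := Real.add_one_le_exp (K : ℝ)
    linarith
  calc x ^ m ≤ Real.exp K ^ m := pow_le_pow_left₀ (by linarith) h1 m
    _ = Real.exp (m * K) := by rw [← Real.exp_nat_mul]
    _ ≤ Real.exp (M * K) := by
        apply Real.exp_le_exp.2
        exact mul_le_mul_of_nonneg_right hm (Nat.cast_nonneg _)

private theorem px_env {θ : ℂ} (hθ : Transcendental ℚ θ) (g1 g2 g3 : ℂ)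
    (ha1 : IsAlgebraic ℚ⟮θ⟯ g1) (ha2 : IsAlgebraic ℚ⟮θ⟯ g2) (ha3 : IsAlgebraic ℚ⟮θ⟯ g3) :
    ∃ (δ : ℕ) (ω : Fin (δ + 1) → ℂ) (D0 : ℤ[X]) (E : ℕ) (X : ℝ), ω 0 = 1 ∧ D0 ≠ 0 ∧
      (∀ s : Fin (δ + 1) → ℤ[X], ∑ m, aeval θ (s m) * ω m = 0 → s = 0) ∧
      Env δ ω θ D0 E X 1 g2 ∧ Env δ ω θ D0 E X g1 g3 := by
  have hr3 : IsAlgebraic ℚ⟮θ⟯ r3 := by
    refine ⟨X ^ 2 - C 3, ?_, ?_⟩
    · exact (monic_X_pow_sub_C (3 : ℚ⟮θ⟯) two_ne_zero).ne_zero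
    · rw [map_sub, map_pow, aeval_X, aeval_C, r3_sq, map_ofNat, sub_self]
  obtain ⟨δ, ω, D0, E, X, hω0, hD0, hli, hrep⟩ := exists_basis hθ (![r3, g1, g2, g3] : Fin 4 → ℂ)
    (by
      intro i
      fin_cases i
      · exact hr3
      · exact ha1
      · exact ha2
      · exact ha3)
  have h0 : Rep (δ + 1) ω θ (aeval θ D0 * r3) E X := hrep 0
  have h1 : Rep (δ + 1) ω θ (aeval θ D0 * g1) E X := hrep 1
  have h2 : Rep (δ + 1) ω θ (aeval θ D0 * g2) E X := hrep 2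
  have h3 : Rep (δ + 1) ω θ (aeval θ D0 * g3) E X := hrep 3
  have hE1 : E ≤ max E D0.natDegree := le_max_left _ _
  have hE2 : D0.natDegree ≤ max E D0.natDegree := le_max_right _ _
  have hX1 : X ≤ max 1 (max X (l1 D0)) := (le_max_left _ _).trans (le_max_right _ _)
  have hX2 : l1 D0 ≤ max 1 (max X (l1 D0)) := (le_max_right _ _).trans (le_max_right _ _)
  have hd : Rep (δ + 1) ω θ (aeval θ D0) (max E D0.natDegree) (max 1 (max X (l1 D0))) :=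
    (Rep.poly ω θ D0).mono hE2 hX2
  refine ⟨δ, ω, D0, max E D0.natDegree, max 1 (max X (l1 D0)), hω0, hD0, hli, ?_, ?_⟩
  · exact ⟨le_max_left _ _, hd, h0.mono hE1 hX1, by rw [mul_one]; exact hd, h2.mono hE1 hX1⟩
  · exact ⟨le_max_left _ _, hd, h0.mono hE1 hX1, h1.mono hE1 hX1, h3.mono hE1 hX1⟩

theorem poly_of_xi {θ : ℂ} (hθ : Transcendental ℚ θ) (c : Core)
    {s1 s2 : ℂ → ℂ} (hs1 : Differentiable ℂ s1) (hs2 : Differentiable ℂ s2) (ht1 : RatTay s1)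
    (ht2 : RatTay s2) (v1 v2 : ℝ) (hv1 : 0 < v1) (hv2 : 0 < v2)
    (hT1 : c.T1 = TT (fun z => s1 (v1 * z))) (hT2 : c.T2 = TT (fun z => s2 (v2 * z)))
    (ha1 : IsAlgebraic ℚ⟮θ⟯ ((v2 / v1 : ℝ) : ℂ))
    (ha2 : IsAlgebraic ℚ⟮θ⟯ ((2 * c.al / v1 ^ 2 : ℝ) : ℂ))
    (ha3 : IsAlgebraic ℚ⟮θ⟯ ((2 * c.be / (v1 * v2) : ℝ) : ℂ)) (C0 : ℕ) :
    ∃ C n0 : ℕ, ∀ n : ℕ, n0 ≤ n → ∀ N : ℕ → ℕ → ℕ → ℤ,
      (∀ k j d, |(N k j d : ℝ)| ≤ Real.exp ((n : ℝ) ^ 13)) →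
      ∀ ν : ℕ, ν ≤ C0 * n ^ 8 → ∀ a b e : ℕ, a ≤ ν → b ≤ ν → e ≤ ν →
      iteratedDeriv ν (fun t : ℂ => c.f (n ^ 12) (pc (1 / v1) (1 / v2) θ (n ^ 8) N)
        (t * (a * (1 / v1))) (t * (b * (1 / v1))) (t * (e * (1 / v1)))) 0 ≠ 0 →
      ‖iteratedDeriv ν (fun t : ℂ => c.f (n ^ 12) (pc (1 / v1) (1 / v2) θ (n ^ 8) N)
        (t * (a * (1 / v1))) (t * (b * (1 / v1))) (t * (e * (1 / v1)))) 0‖ ≤
        Real.exp (-(9 / 20 * (n : ℝ) ^ 22)) →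
      ∃ P : ℤ[X], P ≠ 0 ∧ (P.natDegree : ℝ) ≤ C * (n : ℝ) ^ 8 ∧
        (∀ i, |(P.coeff i : ℝ)| ≤ Real.exp (C * (n : ℝ) ^ 13)) ∧
        ‖aeval θ P‖ ≤ Real.exp (-((n : ℝ) ^ 22 / 3)) := by
  obtain ⟨δ, ω, D0, E, X, hω0, hD0, hli, env1, env2⟩ := px_env hθ _ _ _ ha1 ha2 ha3
  have env1' : Env δ ω θ D0 E X 1 (2 * c.al / v1 ^ 2) := by
    have := env1
    push_cast at this
    exact this
  have env2' : Env δ ω θ D0 E X (v2 / v1) (2 * c.be / (v1 * v2)) := by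
    have := env2
    push_cast at this
    exact this
  obtain ⟨C1, n1, hxi⟩ := rep_xi c hs1 hs2 ht1 ht2 v1 v2 hv1 hv2 hT1 hT2 env1' env2' C0
  obtain ⟨C', hC', hnorm⟩ := exists_norm hli hω0
  obtain ⟨K, hK⟩ := exists_nat_ge C'
  obtain ⟨R, hR⟩ := exists_nat_ge (max 1 ‖aeval θ D0‖)
  have hD0' : aeval θ D0 ≠ 0 := fun h => hD0 (aeval_int_eq_zero hθ h)
  obtain ⟨C2, hC2⟩ : ∃ C2 : ℕ, C2 = (C1 + 1) * K + (δ + 1) * C1 + (C0 + 6) * R := ⟨_, rfl⟩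
  refine ⟨K + (δ + 1) * C1, max n1 (9 * C2 + 1), fun n hn N hN ν hν a b e ha hb he hne hle => ?_⟩
  have hn1 : n1 ≤ n := (le_max_left _ _).trans hn
  have hn2 : 9 * C2 + 1 ≤ n := (le_max_right _ _).trans hn
  obtain ⟨D, hDpos, hDle, hrep⟩ := hxi n hn1 N hN ν hν a b e ha hb he
  generalize iteratedDeriv ν (fun t : ℂ => c.f (n ^ 12) (pc (1 / v1) (1 / v2) θ (n ^ 8) N)
        (t * (a * (1 / v1))) (t * (b * (1 / v1))) (t * (e * (1 / v1)))) 0 = ξ at hne hle hrep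
  have hx1 : (1 : ℝ) ≤ n := by
    have : 1 ≤ n := by omega
    exact_mod_cast this
  have hD0c : (D : ℂ) ≠ 0 := by exact_mod_cast hDpos.ne'
  have hfac : (ν.factorial : ℂ) ≠ 0 := by exact_mod_cast ν.factorial_ne_zero
  have hc : (D : ℂ) * aeval θ D0 ^ (ν + 6) * (ξ / (ν.factorial : ℂ)) ≠ 0 :=
    mul_ne_zero (mul_ne_zero hD0c (pow_ne_zero _ hD0')) (div_ne_zero hne hfac)
  have hX1 : 1 ≤ Real.exp (C1 * (n : ℝ) ^ 13) := Real.one_le_exp (by positivity)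
  obtain ⟨A, hA0, hAdeg, hAco, hAev⟩ := hnorm _ _ _ hc hX1 hrep
  have hn13 : (1 : ℝ) ≤ (n : ℝ) ^ 13 := one_le_pow₀ hx1
  have hn8 : (1 : ℝ) ≤ (n : ℝ) ^ 8 := one_le_pow₀ hx1
  have hn813 : (n : ℝ) ^ 8 ≤ (n : ℝ) ^ 13 := pow_le_pow_right₀ hx1 (by norm_num)
  have hCK : C' ≤ Real.exp K := by
    have := Real.add_one_le_exp (K : ℝ)
    linarith
  refine ⟨A, hA0, ?_, fun i => ?_, ?_⟩
  · have h1 : (A.natDegree : ℝ) ≤ (δ + 1) * (C1 * (n : ℝ) ^ 8) := by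
      have : (A.natDegree : ℝ) ≤ (((δ + 1) * (C1 * n ^ 8) : ℕ) : ℝ) := by exact_mod_cast hAdeg
      push_cast at this
      exact this
    push_cast
    have h2 : (0 : ℝ) ≤ (K : ℝ) * (n : ℝ) ^ 8 := by positivity
    nlinarith
  · refine (hAco i).trans ?_
    rw [← Real.exp_nat_mul]
    calc C' * Real.exp (((δ + 1 : ℕ) : ℝ) * (C1 * (n : ℝ) ^ 13))
        ≤ Real.exp K * Real.exp (((δ + 1 : ℕ) : ℝ) * (C1 * (n : ℝ) ^ 13)) :=
          mul_le_mul_of_nonneg_right hCK (Real.exp_pos _).le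
      _ = Real.exp (K + ((δ + 1 : ℕ) : ℝ) * (C1 * (n : ℝ) ^ 13)) := by rw [Real.exp_add]
      _ ≤ _ := by
          apply Real.exp_le_exp.2
          push_cast
          have : (K : ℝ) * 1 ≤ K * (n : ℝ) ^ 13 := mul_le_mul_of_nonneg_left hn13 (Nat.cast_nonneg _)
          nlinarith
  · have hnc : ‖(D : ℂ) * aeval θ D0 ^ (ν + 6) * (ξ / (ν.factorial : ℂ))‖ ≤
        Real.exp (C1 * (n : ℝ) ^ 13) * Real.exp (((C0 + 6) * (n : ℝ) ^ 8) * R) *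
          Real.exp (-(9 / 20 * (n : ℝ) ^ 22)) := by
      rw [norm_mul, norm_mul, norm_pow, norm_div, Complex.norm_natCast, Complex.norm_natCast]
      have h1 : ‖aeval θ D0‖ ^ (ν + 6) ≤ Real.exp (((C0 + 6) * (n : ℝ) ^ 8) * R) := by
        refine (pow_le_pow_left₀ (norm_nonneg _) (le_max_right 1 _) _).trans ?_
        refine px_pow_le _ (le_max_left _ _) R hR _ _ ?_
        have h2 : (ν : ℝ) ≤ C0 * (n : ℝ) ^ 8 := by exact_mod_cast hν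
        push_cast
        nlinarith
      have h3 : ‖ξ‖ / (ν.factorial : ℝ) ≤ Real.exp (-(9 / 20 * (n : ℝ) ^ 22)) := by
        have h4 : (1 : ℝ) ≤ (ν.factorial : ℝ) := by
          exact_mod_cast Nat.succ_le_of_lt ν.factorial_pos
        exact (div_le_self (norm_nonneg _) h4).trans hle
      have h5 : (0 : ℝ) ≤ ‖ξ‖ / (ν.factorial : ℝ) := by positivity
      refine mul_le_mul (mul_le_mul hDle h1 (by positivity) (Real.exp_pos _).le) h3 h5 (by positivity)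
    have hC'pow : C' ^ (C1 * n ^ 8 + 1) ≤ Real.exp (((C1 + 1) * (n : ℝ) ^ 8) * K) := by
      refine px_pow_le _ hC' K hK _ _ ?_
      push_cast
      nlinarith
    refine hAev.trans ?_
    calc C' ^ (C1 * n ^ 8 + 1) * Real.exp (C1 * (n : ℝ) ^ 13) ^ δ *
          ‖(D : ℂ) * aeval θ D0 ^ (ν + 6) * (ξ / (ν.factorial : ℂ))‖
        ≤ Real.exp (((C1 + 1) * (n : ℝ) ^ 8) * K) * Real.exp (δ * (C1 * (n : ℝ) ^ 13)) *
          (Real.exp (C1 * (n : ℝ) ^ 13) * Real.exp (((C0 + 6) * (n : ℝ) ^ 8) * R) *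
          Real.exp (-(9 / 20 * (n : ℝ) ^ 22))) := by
          rw [← Real.exp_nat_mul]
          refine mul_le_mul (mul_le_mul_of_nonneg_right hC'pow (Real.exp_pos _).le) hnc
            (norm_nonneg _) (by positivity)
      _ = Real.exp ((((C1 + 1) * (n : ℝ) ^ 8) * K) + (δ * (C1 * (n : ℝ) ^ 13)) +
          ((C1 * (n : ℝ) ^ 13) + (((C0 + 6) * (n : ℝ) ^ 8) * R) + (-(9 / 20 * (n : ℝ) ^ 22)))) := by
          simp only [Real.exp_add]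
      _ ≤ Real.exp (-((n : ℝ) ^ 22 / 3)) := by
          apply Real.exp_le_exp.2
          have e1 : ((C1 + 1) * (n : ℝ) ^ 8) * K ≤ ((C1 + 1) * K) * (n : ℝ) ^ 13 := by
            have : (0 : ℝ) ≤ (C1 + 1) * K := by positivity
            nlinarith
          have e2 : ((C0 + 6) * (n : ℝ) ^ 8) * R ≤ ((C0 + 6) * R) * (n : ℝ) ^ 13 := by
            have : (0 : ℝ) ≤ (C0 + 6) * R := by positivity
            nlinarith
          have e3 : (C2 : ℝ) = (C1 + 1) * K + (δ + 1) * C1 + (C0 + 6) * R := by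
            rw [hC2]; push_cast; ring
          have e4 : (9 : ℝ) * C2 ≤ n := by
            have : 9 * C2 ≤ n := by omega
            exact_mod_cast this
          have e5 : (n : ℝ) ≤ (n : ℝ) ^ 9 := le_self_pow₀ hx1 (by norm_num)
          have e6 : (n : ℝ) ^ 22 = (n : ℝ) ^ 13 * (n : ℝ) ^ 9 := by ring
          have e7 : (9 * (C2 : ℝ)) * (n : ℝ) ^ 13 ≤ (n : ℝ) ^ 22 := by
            rw [e6, mul_comm]
            exact mul_le_mul_of_nonneg_left (e4.trans e5) (by positivity)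
          have e8 : (C2 : ℝ) * (n : ℝ) ^ 13 = ((C1 + 1) * K) * (n : ℝ) ^ 13 +
              ((δ + 1) * C1) * (n : ℝ) ^ 13 + ((C0 + 6) * R) * (n : ℝ) ^ 13 := by
            rw [e3]; ring
          have e9 : (0 : ℝ) ≤ (C2 : ℝ) * (n : ℝ) ^ 13 := by positivity
          have e10 : (n : ℝ) ^ 22 ≥ 0 := by positivity
          nlinarith

end Pool.Agent.ROH
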