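import Pool.Agent.ROH.SupS

/-!
ROH-TayB. Taylor coefficients at `0` are small.
-/

set_option autoImplicit false

namespace Pool.Agent.ROH

open Complex ComplexConjugate Finset

namespace Core

variable (c : Core)

private theorem tb_ar {g C4 a b : ℝ} (ha : 0 < a) (hb : 0 < b) (hg : 2 ≤ g) (h : 2 * C4 + 4 * (a + b) ≤ g) :
    -g ^ 2 + C4 * g + 2 * (a + b) ≤ -g ^ 2 / 2 := by
  have h7 : (2 * C4 + 4 * (a + b)) * g ≤ g * g := mul_le_mul_of_nonneg_right h (by linarith)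
  have h8 : (a + b) * 1 ≤ (a + b) * g := mul_le_mul_of_nonneg_left (by linarith) (by linarith)
  have h9 : g ^ 2 = g * g := sq g
  rw [h9]
  linarith

private theorem tb_log (g K : ℕ) (hg : 1 ≤ g) (hK : 1 ≤ K) (h : (K : ℝ) * Real.log (K + 1) ≤ (g : ℝ) ^ 2) :
    (K : ℝ) * Real.log (K + g) ≤ 2 * (g : ℝ) ^ 2 := by
  have hg' : (1 : ℝ) ≤ g := by exact_mod_cast hg
  have hK' : (1 : ℝ) ≤ K := by exact_mod_cast hK
  have h1 : Real.log ((K : ℝ) + g) ≤ Real.log (K + 1) + Real.log (g + 1) := by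
    rw [← Real.log_mul (by positivity) (by positivity)]
    exact Real.log_le_log (by positivity) (by nlinarith)
  have h2 : (K : ℝ) * Real.log (g + 1) ≤ (g : ℝ) ^ 2 := by
    rcases Nat.lt_or_ge g K with a | a
    · have a' : (g : ℝ) + 1 ≤ K := by exact_mod_cast a
      refine le_trans ?_ h
      refine mul_le_mul_of_nonneg_left ?_ (by positivity)
      exact Real.log_le_log (by positivity) (by linarith)
    · have a' : (K : ℝ) ≤ g := by exact_mod_cast a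
      have h3 : Real.log ((g : ℝ) + 1) ≤ g := by
        have := Real.log_le_sub_one_of_pos (show (0 : ℝ) < g + 1 by positivity)
        linarith
      have h4 : 0 ≤ Real.log ((g : ℝ) + 1) := Real.log_nonneg (by linarith)
      calc (K : ℝ) * Real.log (g + 1) ≤ g * Real.log (g + 1) := mul_le_mul_of_nonneg_right a' h4
        _ ≤ g * g := mul_le_mul_of_nonneg_left h3 (by positivity)
        _ = (g : ℝ) ^ 2 := by ring
  calc (K : ℝ) * Real.log (K + g) ≤ K * (Real.log (K + 1) + Real.log (g + 1)) :=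
        mul_le_mul_of_nonneg_left h1 (by positivity)
    _ = K * Real.log (K + 1) + K * Real.log (g + 1) := by ring
    _ ≤ 2 * (g : ℝ) ^ 2 := by linarith

private theorem tb_K (g K : ℕ) (hK : 1 ≤ K) (h : (K : ℝ) * Real.log (K + 1) ≤ (g : ℝ) ^ 2) :
    (K : ℝ) ≤ 2 * (g : ℝ) ^ 2 := by
  have hK' : (1 : ℝ) ≤ K := by exact_mod_cast hK
  have h1 : Real.log 2 ≤ Real.log ((K : ℝ) + 1) := Real.log_le_log (by norm_num) (by linarith)
  have h2 : (1 : ℝ) / 2 ≤ Real.log 2 := by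
    have := Real.log_two_gt_d9
    linarith
  have h3 : (K : ℝ) * (1 / 2) ≤ K * Real.log (K + 1) := mul_le_mul_of_nonneg_left (h2.trans h1) (by positivity)
  linarith

/-- the bound for `S` on the circle of radius `g` -/
private theorem tb_far : ∃ C3 : ℝ, 0 ≤ C3 ∧ ∀ g : ℕ, 1 ≤ g → ∀ (K : ℕ) (p : ℕ → ℕ → ℂ) (M : ℝ),
    1 ≤ K → (K : ℝ) * Real.log (K + 1) ≤ (g : ℝ) ^ 2 → 1 ≤ M → Real.log M ≤ (g : ℝ) ^ 2 →
    (∀ k < K, ∀ j < K, ‖p k j‖ ≤ M) → ∀ d : ℂ, ‖d‖ = g → c.S K p d ≤ Real.exp (C3 * (g : ℝ) ^ 2) := by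
  obtain ⟨C, hC, hb⟩ := c.exists_bound_nf'
  have hlC : 0 ≤ Real.log C := Real.log_nonneg hC
  refine ⟨5 + 4 * Real.log C, by positivity, ?_⟩
  intro g hg K p M hK hKg hM hMg hp d hd
  have hg' : (1 : ℝ) ≤ g := by exact_mod_cast hg
  have hK' : (1 : ℝ) ≤ K := by exact_mod_cast hK
  refine c.S_le K p d _ fun x y => ?_
  refine (hb K p M hK hp x y _).trans ?_
  have e1 : conj y + d - conj y = d := by ring
  rw [e1, hd]
  have hM' : M ≤ Real.exp ((g : ℝ) ^ 2) := by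
    have h1 : M = Real.exp (Real.log M) := (Real.exp_log (by linarith)).symm
    rw [h1]
    exact Real.exp_le_exp.2 hMg
  have hpos : 0 < C * ((K : ℝ) + g) := by positivity
  have h2 : (C * ((K : ℝ) + g)) ^ (2 * K) = Real.exp (2 * K * (Real.log C + Real.log (K + g))) := by
    rw [← Real.log_mul (by positivity) (by positivity)]
    have h3 : (C * ((K : ℝ) + g)) ^ (2 * K) = Real.exp (Real.log (C * ((K : ℝ) + g))) ^ (2 * K) := by
      rw [Real.exp_log hpos]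
    rw [h3, ← Real.exp_nat_mul]
    congr 1
    push_cast
    ring
  rw [h2]
  have h4 := tb_log g K hg hK hKg
  have h5 := tb_K g K hK hKg
  have h6 : (K : ℝ) * Real.log C ≤ 2 * (g : ℝ) ^ 2 * Real.log C := mul_le_mul_of_nonneg_right h5 hlC
  calc M * Real.exp (2 * K * (Real.log C + Real.log (K + g)))
      ≤ Real.exp ((g : ℝ) ^ 2) * Real.exp (2 * K * (Real.log C + Real.log (K + g))) :=
        mul_le_mul_of_nonneg_right hM' (Real.exp_pos _).le
    _ = Real.exp ((g : ℝ) ^ 2 + 2 * K * (Real.log C + Real.log (K + g))) := (Real.exp_add _ _).symm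
    _ ≤ Real.exp ((5 + 4 * Real.log C) * (g : ℝ) ^ 2) := by
        refine Real.exp_le_exp.2 ?_
        nlinarith

private theorem tb_near : ∃ C4 : ℝ, 0 ≤ C4 ∧ ∀ g : ℕ, 2 ≤ g → ∀ (K : ℕ) (p : ℕ → ℕ → ℂ) (M : ℝ),
    1 ≤ K → (K : ℝ) * Real.log (K + 1) ≤ (g : ℝ) ^ 2 → 1 ≤ M → Real.log M ≤ (g : ℝ) ^ 2 →
    (∀ k < K, ∀ j < K, ‖p k j‖ ≤ M) → c.S K p 0 ≤ Real.exp (-(g : ℝ) ^ 2) → ∀ d : ℂ, ‖d‖ ≤ 2 →
    c.S K p d ≤ Real.exp (-(g : ℝ) ^ 2 + C4 * g) := by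
  obtain ⟨C3, hC3, hfar⟩ := c.tb_far
  have hal := c.hal
  have hbe := c.hbe
  refine ⟨2 * (1 + C3 + (c.al + c.be) / 2), by positivity, ?_⟩
  intro g hg K p M hK hKg hM hMg hp h0 d hd
  have hg' : (2 : ℝ) ≤ g := by exact_mod_cast hg
  have hg0 : (0 : ℝ) < g := by linarith
  obtain ⟨d', hd', hdd⟩ : ∃ d' : ℂ, ‖d'‖ = g ∧ ((‖d‖ / g : ℝ) : ℂ) * d' = d := by
    by_cases hz : d = 0
    · refine ⟨(g : ℂ), ?_, ?_⟩
      · rw [Complex.norm_natCast]
      · rw [hz, norm_zero, zero_div, Complex.ofReal_zero, zero_mul]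
    · have hn : ‖d‖ ≠ 0 := norm_ne_zero_iff.2 hz
      have hn' : (‖d‖ : ℂ) ≠ 0 := by exact_mod_cast hn
      refine ⟨((g / ‖d‖ : ℝ) : ℂ) * d, ?_, ?_⟩
      · rw [norm_mul, Complex.norm_real, Real.norm_of_nonneg (by positivity)]
        field_simp
      · rw [← mul_assoc, ← Complex.ofReal_mul]
        have h1 : ‖d‖ / g * (g / ‖d‖) = 1 := by
          field_simp
        rw [h1, Complex.ofReal_one, one_mul]
  set s : ℝ := ‖d‖ / g with hs
  have hs0 : 0 ≤ s := by positivity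
  have hs1 : s ≤ 1 := by
    rw [hs, div_le_one hg0]
    linarith
  have hconv := c.S_convex K p d' s hs0 hs1
  rw [hdd, hd'] at hconv
  have hSd := c.S_nonneg K p d
  have hS0 := c.S_nonneg K p 0
  have hSd' := c.S_nonneg K p d'
  have h1 : c.S K p d ≤ c.S K p d * Real.exp ((c.al + c.be) * (s * g) ^ 2 / 2) := by
    refine le_mul_of_one_le_right hSd (Real.one_le_exp (by positivity))
  have h2 : c.S K p 0 ^ (1 - s) ≤ Real.exp (-(g : ℝ) ^ 2 * (1 - s)) := by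
    rw [Real.exp_mul]
    exact Real.rpow_le_rpow hS0 h0 (by linarith)
  have h3 : (c.S K p d' * Real.exp ((c.al + c.be) * (g : ℝ) ^ 2 / 2)) ^ s ≤
      Real.exp ((C3 + (c.al + c.be) / 2) * (g : ℝ) ^ 2 * s) := by
    rw [Real.exp_mul]
    refine Real.rpow_le_rpow (by positivity) ?_ hs0
    calc c.S K p d' * Real.exp ((c.al + c.be) * (g : ℝ) ^ 2 / 2)
        ≤ Real.exp (C3 * (g : ℝ) ^ 2) * Real.exp ((c.al + c.be) * (g : ℝ) ^ 2 / 2) :=
          mul_le_mul_of_nonneg_right (hfar g (by omega) K p M hK hKg hM hMg hp d' hd') (Real.exp_pos _).le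
      _ = Real.exp ((C3 + (c.al + c.be) / 2) * (g : ℝ) ^ 2) := by
          rw [← Real.exp_add]
          congr 1
          ring
  have h4 : (g : ℝ) ^ 2 * s = g * ‖d‖ := by
    rw [hs]
    field_simp
  refine h1.trans (hconv.trans ?_)
  calc c.S K p 0 ^ (1 - s) * (c.S K p d' * Real.exp ((c.al + c.be) * (g : ℝ) ^ 2 / 2)) ^ s
      ≤ Real.exp (-(g : ℝ) ^ 2 * (1 - s)) * Real.exp ((C3 + (c.al + c.be) / 2) * (g : ℝ) ^ 2 * s) :=
        mul_le_mul h2 h3 (Real.rpow_nonneg (by positivity) _) (Real.exp_pos _).le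
    _ = Real.exp (-(g : ℝ) ^ 2 + (1 + C3 + (c.al + c.be) / 2) * (g * ‖d‖)) := by
        rw [← Real.exp_add, ← h4]
        congr 1
        ring
    _ ≤ Real.exp (-(g : ℝ) ^ 2 + 2 * (1 + C3 + (c.al + c.be) / 2) * g) := by
        refine Real.exp_le_exp.2 ?_
        have h5 : (g : ℝ) * ‖d‖ ≤ g * 2 := mul_le_mul_of_nonneg_left hd hg0.le
        have h6 : 0 ≤ 1 + C3 + (c.al + c.be) / 2 := by positivity
        have h7 := mul_le_mul_of_nonneg_left h5 h6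
        linarith

theorem exists_taylor_small : ∃ g0 : ℕ, ∀ g : ℕ, g0 ≤ g → ∀ (K : ℕ) (p : ℕ → ℕ → ℂ) (M : ℝ),
    1 ≤ K → (K : ℝ) * Real.log (K + 1) ≤ (g : ℝ) ^ 2 → 1 ≤ M → Real.log M ≤ (g : ℝ) ^ 2 →
    (∀ k < K, ∀ j < K, ‖p k j‖ ≤ M) → c.S K p 0 ≤ Real.exp (-(g : ℝ) ^ 2) →
    ∀ x y w : ℂ, ‖x‖ ≤ 1 → ‖y‖ ≤ 1 → ‖w‖ ≤ 1 → ∀ n : ℕ,
      ‖iteratedDeriv n (fun t : ℂ => c.f K p (t * x) (t * y) (t * w)) 0‖ ≤
        n.factorial * Real.exp (-(g : ℝ) ^ 2 / 2) := by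
  obtain ⟨C4, hC4, hnear⟩ := c.tb_near
  have hal := c.hal
  have hbe := c.hbe
  obtain ⟨g1, hg1⟩ := exists_nat_ge (2 * C4 + 4 * (c.al + c.be))
  refine ⟨g1 + 2, ?_⟩
  intro g hg K p M hK hKg hM hMg hp h0 x y w hx hy hw n
  have hgg : (g1 : ℝ) + 2 ≤ g := by exact_mod_cast hg
  have hg2 : (2 : ℝ) ≤ g := by
    have := Nat.cast_nonneg (α := ℝ) g1
    linarith
  have hnum : -(g : ℝ) ^ 2 + C4 * g + 2 * (c.al + c.be) ≤ -(g : ℝ) ^ 2 / 2 :=
    tb_ar hal hbe hg2 (hg1.trans (by linarith only [hgg]))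
  have hf : ∀ x y w : ℂ, ‖x‖ ≤ 1 → ‖y‖ ≤ 1 → ‖w‖ ≤ 1 → ‖c.f K p x y w‖ ≤ Real.exp (-(g : ℝ) ^ 2 / 2) := by
    intro x y w hx hy hw
    have hd : ‖w - conj y‖ ≤ 2 := by
      refine (norm_sub_le _ _).trans ?_
      rw [Complex.norm_conj]
      linarith
    have h1 := hnear g (by omega) K p M hK hKg hM hMg hp h0 (w - conj y) hd
    have h2 := c.nf_le_S K p x y (w - conj y)
    have e1 : conj y + (w - conj y) = w := by ring
    rw [e1] at h2
    unfold nf w1 w2 at h2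
    have hx2 : ‖x‖ ^ 2 ≤ 1 := by nlinarith [norm_nonneg x]
    have hy2 : ‖y‖ ^ 2 ≤ 1 := by nlinarith [norm_nonneg y]
    have hw2 : ‖w‖ ^ 2 ≤ 1 := by nlinarith [norm_nonneg w]
    have h3 : Real.exp (-(2 * (c.al + c.be))) ≤
        Real.exp (-(c.al * (‖x‖ ^ 2 + ‖y‖ ^ 2))) * Real.exp (-(c.be * (‖x‖ ^ 2 + ‖w‖ ^ 2))) := by
      rw [← Real.exp_add]
      refine Real.exp_le_exp.2 ?_
      have a1 : c.al * (‖x‖ ^ 2 + ‖y‖ ^ 2) ≤ c.al * 2 := mul_le_mul_of_nonneg_left (by linarith) hal.le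
      have a2 : c.be * (‖x‖ ^ 2 + ‖w‖ ^ 2) ≤ c.be * 2 := mul_le_mul_of_nonneg_left (by linarith) hbe.le
      linarith
    have h4 : ‖c.f K p x y w‖ * Real.exp (-(2 * (c.al + c.be))) ≤ Real.exp (-(g : ℝ) ^ 2 + C4 * g) :=
      (mul_le_mul_of_nonneg_left h3 (norm_nonneg _)).trans (h2.trans h1)
    have h5 : ‖c.f K p x y w‖ = ‖c.f K p x y w‖ * Real.exp (-(2 * (c.al + c.be))) *
        Real.exp (2 * (c.al + c.be)) := by
      rw [mul_assoc, ← Real.exp_add, neg_add_cancel, Real.exp_zero, mul_one]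
    rw [h5]
    calc ‖c.f K p x y w‖ * Real.exp (-(2 * (c.al + c.be))) * Real.exp (2 * (c.al + c.be))
        ≤ Real.exp (-(g : ℝ) ^ 2 + C4 * g) * Real.exp (2 * (c.al + c.be)) :=
          mul_le_mul_of_nonneg_right h4 (Real.exp_pos _).le
      _ = Real.exp (-(g : ℝ) ^ 2 + C4 * g + 2 * (c.al + c.be)) := (Real.exp_add _ _).symm
      _ ≤ Real.exp (-(g : ℝ) ^ 2 / 2) := by
          refine Real.exp_le_exp.2 ?_
          exact hnum
  have hdiff : Differentiable ℂ fun t : ℂ => c.f K p (t * x) (t * y) (t * w) := by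
    have h1 := c.differentiable_f K p
    have h2 : Differentiable ℂ fun t : ℂ => ((t * x, t * y, t * w) : ℂ × ℂ × ℂ) := by fun_prop
    exact Differentiable.comp (g := fun z : ℂ × ℂ × ℂ => c.f K p z.1 z.2.1 z.2.2)
      (f := fun t : ℂ => ((t * x, t * y, t * w) : ℂ × ℂ × ℂ)) h1 h2
  have hC := Complex.norm_iteratedDeriv_le_of_forall_mem_sphere_norm_le (n := n) (c := (0 : ℂ)) (R := 1)
    (C := Real.exp (-(g : ℝ) ^ 2 / 2)) one_pos hdiff.diffContOnCl (fun t ht => ?_)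
  · rw [one_pow, div_one] at hC
    exact hC
  · rw [mem_sphere_zero_iff_norm] at ht
    refine hf _ _ _ ?_ ?_ ?_
    · rw [norm_mul, ht, one_mul]
      exact hx
    · rw [norm_mul, ht, one_mul]
      exact hy
    · rw [norm_mul, ht, one_mul]
      exact hw

end Core

end Pool.Agent.ROH
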