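import Pool.Agent.ROH.Defs

/-!
ROH-Inv. `nf` is invariant under `O`.

For a vector of `O` both `F` and `H` are multiplied by constants, compensated by the weights.
-/

set_option autoImplicit false

namespace Pool.Agent.ROH

open Complex ComplexConjugate Finset

namespace Core

variable (c : Core)

private theorem F_shift (k : ℕ) (u : ℂ × ℂ) (e : ℂ)
    (he : ∀ x y : ℂ, c.T1 (x + u.1, y + u.2) =
      e * cexp (2 * c.al * (conj u.1 * x + conj u.2 * y)) * c.T1 (x, y)) (x y w : ℂ) :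
    c.F k (x + u.1) (y + u.2) (w + conj u.2) =
      e * cexp (2 * c.al * (conj u.1 * x + conj u.2 * y)) * c.F k x y w := by
  unfold F
  have h1 : (fun t : ℂ => c.T1 (x + u.1, y + u.2 + t) * cexp (-(2 * c.al * (w + conj u.2) * t))) =
      fun t : ℂ => e * cexp (2 * c.al * (conj u.1 * x + conj u.2 * y)) *
        (c.T1 (x, y + t) * cexp (-(2 * c.al * w * t))) := by
    funext t
    rw [show y + u.2 + t = y + t + u.2 by ring, he]
    have h2 : cexp (2 * c.al * (conj u.1 * x + conj u.2 * (y + t))) *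
        cexp (-(2 * c.al * (w + conj u.2) * t)) =
        cexp (2 * c.al * (conj u.1 * x + conj u.2 * y)) * cexp (-(2 * c.al * w * t)) := by
      rw [← Complex.exp_add, ← Complex.exp_add]
      congr 1
      ring
    calc _ = e * (cexp (2 * c.al * (conj u.1 * x + conj u.2 * (y + t))) *
        cexp (-(2 * c.al * (w + conj u.2) * t))) * c.T1 (x, y + t) := by ring
      _ = _ := by
        rw [h2]
        ring
  rw [h1, iteratedDeriv_const_mul_field]

private theorem H_shift (j : ℕ) (u : ℂ × ℂ) (e : ℂ)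
    (he : ∀ x w : ℂ, c.T2 (x + u.1, w + conj u.2) =
      e * cexp (2 * c.be * (conj u.1 * x + u.2 * w)) * c.T2 (x, w)) (x y w : ℂ) :
    c.H j (x + u.1) (y + u.2) (w + conj u.2) =
      e * cexp (2 * c.be * (conj u.1 * x + u.2 * w)) * c.H j x y w := by
  unfold H
  have h1 : (fun t : ℂ => c.T2 (x + u.1, w + conj u.2 + t) * cexp (-(2 * c.be * (y + u.2) * t))) =
      fun t : ℂ => e * cexp (2 * c.be * (conj u.1 * x + u.2 * w)) *
        (c.T2 (x, w + t) * cexp (-(2 * c.be * y * t))) := by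
    funext t
    rw [show w + conj u.2 + t = w + t + conj u.2 by ring, he]
    have h2 : cexp (2 * c.be * (conj u.1 * x + u.2 * (w + t))) *
        cexp (-(2 * c.be * (y + u.2) * t)) =
        cexp (2 * c.be * (conj u.1 * x + u.2 * w)) * cexp (-(2 * c.be * y * t)) := by
      rw [← Complex.exp_add, ← Complex.exp_add]
      congr 1
      ring
    calc _ = e * (cexp (2 * c.be * (conj u.1 * x + u.2 * (w + t))) *
        cexp (-(2 * c.be * (y + u.2) * t))) * c.T2 (x, w + t) := by ring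
      _ = _ := by
        rw [h2]
        ring
  rw [h1, iteratedDeriv_const_mul_field]

private theorem nsq (x u : ℂ) : ‖x + u‖ ^ 2 = ‖x‖ ^ 2 + ‖u‖ ^ 2 + 2 * (conj u * x).re := by
  rw [Complex.sq_norm, Complex.sq_norm, Complex.sq_norm, Complex.normSq_add, mul_comm x]

private theorem wt (a : ℝ) (x y u v : ℂ) (e : ℂ) (he : ‖e‖ = Real.exp (a * (‖u‖ ^ 2 + ‖v‖ ^ 2))) :
    ‖e * cexp (2 * a * (conj u * x + conj v * y))‖ *
      Real.exp (-(a * (‖x + u‖ ^ 2 + ‖y + v‖ ^ 2))) = Real.exp (-(a * (‖x‖ ^ 2 + ‖y‖ ^ 2))) := by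
  rw [norm_mul, he, Complex.norm_exp, ← Real.exp_add, ← Real.exp_add]
  congr 1
  have h1 : (2 * (a : ℂ) * (conj u * x + conj v * y)).re =
      2 * a * ((conj u * x).re + (conj v * y).re) := by
    rw [show 2 * (a : ℂ) * (conj u * x + conj v * y) =
      ((2 * a : ℝ) : ℂ) * (conj u * x + conj v * y) by push_cast; ring, Complex.re_ofReal_mul,
      Complex.add_re]
  rw [h1, nsq, nsq]
  ring

theorem nf_inv (K : ℕ) (p : ℕ → ℕ → ℂ) (u : ℂ × ℂ) (hu : u ∈ c.O) (x y w : ℂ) :
    c.nf K p (x + u.1) (y + u.2) (w + conj u.2) = c.nf K p x y w := by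
  obtain ⟨e, he1, he2⟩ := c.q1 u hu
  obtain ⟨e', he1', he2'⟩ := c.q2 u hu
  have hf : c.f K p (x + u.1) (y + u.2) (w + conj u.2) =
      (e * cexp (2 * c.al * (conj u.1 * x + conj u.2 * y))) *
        (e' * cexp (2 * c.be * (conj u.1 * x + u.2 * w))) * c.f K p x y w := by
    unfold f
    rw [Finset.mul_sum]
    refine Finset.sum_congr rfl fun k _ => ?_
    rw [Finset.mul_sum]
    refine Finset.sum_congr rfl fun j _ => ?_
    rw [F_shift c k u e he2, H_shift c j u e' he2']
    ring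
  have h1 := wt c.al x y u.1 u.2 e he1
  have h2 := wt c.be x w u.1 (conj u.2) e' (by rw [he1', RCLike.norm_conj])
  rw [Complex.conj_conj] at h2
  unfold nf w1 w2
  rw [hf, norm_mul, norm_mul]
  calc _ = ‖c.f K p x y w‖ * ((‖e * cexp (2 * c.al * (conj u.1 * x + conj u.2 * y))‖ *
      Real.exp (-(c.al * (‖x + u.1‖ ^ 2 + ‖y + u.2‖ ^ 2)))) *
      (‖e' * cexp (2 * c.be * (conj u.1 * x + u.2 * w))‖ *
        Real.exp (-(c.be * (‖x + u.1‖ ^ 2 + ‖w + conj u.2‖ ^ 2))))) := by ring
    _ = _ := by rw [h1, h2]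

end Core

end Pool.Agent.ROH
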