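import Pool.Agent.ROH.SupS
import Pool.Agent.ROH.Inv

/-!
ROH-Zer. The zero estimate (section 6 of the note).

Let `E = C2 K²` be an upper bound of `log (S(d) exp((al+be) K²/2))` for `‖d‖ = K` (`exists_bound_nf'`: `C1 K² + 2K log(2 C K) + ..`) and
of `-log S(0)`. `S_grow` with `Y = K`: `S(d) ≤ S(0) exp(2 C2 K ‖d‖)` for `‖d‖ ≤ K`.
Let `0 < R1 ≤ K`, `r = R1²/K ≤ R1`. On `‖x‖ ≤ R1`, `‖y‖, ‖w‖ ≤ r`: `w - conj y` has norm `≤ 2r ≤ 2 R1`.. (take `2 R1 ≤ K`), so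
`‖f(x,y,w)‖ ≤ S(0) exp(4 C2 K r + (al+be)(R1² + r²)·2) ≤ S(0) exp(C3 R1²)`.
Schwarz: if `Van K p T`, then for `(x,y,w)` in the polydisc divided by `e` (`= exp 1`): `φ(λ) = f(λ e x, λ e y, λ e w)`, `‖λ‖ ≤ 1`,
has a zero of order `≥ T` at `0`, so `‖φ(λ)‖ ≤ ‖λ‖^T S(0) exp(C3 R1²)` (maximum principle for `φ(λ)/λ^T`; write
`φ = λ^T ψ`, `ψ` entire, via `AnalyticAt`/power series, or the Taylor coefficients from the Cauchy estimates:
`‖a_n‖ ≤ sup`, `∑_{n ≥ T} ‖a_n‖ ‖λ‖^n ≤ 2 sup ‖λ‖^T` for `‖λ‖ = 1/e < 1/2`), hence `‖f(x,y,w)‖ ≤ 2 S(0) exp(C3 R1² - T)`.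
Choose `R1² = min(T/(2 C3), K²/4)`... if `T ≥ C4` and `R1 (R1²/K) ≥ C0 e²` then by `c.cov` (with `R1/e`, `r/e`) and `nf_inv` every point
of `V_R` is equivalent to one with `‖x‖ ≤ R1/e`, `‖y‖ ≤ r/e`, where `nf ≤ 2 S(0) exp(-T/2) < S(0)/2`: contradiction with
the definition of `S(0) > 0`. Hence `R1³ < C0 e² K`, i.e. `T³ ≤ C K²` (if `T/(2C3) > K²/4` one gets a contradiction for `K`
large; small `K`, `T < C4` are absorbed in the constant: NOTE the statement must hold for all `K ≥ 1`: for `T` large and `K`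
bounded replace `T` by the smaller value `⌊C3 K²/2⌋`; if that is smaller than `C4` then `K` is bounded by a constant `K0`; for
each `K ≤ K0` ... simplest: the statement is only claimed for `K ≥ K0`).
-/

set_option autoImplicit false

namespace Pool.Agent.ROH

open Complex ComplexConjugate Finset

namespace Core

variable (c : Core)

private theorem zer_schwarz {φ : ℂ → ℂ} (hφ : Differentiable ℂ φ) {B : ℝ}
    (hb : ∀ z : ℂ, ‖z‖ ≤ 8 → ‖φ z‖ ≤ B) {T : ℕ} (hT : ∀ n < T, iteratedDeriv n φ 0 = 0) :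
    ‖φ 1‖ ≤ 2 * B * (1 / 4 : ℝ) ^ T := by
  have hB : 0 ≤ B := (norm_nonneg _).trans (hb 0 (by simp))
  have h1 := Complex.hasSum_taylorSeries_of_entire hφ 0 1
  have h2 : HasSum (fun n : ℕ => B * (1 / 4 : ℝ) ^ T * (1 / 2 : ℝ) ^ n) (B * (1 / 4 : ℝ) ^ T * 2) :=
    hasSum_geometric_two.mul_left _
  have h3 := h1.norm_le_of_bounded h2 ?_
  · linarith
  · intro n
    by_cases hn : n < T
    · rw [hT n hn]
      simp only [smul_zero, norm_zero]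
      positivity
    · have h4 : ‖iteratedDeriv n φ 0‖ ≤ n.factorial * B / 8 ^ n := by
        refine Complex.norm_iteratedDeriv_le_of_forall_mem_sphere_norm_le n (by norm_num) hφ.diffContOnCl ?_
        intro z hz
        refine hb z ?_
        rw [mem_sphere_zero_iff_norm] at hz
        exact hz.le
      have hf : (0 : ℝ) < n.factorial := by exact_mod_cast n.factorial_pos
      have h5 : ‖((n.factorial : ℂ))⁻¹ • (1 - 0 : ℂ) ^ n • iteratedDeriv n φ 0‖ ≤ B / 8 ^ n := by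
        rw [sub_zero, one_pow, one_smul, norm_smul, norm_inv, Complex.norm_natCast]
        calc (n.factorial : ℝ)⁻¹ * ‖iteratedDeriv n φ 0‖ ≤ (n.factorial : ℝ)⁻¹ * (n.factorial * B / 8 ^ n) :=
              mul_le_mul_of_nonneg_left h4 (by positivity)
          _ = B / 8 ^ n := by field_simp
      refine h5.trans ?_
      have h6 : B / 8 ^ n = B * (1 / 4 : ℝ) ^ n * (1 / 2 : ℝ) ^ n := by
        rw [mul_assoc, ← mul_pow, div_eq_mul_inv, ← inv_pow]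
        norm_num
      rw [h6]
      have h7 : (1 / 4 : ℝ) ^ n ≤ (1 / 4 : ℝ) ^ T :=
        pow_le_pow_of_le_one (by norm_num) (by norm_num) (not_lt.1 hn)
      exact mul_le_mul_of_nonneg_right (mul_le_mul_of_nonneg_left h7 hB) (by positivity)

private theorem zer_line {f : ℂ → ℂ → ℂ → ℂ}
    (hf : Differentiable ℂ (fun z : ℂ × ℂ × ℂ => f z.1 z.2.1 z.2.2)) (x y w : ℂ) :
    Differentiable ℂ (fun t : ℂ => f (t * x) (t * y) (t * w)) := by
  have h2 : Differentiable ℂ (fun t : ℂ => ((t * x, t * y, t * w) : ℂ × ℂ × ℂ)) := by fun_prop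
  exact hf.comp h2

private theorem zer_grow (C1 : ℝ) : ∃ C2 : ℝ, 0 < C2 ∧ ∀ (K : ℕ) (p : ℕ → ℕ → ℂ),
    1 ≤ K → (∀ k < K, ∀ j < K, ‖p k j‖ ≤ Real.exp (C1 * (K : ℝ) ^ 2)) →
    Real.exp (-(C1 * (K : ℝ) ^ 2)) ≤ c.S K p 0 →
    ∀ d : ℂ, ‖d‖ ≤ K → c.S K p d ≤ c.S K p 0 * Real.exp (2 * C2 * K * ‖d‖) := by
  obtain ⟨Cb, hCb, hb⟩ := c.exists_bound_nf'
  have hal := c.hal
  have hbe := c.hbe
  refine ⟨|C1| + (c.al + c.be) / 2 + 4 * Cb, by positivity, ?_⟩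
  intro K p hK hp hS d hd
  set C2 := |C1| + (c.al + c.be) / 2 + 4 * Cb with hC2
  have hC20 : 0 ≤ C2 := by positivity
  have hK1 : (1 : ℝ) ≤ K := by exact_mod_cast hK
  have hKp : (0 : ℝ) < K := by linarith
  have hC1 : C1 ≤ C2 := by
    have := le_abs_self C1
    have h9 : 0 ≤ (c.al + c.be) / 2 + 4 * Cb := by positivity
    linarith
  have h1 : ∀ d : ℂ, ‖d‖ = (K : ℝ) → c.S K p d * Real.exp ((c.al + c.be) * (K : ℝ) ^ 2 / 2) ≤
      Real.exp (C2 * (K : ℝ) ^ 2) := by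
    intro d hd
    have h2 : c.S K p d ≤ Real.exp (C1 * (K : ℝ) ^ 2) * Real.exp (4 * Cb * (K : ℝ) ^ 2) := by
      refine c.S_le K p d _ fun x y => ?_
      refine (hb K p _ hK hp x y (conj y + d)).trans ?_
      refine mul_le_mul_of_nonneg_left ?_ (Real.exp_pos _).le
      have h3 : conj y + d - conj y = d := by ring
      rw [h3, hd]
      have h4 : Cb * ((K : ℝ) + K) ≤ Real.exp (2 * Cb * K) := by
        have := Real.add_one_le_exp (2 * Cb * K)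
        linarith
      calc (Cb * ((K : ℝ) + K)) ^ (2 * K) ≤ (Real.exp (2 * Cb * K)) ^ (2 * K) :=
            pow_le_pow_left₀ (by positivity) h4 _
        _ = Real.exp (4 * Cb * (K : ℝ) ^ 2) := by
            rw [← Real.exp_nat_mul]
            congr 1
            push_cast
            ring
    calc c.S K p d * Real.exp ((c.al + c.be) * (K : ℝ) ^ 2 / 2)
        ≤ Real.exp (C1 * (K : ℝ) ^ 2) * Real.exp (4 * Cb * (K : ℝ) ^ 2) *
            Real.exp ((c.al + c.be) * (K : ℝ) ^ 2 / 2) :=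
          mul_le_mul_of_nonneg_right h2 (Real.exp_pos _).le
      _ = Real.exp ((C1 + (c.al + c.be) / 2 + 4 * Cb) * (K : ℝ) ^ 2) := by
          rw [← Real.exp_add, ← Real.exp_add]
          congr 1
          ring
      _ ≤ Real.exp (C2 * (K : ℝ) ^ 2) := by
          refine Real.exp_le_exp.2 (mul_le_mul_of_nonneg_right ?_ (by positivity))
          have := le_abs_self C1
          linarith
  have h0 : Real.exp (-(C2 * (K : ℝ) ^ 2)) ≤ c.S K p 0 := by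
    refine le_trans (Real.exp_le_exp.2 (neg_le_neg ?_)) hS
    exact mul_le_mul_of_nonneg_right hC1 (by positivity)
  have h5 := c.S_grow K p K (C2 * (K : ℝ) ^ 2) hKp (by positivity) h0 h1 d hd
  have h6 : 2 * (C2 * (K : ℝ) ^ 2) * ‖d‖ / K = 2 * C2 * K * ‖d‖ := by
    field_simp
  rwa [h6] at h5

/-- the bound of `f` on a polydisc -/
private theorem zer_box (K : ℕ) (p : ℕ → ℕ → ℂ) (hK : 1 ≤ K) (C2 : ℝ) (hC2 : 0 < C2)
    (hg : ∀ d : ℂ, ‖d‖ ≤ K → c.S K p d ≤ c.S K p 0 * Real.exp (2 * C2 * K * ‖d‖))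
    (R : ℝ) (hR : 0 < R) (hRK : 2 * R ≤ K) (x y w : ℂ) (hx : ‖x‖ ≤ R) (hy : ‖y‖ ≤ R ^ 2 / K)
    (hw : ‖w‖ ≤ R ^ 2 / K) :
    ‖c.f K p x y w‖ ≤ c.S K p 0 * Real.exp ((4 * C2 + 2 * (c.al + c.be)) * R ^ 2) := by
  have hal := c.hal
  have hbe := c.hbe
  have hK1 : (1 : ℝ) ≤ K := by exact_mod_cast hK
  have hKp : (0 : ℝ) < K := by linarith
  have hr0 : 0 ≤ R ^ 2 / K := by positivity
  have hrR : R ^ 2 / K ≤ R := by
    rw [div_le_iff₀ hKp]
    nlinarith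
  have hKr : K * (R ^ 2 / K) = R ^ 2 := by field_simp
  have hd : ‖w - conj y‖ ≤ 2 * (R ^ 2 / K) := by
    refine (norm_sub_le _ _).trans ?_
    rw [Complex.norm_conj]
    linarith
  have hdK : ‖w - conj y‖ ≤ K := by linarith
  have h1 : c.nf K p x y w ≤ c.S K p (w - conj y) := by
    have h2 := c.nf_le_S K p x y (w - conj y)
    rwa [add_sub_cancel] at h2
  have h3 := h1.trans (hg _ hdK)
  have hS0 := c.S_nonneg K p 0
  have h4 : c.S K p 0 * Real.exp (2 * C2 * K * ‖w - conj y‖) ≤ c.S K p 0 * Real.exp (4 * C2 * R ^ 2) := by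
    refine mul_le_mul_of_nonneg_left (Real.exp_le_exp.2 ?_) hS0
    calc 2 * C2 * K * ‖w - conj y‖ ≤ 2 * C2 * K * (2 * (R ^ 2 / K)) :=
          mul_le_mul_of_nonneg_left hd (by positivity)
      _ = 4 * C2 * (K * (R ^ 2 / K)) := by ring
      _ = 4 * C2 * R ^ 2 := by rw [hKr]
  have h5 := h3.trans h4
  unfold nf w1 w2 at h5
  rw [← Real.exp_add] at h5
  have hx2 : ‖x‖ ^ 2 ≤ R ^ 2 := pow_le_pow_left₀ (norm_nonneg _) hx 2
  have hy2 : ‖y‖ ^ 2 ≤ R ^ 2 := pow_le_pow_left₀ (norm_nonneg _) (hy.trans hrR) 2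
  have hw2 : ‖w‖ ^ 2 ≤ R ^ 2 := pow_le_pow_left₀ (norm_nonneg _) (hw.trans hrR) 2
  have h6 : Real.exp (-(2 * (c.al + c.be) * R ^ 2)) ≤
      Real.exp (-(c.al * (‖x‖ ^ 2 + ‖y‖ ^ 2)) + -(c.be * (‖x‖ ^ 2 + ‖w‖ ^ 2))) := by
    refine Real.exp_le_exp.2 ?_
    nlinarith
  have h7 := (mul_le_mul_of_nonneg_left h6 (norm_nonneg (c.f K p x y w))).trans h5
  have h8 := mul_le_mul_of_nonneg_right h7 (Real.exp_pos (2 * (c.al + c.be) * R ^ 2)).le
  rw [mul_assoc, ← Real.exp_add, neg_add_cancel, Real.exp_zero, mul_one, mul_assoc, ← Real.exp_add] at h8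
  refine h8.trans (le_of_eq ?_)
  congr 2
  ring

theorem exists_zero_estimate (C1 : ℝ) : ∃ C : ℝ, 1 ≤ C ∧ ∃ K0 : ℕ, ∀ (K : ℕ) (p : ℕ → ℕ → ℂ) (T : ℕ),
    K0 ≤ K → (∀ k < K, ∀ j < K, ‖p k j‖ ≤ Real.exp (C1 * (K : ℝ) ^ 2)) →
    Real.exp (-(C1 * (K : ℝ) ^ 2)) ≤ c.S K p 0 → c.Van K p T → (T : ℝ) ^ 3 ≤ C * (K : ℝ) ^ 2 := by
  obtain ⟨C2, hC2, hgrow⟩ := c.zer_grow C1
  obtain ⟨C0, hC0, hcov⟩ := c.cov
  have hal := c.hal
  have hbe := c.hbe
  set C3 : ℝ := 4 * C2 + 2 * (c.al + c.be) with hC3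
  have hC30 : 0 < C3 := by positivity
  refine ⟨4 * (C3 ^ 3 * (64 * C0) ^ 2) + 4, by
    have : 0 ≤ 4 * (C3 ^ 3 * (64 * C0) ^ 2) := by positivity
    linarith, ⌈512 * C0⌉₊ + 1, ?_⟩
  intro K p T hK hp hS hV
  have hKC : 512 * C0 ≤ K := by
    have h1 : 512 * C0 ≤ (⌈512 * C0⌉₊ : ℝ) := Nat.le_ceil _
    have h2 : ((⌈512 * C0⌉₊ + 1 : ℕ) : ℝ) ≤ K := by exact_mod_cast hK
    push_cast at h2
    linarith
  have hK1 : 1 ≤ K := by omega
  have hK1' : (1 : ℝ) ≤ K := by exact_mod_cast hK1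
  have hKp : (0 : ℝ) < K := by linarith
  have hg := hgrow K p hK1 hp hS
  have hS0 : 0 < c.S K p 0 := lt_of_lt_of_le (Real.exp_pos _) hS
  -- the radius
  obtain ⟨R, hR, hR3⟩ : ∃ R : ℝ, 0 < R ∧ R ^ 3 = 64 * C0 * K := by
    refine ⟨(64 * C0 * K) ^ ((1 : ℝ) / 3), by positivity, ?_⟩
    rw [← Real.rpow_natCast, ← Real.rpow_mul (by positivity)]
    norm_num
  have hRK : 2 * R ≤ K := by
    by_contra h
    rw [not_le] at h
    have h1 : (K : ℝ) ^ 3 < (2 * R) ^ 3 := pow_lt_pow_left₀ h hKp.le (by norm_num)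
    have h2 : (2 * R) ^ 3 = 512 * C0 * K := by
      rw [mul_pow, hR3]
      ring
    rw [h2] at h1
    have h3 : 512 * C0 * K ≤ K * K := mul_le_mul_of_nonneg_right hKC hKp.le
    have h4 : (K : ℝ) * K ≤ K ^ 3 := by nlinarith [mul_pos hKp hKp]
    linarith
  have hr0 : 0 < R ^ 2 / K := by positivity
  set B : ℝ := c.S K p 0 * Real.exp (C3 * R ^ 2) with hB
  -- the Schwarz lemma
  have hsmall : ∀ x y w : ℂ, ‖x‖ ≤ R / 8 → ‖y‖ ≤ R ^ 2 / K / 8 → ‖w‖ ≤ R ^ 2 / K / 8 →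
      ‖c.f K p x y w‖ ≤ 2 * B * (1 / 4 : ℝ) ^ T := by
    intro x y w hx hy hw
    have hd := zer_line (c.differentiable_f K p) x y w
    have h3 := zer_schwarz hd (B := B) (fun z hz => ?_) (hV x y w)
    · rw [one_mul, one_mul, one_mul] at h3
      exact h3
    · refine c.zer_box K p hK1 C2 hC2 hg R hR hRK _ _ _ ?_ ?_ ?_
      · rw [norm_mul]
        calc ‖z‖ * ‖x‖ ≤ 8 * (R / 8) := mul_le_mul hz hx (norm_nonneg _) (by norm_num)
          _ = R := by ring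
      · rw [norm_mul]
        calc ‖z‖ * ‖y‖ ≤ 8 * (R ^ 2 / K / 8) := mul_le_mul hz hy (norm_nonneg _) (by norm_num)
          _ = R ^ 2 / K := by ring
      · rw [norm_mul]
        calc ‖z‖ * ‖w‖ ≤ 8 * (R ^ 2 / K / 8) := mul_le_mul hz hw (norm_nonneg _) (by norm_num)
          _ = R ^ 2 / K := by ring
  -- the covering
  have hC0' : C0 ≤ R / 8 * (R ^ 2 / K / 8) := by
    have h1 : R / 8 * (R ^ 2 / K / 8) = R ^ 3 / (64 * K) := by
      field_simp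
      ring
    rw [h1, hR3, le_div_iff₀ (by positivity)]
    linarith
  have hSle : c.S K p 0 ≤ 2 * B * (1 / 4 : ℝ) ^ T := by
    refine c.S_le K p 0 _ fun x y => ?_
    obtain ⟨u, hu, hux, huy⟩ := hcov (R / 8) (R ^ 2 / K / 8) (by positivity) (by positivity) hC0' x y
    have h1 := c.nf_inv K p u hu (x - u.1) (y - u.2) (conj (y - u.2))
    have h2 : conj (y - u.2) + conj u.2 = conj y + 0 := by
      rw [map_sub]
      ring
    rw [sub_add_cancel, sub_add_cancel, h2] at h1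
    rw [h1]
    have h3 := hsmall (x - u.1) (y - u.2) (conj (y - u.2)) hux huy (by rw [Complex.norm_conj]; exact huy)
    refine le_trans ?_ h3
    unfold nf w1 w2
    rw [← Real.exp_add]
    refine mul_le_of_le_one_right (norm_nonneg _) ?_
    rw [← Real.exp_zero]
    refine Real.exp_le_exp.2 ?_
    have h4 : 0 ≤ c.al * (‖x - u.1‖ ^ 2 + ‖y - u.2‖ ^ 2) := by positivity
    have h5 : 0 ≤ c.be * (‖x - u.1‖ ^ 2 + ‖conj (y - u.2)‖ ^ 2) := by positivity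
    linarith
  -- conclusion
  have h6 : (1 : ℝ) ≤ 2 * Real.exp (C3 * R ^ 2) * (1 / 4 : ℝ) ^ T := by
    have h7 : c.S K p 0 * 1 ≤ c.S K p 0 * (2 * Real.exp (C3 * R ^ 2) * (1 / 4 : ℝ) ^ T) := by
      calc c.S K p 0 * 1 = c.S K p 0 := mul_one _
        _ ≤ 2 * B * (1 / 4 : ℝ) ^ T := hSle
        _ = c.S K p 0 * (2 * Real.exp (C3 * R ^ 2) * (1 / 4 : ℝ) ^ T) := by rw [hB]; ring
    exact le_of_mul_le_mul_left h7 hS0
  have h8 : (4 : ℝ) ^ T ≤ 2 * Real.exp (C3 * R ^ 2) := by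
    have h9 := mul_le_mul_of_nonneg_right h6 (show (0 : ℝ) ≤ 4 ^ T by positivity)
    have h10 : (1 / 4 : ℝ) ^ T * 4 ^ T = 1 := by
      rw [← mul_pow]
      norm_num
    rw [one_mul, mul_assoc, h10, mul_one] at h9
    exact h9
  have h11 : (T : ℝ) ≤ C3 * R ^ 2 + 1 := by
    have h12 : Real.exp T ≤ Real.exp (C3 * R ^ 2 + 1) := by
      have h13 : Real.exp 1 ≤ 4 := by
        have := Real.exp_one_lt_d9
        linarith
      have h14 : (2 : ℝ) ≤ Real.exp 1 := by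
        have := Real.exp_one_gt_d9
        linarith
      calc Real.exp T = (Real.exp 1) ^ T := by rw [← Real.exp_nat_mul, mul_one]
        _ ≤ 4 ^ T := pow_le_pow_left₀ (Real.exp_pos _).le h13 T
        _ ≤ 2 * Real.exp (C3 * R ^ 2) := h8
        _ ≤ Real.exp 1 * Real.exp (C3 * R ^ 2) := mul_le_mul_of_nonneg_right h14 (Real.exp_pos _).le
        _ = Real.exp (C3 * R ^ 2 + 1) := by rw [← Real.exp_add, add_comm]
    exact Real.exp_le_exp.1 h12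
  have h15 : (T : ℝ) ^ 3 ≤ (C3 * R ^ 2 + 1) ^ 3 := pow_le_pow_left₀ (Nat.cast_nonneg _) h11 3
  have h16 : 0 ≤ C3 * R ^ 2 := by positivity
  have h17 : (C3 * R ^ 2 + 1) ^ 3 ≤ 4 * ((C3 * R ^ 2) ^ 3 + 1) := by
    nlinarith [mul_nonneg h16 (sq_nonneg (C3 * R ^ 2 - 1)), sq_nonneg (C3 * R ^ 2 - 1)]
  have h18 : (C3 * R ^ 2) ^ 3 = C3 ^ 3 * (64 * C0) ^ 2 * (K : ℝ) ^ 2 := by
    calc (C3 * R ^ 2) ^ 3 = C3 ^ 3 * (R ^ 3) ^ 2 := by ring
      _ = C3 ^ 3 * (64 * C0) ^ 2 * (K : ℝ) ^ 2 := by rw [hR3]; ring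
  have h19 : (1 : ℝ) ≤ (K : ℝ) ^ 2 := by nlinarith
  calc (T : ℝ) ^ 3 ≤ 4 * ((C3 * R ^ 2) ^ 3 + 1) := h15.trans h17
    _ = 4 * (C3 ^ 3 * (64 * C0) ^ 2) * (K : ℝ) ^ 2 + 4 := by rw [h18]; ring
    _ ≤ 4 * (C3 ^ 3 * (64 * C0) ^ 2) * (K : ℝ) ^ 2 + 4 * (K : ℝ) ^ 2 := by linarith
    _ = (4 * (C3 ^ 3 * (64 * C0) ^ 2) + 4) * (K : ℝ) ^ 2 := by ring

end Core

end Pool.Agent.ROH
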