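import Pool.Agent.ROH.CoreMk
import Pool.Agent.ROH.LowB
import Pool.Agent.ROH.Zer
import Pool.Agent.ROH.TayB
import Pool.Agent.ROH.IntDir
import Pool.Agent.ROH.PolyXi

/-!
Project ROH: main assembly (section 8), `MainV` from `GelfondForm` and the modules.
-/

set_option autoImplicit false

namespace Pool.Agent.ROH

open Complex ComplexConjugate Finset Polynomial IntermediateField

theorem nP_ge {K : ℕ} (p : ℕ → ℕ → ℂ) {k j : ℕ} (hk : k < K) (hj : j < K) : ‖p k j‖ ≤ nP K p := by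
  unfold nP
  refine le_trans ?_ (Finset.single_le_sum (f := fun k => ∑ j ∈ range K, ‖p k j‖)
    (fun _ _ => Finset.sum_nonneg fun _ _ => norm_nonneg _) (Finset.mem_range.2 hk))
  exact Finset.single_le_sum (f := fun j => ‖p k j‖) (fun _ _ => norm_nonneg _)
    (Finset.mem_range.2 hj)

/-- from non-vanishing along some direction to a small integral direction -/
theorem exists_int_dir (c : Core) (K : ℕ) (p : ℕ → ℕ → ℂ) (T : ℕ) (h : ¬ c.Van K p T) (μ : ℂ)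
    (hμ : μ ≠ 0) : ∃ ν < T, ∃ a b e : ℕ, a ≤ ν ∧ b ≤ ν ∧ e ≤ ν ∧
      iteratedDeriv ν (fun t : ℂ => c.f K p (t * (a * μ)) (t * (b * μ)) (t * (e * μ))) 0 ≠ 0 := by
  unfold Core.Van at h
  push Not at h
  obtain ⟨x, y, w, ν, hν, hne⟩ := h
  refine ⟨ν, hν, ?_⟩
  by_contra hcon
  push Not at hcon
  exact hne (iteratedDeriv_eq_zero_of_int (f := fun z : ℂ × ℂ × ℂ => c.f K p z.1 z.2.1 z.2.2)
    (c.differentiable_f K p) ν μ hμ (fun a b e ha hb he => hcon a b e ha hb he) x y w)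

/-- Taylor coefficients along directions of norm `≤ ρ` -/
theorem iteratedDeriv_scale {f : ℂ → ℂ → ℂ → ℂ}
    (hf : Differentiable ℂ (fun z : ℂ × ℂ × ℂ => f z.1 z.2.1 z.2.2)) (ν : ℕ) (B ρ : ℝ) (hρ : 0 < ρ)
    (h : ∀ x y w : ℂ, ‖x‖ ≤ 1 → ‖y‖ ≤ 1 → ‖w‖ ≤ 1 →
      ‖iteratedDeriv ν (fun t : ℂ => f (t * x) (t * y) (t * w)) 0‖ ≤ B)
    (x y w : ℂ) (hx : ‖x‖ ≤ ρ) (hy : ‖y‖ ≤ ρ) (hw : ‖w‖ ≤ ρ) :
    ‖iteratedDeriv ν (fun t : ℂ => f (t * x) (t * y) (t * w)) 0‖ ≤ ρ ^ ν * B := by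
  have hρ0 : (ρ : ℂ) ≠ 0 := by exact_mod_cast hρ.ne'
  have h2 : Differentiable ℂ (fun t : ℂ => ((t * (x / ρ), t * (y / ρ), t * (w / ρ)) : ℂ × ℂ × ℂ)) := by
    fun_prop
  have hd : Differentiable ℂ (fun t : ℂ => f (t * (x / ρ)) (t * (y / ρ)) (t * (w / ρ))) := hf.comp h2
  obtain ⟨g, hg⟩ : ∃ g : ℂ → ℂ, g = fun t : ℂ => f (t * (x / ρ)) (t * (y / ρ)) (t * (w / ρ)) :=
    ⟨_, rfl⟩
  rw [← hg] at hd
  have hm : ∀ t z : ℂ, ρ * t * (z / ρ) = t * z := fun t z => by field_simp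
  have e1 : (fun t : ℂ => f (t * x) (t * y) (t * w)) = fun t : ℂ => g (ρ * t) := by
    funext t
    rw [hg]
    simp only [hm]
  have e2 : iteratedDeriv ν (fun t : ℂ => g (ρ * t)) 0 = (ρ : ℂ) ^ ν * iteratedDeriv ν g 0 := by
    have := congrFun (iteratedDeriv_comp_const_mul (n := ν) hd.contDiff (ρ : ℂ)) 0
    simpa using this
  rw [e1, e2, norm_mul, norm_pow, Complex.norm_real, Real.norm_of_nonneg hρ.le]
  have hdiv : ∀ z : ℂ, ‖z‖ ≤ ρ → ‖z / ρ‖ ≤ 1 := fun z hz => by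
    rw [norm_div, Complex.norm_real, Real.norm_of_nonneg hρ.le, div_le_one hρ]
    exact hz
  rw [hg]
  exact mul_le_mul_of_nonneg_left (h _ _ _ (hdiv x hx) (hdiv y hy) (hdiv w hw)) (by positivity)

theorem pow_le_of_ev (A : ℝ) (a b : ℕ) (hab : a < b) :
    ∃ n0 : ℕ, ∀ n : ℕ, n0 ≤ n → A * (n : ℝ) ^ a ≤ (n : ℝ) ^ b := by
  obtain ⟨m, hm⟩ := exists_nat_ge (max A 1)
  refine ⟨m, fun n hn => ?_⟩
  have h1 : (m : ℝ) ≤ n := by exact_mod_cast hn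
  have hA : A ≤ n := (le_max_left _ _).trans (hm.trans h1)
  have h2 : (1 : ℝ) ≤ n := (le_max_right _ _).trans (hm.trans h1)
  calc A * (n : ℝ) ^ a ≤ n * (n : ℝ) ^ a := by gcongr
    _ = (n : ℝ) ^ (a + 1) := by ring
    _ ≤ (n : ℝ) ^ b := pow_le_pow_right₀ h2 hab

/-- size of the coefficients -/
theorem norm_pc_le (r1 r2 θ : ℂ) : ∃ n0 : ℕ, ∀ n : ℕ, n0 ≤ n → ∀ N : ℕ → ℕ → ℕ → ℤ,
    (∀ k j d, |(N k j d : ℝ)| ≤ Real.exp ((n : ℝ) ^ 13)) → ∀ k < n ^ 12, ∀ j < n ^ 12,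
      ‖pc r1 r2 θ (n ^ 8) N k j‖ ≤ Real.exp ((n : ℝ) ^ 22) := by
  set W : ℝ := max 1 (max ‖r1‖ (max ‖r2‖ ‖θ‖)) with hW
  have hW1 : 1 ≤ W := le_max_left _ _
  have hW0 : 0 < W := by linarith
  have hr1 : ‖r1‖ ≤ W := (le_max_left _ _).trans (le_max_right _ _)
  have hr2 : ‖r2‖ ≤ W := (le_max_left _ _).trans ((le_max_right _ _).trans (le_max_right _ _))
  have hθ : ‖θ‖ ≤ W := (le_max_right _ _).trans ((le_max_right _ _).trans (le_max_right _ _))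
  obtain ⟨n0, hn0⟩ := pow_le_of_ev (3 * Real.log W + 2) 13 22 (by norm_num)
  refine ⟨max n0 1, fun n hn N hN k hk j hj => ?_⟩
  have hn1 : (1 : ℝ) ≤ n := by exact_mod_cast (le_max_right _ _).trans hn
  have hlog : 0 ≤ Real.log W := Real.log_nonneg hW1
  have e1 : ‖∑ d ∈ range (n ^ 8), (N k j d : ℂ) * θ ^ d‖ ≤
      (n : ℝ) ^ 8 * (Real.exp ((n : ℝ) ^ 13) * W ^ (n ^ 8)) := by
    refine (norm_sum_le _ _).trans ?_
    calc ∑ d ∈ range (n ^ 8), ‖(N k j d : ℂ) * θ ^ d‖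
        ≤ ∑ _d ∈ range (n ^ 8), Real.exp ((n : ℝ) ^ 13) * W ^ (n ^ 8) := by
          refine Finset.sum_le_sum fun d hd => ?_
          rw [norm_mul, norm_pow, Complex.norm_intCast]
          refine mul_le_mul (hN _ _ _) ?_ (by positivity) (Real.exp_pos _).le
          exact (pow_le_pow_left₀ (norm_nonneg _) hθ d).trans
            (pow_le_pow_right₀ hW1 (Finset.mem_range.1 hd).le)
      _ = _ := by rw [Finset.sum_const, Finset.card_range, nsmul_eq_mul]; push_cast; ring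
  have e2 : ‖r1 ^ k * r2 ^ j‖ ≤ W ^ (n ^ 12) * W ^ (n ^ 12) := by
    rw [norm_mul, norm_pow, norm_pow]
    refine mul_le_mul ?_ ?_ (by positivity) (by positivity)
    · exact (pow_le_pow_left₀ (norm_nonneg _) hr1 k).trans (pow_le_pow_right₀ hW1 hk.le)
    · exact (pow_le_pow_left₀ (norm_nonneg _) hr2 j).trans (pow_le_pow_right₀ hW1 hj.le)
  have hWexp : ∀ m : ℕ, W ^ m = Real.exp (m * Real.log W) := fun m => by
    rw [← Real.log_pow, Real.exp_log (by positivity)]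
  have e3 : (n : ℝ) ^ 8 ≤ Real.exp ((n : ℝ) ^ 8) := by
    have := Real.add_one_le_exp ((n : ℝ) ^ 8)
    linarith
  unfold pc
  rw [norm_mul]
  refine (mul_le_mul e2 e1 (norm_nonneg _) (by positivity)).trans ?_
  rw [hWexp, hWexp]
  calc Real.exp (((n ^ 12 : ℕ) : ℝ) * Real.log W) * Real.exp (((n ^ 12 : ℕ) : ℝ) * Real.log W) *
        ((n : ℝ) ^ 8 * (Real.exp ((n : ℝ) ^ 13) * Real.exp (((n ^ 8 : ℕ) : ℝ) * Real.log W)))
      ≤ Real.exp (((n ^ 12 : ℕ) : ℝ) * Real.log W) * Real.exp (((n ^ 12 : ℕ) : ℝ) * Real.log W) *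
        (Real.exp ((n : ℝ) ^ 8) * (Real.exp ((n : ℝ) ^ 13) *
          Real.exp (((n ^ 8 : ℕ) : ℝ) * Real.log W))) := by gcongr
    _ = Real.exp (((n ^ 12 : ℕ) : ℝ) * Real.log W + ((n ^ 12 : ℕ) : ℝ) * Real.log W +
          ((n : ℝ) ^ 8 + ((n : ℝ) ^ 13 + ((n ^ 8 : ℕ) : ℝ) * Real.log W))) := by
        rw [Real.exp_add, Real.exp_add, Real.exp_add, Real.exp_add]
    _ ≤ Real.exp ((n : ℝ) ^ 22) := by
        apply Real.exp_le_exp.2
        refine le_trans ?_ (hn0 n ((le_max_left _ _).trans hn))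
        push_cast
        have a1 : (n : ℝ) ^ 12 ≤ (n : ℝ) ^ 13 := pow_le_pow_right₀ hn1 (by norm_num)
        have a2 : (n : ℝ) ^ 8 ≤ (n : ℝ) ^ 13 := pow_le_pow_right₀ hn1 (by norm_num)
        nlinarith [mul_le_mul_of_nonneg_right a1 hlog, mul_le_mul_of_nonneg_right a2 hlog]

/-- the polynomial in the first case: all coefficients are small -/
theorem caseA (v1 v2 : ℝ) (hv1 : 0 < v1) (hv2 : 0 < v2) (θ : ℂ) : ∃ n0 : ℕ, ∀ n : ℕ, n0 ≤ n →
    ∀ N : ℕ → ℕ → ℕ → ℤ, (∀ k j d, |(N k j d : ℝ)| ≤ Real.exp ((n : ℝ) ^ 13)) →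
      (∃ k < n ^ 12, ∃ j < n ^ 12, ∃ d < n ^ 8, N k j d ≠ 0) →
      (∀ k < n ^ 12, ∀ j < n ^ 12,
        ‖pc (1 / v1) (1 / v2) θ (n ^ 8) N k j‖ ≤ Real.exp (-((n : ℝ) ^ 22 / 2))) →
      ∃ P : ℤ[X], P ≠ 0 ∧ (P.natDegree : ℝ) ≤ (n : ℝ) ^ 8 ∧
        (∀ i, |(P.coeff i : ℝ)| ≤ Real.exp ((n : ℝ) ^ 13)) ∧
        ‖aeval θ P‖ ≤ Real.exp (-((n : ℝ) ^ 22 / 3)) := by
  set W : ℝ := max 1 (max v1 v2) with hW
  have hW1 : 1 ≤ W := le_max_left _ _
  have hr1 : v1 ≤ W := (le_max_left _ _).trans (le_max_right _ _)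
  have hr2 : v2 ≤ W := (le_max_right _ _).trans (le_max_right _ _)
  obtain ⟨n0, hn0⟩ := pow_le_of_ev (12 * Real.log W) 12 22 (by norm_num)
  refine ⟨n0, fun n hn N hN hne hsm => ?_⟩
  obtain ⟨k, hk, j, hj, d, hd, hNd⟩ := hne
  have hcoef : ∀ i, (∑ d ∈ range (n ^ 8), monomial d (N k j d) : ℤ[X]).coeff i =
      if i < n ^ 8 then N k j i else 0 := by
    intro i
    rw [finsetSum_coeff]
    simp only [coeff_monomial]
    rw [Finset.sum_ite_eq']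
    simp
  refine ⟨∑ d ∈ range (n ^ 8), monomial d (N k j d), ?_, ?_, ?_, ?_⟩
  · intro h
    have := hcoef d
    rw [h, if_pos hd, coeff_zero] at this
    exact hNd this.symm
  · have : (∑ d ∈ range (n ^ 8), monomial d (N k j d) : ℤ[X]).natDegree ≤ n ^ 8 := by
      rw [natDegree_le_iff_coeff_eq_zero]
      intro i hi
      rw [hcoef, if_neg (by omega)]
    exact_mod_cast this
  · intro i
    rw [hcoef]
    split_ifs
    · exact hN _ _ _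
    · simp [Real.exp_nonneg]
  · have e1 : aeval θ (∑ d ∈ range (n ^ 8), monomial d (N k j d) : ℤ[X]) =
        ∑ d ∈ range (n ^ 8), (N k j d : ℂ) * θ ^ d := by
      rw [map_sum]
      refine Finset.sum_congr rfl fun d _ => ?_
      rw [aeval_monomial]
      simp
    have hv1' : (v1 : ℂ) ≠ 0 := by exact_mod_cast hv1.ne'
    have hv2' : (v2 : ℂ) ≠ 0 := by exact_mod_cast hv2.ne'
    have e2 : ∑ d ∈ range (n ^ 8), (N k j d : ℂ) * θ ^ d =
        (v1 : ℂ) ^ k * (v2 : ℂ) ^ j * pc (1 / v1) (1 / v2) θ (n ^ 8) N k j := by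
      unfold pc
      rw [one_div_pow, one_div_pow]
      field_simp
    rw [e1, e2, norm_mul, norm_mul, norm_pow, norm_pow, Complex.norm_real, Complex.norm_real,
      Real.norm_of_nonneg hv1.le, Real.norm_of_nonneg hv2.le]
    have hlog : 0 ≤ Real.log W := Real.log_nonneg hW1
    have e3 : v1 ^ k * v2 ^ j ≤ Real.exp ((n : ℝ) ^ 12 * Real.log W) *
        Real.exp ((n : ℝ) ^ 12 * Real.log W) := by
      have hWexp : W ^ (n ^ 12) = Real.exp ((n : ℝ) ^ 12 * Real.log W) := by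
        have : ((n ^ 12 : ℕ) : ℝ) * Real.log W = (n : ℝ) ^ 12 * Real.log W := by push_cast; ring
        rw [← this, ← Real.log_pow, Real.exp_log (by positivity)]
      rw [← hWexp]
      refine mul_le_mul ?_ ?_ (by positivity) (by positivity)
      · exact (pow_le_pow_left₀ hv1.le hr1 k).trans (pow_le_pow_right₀ hW1 hk.le)
      · exact (pow_le_pow_left₀ hv2.le hr2 j).trans (pow_le_pow_right₀ hW1 hj.le)
    refine (mul_le_mul e3 (hsm k hk j hj) (norm_nonneg _) (by positivity)).trans ?_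
    rw [← Real.exp_add, ← Real.exp_add]
    apply Real.exp_le_exp.2
    have := hn0 n hn
    nlinarith

/-- numerical estimate for the factors in the second case -/
theorem caseB_num (C0 : ℕ) (v : ℝ) (hv : 0 < v) : ∃ n0 : ℕ, ∀ n : ℕ, n0 ≤ n → ∀ ν : ℕ,
    ν ≤ C0 * n ^ 8 → (((ν : ℝ) + 1) * (1 + 1 / v)) ^ ν *
      ((ν.factorial : ℝ) * Real.exp (-((n : ℝ) ^ 11) ^ 2 / 2)) ≤
        Real.exp (-(9 / 20 * (n : ℝ) ^ 22)) := by
  obtain ⟨n0, hn0⟩ := pow_le_of_ev (20 * ((C0 : ℝ) * ((C0 + 1) * (1 + 1 / v)) + C0 * C0)) 16 22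
    (by norm_num)
  refine ⟨max n0 1, fun n hn ν hν => ?_⟩
  have hn1 : (1 : ℝ) ≤ n := by exact_mod_cast (le_max_right _ _).trans hn
  have hν' : (ν : ℝ) ≤ C0 * (n : ℝ) ^ 8 := by exact_mod_cast hν
  have hn8 : (1 : ℝ) ≤ (n : ℝ) ^ 8 := one_le_pow₀ hn1
  have hV : 0 < 1 + 1 / v := by positivity
  have e1 : (((ν : ℝ) + 1) * (1 + 1 / v)) ^ ν ≤
      Real.exp (ν * (((ν : ℝ) + 1) * (1 + 1 / v))) := by
    rw [Real.exp_nat_mul]
    refine pow_le_pow_left₀ (by positivity) ?_ ν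
    have := Real.add_one_le_exp (((ν : ℝ) + 1) * (1 + 1 / v))
    linarith
  have e2 : (ν.factorial : ℝ) ≤ Real.exp (ν * (ν : ℝ)) := by
    have h1 : (ν.factorial : ℝ) ≤ (ν : ℝ) ^ ν := by exact_mod_cast Nat.factorial_le_pow ν
    refine h1.trans ?_
    rw [Real.exp_nat_mul]
    refine pow_le_pow_left₀ (by positivity) ?_ ν
    have := Real.add_one_le_exp (ν : ℝ)
    linarith
  calc (((ν : ℝ) + 1) * (1 + 1 / v)) ^ ν *
        ((ν.factorial : ℝ) * Real.exp (-((n : ℝ) ^ 11) ^ 2 / 2))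
      ≤ Real.exp (ν * (((ν : ℝ) + 1) * (1 + 1 / v))) *
        (Real.exp (ν * (ν : ℝ)) * Real.exp (-((n : ℝ) ^ 11) ^ 2 / 2)) := by gcongr
    _ = Real.exp (ν * (((ν : ℝ) + 1) * (1 + 1 / v)) + (ν * (ν : ℝ) + -((n : ℝ) ^ 11) ^ 2 / 2)) := by
        rw [Real.exp_add, Real.exp_add]
    _ ≤ Real.exp (-(9 / 20 * (n : ℝ) ^ 22)) := by
        apply Real.exp_le_exp.2
        have h3 := hn0 n ((le_max_left _ _).trans hn)
        have h4 : (ν : ℝ) + 1 ≤ (C0 + 1) * (n : ℝ) ^ 8 := by nlinarith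
        have h5 : (ν : ℝ) * (((ν : ℝ) + 1) * (1 + 1 / v)) ≤
            (C0 * (n : ℝ) ^ 8) * (((C0 + 1) * (n : ℝ) ^ 8) * (1 + 1 / v)) := by gcongr
        have h6 : (ν : ℝ) * ν ≤ (C0 * (n : ℝ) ^ 8) * (C0 * (n : ℝ) ^ 8) := by gcongr
        have e3 : (n : ℝ) ^ 16 = (n : ℝ) ^ 8 * (n : ℝ) ^ 8 := by ring
        have e4 : ((n : ℝ) ^ 11) ^ 2 = (n : ℝ) ^ 22 := by ring
        rw [e4]
        nlinarith

theorem mainV (hG : GelfondForm) : MainV := by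
  intro v1 v2 s1 s2 n1 n2 hv1 hv2 hn1 hn2 hs1 hs2 ht1 ht2 q1 q2 hθ halg
  set θ : ℂ := ((Real.pi / v1 ^ 2 : ℝ) : ℂ) with hθdef
  have hv1' : (v1 : ℂ) ≠ 0 := by exact_mod_cast hv1.ne'
  have hv2' : (v2 : ℂ) ≠ 0 := by exact_mod_cast hv2.ne'
  let c : Core := mkCore q1 q2
  have hT1 : c.T1 = TT (fun z => s1 (v1 * z)) := rfl
  have hT2 : c.T2 = TT (fun z => s2 (v2 * z)) := rfl
  have hal : c.al = n1 * Real.pi / 4 := rfl
  have hbe : c.be = n2 * (2 * Real.pi / Real.sqrt 3) / 4 := rfl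
  have hθF : IsAlgebraic ℚ⟮θ⟯ θ :=
    isAlgebraic_algebraMap (⟨θ, mem_adjoin_simple_self ℚ θ⟩ : ℚ⟮θ⟯)
  have hnat : ∀ m : ℕ, IsAlgebraic ℚ⟮θ⟯ (m : ℂ) := fun m => isAlgebraic_natCast m
  have ha2 : IsAlgebraic ℚ⟮θ⟯ ((2 * c.al / v1 ^ 2 : ℝ) : ℂ) := by
    have e : ((2 * c.al / v1 ^ 2 : ℝ) : ℂ) = (n1 : ℂ) * θ * ((2 : ℕ) : ℂ)⁻¹ := by
      rw [hal, hθdef]
      push_cast
      field_simp
      ring
    rw [e]
    exact ((hnat n1).mul hθF).mul (hnat 2).inv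
  have h3 : IsAlgebraic ℚ⟮θ⟯ ((Real.sqrt 3 : ℝ) : ℂ) := by
    refine IsAlgebraic.of_pow (n := 2) (by norm_num) ?_
    rw [← ofReal_pow, Real.sq_sqrt (by norm_num)]
    exact_mod_cast hnat 3
  have ha3 : IsAlgebraic ℚ⟮θ⟯ ((2 * c.be / (v1 * v2) : ℝ) : ℂ) := by
    have h30 : ((Real.sqrt 3 : ℝ) : ℂ) ≠ 0 := by
      have : Real.sqrt 3 ≠ 0 := by positivity
      exact_mod_cast this
    have e : ((2 * c.be / (v1 * v2) : ℝ) : ℂ) =
        (n2 : ℂ) * θ * (((Real.sqrt 3 : ℝ) : ℂ)⁻¹ * ((v2 / v1 : ℝ) : ℂ)⁻¹) := by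
      rw [hbe, hθdef]
      push_cast
      field_simp
      ring
    rw [e]
    exact ((hnat n2).mul hθF).mul (h3.inv.mul halg.inv)
  -- constants
  obtain ⟨CL, hCL1, hlow⟩ := c.exists_lower
  obtain ⟨CZ, hCZ1, K0, hzero⟩ := c.exists_zero_estimate (CL + 1)
  obtain ⟨C0, hC0⟩ := exists_nat_ge CZ
  have hC01 : (1 : ℝ) ≤ C0 := hCZ1.trans hC0
  obtain ⟨CP, nP0, hpoly⟩ := poly_of_xi hθ c hs1 hs2 ht1 ht2 v1 v2 hv1 hv2 hT1 hT2 halg ha2 ha3 C0
  obtain ⟨na, haux⟩ := c.exists_aux (1 / v1) (1 / v2) θ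
  obtain ⟨nb, hpc⟩ := norm_pc_le (1 / v1) (1 / v2) θ
  obtain ⟨nc, hcA⟩ := caseA v1 v2 hv1 hv2 θ
  obtain ⟨g0, htay⟩ := c.exists_taylor_small
  obtain ⟨nd, hnum⟩ := caseB_num C0 v1 hv1
  obtain ⟨ne, hlg⟩ : ∃ ne : ℕ, ∀ n : ℕ, ne ≤ n →
      (((n ^ 12 : ℕ) : ℝ)) * Real.log (((n ^ 12 : ℕ) : ℝ) + 1) ≤ (((n ^ 11 : ℕ) : ℝ)) ^ 2 := by
    obtain ⟨m, hm⟩ := pow_le_of_ev 16 13 22 (by norm_num)
    refine ⟨max m 1, fun n hn => ?_⟩
    have hn1 : (1 : ℝ) ≤ n := by exact_mod_cast (le_max_right _ _).trans hn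
    have h1 := hm n ((le_max_left _ _).trans hn)
    have h2 : Real.log (((n ^ 12 : ℕ) : ℝ) + 1) ≤ 13 * n := by
      have h3 : (((n ^ 12 : ℕ) : ℝ) + 1) ≤ (2 * (n : ℝ)) ^ 12 := by
        push_cast
        have : (1 : ℝ) ≤ (n : ℝ) ^ 12 := one_le_pow₀ hn1
        nlinarith [mul_pow (2 : ℝ) (n : ℝ) 12]
      calc Real.log (((n ^ 12 : ℕ) : ℝ) + 1) ≤ Real.log ((2 * (n : ℝ)) ^ 12) :=
            Real.log_le_log (by positivity) h3
        _ = 12 * Real.log (2 * n) := by rw [Real.log_pow]; norm_num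
        _ ≤ 13 * n := by
            have h4 : Real.log (2 * (n : ℝ)) = Real.log 2 + Real.log n :=
              Real.log_mul (by norm_num) (by positivity)
            have h5 : Real.log (n : ℝ) ≤ n - 1 := Real.log_le_sub_one_of_pos (by positivity)
            have h6 : Real.log 2 ≤ 1 := by
              have := Real.log_two_lt_d9
              linarith
            rw [h4]
            nlinarith
    calc (((n ^ 12 : ℕ) : ℝ)) * Real.log (((n ^ 12 : ℕ) : ℝ) + 1) ≤ ((n ^ 12 : ℕ) : ℝ) * (13 * n) := by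
          gcongr
      _ ≤ (((n ^ 11 : ℕ) : ℝ)) ^ 2 := by
          push_cast
          have : (n : ℝ) ^ 12 * (13 * n) = 13 * (n : ℝ) ^ 13 := by ring
          have h7 : (0 : ℝ) ≤ (n : ℝ) ^ 13 := by positivity
          nlinarith [show ((n : ℝ) ^ 11) ^ 2 = (n : ℝ) ^ 22 by ring]
  -- Gelfond
  refine hG θ hθ (max 1 CP) (max nP0 (max na (max nb (max nc (max g0 (max nd (max ne
    (max K0 1)))))))) fun n hn => ?_
  have hnP0 : nP0 ≤ n := (le_max_left _ _).trans hn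
  have hn1' := (le_max_right _ _).trans hn
  have hna : na ≤ n := (le_max_left _ _).trans hn1'
  have hn2' := (le_max_right _ _).trans hn1'
  have hnb : nb ≤ n := (le_max_left _ _).trans hn2'
  have hn3' := (le_max_right _ _).trans hn2'
  have hnc : nc ≤ n := (le_max_left _ _).trans hn3'
  have hn4' := (le_max_right _ _).trans hn3'
  have hg0 : g0 ≤ n := (le_max_left _ _).trans hn4'
  have hn5' := (le_max_right _ _).trans hn4'
  have hnd : nd ≤ n := (le_max_left _ _).trans hn5'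
  have hn6' := (le_max_right _ _).trans hn5'
  have hne : ne ≤ n := (le_max_left _ _).trans hn6'
  have hn7' := (le_max_right _ _).trans hn6'
  have hK0 : K0 ≤ n := (le_max_left _ _).trans hn7'
  have hn1 : 1 ≤ n := (le_max_right _ _).trans hn7'
  have hn1R : (1 : ℝ) ≤ n := by exact_mod_cast hn1
  have hpow : ∀ a : ℕ, 0 < a → n ≤ n ^ a := fun a ha => Nat.le_self_pow ha.ne' n
  obtain ⟨N, hNne, hN, hS⟩ := haux n hna
  set p := pc (1 / v1) (1 / v2) θ (n ^ 8) N with hp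
  by_cases hcase : ∀ k < n ^ 12, ∀ j < n ^ 12, ‖p k j‖ ≤ Real.exp (-((n : ℝ) ^ 22 / 2))
  · obtain ⟨P, hP0, hPd, hPc, hPθ⟩ := hcA n hnc N hN hNne hcase
    refine ⟨P, hP0, hPd.trans ?_, fun i => (hPc i).trans ?_, hPθ⟩
    · exact le_mul_of_one_le_left (by positivity) (le_max_left _ _)
    · exact Real.exp_le_exp.2 (le_mul_of_one_le_left (by positivity) (le_max_left _ _))
  · push Not at hcase
    obtain ⟨k, hk, j, hj, hkj⟩ := hcase
    have hK1 : 1 ≤ n ^ 12 := Nat.one_le_pow _ _ hn1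
    have h22 : (n : ℝ) ^ 22 ≤ (n : ℝ) ^ 24 := pow_le_pow_right₀ hn1R (by norm_num)
    have hKK : (((n ^ 12 : ℕ) : ℝ)) ^ 2 = (n : ℝ) ^ 24 := by push_cast; ring
    have hCL0 : 0 < CL := by linarith
    -- the lower bound of S
    have hSlow : Real.exp (-((CL + 1) * (((n ^ 12 : ℕ) : ℝ)) ^ 2)) ≤ c.S (n ^ 12) p 0 := by
      have h1 := hlow (n ^ 12) p hK1
      have h2 := (hkj.le.trans (nP_ge p hk hj)).trans h1
      have h4 : Real.exp (-((n : ℝ) ^ 22 / 2)) * Real.exp (-(CL * (((n ^ 12 : ℕ) : ℝ)) ^ 2)) ≤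
          c.S (n ^ 12) p 0 := by
        calc _ ≤ c.S (n ^ 12) p 0 * Real.exp (CL * (((n ^ 12 : ℕ) : ℝ)) ^ 2) *
              Real.exp (-(CL * (((n ^ 12 : ℕ) : ℝ)) ^ 2)) := by gcongr
          _ = _ := by rw [mul_assoc, ← Real.exp_add, add_neg_cancel, Real.exp_zero, mul_one]
      refine le_trans ?_ h4
      rw [← Real.exp_add]
      apply Real.exp_le_exp.2
      rw [hKK]
      have : (0 : ℝ) ≤ (n : ℝ) ^ 22 := by positivity
      nlinarith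
    have hpn : ∀ k < n ^ 12, ∀ j < n ^ 12, ‖p k j‖ ≤ Real.exp ((n : ℝ) ^ 22) :=
      fun k hk j hj => hpc n hnb N hN k hk j hj
    -- the order of vanishing
    have hVan : ¬ c.Van (n ^ 12) p (C0 * n ^ 8 + 1) := by
      intro hV
      have h1 := hzero (n ^ 12) p (C0 * n ^ 8 + 1) (hK0.trans (hpow 12 (by norm_num)))
        (fun k hk j hj => (hpn k hk j hj).trans (Real.exp_le_exp.2 ?_)) hSlow hV
      · rw [hKK] at h1
        have h2 : ((C0 : ℝ) * (n : ℝ) ^ 8) ^ 3 < (((C0 * n ^ 8 + 1 : ℕ) : ℝ)) ^ 3 := by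
          push_cast
          exact pow_lt_pow_left₀ (by linarith) (by positivity) (by norm_num)
        have h3 : CZ * (n : ℝ) ^ 24 ≤ ((C0 : ℝ) * (n : ℝ) ^ 8) ^ 3 := by
          have e : ((C0 : ℝ) * (n : ℝ) ^ 8) ^ 3 = (C0 : ℝ) ^ 3 * (n : ℝ) ^ 24 := by ring
          rw [e]
          have h4 : CZ ≤ (C0 : ℝ) ^ 3 := hC0.trans (le_self_pow₀ hC01 (by norm_num))
          gcongr
        linarith
      · rw [hKK]
        nlinarith [show (0 : ℝ) ≤ (n : ℝ) ^ 24 by positivity]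
    have hμ : (1 / (v1 : ℂ)) ≠ 0 := one_div_ne_zero hv1'
    obtain ⟨ν, hν, a, b, e, ha, hb, he, hne0⟩ := exists_int_dir c (n ^ 12) p (C0 * n ^ 8 + 1) hVan
      (1 / (v1 : ℂ)) hμ
    have hν' : ν ≤ C0 * n ^ 8 := by omega
    -- smallness
    have hM : Real.log (Real.exp ((n : ℝ) ^ 22)) ≤ (((n ^ 11 : ℕ) : ℝ)) ^ 2 := by
      rw [Real.log_exp]
      push_cast
      exact le_of_eq (by ring)
    have hS' : c.S (n ^ 12) p 0 ≤ Real.exp (-(((n ^ 11 : ℕ) : ℝ)) ^ 2) := by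
      refine hS.trans (le_of_eq ?_)
      congr 2
      push_cast
      ring
    have hT := htay (n ^ 11) (hg0.trans (hpow 11 (by norm_num))) (n ^ 12) p (Real.exp ((n : ℝ) ^ 22)) hK1
      (hlg n hne) (Real.one_le_exp (by positivity)) hM hpn hS'
    have hρ : 0 < ((ν : ℝ) + 1) * (1 + 1 / v1) := by positivity
    have hdir : ∀ m : ℕ, m ≤ ν → ‖(m : ℂ) * (1 / (v1 : ℂ))‖ ≤ ((ν : ℝ) + 1) * (1 + 1 / v1) := by
      intro m hm
      have hm' : (m : ℝ) ≤ ν := by exact_mod_cast hm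
      have h0 : 0 < 1 / v1 := by positivity
      rw [norm_mul, norm_div, norm_one, Complex.norm_real, Real.norm_of_nonneg hv1.le,
        Complex.norm_natCast]
      calc (m : ℝ) * (1 / v1) ≤ ν * (1 / v1) := by gcongr
        _ ≤ ((ν : ℝ) + 1) * (1 + 1 / v1) := by nlinarith
    have hsc := iteratedDeriv_scale (f := c.f (n ^ 12) p) (c.differentiable_f (n ^ 12) p) ν _ _ hρ
      (fun x y w hx hy hw => hT x y w hx hy hw ν) _ _ _ (hdir a ha) (hdir b hb) (hdir e he)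
    have hfin : ‖iteratedDeriv ν (fun t : ℂ => c.f (n ^ 12) p (t * (a * (1 / v1)))
        (t * (b * (1 / v1))) (t * (e * (1 / v1)))) 0‖ ≤ Real.exp (-(9 / 20 * (n : ℝ) ^ 22)) := by
      refine hsc.trans ?_
      have := hnum n hnd ν hν'
      push_cast
      exact this
    obtain ⟨P, hP0, hPd, hPc, hPθ⟩ := hpoly n hnP0 N hN ν hν' a b e ha hb he hne0 hfin
    refine ⟨P, hP0, hPd.trans ?_, fun i => (hPc i).trans ?_, hPθ⟩
    · exact mul_le_mul_of_nonneg_right (le_max_right _ _) (by positivity)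
    · exact Real.exp_le_exp.2 (mul_le_mul_of_nonneg_right (le_max_right _ _) (by positivity))

end Pool.Agent.ROH
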