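import Pool.Agent.ROH.TDefs
import Pool.Agent.ROH.AuxF
import Pool.Agent.GP.Alg

/-!
Project ROH, block B (arithmetic, section 7): definitions.
-/

set_option autoImplicit false

namespace Pool.Agent.ROH

open Complex ComplexConjugate Finset Polynomial

noncomputable section

/-- Taylor coefficient at `l^n t^i` of `g(l, t)` -/
def J (g : ℂ → ℂ → ℂ) (n i : ℕ) : ℂ :=
  iteratedDeriv n (fun l => iteratedDeriv i (g l) 0) 0 / ((n.factorial : ℂ) * (i.factorial : ℂ))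

/-- jointly entire functions of two variables -/
def Ent2 (g : ℂ → ℂ → ℂ) : Prop := Differentiable ℂ (fun z : ℂ × ℂ => g z.1 z.2)

/-- first factor of `G` -/
def Ga (s : ℂ → ℂ) (c P : ℂ) (l t : ℂ) : ℂ := s (c * P / 2 * l + 1 / 2 * t)

/-- second factor of `G` -/
def Gb (s : ℂ → ℂ) (c Q : ℂ) (l t : ℂ) : ℂ := s (c * Q / (2 * r3) * l + -(1 / (2 * r3)) * t)

/-- third factor of `G` -/
def Gc (κ : ℂ) (l t : ℂ) : ℂ := cexp (-(κ * l * t))

/-- the function `G(l, t)` whose `t`-derivatives are `F_k`, `H_j` on a line -/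
def G (s : ℂ → ℂ) (c κ P Q : ℂ) (l t : ℂ) : ℂ :=
  Ga s c P l t * (Gb s c Q l t * (Gb s c Q l t * Gb s c Q l t)) * Gc κ l t

open Pool.Agent.GP in
/-- the algebraic environment: the numbers `1, √3, c, κ` times `D0(θ)` are represented by matrices
over `ℤ[X]` of degree `≤ E` and length `≤ X` -/
structure Env (δ : ℕ) (ω : Fin (δ + 1) → ℂ) (θ : ℂ) (D0 : ℤ[X]) (E : ℕ) (X : ℝ) (c κ : ℂ) :
    Prop where
  hX : 1 ≤ X
  d : Rep (δ + 1) ω θ (aeval θ D0) E X
  r : Rep (δ + 1) ω θ (aeval θ D0 * r3) E X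
  c : Rep (δ + 1) ω θ (aeval θ D0 * c) E X
  k : Rep (δ + 1) ω θ (aeval θ D0 * κ) E X

end

end Pool.Agent.ROH
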