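import Pool.Agent.ROH.BndT

/-!
ROH-BndF. Bounds for `F_k`, `H_j` (section 2 of the note).

`F k x y w` is the `k`-th derivative at `0` of `g t = T1 (x, y+t) exp(-2 al w t)`. By `exists_bound_T`
`‖T1 (x,y+t)‖ ≤ C exp (al (‖x‖² + ‖y+t‖²))`, hence `‖g t‖ * w1 x y ≤ C exp (2 al Re((conj y - w) t) + al ‖t‖²)
≤ C exp (2 al δ ‖t‖ + al ‖t‖²)`, `δ = ‖w - conj y‖`. Cauchy estimate
(`Complex.norm_iteratedDeriv_le_of_forall_mem_sphere_norm_le`) on the circle of radius `ρ = k/(√k + δ)` (`k ≥ 1`; then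
`ρ ≤ √k`, `ρ δ ≤ k`): `‖F‖ w1 ≤ k! ρ^(-k) C exp(3 al k) ≤ C (exp(3 al) (√k + δ))^k`, as `k! ≤ k^k`.
Same for `H` with `‖y - conj w‖`.
-/

set_option autoImplicit false

namespace Pool.Agent.ROH

open Complex ComplexConjugate Finset

private theorem norm_add_sq' (y t : ℂ) :
    ‖y + t‖ ^ 2 = ‖y‖ ^ 2 + 2 * (conj y * t).re + ‖t‖ ^ 2 := by
  rw [← Complex.normSq_eq_norm_sq, ← Complex.normSq_eq_norm_sq, ← Complex.normSq_eq_norm_sq]
  simp only [Complex.normSq_apply, Complex.add_re, Complex.add_im, Complex.mul_re, Complex.conj_re,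
    Complex.conj_im]
  ring

private theorem bnd_core (a C0 : ℝ) (ha : 0 < a) (hC0 : 1 ≤ C0) (T : ℂ × ℂ → ℂ)
    (hT : Differentiable ℂ T)
    (hb : ∀ x y : ℂ, ‖T (x, y)‖ * Real.exp (-(a * (‖x‖ ^ 2 + ‖y‖ ^ 2))) ≤ C0)
    (k : ℕ) (x y v : ℂ) :
    ‖iteratedDeriv k (fun t : ℂ => T (x, y + t) * cexp (-(2 * a * v * t))) 0‖ *
      Real.exp (-(a * (‖x‖ ^ 2 + ‖y‖ ^ 2))) ≤
      (C0 * Real.exp (3 * a)) * ((C0 * Real.exp (3 * a)) * (Real.sqrt k + ‖v - conj y‖)) ^ k := by
  have he : 1 ≤ Real.exp (3 * a) := Real.one_le_exp (by positivity)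
  have hC1 : C0 ≤ C0 * Real.exp (3 * a) := le_mul_of_one_le_right (by linarith) he
  have hC2 : Real.exp (3 * a) ≤ C0 * Real.exp (3 * a) := le_mul_of_one_le_left (by positivity) hC0
  rcases Nat.eq_zero_or_pos k with hk | hk
  · subst hk
    rw [pow_zero, mul_one, iteratedDeriv_zero]
    simp only [mul_zero, neg_zero, Complex.exp_zero, mul_one, add_zero]
    exact (hb x y).trans hC1
  · set δ : ℝ := ‖v - conj y‖ with hδ
    have hδ0 : 0 ≤ δ := norm_nonneg _
    have hk0 : (0 : ℝ) < k := by exact_mod_cast hk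
    have hsk : 0 < Real.sqrt k := Real.sqrt_pos.2 hk0
    have hsum : 0 < Real.sqrt k + δ := by linarith
    set ρ : ℝ := k / (Real.sqrt k + δ) with hρ
    have hρ0 : 0 < ρ := div_pos hk0 hsum
    have hρs : ρ * (Real.sqrt k + δ) = k := div_mul_cancel₀ _ hsum.ne'
    have hρδ : ρ * δ ≤ k := by nlinarith [mul_pos hρ0 hsk]
    have hρ1 : ρ ≤ Real.sqrt k := by
      have h1 : Real.sqrt k * Real.sqrt k = k := Real.mul_self_sqrt hk0.le
      rw [hρ, div_le_iff₀ hsum]
      nlinarith [mul_nonneg hsk.le hδ0]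
    have hρ2 : ρ ^ 2 ≤ k := by
      have h1 : Real.sqrt k ^ 2 = k := Real.sq_sqrt hk0.le
      rw [← h1]
      exact pow_le_pow_left₀ hρ0.le hρ1 2
    set W : ℝ := Real.exp (-(a * (‖x‖ ^ 2 + ‖y‖ ^ 2))) with hW
    have hW0 : 0 < W := Real.exp_pos _
    have hdiff : Differentiable ℂ (fun t : ℂ => T (x, y + t) * cexp (-(2 * a * v * t))) := by
      refine Differentiable.mul ?_ ?_
      · refine hT.comp (f := fun t : ℂ => (x, y + t)) ?_
        exact (differentiable_const x).prodMk ((differentiable_const y).add differentiable_id)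
      · exact ((differentiable_id.const_mul _).neg).cexp
    have hsph : ∀ t ∈ Metric.sphere (0 : ℂ) ρ,
        ‖T (x, y + t) * cexp (-(2 * a * v * t))‖ ≤ C0 * Real.exp (3 * a * k) / W := by
      intro t ht
      have htρ : ‖t‖ = ρ := by simpa using ht
      rw [le_div_iff₀ hW0, norm_mul, Complex.norm_exp]
      have h1 := hb x (y + t)
      have h2 : ‖T (x, y + t)‖ ≤ C0 * Real.exp (a * (‖x‖ ^ 2 + ‖y + t‖ ^ 2)) := by
        rw [Real.exp_neg, ← div_eq_mul_inv, div_le_iff₀ (Real.exp_pos _)] at h1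
        exact h1
      have h3 : (-(2 * (a : ℂ) * v * t)).re = -(2 * a) * (v * t).re := by
        simp only [Complex.neg_re, Complex.mul_re, Complex.mul_im, Complex.ofReal_re,
          Complex.ofReal_im, Complex.re_ofNat, Complex.im_ofNat]
        ring
      have h4 : (conj y * t).re - (v * t).re ≤ δ * ρ := by
        have h5 : (conj y * t).re - (v * t).re = ((conj y - v) * t).re := by
          rw [sub_mul, Complex.sub_re]
        rw [h5]
        refine (Complex.re_le_norm _).trans ?_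
        rw [norm_mul, htρ, norm_sub_rev]
      have h6 : Real.exp (a * (‖x‖ ^ 2 + ‖y + t‖ ^ 2)) * Real.exp (-(2 * (a : ℂ) * v * t)).re * W ≤
          Real.exp (3 * a * k) := by
        rw [hW, ← Real.exp_add, ← Real.exp_add, h3, norm_add_sq', htρ]
        refine Real.exp_le_exp.2 ?_
        have h7 : a * ρ ^ 2 ≤ a * k := mul_le_mul_of_nonneg_left hρ2 ha.le
        have h8 : 2 * a * ((conj y * t).re - (v * t).re) ≤ 2 * a * k :=
          mul_le_mul_of_nonneg_left (h4.trans (by linarith [hρδ, mul_comm δ ρ])) (by positivity)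
        nlinarith [h7, h8]
      calc ‖T (x, y + t)‖ * Real.exp (-(2 * (a : ℂ) * v * t)).re * W
          ≤ (C0 * Real.exp (a * (‖x‖ ^ 2 + ‖y + t‖ ^ 2))) *
              Real.exp (-(2 * (a : ℂ) * v * t)).re * W := by
            refine mul_le_mul_of_nonneg_right (mul_le_mul_of_nonneg_right h2 ?_) hW0.le
            exact (Real.exp_pos _).le
        _ = C0 * (Real.exp (a * (‖x‖ ^ 2 + ‖y + t‖ ^ 2)) *
              Real.exp (-(2 * (a : ℂ) * v * t)).re * W) := by ring
        _ ≤ C0 * Real.exp (3 * a * k) := mul_le_mul_of_nonneg_left h6 (by linarith)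
    have hC := Complex.norm_iteratedDeriv_le_of_forall_mem_sphere_norm_le k hρ0
      hdiff.diffContOnCl hsph
    have hfact : (k.factorial : ℝ) ≤ (k : ℝ) ^ k := by exact_mod_cast Nat.factorial_le_pow k
    have hkρ : (k : ℝ) / ρ = Real.sqrt k + δ := by
      rw [div_eq_iff hρ0.ne', mul_comm]
      exact hρs.symm
    calc ‖iteratedDeriv k (fun t : ℂ => T (x, y + t) * cexp (-(2 * a * v * t))) 0‖ * W
        ≤ (k.factorial * (C0 * Real.exp (3 * a * k) / W) / ρ ^ k) * W :=
          mul_le_mul_of_nonneg_right hC hW0.le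
      _ = k.factorial * (C0 * Real.exp (3 * a * k)) / ρ ^ k := by
          field_simp
      _ ≤ (k : ℝ) ^ k * (C0 * Real.exp (3 * a * k)) / ρ ^ k := by
          refine div_le_div_of_nonneg_right (mul_le_mul_of_nonneg_right hfact ?_) (by positivity)
          positivity
      _ = C0 * (Real.exp (3 * a) ^ k * ((k : ℝ) / ρ) ^ k) := by
          have h9 : Real.exp (3 * a * k) = Real.exp (3 * a) ^ k := by
            rw [← Real.exp_nat_mul]; ring_nf
          rw [h9, div_pow]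
          ring
      _ = C0 * (Real.exp (3 * a) * (Real.sqrt k + δ)) ^ k := by rw [hkρ, mul_pow]
      _ ≤ (C0 * Real.exp (3 * a)) * ((C0 * Real.exp (3 * a)) * (Real.sqrt k + δ)) ^ k := by
          refine mul_le_mul hC1 (pow_le_pow_left₀ (by positivity) ?_ k) (by positivity)
            (by positivity)
          exact mul_le_mul_of_nonneg_right hC2 hsum.le

namespace Core

variable (c : Core)

theorem exists_bound_F : ∃ C : ℝ, 1 ≤ C ∧ ∀ (k : ℕ) (x y w : ℂ),
    ‖c.F k x y w‖ * c.w1 x y ≤ C * (C * (Real.sqrt k + ‖w - conj y‖)) ^ k := by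
  obtain ⟨C0, hC0, h1, -⟩ := c.exists_bound_T
  refine ⟨C0 * Real.exp (3 * c.al), ?_, ?_⟩
  · have he : 1 ≤ Real.exp (3 * c.al) := Real.one_le_exp (by have := c.hal; positivity)
    nlinarith
  · intro k x y w
    exact bnd_core c.al C0 c.hal hC0 c.T1 c.d1 h1 k x y w

theorem exists_bound_H : ∃ C : ℝ, 1 ≤ C ∧ ∀ (j : ℕ) (x y w : ℂ),
    ‖c.H j x y w‖ * c.w2 x w ≤ C * (C * (Real.sqrt j + ‖w - conj y‖)) ^ j := by
  obtain ⟨C0, hC0, -, h2⟩ := c.exists_bound_T
  refine ⟨C0 * Real.exp (3 * c.be), ?_, ?_⟩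
  · have he : 1 ≤ Real.exp (3 * c.be) := Real.one_le_exp (by have := c.hbe; positivity)
    nlinarith
  · intro j x y w
    have h := bnd_core c.be C0 c.hbe hC0 c.T2 c.d2 h2 j x w y
    have h3 : ‖y - conj w‖ = ‖w - conj y‖ := by
      rw [← Complex.norm_conj (y - conj w), map_sub, Complex.conj_conj, norm_sub_rev]
    rw [h3] at h
    exact h

end Core

end Pool.Agent.ROH
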