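import Pool.Agent.ROH.BndF

/-!
ROH-BndS. Bounds for `nf`, from `exists_bound_F`, `exists_bound_H` and the triangle inequality.
-/

set_option autoImplicit false

namespace Pool.Agent.ROH

open Complex ComplexConjugate Finset

namespace Core

variable (c : Core)

theorem exists_bound_nf : ∃ C : ℝ, 1 ≤ C ∧ ∀ (K : ℕ) (p : ℕ → ℕ → ℂ) (x y w : ℂ),
    c.nf K p x y w ≤ C * ∑ k ∈ range K, ∑ j ∈ range K,
      ‖p k j‖ * (C * (Real.sqrt K + ‖w - conj y‖)) ^ (k + j) := by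
  obtain ⟨C1, h1, hF⟩ := c.exists_bound_F
  obtain ⟨C2, h2, hH⟩ := c.exists_bound_H
  set C0 : ℝ := max C1 C2 with hC0
  have hC1 : C1 ≤ C0 := le_max_left _ _
  have hC2 : C2 ≤ C0 := le_max_right _ _
  have h0 : 1 ≤ C0 := h1.trans hC1
  have hC : C0 ≤ C0 ^ 2 := by nlinarith
  refine ⟨C0 ^ 2, by nlinarith, fun K p x y w => ?_⟩
  set δ : ℝ := ‖w - conj y‖ with hδ
  have hδ0 : 0 ≤ δ := norm_nonneg _
  have hw1 : 0 ≤ c.w1 x y := (Real.exp_pos _).le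
  have hw2 : 0 ≤ c.w2 x w := (Real.exp_pos _).le
  have hK0 : 0 ≤ Real.sqrt K := Real.sqrt_nonneg _
  have hFb : ∀ k < K, ‖c.F k x y w‖ * c.w1 x y ≤ C0 * (C0 * (Real.sqrt K + δ)) ^ k := by
    intro k hk
    refine (hF k x y w).trans ?_
    have hs : Real.sqrt k ≤ Real.sqrt K := Real.sqrt_le_sqrt (by exact_mod_cast hk.le)
    have hk0 : 0 ≤ Real.sqrt k := Real.sqrt_nonneg _
    have hb : C1 * (Real.sqrt k + δ) ≤ C0 * (Real.sqrt K + δ) :=
      mul_le_mul hC1 (by linarith) (by linarith) (by linarith)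
    have hb0 : 0 ≤ C1 * (Real.sqrt k + δ) := mul_nonneg (by linarith) (by linarith)
    exact mul_le_mul hC1 (pow_le_pow_left₀ hb0 hb k) (pow_nonneg hb0 k) (by linarith)
  have hHb : ∀ j < K, ‖c.H j x y w‖ * c.w2 x w ≤ C0 * (C0 * (Real.sqrt K + δ)) ^ j := by
    intro j hj
    refine (hH j x y w).trans ?_
    have hs : Real.sqrt j ≤ Real.sqrt K := Real.sqrt_le_sqrt (by exact_mod_cast hj.le)
    have hj0 : 0 ≤ Real.sqrt j := Real.sqrt_nonneg _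
    have hb : C2 * (Real.sqrt j + δ) ≤ C0 * (Real.sqrt K + δ) :=
      mul_le_mul hC2 (by linarith) (by linarith) (by linarith)
    have hb0 : 0 ≤ C2 * (Real.sqrt j + δ) := mul_nonneg (by linarith) (by linarith)
    exact mul_le_mul hC2 (pow_le_pow_left₀ hb0 hb j) (pow_nonneg hb0 j) (by linarith)
  have hB : 0 ≤ C0 * (Real.sqrt K + δ) := mul_nonneg (by linarith) (by linarith)
  have hBB : C0 * (Real.sqrt K + δ) ≤ C0 ^ 2 * (Real.sqrt K + δ) :=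
    mul_le_mul_of_nonneg_right hC (by linarith)
  have hterm : ∀ k < K, ∀ j < K, ‖p k j * (c.F k x y w * c.H j x y w)‖ * (c.w1 x y * c.w2 x w) ≤
      C0 ^ 2 * (‖p k j‖ * (C0 ^ 2 * (Real.sqrt K + δ)) ^ (k + j)) := by
    intro k hk j hj
    rw [norm_mul, norm_mul]
    have h3 : ‖c.F k x y w‖ * c.w1 x y * (‖c.H j x y w‖ * c.w2 x w) ≤
        C0 * (C0 * (Real.sqrt K + δ)) ^ k * (C0 * (C0 * (Real.sqrt K + δ)) ^ j) :=
      mul_le_mul (hFb k hk) (hHb j hj) (mul_nonneg (norm_nonneg _) hw2)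
        (mul_nonneg (by linarith) (pow_nonneg hB k))
    have h4 : (C0 * (Real.sqrt K + δ)) ^ (k + j) ≤ (C0 ^ 2 * (Real.sqrt K + δ)) ^ (k + j) :=
      pow_le_pow_left₀ hB hBB _
    have h5 : C0 * (C0 * (Real.sqrt K + δ)) ^ k * (C0 * (C0 * (Real.sqrt K + δ)) ^ j) =
        C0 ^ 2 * (C0 * (Real.sqrt K + δ)) ^ (k + j) := by
      rw [pow_add]; ring
    rw [h5] at h3
    have h6 : ‖c.F k x y w‖ * c.w1 x y * (‖c.H j x y w‖ * c.w2 x w) ≤
        C0 ^ 2 * (C0 ^ 2 * (Real.sqrt K + δ)) ^ (k + j) :=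
      h3.trans (mul_le_mul_of_nonneg_left h4 (by positivity))
    have h7 := mul_le_mul_of_nonneg_left h6 (norm_nonneg (p k j))
    calc ‖p k j‖ * (‖c.F k x y w‖ * ‖c.H j x y w‖) * (c.w1 x y * c.w2 x w)
        = ‖p k j‖ * (‖c.F k x y w‖ * c.w1 x y * (‖c.H j x y w‖ * c.w2 x w)) := by ring
      _ ≤ ‖p k j‖ * (C0 ^ 2 * (C0 ^ 2 * (Real.sqrt K + δ)) ^ (k + j)) := h7
      _ = C0 ^ 2 * (‖p k j‖ * (C0 ^ 2 * (Real.sqrt K + δ)) ^ (k + j)) := by ring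
  unfold nf f
  have hW : 0 ≤ c.w1 x y * c.w2 x w := mul_nonneg hw1 hw2
  calc ‖∑ k ∈ range K, ∑ j ∈ range K, p k j * (c.F k x y w * c.H j x y w)‖ * (c.w1 x y * c.w2 x w)
      ≤ (∑ k ∈ range K, ∑ j ∈ range K, ‖p k j * (c.F k x y w * c.H j x y w)‖) *
          (c.w1 x y * c.w2 x w) := by
        refine mul_le_mul_of_nonneg_right ?_ hW
        refine (norm_sum_le _ _).trans (Finset.sum_le_sum fun k _ => norm_sum_le _ _)
    _ = ∑ k ∈ range K, ∑ j ∈ range K, ‖p k j * (c.F k x y w * c.H j x y w)‖ *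
          (c.w1 x y * c.w2 x w) := by
        rw [Finset.sum_mul]
        exact Finset.sum_congr rfl fun k _ => Finset.sum_mul _ _ _
    _ ≤ ∑ k ∈ range K, ∑ j ∈ range K, C0 ^ 2 *
          (‖p k j‖ * (C0 ^ 2 * (Real.sqrt K + δ)) ^ (k + j)) :=
        Finset.sum_le_sum fun k hk => Finset.sum_le_sum fun j hj =>
          hterm k (Finset.mem_range.1 hk) j (Finset.mem_range.1 hj)
    _ = C0 ^ 2 * ∑ k ∈ range K, ∑ j ∈ range K,
          ‖p k j‖ * (C0 ^ 2 * (Real.sqrt K + δ)) ^ (k + j) := by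
        rw [Finset.mul_sum]
        exact Finset.sum_congr rfl fun k _ => (Finset.mul_sum _ _ _).symm

theorem exists_bound_nf' : ∃ C : ℝ, 1 ≤ C ∧ ∀ (K : ℕ) (p : ℕ → ℕ → ℂ) (M : ℝ), 1 ≤ K →
    (∀ k < K, ∀ j < K, ‖p k j‖ ≤ M) → ∀ x y w : ℂ,
    c.nf K p x y w ≤ M * (C * (K + ‖w - conj y‖)) ^ (2 * K) := by
  obtain ⟨C, hC, h⟩ := c.exists_bound_nf
  refine ⟨2 * C ^ 2, by nlinarith, fun K p M hK hp x y w => ?_⟩
  set δ : ℝ := ‖w - conj y‖ with hδ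
  have hδ0 : 0 ≤ δ := norm_nonneg _
  have hK1 : (1 : ℝ) ≤ K := by exact_mod_cast hK
  have hM : 0 ≤ M := (norm_nonneg _).trans (hp 0 (by omega) 0 (by omega))
  have hsq : Real.sqrt K ≤ K := by
    rw [Real.sqrt_le_left (by linarith)]
    nlinarith
  have hs0 : 0 ≤ Real.sqrt K := Real.sqrt_nonneg _
  have hb1 : 1 ≤ C * (K + δ) := by nlinarith
  have hterm : ∀ k < K, ∀ j < K, ‖p k j‖ * (C * (Real.sqrt K + δ)) ^ (k + j) ≤
      M * (C * (K + δ)) ^ (2 * K) := by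
    intro k hk j hj
    refine mul_le_mul (hp k hk j hj) ?_ (pow_nonneg (mul_nonneg (by linarith) (by linarith)) _) hM
    calc (C * (Real.sqrt K + δ)) ^ (k + j) ≤ (C * (K + δ)) ^ (k + j) :=
          pow_le_pow_left₀ (mul_nonneg (by linarith) (by linarith))
            (mul_le_mul_of_nonneg_left (by linarith) (by linarith)) _
      _ ≤ (C * (K + δ)) ^ (2 * K) := pow_le_pow_right₀ hb1 (by omega)
  have hsum : ∑ k ∈ range K, ∑ j ∈ range K, ‖p k j‖ * (C * (Real.sqrt K + δ)) ^ (k + j) ≤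
      (K : ℝ) ^ 2 * (M * (C * (K + δ)) ^ (2 * K)) := by
    calc ∑ k ∈ range K, ∑ j ∈ range K, ‖p k j‖ * (C * (Real.sqrt K + δ)) ^ (k + j)
        ≤ ∑ _k ∈ range K, ∑ _j ∈ range K, M * (C * (K + δ)) ^ (2 * K) :=
          Finset.sum_le_sum fun k hk => Finset.sum_le_sum fun j hj =>
            hterm k (Finset.mem_range.1 hk) j (Finset.mem_range.1 hj)
      _ = (K : ℝ) ^ 2 * (M * (C * (K + δ)) ^ (2 * K)) := by
          simp only [Finset.sum_const, Finset.card_range, nsmul_eq_mul]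
          ring
  refine (h K p x y w).trans ?_
  have h2K : (K : ℝ) ≤ 2 ^ K := by exact_mod_cast (Nat.lt_two_pow_self (n := K)).le
  have hK2 : (K : ℝ) ^ 2 ≤ 2 ^ (2 * K) := by
    calc (K : ℝ) ^ 2 ≤ ((2 : ℝ) ^ K) ^ 2 := pow_le_pow_left₀ (by linarith) h2K 2
      _ = 2 ^ (2 * K) := by rw [← pow_mul, mul_comm]
  have hCC : C ≤ C ^ (2 * K) := by
    calc C = C ^ 1 := (pow_one C).symm
      _ ≤ C ^ (2 * K) := pow_le_pow_right₀ hC (by omega)
  have hprod : C * (K : ℝ) ^ 2 ≤ C ^ (2 * K) * 2 ^ (2 * K) :=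
    mul_le_mul hCC hK2 (by positivity) (by positivity)
  have hb0 : 0 ≤ M * (C * (K + δ)) ^ (2 * K) := mul_nonneg hM (by positivity)
  calc C * ∑ k ∈ range K, ∑ j ∈ range K, ‖p k j‖ * (C * (Real.sqrt K + δ)) ^ (k + j)
      ≤ C * ((K : ℝ) ^ 2 * (M * (C * (K + δ)) ^ (2 * K))) :=
        mul_le_mul_of_nonneg_left hsum (by linarith)
    _ = C * (K : ℝ) ^ 2 * (M * (C * (K + δ)) ^ (2 * K)) := by ring
    _ ≤ C ^ (2 * K) * 2 ^ (2 * K) * (M * (C * (K + δ)) ^ (2 * K)) :=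
        mul_le_mul_of_nonneg_right hprod hb0
    _ = M * (2 * C ^ 2 * (K + δ)) ^ (2 * K) := by
        have h9 : 2 * C ^ 2 * (K + δ) = C * 2 * (C * (K + δ)) := by ring
        rw [h9, mul_pow (C * 2), mul_pow C 2]
        ring

end Core

end Pool.Agent.ROH
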