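import Pool.Agent.ROH.Defs

/-!
ROH-BndT. `T1` and `T2` with their weights are bounded on `ℂ²`.
-/

set_option autoImplicit false

namespace Pool.Agent.ROH

open Complex ComplexConjugate Finset

namespace Core

variable (c : Core)

private theorem bndT_sq (x u : ℂ) : ‖x + u‖ ^ 2 = ‖x‖ ^ 2 + 2 * (conj u * x).re + ‖u‖ ^ 2 := by
  rw [← Complex.normSq_eq_norm_sq, ← Complex.normSq_eq_norm_sq, ← Complex.normSq_eq_norm_sq,
    Complex.normSq_apply, Complex.normSq_apply, Complex.normSq_apply]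
  simp only [Complex.add_re, Complex.add_im, Complex.mul_re, Complex.conj_re, Complex.conj_im]
  ring

private theorem bndT_re (a : ℝ) (z : ℂ) : ((2 : ℂ) * (a : ℂ) * z).re = 2 * a * z.re := by
  simp [Complex.mul_re]

theorem T1_inv (u : ℂ × ℂ) (hu : u ∈ c.O) (x y : ℂ) :
    ‖c.T1 (x + u.1, y + u.2)‖ * c.w1 (x + u.1) (y + u.2) = ‖c.T1 (x, y)‖ * c.w1 x y := by
  obtain ⟨e, he, h⟩ := c.q1 u hu
  rw [h x y, norm_mul, norm_mul, he, Complex.norm_exp, bndT_re]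
  unfold w1
  rw [bndT_sq, bndT_sq]
  have key : Real.exp (c.al * (‖u.1‖ ^ 2 + ‖u.2‖ ^ 2)) *
      Real.exp (2 * c.al * (conj u.1 * x + conj u.2 * y).re) *
      Real.exp (-(c.al * (‖x‖ ^ 2 + 2 * (conj u.1 * x).re + ‖u.1‖ ^ 2 +
        (‖y‖ ^ 2 + 2 * (conj u.2 * y).re + ‖u.2‖ ^ 2)))) =
      Real.exp (-(c.al * (‖x‖ ^ 2 + ‖y‖ ^ 2))) := by
    rw [← Real.exp_add, ← Real.exp_add]
    congr 1
    rw [Complex.add_re]
    ring
  rw [← key]
  ring

theorem T2_inv (u : ℂ × ℂ) (hu : u ∈ c.O) (x w : ℂ) :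
    ‖c.T2 (x + u.1, w + conj u.2)‖ * c.w2 (x + u.1) (w + conj u.2) = ‖c.T2 (x, w)‖ * c.w2 x w := by
  obtain ⟨e, he, h⟩ := c.q2 u hu
  rw [h x w, norm_mul, norm_mul, he, Complex.norm_exp, bndT_re]
  unfold w2
  rw [bndT_sq, bndT_sq, Complex.norm_conj, Complex.conj_conj]
  have key : Real.exp (c.be * (‖u.1‖ ^ 2 + ‖u.2‖ ^ 2)) *
      Real.exp (2 * c.be * (conj u.1 * x + u.2 * w).re) *
      Real.exp (-(c.be * (‖x‖ ^ 2 + 2 * (conj u.1 * x).re + ‖u.1‖ ^ 2 +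
        (‖w‖ ^ 2 + 2 * (u.2 * w).re + ‖u.2‖ ^ 2)))) =
      Real.exp (-(c.be * (‖x‖ ^ 2 + ‖w‖ ^ 2))) := by
    rw [← Real.exp_add, ← Real.exp_add]
    congr 1
    rw [Complex.add_re]
    ring
  rw [← key]
  ring

theorem exists_bound_T : ∃ C : ℝ, 1 ≤ C ∧ (∀ x y : ℂ, ‖c.T1 (x, y)‖ * c.w1 x y ≤ C) ∧
    ∀ x w : ℂ, ‖c.T2 (x, w)‖ * c.w2 x w ≤ C := by
  obtain ⟨C0, hC0, hcov⟩ := c.cov
  have hR : 0 < Real.sqrt C0 := Real.sqrt_pos.2 hC0
  have hcov' := hcov (Real.sqrt C0) (Real.sqrt C0) hR hR (Real.mul_self_sqrt hC0.le).ge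
  have hK : IsCompact (Metric.closedBall (0 : ℂ) (Real.sqrt C0) ×ˢ
      Metric.closedBall (0 : ℂ) (Real.sqrt C0)) :=
    (isCompact_closedBall _ _).prod (isCompact_closedBall _ _)
  have hw1 : Continuous fun z : ℂ × ℂ => c.w1 z.1 z.2 := by
    unfold w1
    fun_prop
  have hw2 : Continuous fun z : ℂ × ℂ => c.w2 z.1 z.2 := by
    unfold w2
    fun_prop
  obtain ⟨C1, h1⟩ := hK.exists_bound_of_continuousOn
    (f := fun z : ℂ × ℂ => ‖c.T1 z‖ * c.w1 z.1 z.2) (c.d1.continuous.norm.mul hw1).continuousOn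
  obtain ⟨C2, h2⟩ := hK.exists_bound_of_continuousOn
    (f := fun z : ℂ × ℂ => ‖c.T2 z‖ * c.w2 z.1 z.2) (c.d2.continuous.norm.mul hw2).continuousOn
  refine ⟨max 1 (max C1 C2), le_max_left _ _, ?_, ?_⟩
  · intro x y
    obtain ⟨u, hu, hx, hy⟩ := hcov' x y
    have h3 := c.T1_inv u hu (x - u.1) (y - u.2)
    rw [sub_add_cancel, sub_add_cancel] at h3
    rw [h3]
    have h4 := h1 (x - u.1, y - u.2) ⟨by simpa using hx, by simpa using hy⟩
    exact ((le_abs_self _).trans h4).trans ((le_max_left _ _).trans (le_max_right _ _))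
  · intro x w
    obtain ⟨u, hu, hx, hy⟩ := hcov' x (conj w)
    have h3 := c.T2_inv u hu (x - u.1) (w - conj u.2)
    rw [sub_add_cancel, sub_add_cancel] at h3
    rw [h3]
    have hw : ‖w - conj u.2‖ ≤ Real.sqrt C0 := by
      have h5 : w - conj u.2 = conj (conj w - u.2) := by
        rw [map_sub, Complex.conj_conj]
      rw [h5, Complex.norm_conj]
      exact hy
    have h4 := h2 (x - u.1, w - conj u.2) ⟨by simpa using hx, by simpa using hw⟩
    exact ((le_abs_self _).trans h4).trans ((le_max_right _ _).trans (le_max_right _ _))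

end Core

end Pool.Agent.ROH
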