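import Pool.Agent.ROH.TDefs

/-!
ROH-Low3. A point where both theta functions are not small, uniformly in `d` (end of section 5).

Take `y = 0`. Put `ν_i(z) = ‖S_i z‖ exp(-κ_i ‖z‖²/2)`: continuous and periodic under the lattice of `S_i` (from `QP.per`).
Since `‖A‖² + 3‖B‖² = (‖x‖²+‖w‖²)/2` for `A = (x+w)/2`, `B = (x-w)/(2√3)`, the quantity is
`ν1(x/2) ν1(x/(2√3))³ ν2(x/2 + β) ν2(x/(2√3) - β/√3)³`, `β = d/2`; write it as `Ψ(x, β1, β2)`, `β1 = d/2`, `β2 = -d/(2√3)`, with `β1`, `β2`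
independent: periodic in `β1` and in `β2` under `ℤ + ℤ√3 i`. For every `(β1, β2)` there is a real `x ∈ [0,1]` with
`Ψ > 0`: the four functions `x ↦ S_1(x/2)`, ..., are entire and not identically zero (`QP.ne`), so the set of their zeros in
`[0,1]` is finite (or: the product is a nonzero analytic function, `AnalyticOnNhd.eqOn_zero_or_...`, it cannot vanish on a segment).
By continuity `Ψ(x, ·) > c` on a neighbourhood of `(β1,β2)`; the compact set of `(β1, β2)` with `β1, β2 ∈ {s + t √3 i : s,t ∈ [0,1]}`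
is covered by finitely many such neighbourhoods; `c0` = the minimum of the corresponding `c`; periodicity does the rest.
-/

set_option autoImplicit false

namespace Pool.Agent.ROH

open Complex ComplexConjugate Finset

private noncomputable def nu (S : ℂ → ℂ) (κ : ℝ) (z : ℂ) : ℝ := ‖S z‖ * Real.exp (-(κ / 2 * ‖z‖ ^ 2))

private theorem nu_per {S : ℂ → ℂ} {κ : ℝ} {τ : ℂ} (h : QP S κ τ) (a b : ℤ) (z : ℂ) :
    nu S κ (z + (a + b * τ)) = nu S κ z := by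
  obtain ⟨e, he, hz⟩ := h.per a b
  have h1 : ‖z + (a + b * τ)‖ ^ 2 = ‖z‖ ^ 2 + ‖(a + b * τ : ℂ)‖ ^ 2 + 2 * (conj (a + b * τ : ℂ) * z).re := by
    rw [Complex.sq_norm, Complex.sq_norm, Complex.sq_norm, Complex.normSq_add, mul_comm z]
  unfold nu
  rw [hz z, norm_mul, norm_mul, he, one_mul, Complex.norm_exp, h1]
  have h2 : ((κ : ℂ) * (conj (a + b * τ : ℂ) * z) + κ * (‖(a + b * τ : ℂ)‖ : ℂ) ^ 2 / 2).re =
      κ * (conj (a + b * τ : ℂ) * z).re + κ * ‖(a + b * τ : ℂ)‖ ^ 2 / 2 := by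
    rw [Complex.add_re, Complex.re_ofReal_mul]
    congr 1
    have h3 : ((κ : ℂ) * (‖(a + b * τ : ℂ)‖ : ℂ) ^ 2 / 2) = ((κ * ‖(a + b * τ : ℂ)‖ ^ 2 / 2 : ℝ) : ℂ) := by
      push_cast
      ring
    rw [h3, ofReal_re]
  rw [h2, mul_right_comm, ← Real.exp_add, mul_comm]
  congr 2
  ring

private theorem nu_cont {S : ℂ → ℂ} {κ : ℝ} {τ : ℂ} (h : QP S κ τ) : Continuous (nu S κ) := by
  unfold nu
  have h1 := h.diff.continuous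
  fun_prop

private theorem nu_pos {S : ℂ → ℂ} {κ : ℝ} {z : ℂ} (h : S z ≠ 0) : 0 < nu S κ z :=
  mul_pos (norm_pos_iff.2 h) (Real.exp_pos _)

private theorem nu_nonneg {S : ℂ → ℂ} {κ : ℝ} {z : ℂ} : 0 ≤ nu S κ z :=
  mul_nonneg (norm_nonneg _) (Real.exp_pos _).le

private noncomputable def Psi (S1 S2 : ℂ → ℂ) (κ1 κ2 : ℝ) (x : ℂ) (b : ℂ × ℂ) : ℝ :=
  nu S1 κ1 (x / 2) * nu S1 κ1 (x / (2 * r3)) ^ 3 * (nu S2 κ2 (x / 2 + b.1) * nu S2 κ2 (x / (2 * r3) + b.2) ^ 3)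

/-- an entire function which is not identically zero has no zero in a punctured neighbourhood of `0` -/
private theorem ev_ne {f : ℂ → ℂ} (hf : Differentiable ℂ f) {z : ℂ} (hz : f z ≠ 0) :
    ∀ᶠ x in nhdsWithin (0 : ℂ) {0}ᶜ, f x ≠ 0 := by
  have ha : AnalyticOnNhd ℂ f Set.univ := fun z _ => hf.analyticAt z
  rcases (ha 0 trivial).eventually_eq_zero_or_eventually_ne_zero with h | h
  · exfalso
    have h1 : f = 0 := by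
      refine AnalyticOnNhd.eq_of_eventuallyEq (z₀ := 0) ha (fun z _ => analyticAt_const) h
    exact hz (congrFun h1 z)
  · exact h

private theorem psi_pos {S1 S2 : ℂ → ℂ} {κ1 κ2 : ℝ} {τ1 τ2 : ℂ} (h1 : QP S1 κ1 τ1) (h2 : QP S2 κ2 τ2) (b : ℂ × ℂ) :
    ∃ x : ℂ, 0 < Psi S1 S2 κ1 κ2 x b := by
  obtain ⟨z1, hz1⟩ := h1.ne
  obtain ⟨z2, hz2⟩ := h2.ne
  have h3n := r3_ne
  have d1 := h1.diff
  have d2 := h2.diff
  have e1 : ∀ᶠ x in nhdsWithin (0 : ℂ) {0}ᶜ, S1 (x / 2) ≠ 0 :=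
    ev_ne (f := fun x => S1 (x / 2)) (by fun_prop) (z := 2 * z1) (by
      show S1 (2 * z1 / 2) ≠ 0
      rwa [mul_div_cancel_left₀ _ two_ne_zero])
  have e2 : ∀ᶠ x in nhdsWithin (0 : ℂ) {0}ᶜ, S1 (x / (2 * r3)) ≠ 0 :=
    ev_ne (f := fun x => S1 (x / (2 * r3))) (by fun_prop) (z := 2 * r3 * z1) (by
      show S1 (2 * r3 * z1 / (2 * r3)) ≠ 0
      rwa [mul_div_cancel_left₀ _ (mul_ne_zero two_ne_zero h3n)])
  have e3 : ∀ᶠ x in nhdsWithin (0 : ℂ) {0}ᶜ, S2 (x / 2 + b.1) ≠ 0 :=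
    ev_ne (f := fun x => S2 (x / 2 + b.1)) (by fun_prop) (z := 2 * (z2 - b.1)) (by
      show S2 (2 * (z2 - b.1) / 2 + b.1) ≠ 0
      rwa [mul_div_cancel_left₀ _ two_ne_zero, sub_add_cancel])
  have e4 : ∀ᶠ x in nhdsWithin (0 : ℂ) {0}ᶜ, S2 (x / (2 * r3) + b.2) ≠ 0 :=
    ev_ne (f := fun x => S2 (x / (2 * r3) + b.2)) (by fun_prop) (z := 2 * r3 * (z2 - b.2)) (by
      show S2 (2 * r3 * (z2 - b.2) / (2 * r3) + b.2) ≠ 0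
      rwa [mul_div_cancel_left₀ _ (mul_ne_zero two_ne_zero h3n), sub_add_cancel])
  obtain ⟨x, hx1, hx2, hx3, hx4⟩ := (e1.and (e2.and (e3.and e4))).exists
  exact ⟨x, mul_pos (mul_pos (nu_pos hx1) (pow_pos (nu_pos hx2) 3)) (mul_pos (nu_pos hx3) (pow_pos (nu_pos hx4) 3))⟩

private theorem psi_cpt {S1 S2 : ℂ → ℂ} {κ1 κ2 : ℝ} {τ1 τ2 : ℂ} (h1 : QP S1 κ1 τ1) (h2 : QP S2 κ2 τ2)
    {s : Set (ℂ × ℂ)} (hs : IsCompact s) : ∃ c : ℝ, 0 < c ∧ ∀ b ∈ s, ∃ x : ℂ, c ≤ Psi S1 S2 κ1 κ2 x b := by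
  refine hs.induction_on (p := fun s => ∃ c : ℝ, 0 < c ∧ ∀ b ∈ s, ∃ x : ℂ, c ≤ Psi S1 S2 κ1 κ2 x b) ?_ ?_ ?_ ?_
  · exact ⟨1, one_pos, fun b hb => absurd hb (Set.notMem_empty b)⟩
  · rintro s t hst ⟨c, hc, h⟩
    exact ⟨c, hc, fun b hb => h b (hst hb)⟩
  · rintro s t ⟨c, hc, h⟩ ⟨c', hc', h'⟩
    refine ⟨min c c', lt_min hc hc', fun b hb => ?_⟩
    rcases hb with hb | hb
    · obtain ⟨x, hx⟩ := h b hb
      exact ⟨x, (min_le_left _ _).trans hx⟩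
    · obtain ⟨x, hx⟩ := h' b hb
      exact ⟨x, (min_le_right _ _).trans hx⟩
  · intro b _
    obtain ⟨x, hx⟩ := psi_pos (κ1 := κ1) (κ2 := κ2) h1 h2 b
    have hc : Continuous (Psi S1 S2 κ1 κ2 x) := by
      have c1 := nu_cont h2
      unfold Psi
      fun_prop
    have h3 : {b' | Psi S1 S2 κ1 κ2 x b / 2 < Psi S1 S2 κ1 κ2 x b'} ∈ nhds b :=
      (isOpen_lt continuous_const hc).mem_nhds (half_lt_self hx)
    exact ⟨_, mem_nhdsWithin_of_mem_nhds h3, Psi S1 S2 κ1 κ2 x b / 2, half_pos hx, fun b' hb' => ⟨x, le_of_lt hb'⟩⟩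

private theorem reduce (b : ℂ) : ∃ (m n : ℤ) (b' : ℂ), b' ∈ Set.Icc (0 : ℝ) 1 ×ℂ Set.Icc 0 (Real.sqrt 3) ∧
    b = b' + (m + n * (r3 * I)) := by
  have h3 : 0 < Real.sqrt 3 := Real.sqrt_pos.2 (by norm_num)
  refine ⟨⌊b.re⌋, ⌊b.im / Real.sqrt 3⌋, b - (⌊b.re⌋ + ⌊b.im / Real.sqrt 3⌋ * (r3 * I)), ?_, by ring⟩
  have hre : (b - (⌊b.re⌋ + ⌊b.im / Real.sqrt 3⌋ * (r3 * I))).re = b.re - ⌊b.re⌋ := by
    simp [r3]
  have him : (b - (⌊b.re⌋ + ⌊b.im / Real.sqrt 3⌋ * (r3 * I))).im =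
      (b.im / Real.sqrt 3 - ⌊b.im / Real.sqrt 3⌋) * Real.sqrt 3 := by
    have h5 : (b - (⌊b.re⌋ + ⌊b.im / Real.sqrt 3⌋ * (r3 * I))).im =
        b.im - ⌊b.im / Real.sqrt 3⌋ * Real.sqrt 3 := by
      simp [r3]
    rw [h5, sub_mul, div_mul_cancel₀ _ h3.ne']
  rw [Complex.mem_reProdIm, hre, him]
  have f1 := Int.fract_nonneg b.re
  have f2 := (Int.fract_lt_one b.re).le
  have f3 := Int.fract_nonneg (b.im / Real.sqrt 3)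
  have f4 := (Int.fract_lt_one (b.im / Real.sqrt 3)).le
  unfold Int.fract at f1 f2 f3 f4
  refine ⟨⟨f1, f2⟩, mul_nonneg f3 h3.le, ?_⟩
  calc _ ≤ 1 * Real.sqrt 3 := mul_le_mul_of_nonneg_right f4 h3.le
    _ = _ := one_mul _

private theorem nu_prod {S1 S2 : ℂ → ℂ} {κ1 κ2 : ℝ} (x d : ℂ) :
    Psi S1 S2 κ1 κ2 x (d / 2, -(d / (2 * r3))) = ‖TT S1 (x, 0)‖ * ‖TT S2 (x, conj 0 + d)‖ *
      Real.exp (-(κ1 / 4 * (‖x‖ ^ 2 + ‖(0 : ℂ)‖ ^ 2) + κ2 / 4 * (‖x‖ ^ 2 + ‖conj 0 + d‖ ^ 2))) := by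
  have h3n := r3_ne
  have hr : ‖r3‖ ^ 2 = 3 := by
    rw [← norm_pow, r3_sq]
    norm_num
  have hp : ‖x + d‖ ^ 2 + ‖x - d‖ ^ 2 = 2 * (‖x‖ ^ 2 + ‖d‖ ^ 2) := by
    have := parallelogram_law_with_norm ℝ x d
    nlinarith [this]
  have e1 : x / 2 + d / 2 = (x + d) / 2 := by ring
  have e2 : x / (2 * r3) + -(d / (2 * r3)) = (x - d) / (2 * r3) := by ring
  simp only [Psi, nu, TT, e1, e2, map_zero, zero_add, add_zero, sub_zero, norm_zero]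
  have n1 : ‖x / 2‖ ^ 2 = ‖x‖ ^ 2 / 4 := by
    rw [norm_div, div_pow]
    norm_num
  have n2 : ‖x / (2 * r3)‖ ^ 2 = ‖x‖ ^ 2 / 12 := by
    rw [norm_div, norm_mul, div_pow, mul_pow, hr]
    norm_num
  have n3 : ‖(x + d) / 2‖ ^ 2 = ‖x + d‖ ^ 2 / 4 := by
    rw [norm_div, div_pow]
    norm_num
  have n4 : ‖(x - d) / (2 * r3)‖ ^ 2 = ‖x - d‖ ^ 2 / 12 := by
    rw [norm_div, norm_mul, div_pow, mul_pow, hr]
    norm_num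
  rw [n1, n2, n3, n4]
  have hexp : Real.exp (-(κ1 / 4 * (‖x‖ ^ 2 + 0 ^ 2) + κ2 / 4 * (‖x‖ ^ 2 + ‖d‖ ^ 2))) =
      Real.exp (-(κ1 / 2 * (‖x‖ ^ 2 / 4))) * Real.exp (-(κ1 / 2 * (‖x‖ ^ 2 / 12))) ^ 3 *
        (Real.exp (-(κ2 / 2 * (‖x + d‖ ^ 2 / 4))) * Real.exp (-(κ2 / 2 * (‖x - d‖ ^ 2 / 12))) ^ 3) := by
    rw [← Real.exp_nat_mul, ← Real.exp_nat_mul, ← Real.exp_add, ← Real.exp_add, ← Real.exp_add]
    congr 1
    push_cast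
    linear_combination (κ2 / 8) * hp
  rw [hexp, norm_mul, norm_mul, norm_pow, norm_pow]
  ring

theorem low3 {S1 S2 : ℂ → ℂ} {κ1 κ2 : ℝ} (h1 : QP S1 κ1 I) (h2 : QP S2 κ2 (r3 * I)) :
    ∃ c0 : ℝ, 0 < c0 ∧ ∀ d : ℂ, ∃ x y : ℂ, c0 ≤ ‖TT S1 (x, y)‖ * ‖TT S2 (x, conj y + d)‖ *
      Real.exp (-(κ1 / 4 * (‖x‖ ^ 2 + ‖y‖ ^ 2) + κ2 / 4 * (‖x‖ ^ 2 + ‖conj y + d‖ ^ 2))) := by
  have hK : IsCompact (Set.Icc (0 : ℝ) 1 ×ℂ Set.Icc 0 (Real.sqrt 3)) := isCompact_Icc.reProdIm isCompact_Icc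
  obtain ⟨c0, hc0, hc⟩ := psi_cpt (κ1 := κ1) (κ2 := κ2) h1 h2 (hK.prod hK)
  refine ⟨c0, hc0, fun d => ?_⟩
  obtain ⟨m, n, b1, hb1, e1⟩ := reduce (d / 2)
  obtain ⟨m', n', b2, hb2, e2⟩ := reduce (-(d / (2 * r3)))
  obtain ⟨x, hx⟩ := hc (b1, b2) ⟨hb1, hb2⟩
  refine ⟨x, 0, ?_⟩
  rw [← nu_prod]
  refine hx.trans_eq ?_
  simp only [Psi]
  have t1 : x / 2 + (b1 + (m + n * (r3 * I))) = x / 2 + b1 + (m + n * (r3 * I)) := by ring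
  have t2 : x / (2 * r3) + (b2 + (m' + n' * (r3 * I))) = x / (2 * r3) + b2 + (m' + n' * (r3 * I)) := by ring
  rw [e1, e2, t1, t2, nu_per h2, nu_per h2]

end Pool.Agent.ROH
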