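import Pool.Agent.ROH.TDefs

/-!
ROH-QT. Quasi-periodicity of `TT S` (section 1).

For the lattice `ℤ + ℤ i`: with `u = uv n1 n2 n3 n4`, `A = n1 + 3 n4 i`, `B = n2 + n3 i`:
`(x + u_x + y + u_y)/2 = (x+y)/2 + A`, `(x + u_x - y - u_y)/(2√3) = (x-y)/(2√3) + B`. Apply `h.per n1 (3 n4)` and `h.per n2 n3` (the
latter to the third power). Exponents: `κ (conj A (x+y)/2 + 3 conj B (x-y)/(2√3)) = (κ/2)(conj u_x x + conj u_y y)` because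
`conj u_x = conj A + √3 conj B`, `conj u_y = conj A - √3 conj B`, `3/√3 = √3`; constants: `κ (‖A‖² + 3 ‖B‖²)/2 = (κ/4)(‖u_x‖² + ‖u_y‖²)`
(parallelogram law). `e = e_A e_B³ exp((κ/4)(‖u_x‖²+‖u_y‖²))`.
For the lattice `ℤ + ℤ √3 i` the same with `A' = n1 + n3 √3 i`, `B' = n2 + n4 √3 i`, `u_x = A' + √3 B'`, `conj u_y = A' - √3 B'`
(`uv_fst`, `conj_uv`), and `conj(conj u_y) = u_y`.
-/

set_option autoImplicit false

namespace Pool.Agent.ROH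

open Complex ComplexConjugate Finset

private theorem qt_gen {S : ℂ → ℂ} {κ : ℝ} {A B eA eB : ℂ} (hA1 : ‖eA‖ = 1) (hB1 : ‖eB‖ = 1)
    (hA : ∀ z : ℂ, S (z + A) = eA * cexp (κ * (conj A * z) + κ * (‖A‖ : ℂ) ^ 2 / 2) * S z)
    (hB : ∀ z : ℂ, S (z + B) = eB * cexp (κ * (conj B * z) + κ * (‖B‖ : ℂ) ^ 2 / 2) * S z)
    {p q : ℂ} (hp : p = A + r3 * B) (hq : q = A - r3 * B) :
    ∃ e : ℂ, ‖e‖ = Real.exp (κ / 4 * (‖p‖ ^ 2 + ‖q‖ ^ 2)) ∧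
      ∀ x y : ℂ, TT S (x + p, y + q) =
        e * cexp (2 * ((κ / 4 : ℝ) : ℂ) * (conj p * x + conj q * y)) * TT S (x, y) := by
  have h3 := r3_sq
  have h3n := r3_ne
  refine ⟨eA * eB ^ 3 * cexp (((κ / 4 * (‖p‖ ^ 2 + ‖q‖ ^ 2) : ℝ)) : ℂ), ?_, ?_⟩
  · rw [norm_mul, norm_mul, norm_pow, hA1, hB1, one_pow, one_mul, one_mul, Complex.norm_exp, ofReal_re]
  · intro x y
    simp only [TT]
    have e1 : (x + p + (y + q)) / 2 = (x + y) / 2 + A := by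
      rw [hp, hq]
      ring
    have e2 : (x + p - (y + q)) / (2 * r3) = (x - y) / (2 * r3) + B := by
      rw [hp, hq]
      field_simp
      ring
    rw [e1, e2, hA, hB]
    have e3 : cexp (κ * (conj A * ((x + y) / 2)) + κ * (‖A‖ : ℂ) ^ 2 / 2) *
        cexp (κ * (conj B * ((x - y) / (2 * r3))) + κ * (‖B‖ : ℂ) ^ 2 / 2) ^ 3 =
        cexp (((κ / 4 * (‖p‖ ^ 2 + ‖q‖ ^ 2) : ℝ)) : ℂ) *
          cexp (2 * ((κ / 4 : ℝ) : ℂ) * (conj p * x + conj q * y)) := by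
      rw [← Complex.exp_nat_mul, ← Complex.exp_add, ← Complex.exp_add]
      congr 1
      have hnA : (‖A‖ : ℂ) ^ 2 = A * conj A := (Complex.mul_conj' A).symm
      have hnB : (‖B‖ : ℂ) ^ 2 = B * conj B := (Complex.mul_conj' B).symm
      have hnp : (‖p‖ : ℂ) ^ 2 = p * conj p := (Complex.mul_conj' p).symm
      have hnq : (‖q‖ : ℂ) ^ 2 = q * conj q := (Complex.mul_conj' q).symm
      have hcp : conj p = conj A + r3 * conj B := by rw [hp, map_add, map_mul, conj_r3]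
      have hcq : conj q = conj A - r3 * conj B := by rw [hq, map_sub, map_mul, conj_r3]
      have h4 : (x - y) / (2 * r3) = r3 * (x - y) / 6 := by
        rw [div_eq_div_iff (mul_ne_zero two_ne_zero h3n) (by norm_num)]
        linear_combination (-2 * (x - y)) * h3
      push_cast
      rw [hnA, hnB, hnp, hnq, hcp, hcq, hp, hq, h4]
      linear_combination (-(κ : ℂ) / 2 * B * conj B) * h3
    linear_combination (eA * eB ^ 3 * (S ((x + y) / 2) * S ((x - y) / (2 * r3)) ^ 3)) * e3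

theorem TT_qp_i {S : ℂ → ℂ} {κ : ℝ} (h : QP S κ I) (n1 n2 n3 n4 : ℤ) :
    ∃ e : ℂ, ‖e‖ = Real.exp (κ / 4 * (‖(uv n1 n2 n3 n4).1‖ ^ 2 + ‖(uv n1 n2 n3 n4).2‖ ^ 2)) ∧
      ∀ x y : ℂ, TT S (x + (uv n1 n2 n3 n4).1, y + (uv n1 n2 n3 n4).2) =
        e * cexp (2 * ((κ / 4 : ℝ) : ℂ) *
          (conj (uv n1 n2 n3 n4).1 * x + conj (uv n1 n2 n3 n4).2 * y)) * TT S (x, y) := by
  obtain ⟨eA, hA1, hA⟩ := h.per n1 (3 * n4)
  obtain ⟨eB, hB1, hB⟩ := h.per n2 n3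
  refine qt_gen hA1 hB1 hA hB ?_ ?_
  · simp only [uv]
    push_cast
    ring
  · simp only [uv]
    push_cast
    ring

theorem TT_qp_r {S : ℂ → ℂ} {κ : ℝ} (h : QP S κ (r3 * I)) (n1 n2 n3 n4 : ℤ) :
    ∃ e : ℂ, ‖e‖ = Real.exp (κ / 4 * (‖(uv n1 n2 n3 n4).1‖ ^ 2 + ‖(uv n1 n2 n3 n4).2‖ ^ 2)) ∧
      ∀ x w : ℂ, TT S (x + (uv n1 n2 n3 n4).1, w + conj (uv n1 n2 n3 n4).2) =
        e * cexp (2 * ((κ / 4 : ℝ) : ℂ) *
          (conj (uv n1 n2 n3 n4).1 * x + (uv n1 n2 n3 n4).2 * w)) * TT S (x, w) := by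
  obtain ⟨eA, hA1, hA⟩ := h.per n1 n3
  obtain ⟨eB, hB1, hB⟩ := h.per n2 n4
  have h1 := qt_gen hA1 hB1 hA hB (uv_fst n1 n2 n3 n4) (conj_uv n1 n2 n3 n4)
  rw [Complex.conj_conj, Complex.norm_conj] at h1
  exact h1

end Pool.Agent.ROH
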