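import Pool.Agent.ROH.TDefs

/-!
ROH-Cov3. Covering property of the lattice `O` (section 1): if `R r ≥ C0` every `(x, y)` has a lattice vector
`u = uv n1 n2 n3 n4` with `‖x - u_x‖ ≤ R`, `‖y - u_y‖ ≤ r`.

Step 1. There is `C` such that every `(x, y)` has `u` with both distances `≤ C`: put `A = (x+y)/2`, `B = (x-y)/(2√3)`; choose
`n1 + 3 n4 i` near `A` (distance `≤ 2`), `n2 + n3 i` near `B` (distance `≤ 1`), by rounding; `C = 2 + √3`.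
Step 2. Units. `ε = 2 + √3`, `ε⁻¹ = 2 - √3`. If `u = uv n1 n2 n3 n4` then `(ε u_x, ε⁻¹ u_y)` and `(ε⁻¹ u_x, ε u_y)` are again
lattice vectors (e.g. `A ↦ 2A + 3B`, `B ↦ A + 2B`: `n1 ↦ 2 n1 + 3 n2`, `n4 ↦ 2 n4 + n3`, `n2 ↦ n1 + 2 n2`, `n3 ↦ 3 n4 + 2 n3`;
inverse `A ↦ 2A - 3B`, `B ↦ -A + 2B`). By induction `(ε^n u_x, ε^(-n) u_y)` for all `n : ℤ`.
Step 3. Given `R r ≥ C0 := C² ε`: choose `n : ℤ` with `C ε^n ≤ R < C ε^(n+1)` (`exists_mem_Ico_zpow`/`exists_zpow_near`), apply Step 1 to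
`(ε^(-n) x, ε^n y)` and multiply back: distances `≤ C ε^n ≤ R` and `≤ C ε^(-n) ≤ C² ε/R ≤ r`.
-/

set_option autoImplicit false

namespace Pool.Agent.ROH

open Complex ComplexConjugate Finset

private theorem cv_r3 : Real.sqrt 3 ^ 2 = 3 := Real.sq_sqrt (by norm_num)

private theorem cv_r3_le : Real.sqrt 3 ≤ 2 := by
  have h1 := cv_r3
  have h2 := Real.sqrt_nonneg 3
  nlinarith

private theorem cv_eps : (1 : ℝ) < 2 + Real.sqrt 3 := by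
  have h2 := Real.sqrt_nonneg 3
  linarith

private theorem cv_inv : ((2 : ℝ) + Real.sqrt 3)⁻¹ = 2 - Real.sqrt 3 := by
  have h1 := cv_r3
  have h2 := cv_eps
  rw [inv_eq_one_div, div_eq_iff (by linarith)]
  linarith

/-- one step with the unit -/
private theorem cv_up (n1 n2 n3 n4 : ℤ) : ∃ m1 m2 m3 m4 : ℤ,
    (uv m1 m2 m3 m4).1 = (((2 : ℝ) + Real.sqrt 3 : ℝ) : ℂ) * (uv n1 n2 n3 n4).1 ∧
    (uv m1 m2 m3 m4).2 = (((2 : ℝ) - Real.sqrt 3 : ℝ) : ℂ) * (uv n1 n2 n3 n4).2 := by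
  refine ⟨2 * n1 + 3 * n2, n1 + 2 * n2, 3 * n4 + 2 * n3, 2 * n4 + n3, ?_, ?_⟩
  · have h := r3_sq
    have h' : (((2 : ℝ) + Real.sqrt 3 : ℝ) : ℂ) = 2 + r3 := by rw [r3]; push_cast; ring
    rw [h']
    simp only [uv]
    push_cast
    linear_combination (-((n2 : ℂ) + n3 * I)) * h
  · have h := r3_sq
    have h' : (((2 : ℝ) - Real.sqrt 3 : ℝ) : ℂ) = 2 - r3 := by rw [r3]; push_cast; ring
    rw [h']
    simp only [uv]
    push_cast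
    linear_combination (-((n2 : ℂ) + n3 * I)) * h

private theorem cv_dn (n1 n2 n3 n4 : ℤ) : ∃ m1 m2 m3 m4 : ℤ,
    (uv m1 m2 m3 m4).1 = (((2 : ℝ) - Real.sqrt 3 : ℝ) : ℂ) * (uv n1 n2 n3 n4).1 ∧
    (uv m1 m2 m3 m4).2 = (((2 : ℝ) + Real.sqrt 3 : ℝ) : ℂ) * (uv n1 n2 n3 n4).2 := by
  refine ⟨2 * n1 - 3 * n2, -n1 + 2 * n2, -3 * n4 + 2 * n3, 2 * n4 - n3, ?_, ?_⟩
  · have h := r3_sq
    have h' : (((2 : ℝ) - Real.sqrt 3 : ℝ) : ℂ) = 2 - r3 := by rw [r3]; push_cast; ring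
    rw [h']
    simp only [uv]
    push_cast
    linear_combination ((n2 : ℂ) + n3 * I) * h
  · have h := r3_sq
    have h' : (((2 : ℝ) + Real.sqrt 3 : ℝ) : ℂ) = 2 + r3 := by rw [r3]; push_cast; ring
    rw [h']
    simp only [uv]
    push_cast
    linear_combination ((n2 : ℂ) + n3 * I) * h

private theorem cv_upn (k : ℕ) : ∀ n1 n2 n3 n4 : ℤ, ∃ m1 m2 m3 m4 : ℤ,
    (uv m1 m2 m3 m4).1 = ((((2 : ℝ) + Real.sqrt 3) ^ k : ℝ) : ℂ) * (uv n1 n2 n3 n4).1 ∧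
    (uv m1 m2 m3 m4).2 = ((((2 : ℝ) - Real.sqrt 3) ^ k : ℝ) : ℂ) * (uv n1 n2 n3 n4).2 := by
  induction k with
  | zero =>
    intro n1 n2 n3 n4
    exact ⟨n1, n2, n3, n4, by simp, by simp⟩
  | succ k ih =>
    intro n1 n2 n3 n4
    obtain ⟨m1, m2, m3, m4, h1, h2⟩ := ih n1 n2 n3 n4
    obtain ⟨l1, l2, l3, l4, h3, h4⟩ := cv_up m1 m2 m3 m4
    refine ⟨l1, l2, l3, l4, ?_, ?_⟩
    · rw [h3, h1, pow_succ]
      push_cast
      ring
    · rw [h4, h2, pow_succ]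
      push_cast
      ring

private theorem cv_dnn (k : ℕ) : ∀ n1 n2 n3 n4 : ℤ, ∃ m1 m2 m3 m4 : ℤ,
    (uv m1 m2 m3 m4).1 = ((((2 : ℝ) - Real.sqrt 3) ^ k : ℝ) : ℂ) * (uv n1 n2 n3 n4).1 ∧
    (uv m1 m2 m3 m4).2 = ((((2 : ℝ) + Real.sqrt 3) ^ k : ℝ) : ℂ) * (uv n1 n2 n3 n4).2 := by
  induction k with
  | zero =>
    intro n1 n2 n3 n4
    exact ⟨n1, n2, n3, n4, by simp, by simp⟩
  | succ k ih =>
    intro n1 n2 n3 n4
    obtain ⟨m1, m2, m3, m4, h1, h2⟩ := ih n1 n2 n3 n4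
    obtain ⟨l1, l2, l3, l4, h3, h4⟩ := cv_dn m1 m2 m3 m4
    refine ⟨l1, l2, l3, l4, ?_, ?_⟩
    · rw [h3, h1, pow_succ]
      push_cast
      ring
    · rw [h4, h2, pow_succ]
      push_cast
      ring

private theorem cv_z (k : ℤ) (n1 n2 n3 n4 : ℤ) : ∃ m1 m2 m3 m4 : ℤ,
    (uv m1 m2 m3 m4).1 = ((((2 : ℝ) + Real.sqrt 3) ^ k : ℝ) : ℂ) * (uv n1 n2 n3 n4).1 ∧
    (uv m1 m2 m3 m4).2 = ((((2 : ℝ) + Real.sqrt 3) ^ (-k) : ℝ) : ℂ) * (uv n1 n2 n3 n4).2 := by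
  obtain ⟨k', rfl | rfl⟩ := Int.eq_nat_or_neg k
  · obtain ⟨m1, m2, m3, m4, h1, h2⟩ := cv_upn k' n1 n2 n3 n4
    refine ⟨m1, m2, m3, m4, ?_, ?_⟩
    · rw [h1, zpow_natCast]
    · rw [h2, zpow_neg, zpow_natCast, ← inv_pow, cv_inv]
  · obtain ⟨m1, m2, m3, m4, h1, h2⟩ := cv_dnn k' n1 n2 n3 n4
    refine ⟨m1, m2, m3, m4, ?_, ?_⟩
    · rw [h1, zpow_neg, zpow_natCast, ← inv_pow, cv_inv]
    · rw [h2, neg_neg, zpow_natCast]

private theorem cv_near (x y : ℂ) : ∃ n1 n2 n3 n4 : ℤ,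
    ‖x - (uv n1 n2 n3 n4).1‖ ≤ 4 ∧ ‖y - (uv n1 n2 n3 n4).2‖ ≤ 4 := by
  obtain ⟨A, hA⟩ : ∃ A : ℂ, A = (x + y) / 2 := ⟨_, rfl⟩
  obtain ⟨B, hB⟩ : ∃ B : ℂ, B = (x - y) / (2 * r3) := ⟨_, rfl⟩
  have hx : x = A + r3 * B := by
    rw [hA, hB]
    field_simp [r3_ne]
    ring
  have hy : y = A - r3 * B := by
    rw [hA, hB]
    field_simp [r3_ne]
    ring
  have h1 : ‖A - (round A.re + 3 * round (A.im / 3) * I)‖ ≤ 2 := by
    refine (Complex.norm_le_abs_re_add_abs_im _).trans ?_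
    have e1 : (A - ((round A.re : ℂ) + 3 * (round (A.im / 3) : ℂ) * I)).re = A.re - round A.re := by simp
    have e2 : (A - ((round A.re : ℂ) + 3 * (round (A.im / 3) : ℂ) * I)).im = A.im - 3 * round (A.im / 3) := by simp
    rw [e1, e2]
    have h2 := abs_sub_round A.re
    have h3 := abs_sub_round (A.im / 3)
    have h4 : |A.im - 3 * round (A.im / 3)| ≤ 3 / 2 := by
      rw [abs_le] at h3 ⊢
      constructor <;> linarith [h3.1, h3.2]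
    linarith
  have h2 : ‖B - (round B.re + round B.im * I)‖ ≤ 1 := by
    refine (Complex.norm_le_abs_re_add_abs_im _).trans ?_
    have e1 : (B - ((round B.re : ℂ) + (round B.im : ℂ) * I)).re = B.re - round B.re := by simp
    have e2 : (B - ((round B.re : ℂ) + (round B.im : ℂ) * I)).im = B.im - round B.im := by simp
    rw [e1, e2]
    have h2 := abs_sub_round B.re
    have h3 := abs_sub_round B.im
    linarith
  have hr : ‖r3‖ ≤ 2 := by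
    rw [r3, Complex.norm_real, Real.norm_of_nonneg (Real.sqrt_nonneg _)]
    exact cv_r3_le
  have h3 : ‖r3 * (B - (round B.re + round B.im * I))‖ ≤ 2 := by
    rw [norm_mul]
    calc ‖r3‖ * ‖B - (round B.re + round B.im * I)‖ ≤ 2 * 1 :=
          mul_le_mul hr h2 (norm_nonneg _) (by norm_num)
      _ = 2 := by norm_num
  refine ⟨round A.re, round B.re, round B.im, round (A.im / 3), ?_, ?_⟩
  · have e : x - (uv (round A.re) (round B.re) (round B.im) (round (A.im / 3))).1 =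
        (A - (round A.re + 3 * round (A.im / 3) * I)) + r3 * (B - (round B.re + round B.im * I)) := by
      rw [hx]
      simp only [uv]
      ring
    rw [e]
    refine (norm_add_le _ _).trans ?_
    linarith
  · have e : y - (uv (round A.re) (round B.re) (round B.im) (round (A.im / 3))).2 =
        (A - (round A.re + 3 * round (A.im / 3) * I)) - r3 * (B - (round B.re + round B.im * I)) := by
      rw [hy]
      simp only [uv]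
      ring
    rw [e]
    refine (norm_sub_le _ _).trans ?_
    linarith

theorem cov3 : ∃ C0 : ℝ, 0 < C0 ∧ ∀ R r : ℝ, 0 < R → 0 < r → C0 ≤ R * r → ∀ x y : ℂ,
    ∃ n1 n2 n3 n4 : ℤ, ‖x - (uv n1 n2 n3 n4).1‖ ≤ R ∧ ‖y - (uv n1 n2 n3 n4).2‖ ≤ r := by
  obtain ⟨ε, hε⟩ : ∃ ε : ℝ, ε = 2 + Real.sqrt 3 := ⟨_, rfl⟩
  have hε1 : 1 < ε := by rw [hε]; exact cv_eps
  have hε0 : 0 < ε := by linarith
  refine ⟨16 * ε, by linarith, ?_⟩
  intro R r hR hr hRr x y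
  obtain ⟨k, hk1, hk2⟩ := exists_mem_Ico_zpow (show (0 : ℝ) < R / 4 by linarith) hε1
  obtain ⟨n1, n2, n3, n4, h1, h2⟩ := cv_near (((ε ^ (-k) : ℝ) : ℂ) * x) (((ε ^ k : ℝ) : ℂ) * y)
  obtain ⟨m1, m2, m3, m4, h3, h4⟩ := cv_z k n1 n2 n3 n4
  rw [← hε] at h3 h4
  have hp : 0 < ε ^ k := zpow_pos hε0 k
  have hq : 0 < ε ^ (-k) := zpow_pos hε0 (-k)
  have hpq : ε ^ k * ε ^ (-k) = 1 := by
    rw [← zpow_add₀ hε0.ne', add_neg_cancel, zpow_zero]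
  have hpqc : ((ε ^ k : ℝ) : ℂ) * ((ε ^ (-k) : ℝ) : ℂ) = 1 := by
    rw [← ofReal_mul, hpq, ofReal_one]
  refine ⟨m1, m2, m3, m4, ?_, ?_⟩
  · have e : x - (uv m1 m2 m3 m4).1 = ((ε ^ k : ℝ) : ℂ) * (((ε ^ (-k) : ℝ) : ℂ) * x - (uv n1 n2 n3 n4).1) := by
      rw [h3]
      linear_combination (-x) * hpqc
    rw [e, norm_mul, Complex.norm_real, Real.norm_of_nonneg hp.le]
    calc ε ^ k * ‖((ε ^ (-k) : ℝ) : ℂ) * x - (uv n1 n2 n3 n4).1‖ ≤ R / 4 * 4 :=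
          mul_le_mul hk1 h1 (norm_nonneg _) (by linarith)
      _ = R := by ring
  · have e : y - (uv m1 m2 m3 m4).2 = ((ε ^ (-k) : ℝ) : ℂ) * (((ε ^ k : ℝ) : ℂ) * y - (uv n1 n2 n3 n4).2) := by
      rw [h4]
      linear_combination (-y) * hpqc
    rw [e, norm_mul, Complex.norm_real, Real.norm_of_nonneg hq.le]
    have h5 : ε ^ (-k) * 4 ≤ r := by
      rw [zpow_add_one₀ hε0.ne'] at hk2
      have h6 : ε ^ (-k) * (R / 4) < ε := by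
        calc ε ^ (-k) * (R / 4) < ε ^ (-k) * (ε ^ k * ε) := mul_lt_mul_of_pos_left hk2 hq
          _ = (ε ^ k * ε ^ (-k)) * ε := by ring
          _ = ε := by rw [hpq, one_mul]
      have h7 : ε ^ (-k) * 4 * R ≤ r * R := by nlinarith
      exact le_of_mul_le_mul_right h7 hR
    calc ε ^ (-k) * ‖((ε ^ k : ℝ) : ℂ) * y - (uv n1 n2 n3 n4).2‖ ≤ ε ^ (-k) * 4 :=
          mul_le_mul_of_nonneg_left h2 hq.le
      _ ≤ r := h5

end Pool.Agent.ROH
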