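import Pool.Agent.ROH.TubeP

/-!
ROH-DerP. Derivatives of the polynomial at the good point (section 5).

`Pd K p i l X Y` is the Taylor coefficient: `P(X + ξ, Y + ζ) = ∑_{i,l<K} Pd K p i l X Y ξ^i ζ^l` (binomial theorem).
Cauchy's estimate for the coefficient in the bidisc of radii `ρ1 = i/K`, `ρ2 = l/K` (`i, l < K`; `ρ = max ρ1 ρ2 ≤ 1`; for
`i = 0` put `ξ = 0` and use one variable only, same for `l = 0`):
`‖Pd K p i l d (conj d)‖ ≤ ρ1^(-i) ρ2^(-l) ‖P*‖ exp(C (i + l)) = (K/i)^i (K/l)^l exp(C(i+l)) ‖P*‖`. To get the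
factorials use `(1/i)^i ≤ 1/i!`... (`i! ≤ i^i`): `i^i * ‖Pd‖ ≤ (C K)^..`, i.e. the statement below.
A convenient way for two-variable Cauchy: fix `ζ`, one-variable Cauchy in `ξ` for the polynomial `∑_l (..) ζ^l`, then in `ζ`; or
the average over `ξ = ρ1 e(a/N)`, `ζ = ρ2 e(b/N)` with roots of unity of order `N ≥ K` (`IsPrimitiveRoot` sums), all elementary.
-/

set_option autoImplicit false

namespace Pool.Agent.ROH

open Complex ComplexConjugate Finset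

private theorem add_pow_range (x y : ℂ) {k K : ℕ} (hk : k < K) :
    (x + y) ^ k = ∑ i ∈ range K, (k.choose i : ℂ) * x ^ (k - i) * y ^ i := by
  rw [add_comm x y, add_pow]
  have hsub : range (k + 1) ⊆ range K := by
    intro a ha
    simp only [mem_range] at ha ⊢
    omega
  rw [← sum_subset hsub]
  · refine sum_congr rfl fun m _ => ?_
    ring
  · intro m _ hm
    simp only [mem_range, not_lt] at hm
    rw [Nat.choose_eq_zero_of_lt (by omega)]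
    simp

private theorem taylor (K : ℕ) (p : ℕ → ℕ → ℂ) (X Y ξ ζ : ℂ) :
    Pd K p 0 0 (X + ξ) (Y + ζ) =
      ∑ i ∈ range K, ∑ l ∈ range K, Pd K p i l X Y * (ξ ^ i * ζ ^ l) := by
  have h1 : Pd K p 0 0 (X + ξ) (Y + ζ) = ∑ k ∈ range K, ∑ j ∈ range K, ∑ i ∈ range K,
      ∑ l ∈ range K, p k j * ((k.choose i : ℂ) * (j.choose l : ℂ) * (X ^ (k - i) * Y ^ (j - l))) *
        (ξ ^ i * ζ ^ l) := by
    unfold Pd
    refine sum_congr rfl fun k hk => sum_congr rfl fun j hj => ?_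
    rw [mem_range] at hk hj
    simp only [Nat.choose_zero_right, Nat.cast_one, Nat.sub_zero, one_mul]
    rw [add_pow_range X ξ hk, add_pow_range Y ζ hj, sum_mul_sum, mul_sum]
    refine sum_congr rfl fun i _ => ?_
    rw [mul_sum]
    refine sum_congr rfl fun l _ => ?_
    ring
  rw [h1]
  unfold Pd
  have h2 : ∀ k ∈ range K, ∑ j ∈ range K, ∑ i ∈ range K,
      ∑ l ∈ range K, p k j * ((k.choose i : ℂ) * (j.choose l : ℂ) * (X ^ (k - i) * Y ^ (j - l))) *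
        (ξ ^ i * ζ ^ l) = ∑ i ∈ range K, ∑ l ∈ range K, ∑ j ∈ range K,
        p k j * ((k.choose i : ℂ) * (j.choose l : ℂ) * (X ^ (k - i) * Y ^ (j - l))) *
        (ξ ^ i * ζ ^ l) := by
    intro k _
    rw [sum_comm]
    refine sum_congr rfl fun i _ => ?_
    rw [sum_comm]
  rw [sum_congr rfl h2, sum_comm]
  refine sum_congr rfl fun i _ => ?_
  rw [sum_comm]
  refine sum_congr rfl fun l _ => ?_
  rw [sum_mul]
  refine sum_congr rfl fun k _ => ?_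
  rw [sum_mul]

private theorem orth {K : ℕ} {ω : ℂ} (hω : IsPrimitiveRoot ω K) (hK : 1 ≤ K) {i i' : ℕ}
    (hi : i < K) (hi' : i' < K) :
    ∑ a ∈ range K, (ω ^ a) ^ i' * ((ω ^ a) ^ i)⁻¹ = if i' = i then (K : ℂ) else 0 := by
  have hω0 : ω ≠ 0 := hω.ne_zero (by omega)
  split_ifs with h
  · subst h
    have : ∀ a ∈ range K, (ω ^ a) ^ i' * ((ω ^ a) ^ i')⁻¹ = (1 : ℂ) := by
      intro a _
      exact mul_inv_cancel₀ (pow_ne_zero _ (pow_ne_zero _ hω0))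
    rw [sum_congr rfl this]
    simp
  · have hx : ω ^ i' * (ω ^ i)⁻¹ ≠ 1 := by
      intro hx
      have h1 : ω ^ i' = ω ^ i := by
        have h2 := pow_ne_zero i hω0
        field_simp at hx
        exact hx
      exact h (hω.pow_inj hi' hi h1)
    have h2 : ∀ a ∈ range K, (ω ^ a) ^ i' * ((ω ^ a) ^ i)⁻¹ = (ω ^ i' * (ω ^ i)⁻¹) ^ a := by
      intro a _
      rw [mul_pow, inv_pow, ← pow_mul, ← pow_mul, ← pow_mul, ← pow_mul, mul_comm a i', mul_comm a i]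
    rw [sum_congr rfl h2, geom_sum_eq hx]
    have h3 : (ω ^ i' * (ω ^ i)⁻¹) ^ K = 1 := by
      rw [mul_pow, inv_pow, ← pow_mul, ← pow_mul, mul_comm i' K, mul_comm i K, pow_mul, pow_mul,
        hω.pow_eq_one]
      simp
    rw [h3]
    simp

private theorem cauchy (K : ℕ) (p : ℕ → ℕ → ℂ) (hK : 1 ≤ K) (X Y : ℂ) (r s B : ℝ) (hr : 0 ≤ r)
    (hs : 0 ≤ s) (hB : ∀ ξ ζ : ℂ, ‖ξ‖ ≤ r → ‖ζ‖ ≤ s → ‖Pd K p 0 0 (X + ξ) (Y + ζ)‖ ≤ B)
    {i l : ℕ} (hi : i < K) (hl : l < K) :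
    ‖Pd K p i l X Y‖ * (r ^ i * s ^ l) ≤ B := by
  obtain ⟨ω, hω⟩ : ∃ ω : ℂ, IsPrimitiveRoot ω K :=
    ⟨_, Complex.isPrimitiveRoot_exp K (by omega)⟩
  have hn : ‖ω‖ = 1 := Complex.norm_eq_one_of_pow_eq_one hω.pow_eq_one (by omega)
  have hsum : ∑ a ∈ range K, ∑ b ∈ range K,
      Pd K p 0 0 (X + r * ω ^ a) (Y + s * ω ^ b) * (((ω ^ a) ^ i)⁻¹ * ((ω ^ b) ^ l)⁻¹) =
      (K : ℂ) ^ 2 * (Pd K p i l X Y * ((r : ℂ) ^ i * (s : ℂ) ^ l)) := by
    have h1 : ∀ a ∈ range K, ∀ b ∈ range K,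
        Pd K p 0 0 (X + r * ω ^ a) (Y + s * ω ^ b) * (((ω ^ a) ^ i)⁻¹ * ((ω ^ b) ^ l)⁻¹) =
        ∑ i' ∈ range K, ∑ l' ∈ range K, (Pd K p i' l' X Y * ((r : ℂ) ^ i' * (s : ℂ) ^ l')) *
          (((ω ^ a) ^ i' * ((ω ^ a) ^ i)⁻¹) * ((ω ^ b) ^ l' * ((ω ^ b) ^ l)⁻¹)) := by
      intro a _ b _
      rw [taylor, sum_mul]
      refine sum_congr rfl fun i' _ => ?_
      rw [sum_mul]
      refine sum_congr rfl fun l' _ => ?_
      rw [mul_pow, mul_pow]
      ring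
    rw [sum_congr rfl fun a ha => sum_congr rfl (h1 a ha)]
    have h2 : ∀ a ∈ range K, ∑ b ∈ range K, ∑ i' ∈ range K, ∑ l' ∈ range K,
        (Pd K p i' l' X Y * ((r : ℂ) ^ i' * (s : ℂ) ^ l')) *
          (((ω ^ a) ^ i' * ((ω ^ a) ^ i)⁻¹) * ((ω ^ b) ^ l' * ((ω ^ b) ^ l)⁻¹)) =
        ∑ i' ∈ range K, ∑ l' ∈ range K, (Pd K p i' l' X Y * ((r : ℂ) ^ i' * (s : ℂ) ^ l')) *
          ((ω ^ a) ^ i' * ((ω ^ a) ^ i)⁻¹) * (if l' = l then (K : ℂ) else 0) := by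
      intro a _
      rw [sum_comm]
      refine sum_congr rfl fun i' _ => ?_
      rw [sum_comm]
      refine sum_congr rfl fun l' hl' => ?_
      rw [← orth hω hK hl (mem_range.1 hl'), mul_sum]
      refine sum_congr rfl fun b _ => ?_
      ring
    rw [sum_congr rfl h2, sum_comm]
    have h3 : ∀ i' ∈ range K, ∑ a ∈ range K, ∑ l' ∈ range K,
        (Pd K p i' l' X Y * ((r : ℂ) ^ i' * (s : ℂ) ^ l')) *
          ((ω ^ a) ^ i' * ((ω ^ a) ^ i)⁻¹) * (if l' = l then (K : ℂ) else 0) =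
        ∑ l' ∈ range K, (Pd K p i' l' X Y * ((r : ℂ) ^ i' * (s : ℂ) ^ l')) *
          (if i' = i then (K : ℂ) else 0) * (if l' = l then (K : ℂ) else 0) := by
      intro i' hi'
      rw [sum_comm]
      refine sum_congr rfl fun l' _ => ?_
      rw [← orth hω hK hi (mem_range.1 hi'), mul_sum, sum_mul]
    rw [sum_congr rfl h3, sum_eq_single i, sum_eq_single l]
    · simp only [if_true]
      ring
    · intro l' _ hne
      simp [hne]
    · intro h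
      exact absurd (mem_range.2 hl) h
    · intro i' _ hne
      simp [hne]
    · intro h
      exact absurd (mem_range.2 hi) h
  have hnorm : ‖∑ a ∈ range K, ∑ b ∈ range K,
      Pd K p 0 0 (X + r * ω ^ a) (Y + s * ω ^ b) * (((ω ^ a) ^ i)⁻¹ * ((ω ^ b) ^ l)⁻¹)‖ ≤
      ∑ a ∈ range K, ∑ b ∈ range K, B := by
    refine (norm_sum_le _ _).trans (sum_le_sum fun a _ => (norm_sum_le _ _).trans
      (sum_le_sum fun b _ => ?_))
    have e1 : ‖((ω ^ a) ^ i)⁻¹ * ((ω ^ b) ^ l)⁻¹‖ = 1 := by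
      simp [hn]
    rw [norm_mul, e1, mul_one]
    refine hB _ _ ?_ ?_
    · simp [hn, abs_of_nonneg hr]
    · simp [hn, abs_of_nonneg hs]
  rw [hsum] at hnorm
  simp only [sum_const, card_range, nsmul_eq_mul, norm_mul, norm_pow, Complex.norm_natCast,
    Complex.norm_real, Real.norm_eq_abs, abs_of_nonneg hr, abs_of_nonneg hs] at hnorm
  have hK0 : (0 : ℝ) < K := by exact_mod_cast hK
  have h4 : (K : ℝ) ^ 2 * (‖Pd K p i l X Y‖ * (r ^ i * s ^ l)) ≤ (K : ℝ) ^ 2 * B := by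
    calc (K : ℝ) ^ 2 * (‖Pd K p i l X Y‖ * (r ^ i * s ^ l)) ≤ K * (K * B) := hnorm
      _ = (K : ℝ) ^ 2 * B := by ring
  exact le_of_mul_le_mul_left h4 (by positivity)

theorem exists_good_point : ∃ C : ℝ, 1 ≤ C ∧ ∀ (K : ℕ) (p : ℕ → ℕ → ℂ), 1 ≤ K →
    (∃ k < K, ∃ j < K, p k j ≠ 0) → ∃ d : ℂ, ‖d‖ ≤ C ∧
      0 < ‖Pd K p 0 0 d (conj d)‖ ∧ nP K p ≤ C ^ K * ‖Pd K p 0 0 d (conj d)‖ ∧
      ∀ i < K, ∀ l < K, ‖Pd K p i l d (conj d)‖ * ((i : ℝ) ^ i * (l : ℝ) ^ l) ≤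
        (C * K) ^ (i + l) * ‖Pd K p 0 0 d (conj d)‖ := by
  obtain ⟨C, hC, hmain⟩ := exists_tube
  have hCe : C ≤ Real.exp C := by
    have := Real.add_one_le_exp C
    linarith
  refine ⟨Real.exp C, hC.trans hCe, fun K p hK hp => ?_⟩
  obtain ⟨d, hd, hpos, hn, htube⟩ := hmain K p hK hp
  refine ⟨d, hd.trans hCe, hpos, hn.trans ?_, fun i hi l hl => ?_⟩
  · gcongr
  · have hK0 : (0 : ℝ) < K := by exact_mod_cast hK
    have hi1 : (i : ℝ) ≤ K := by exact_mod_cast hi.le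
    have hl1 : (l : ℝ) ≤ K := by exact_mod_cast hl.le
    have hi0 : (0 : ℝ) ≤ i := Nat.cast_nonneg i
    have hl0 : (0 : ℝ) ≤ l := Nat.cast_nonneg l
    have hmaxle : max ((i : ℝ) / K) (l / K) ≤ ((i : ℝ) + l) / K := by
      refine max_le ?_ ?_
      · gcongr
        linarith
      · gcongr
        linarith
    have hc := cauchy K p hK d (conj d) (i / K) (l / K)
      (‖Pd K p 0 0 d (conj d)‖ * Real.exp (C * ((i : ℝ) + l))) (by positivity) (by positivity)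
      (fun ξ ζ hξ hζ => by
        refine (htube (max ((i : ℝ) / K) (l / K)) (le_max_of_le_left (by positivity))
          (max_le ?_ ?_) ξ ζ (hξ.trans (le_max_left _ _)) (hζ.trans (le_max_right _ _))).trans ?_
        · rw [div_le_one hK0]; exact hi1
        · rw [div_le_one hK0]; exact hl1
        · have h6 : C * K * max ((i : ℝ) / K) (l / K) ≤ C * ((i : ℝ) + l) := by
            calc C * K * max ((i : ℝ) / K) (l / K) ≤ C * K * (((i : ℝ) + l) / K) := by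
                  gcongr
              _ = C * ((i : ℝ) + l) := by field_simp
          exact mul_le_mul_of_nonneg_left (Real.exp_le_exp.2 h6) (norm_nonneg _)) hi hl
    have hexp : Real.exp (C * ((i : ℝ) + l)) = Real.exp C ^ (i + l) := by
      rw [← Real.exp_nat_mul]
      push_cast
      ring_nf
    rw [hexp, div_pow, div_pow] at hc
    have h5 : ‖Pd K p i l d (conj d)‖ * ((i : ℝ) ^ i * (l : ℝ) ^ l) =
        (K : ℝ) ^ (i + l) * (‖Pd K p i l d (conj d)‖ * ((i : ℝ) ^ i / (K : ℝ) ^ i *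
          ((l : ℝ) ^ l / (K : ℝ) ^ l))) := by
      rw [pow_add]
      field_simp
    rw [h5, mul_pow]
    calc (K : ℝ) ^ (i + l) * (‖Pd K p i l d (conj d)‖ * ((i : ℝ) ^ i / (K : ℝ) ^ i *
          ((l : ℝ) ^ l / (K : ℝ) ^ l))) ≤
        (K : ℝ) ^ (i + l) * (‖Pd K p 0 0 d (conj d)‖ * Real.exp C ^ (i + l)) := by
          gcongr
      _ = Real.exp C ^ (i + l) * (K : ℝ) ^ (i + l) * ‖Pd K p 0 0 d (conj d)‖ := by ring

end Pool.Agent.ROH
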