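import Mathlib

/-!
Project ROH: interface between the blocks.

Block S (sigma functions), block L (lattices and Gamma values), block B (arithmetic), block G (Gelfond), block Z (final).
-/

set_option autoImplicit false

namespace Pool.Agent.ROH

open Complex ComplexConjugate Finset

/-- the Taylor coefficients at `0` are rational, bounded, with common denominators
`≤ exp (C (N+1) log² (N+2))` -/
def RatTay (s : ℂ → ℂ) : Prop :=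
  ∃ t : ℕ → ℚ, (∀ n, iteratedDeriv n s 0 = (n.factorial : ℂ) * (t n : ℂ)) ∧
    ∃ C : ℝ, 0 ≤ C ∧ (∀ n, |(t n : ℝ)| ≤ C) ∧
      ∀ N : ℕ, ∃ D : ℕ, 0 < D ∧ (D : ℝ) ≤ Real.exp (C * (N + 1) * Real.log (N + 2) ^ 2) ∧
        ∀ n ≤ N, ∃ a : ℤ, (D : ℚ) * t n = a

/-- entire, quasi-periodic for the lattice `ℤ + ℤ τ` with weight `κ`:
`s(z+ω) = e(ω) exp(κ conj ω z + κ |ω|²/2) s(z)`, `|e(ω)| = 1` -/
structure QP (s : ℂ → ℂ) (κ : ℝ) (τ : ℂ) : Prop where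
  diff : Differentiable ℂ s
  kpos : 0 < κ
  ne : ∃ z, s z ≠ 0
  per : ∀ a b : ℤ, ∃ e : ℂ, ‖e‖ = 1 ∧ ∀ z : ℂ, s (z + (a + b * τ)) =
    e * cexp (κ * (conj (a + b * τ) * z) + κ * ‖(a + b * τ : ℂ)‖ ^ 2 / 2) * s z

/-- block S, square lattice -/
def SigmaI : Prop := ∀ (v : ℝ) (L : PeriodPair) (g : ℚ), 0 < v → L.ω₁ = v → L.ω₂ = v * I →
  L.g₂ = g → L.g₃ = 0 →
    ∃ (s : ℂ → ℂ) (n : ℕ), 0 < n ∧ Differentiable ℂ s ∧ RatTay s ∧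
      QP (fun z => s (v * z)) (n * Real.pi) I

/-- block S, hexagonal lattice -/
def SigmaR : Prop := ∀ (v : ℝ) (L : PeriodPair) (g : ℚ), 0 < v → L.ω₁ = v →
  L.ω₂ = v * (-1 / 2 + (Real.sqrt 3 / 2 : ℝ) * I) → L.g₂ = 0 → L.g₃ = g →
    ∃ (s : ℂ → ℂ) (n : ℕ), 0 < n ∧ Differentiable ℂ s ∧ RatTay s ∧
      QP (fun z => s (v * z)) (n * (2 * Real.pi / Real.sqrt 3)) ((Real.sqrt 3 : ℝ) * I)

/-- block L, square lattice -/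
def LatticeI : Prop := ∃ (v : ℝ) (L : PeriodPair) (g : ℚ) (a : ℝ), 0 < v ∧ L.ω₁ = v ∧
  L.ω₂ = v * I ∧ L.g₂ = g ∧ L.g₃ = 0 ∧ IsAlgebraic ℚ a ∧ a ≠ 0 ∧
    v = a * (Real.Gamma (1 / 4) ^ 2 / Real.sqrt Real.pi)

/-- block L, hexagonal lattice -/
def LatticeR : Prop := ∃ (v : ℝ) (L : PeriodPair) (g : ℚ) (a : ℝ), 0 < v ∧ L.ω₁ = v ∧
  L.ω₂ = v * (-1 / 2 + (Real.sqrt 3 / 2 : ℝ) * I) ∧ L.g₂ = 0 ∧ L.g₃ = g ∧ IsAlgebraic ℚ a ∧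
    a ≠ 0 ∧ v = a * (Real.Gamma (1 / 3) ^ 3 / Real.pi)

/-- block G: Gelfond's criterion in the form needed -/
def GelfondForm : Prop := ∀ θ : ℂ, Transcendental ℚ θ → ∀ (C : ℝ) (n0 : ℕ),
  (∀ n : ℕ, n0 ≤ n → ∃ P : Polynomial ℤ, P ≠ 0 ∧ (P.natDegree : ℝ) ≤ C * (n : ℝ) ^ 8 ∧
    (∀ i, |(P.coeff i : ℝ)| ≤ Real.exp (C * (n : ℝ) ^ 13)) ∧
    ‖Polynomial.aeval θ P‖ ≤ Real.exp (-((n : ℝ) ^ 22 / 3))) → False

/-- the main theorem on the numbers `v1`, `v2` (blocks A, B, G together) -/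
def MainV : Prop := ∀ (v1 v2 : ℝ) (s1 s2 : ℂ → ℂ) (n1 n2 : ℕ), 0 < v1 → 0 < v2 → 0 < n1 → 0 < n2 →
  Differentiable ℂ s1 → Differentiable ℂ s2 → RatTay s1 → RatTay s2 →
  QP (fun z => s1 (v1 * z)) (n1 * Real.pi) I →
  QP (fun z => s2 (v2 * z)) (n2 * (2 * Real.pi / Real.sqrt 3)) ((Real.sqrt 3 : ℝ) * I) →
  Transcendental ℚ ((Real.pi / v1 ^ 2 : ℝ) : ℂ) →
  ¬ IsAlgebraic (IntermediateField.adjoin ℚ {((Real.pi / v1 ^ 2 : ℝ) : ℂ)}) ((v2 / v1 : ℝ) : ℂ)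

end Pool.Agent.ROH
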