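import Pool.Agent.ROH.LDef

/-!
ROH-LConj (block L). Reality: if the lattice is stable under conjugation then `℘`, `℘'` and the
invariants commute with conjugation.

PLAN. `PeriodPair.weierstrassP`, `derivWeierstrassP`, `G` are `tsum`s over the lattice; reindex with the
equivalence `l ↦ conj l` of the lattice (an involution, `hc`), `Equiv.tsum_eq`, and `Complex.conj_tsum`
(or `RCLike.conj_tsum`), `map_div₀`, `map_pow`. `g2_real`: `Complex.conj_eq_iff_real` or
`Complex.conj_eq_iff_re`, `g₂ = 60 G 4`.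
-/

set_option autoImplicit false

namespace Pool.Agent.ROH

open Complex ComplexConjugate

private noncomputable def cjE (L : PeriodPair) (hc : ∀ z ∈ L.lattice, conj z ∈ L.lattice) :
    L.lattice ≃ L.lattice where
  toFun l := ⟨conj (l : ℂ), hc _ l.2⟩
  invFun l := ⟨conj (l : ℂ), hc _ l.2⟩
  left_inv l := by
    apply Subtype.ext
    exact Complex.conj_conj _
  right_inv l := by
    apply Subtype.ext
    exact Complex.conj_conj _

private theorem cjE_coe (L : PeriodPair) (hc : ∀ z ∈ L.lattice, conj z ∈ L.lattice) (l : L.lattice) :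
    ((cjE L hc l : L.lattice) : ℂ) = conj (l : ℂ) := rfl

theorem P_conj (L : PeriodPair) (hc : ∀ z ∈ L.lattice, conj z ∈ L.lattice) (z : ℂ) :
    L.weierstrassP (conj z) = conj (L.weierstrassP z) := by
  unfold PeriodPair.weierstrassP
  rw [Complex.conj_tsum, ← (cjE L hc).tsum_eq]
  refine tsum_congr fun l => ?_
  rw [cjE_coe]
  simp only [map_sub, map_div₀, map_pow, map_one]

theorem dP_conj (L : PeriodPair) (hc : ∀ z ∈ L.lattice, conj z ∈ L.lattice) (z : ℂ) :
    L.derivWeierstrassP (conj z) = conj (L.derivWeierstrassP z) := by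
  unfold PeriodPair.derivWeierstrassP
  rw [map_neg, Complex.conj_tsum, ← (cjE L hc).tsum_eq]
  congr 1
  refine tsum_congr fun l => ?_
  rw [cjE_coe]
  simp only [map_sub, map_div₀, map_pow, Complex.conj_ofNat]

theorem G_conj (L : PeriodPair) (hc : ∀ z ∈ L.lattice, conj z ∈ L.lattice) (n : ℕ) :
    conj (L.G n) = L.G n := by
  unfold PeriodPair.G
  rw [Complex.conj_tsum, ← (cjE L hc).tsum_eq]
  refine tsum_congr fun l => ?_
  rw [cjE_coe]
  simp only [map_inv₀, map_pow, Complex.conj_conj]

theorem g2_real (L : PeriodPair) (hc : ∀ z ∈ L.lattice, conj z ∈ L.lattice) :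
    L.g₂ = (L.g₂.re : ℂ) := by
  symm
  rw [← Complex.conj_eq_iff_re]
  unfold PeriodPair.g₂
  rw [map_mul, G_conj L hc, Complex.conj_ofNat]

theorem g3_real (L : PeriodPair) (hc : ∀ z ∈ L.lattice, conj z ∈ L.lattice) :
    L.g₃ = (L.g₃.re : ℂ) := by
  symm
  rw [← Complex.conj_eq_iff_re]
  unfold PeriodPair.g₃
  rw [map_mul, G_conj L hc, Complex.conj_ofNat]

end Pool.Agent.ROH
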