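import Mathlib

/-!
Project ROH, block L (helper65): the real period of the square and of the hexagonal lattice in terms of
`Γ(1/4)`, `Γ(1/3)`.

PLAN. `L` a period pair whose lattice is stable under conjugation, `ρ` its least positive real element
(`RealPer L ρ`). On `(0, ρ)` the function `p(x) = ℘(x)` is real, `p' ^ 2 = 4 p ^ 3 - g₂ p - g₃`,
`p → ∞` at `0+`, `p'(ρ/2) = 0`. If the cubic is `4 y ^ 3 - 4 y ^ (3-n)` (`n = 2, 3`), `p` decreases from
`∞` to `1` on `(0, ρ/2)` and `u = p ^ (-n)` gives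
`ρ/2 = (1/(2n)) ∫_0^1 u^(1/(2n)-1) (1-u)^(1/2-1) du = (1/(2n)) B(1/(2n), 1/2)`.
-/

set_option autoImplicit false

namespace Pool.Agent.ROH

open Complex ComplexConjugate

/-- the lattice is stable under conjugation and `ρ` is its least positive real element -/
structure RealPer (L : PeriodPair) (ρ : ℝ) : Prop where
  pos : 0 < ρ
  mem : (ρ : ℂ) ∈ L.lattice
  nmem : ∀ x : ℝ, 0 < x → x < ρ → (x : ℂ) ∉ L.lattice
  cnj : ∀ z ∈ L.lattice, conj z ∈ L.lattice

/-- the lattice multiplied by `c` -/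
noncomputable def scale (L : PeriodPair) (c : ℂ) (hc : c ≠ 0) : PeriodPair where
  ω₁ := c * L.ω₁
  ω₂ := c * L.ω₂
  indep := by
    rw [LinearIndependent.pair_iff]
    intro s t h
    have h1 := LinearIndependent.pair_iff.mp L.indep s t
    apply h1
    have h2 : c * (s • L.ω₁ + t • L.ω₂) = 0 := by
      rw [mul_add, mul_smul_comm, mul_smul_comm]
      exact h
    exact (mul_eq_zero.mp h2).resolve_left hc

/-- the real function `℘(x)` -/
noncomputable def pR (L : PeriodPair) (x : ℝ) : ℝ := (L.weierstrassP x).re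

/-- the real function `℘'(x)` -/
noncomputable def dR (L : PeriodPair) (x : ℝ) : ℝ := (L.derivWeierstrassP x).re

/-- the real function `℘''(x)` -/
noncomputable def rR (L : PeriodPair) (x : ℝ) : ℝ := (deriv L.derivWeierstrassP x).re

/-- abstract properties of the real function `℘` on `(0, ρ)`; `c2`, `c3` are the invariants -/
structure RealP (p d r : ℝ → ℝ) (ρ c2 c3 : ℝ) : Prop where
  pos : 0 < ρ
  hd : ∀ x, 0 < x → x < ρ → HasDerivAt p (d x) x
  hr : ∀ x, 0 < x → x < ρ → HasDerivAt d (r x) x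
  rc : ∀ x, 0 < x → x < ρ → ContinuousAt r x
  sq : ∀ x, 0 < x → x < ρ → d x ^ 2 = 4 * p x ^ 3 - c2 * p x - c3
  top : Filter.Tendsto p (nhdsWithin 0 (Set.Ioi 0)) Filter.atTop
  half : d (ρ / 2) = 0

end Pool.Agent.ROH
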