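import Pool.Agent.ROH.LDef

/-!
ROH-LScale (block L). Homogeneity of the Eisenstein sums of a period pair.

PLAN. `mem_scale`: `PeriodPair.mem_lattice` on both sides. `G_congr`: `PeriodPair.G` is a `tsum` over the
lattice; use `Equiv.tsum_eq` with the equivalence of subtypes (or show that the two submodules are equal,
`SetLike.ext`, and transport: unfold `PeriodPair.G`, then `congr!`/`rw`). `G_scale`: the equivalence
`L.lattice ≃ (scale L c hc).lattice`, `w ↦ c * w`, and `(c w) ^ n` inverse `= (c ^ n)⁻¹ (w ^ n)⁻¹`,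
`tsum_mul_left`. `g2_scale`, `g3_scale`: definitions `g₂ = 60 G 4`, `g₃ = 140 G 6`.
`G_eq_zero_of_mul`: `scale L c hc` and `L` have the same lattice (`mem_scale` and `h`; note that
`z = c * (z / c)`), so `L.G n = (c ^ n)⁻¹ * L.G n`; if `c ^ n ≠ 1` then `L.G n = 0`.
-/

set_option autoImplicit false

namespace Pool.Agent.ROH

open Complex ComplexConjugate

theorem mem_scale (L : PeriodPair) (c : ℂ) (hc : c ≠ 0) (z : ℂ) :
    z ∈ (scale L c hc).lattice ↔ ∃ w ∈ L.lattice, z = c * w := by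
  rw [PeriodPair.mem_lattice]
  constructor
  · rintro ⟨m, k, rfl⟩
    refine ⟨m * L.ω₁ + k * L.ω₂, PeriodPair.mem_lattice.2 ⟨m, k, rfl⟩, ?_⟩
    show (m : ℂ) * (c * L.ω₁) + k * (c * L.ω₂) = _
    ring
  · rintro ⟨w, hw, rfl⟩
    obtain ⟨m, k, rfl⟩ := PeriodPair.mem_lattice.1 hw
    refine ⟨m, k, ?_⟩
    show (m : ℂ) * (c * L.ω₁) + k * (c * L.ω₂) = _
    ring

theorem G_congr (L M : PeriodPair) (h : ∀ z, z ∈ L.lattice ↔ z ∈ M.lattice) (n : ℕ) :
    L.G n = M.G n := by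
  unfold PeriodPair.G
  let e : L.lattice ≃ M.lattice :=
    { toFun := fun z => ⟨z.1, (h z.1).1 z.2⟩
      invFun := fun z => ⟨z.1, (h z.1).2 z.2⟩
      left_inv := fun _ => rfl
      right_inv := fun _ => rfl }
  exact e.tsum_eq (fun l : M.lattice => ((l : ℂ) ^ n)⁻¹)

theorem G_scale (L : PeriodPair) (c : ℂ) (hc : c ≠ 0) (n : ℕ) :
    (scale L c hc).G n = (c ^ n)⁻¹ * L.G n := by
  unfold PeriodPair.G
  let e : L.lattice ≃ (scale L c hc).lattice :=
    { toFun := fun z => ⟨c * z.1, (mem_scale L c hc _).2 ⟨z.1, z.2, rfl⟩⟩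
      invFun := fun z => ⟨c⁻¹ * z.1, by
        obtain ⟨w, hw, hz⟩ := (mem_scale L c hc _).1 z.2
        rw [hz, inv_mul_cancel_left₀ hc]
        exact hw⟩
      left_inv := fun z => Subtype.ext (inv_mul_cancel_left₀ hc z.1)
      right_inv := fun z => Subtype.ext (mul_inv_cancel_left₀ hc z.1) }
  rw [← e.tsum_eq (fun l : (scale L c hc).lattice => ((l : ℂ) ^ n)⁻¹), ← tsum_mul_left]
  apply tsum_congr
  intro l
  show ((c * (l : ℂ)) ^ n)⁻¹ = _
  rw [mul_pow, mul_inv]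

theorem g2_scale (L : PeriodPair) (c : ℂ) (hc : c ≠ 0) :
    (scale L c hc).g₂ = (c ^ 4)⁻¹ * L.g₂ := by
  unfold PeriodPair.g₂
  rw [G_scale]
  ring

theorem g3_scale (L : PeriodPair) (c : ℂ) (hc : c ≠ 0) :
    (scale L c hc).g₃ = (c ^ 6)⁻¹ * L.g₃ := by
  unfold PeriodPair.g₃
  rw [G_scale]
  ring

theorem G_eq_zero_of_mul (L : PeriodPair) (c : ℂ) (hc : c ≠ 0)
    (h : ∀ z, z ∈ L.lattice ↔ c * z ∈ L.lattice) (n : ℕ) (hn : c ^ n ≠ 1) : L.G n = 0 := by
  have h1 : (scale L c hc).G n = L.G n := by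
    apply G_congr
    intro z
    rw [mem_scale]
    constructor
    · rintro ⟨w, hw, rfl⟩
      exact (h w).1 hw
    · intro hz
      refine ⟨c⁻¹ * z, ?_, (mul_inv_cancel_left₀ hc z).symm⟩
      rw [h, mul_inv_cancel_left₀ hc]
      exact hz
  rw [G_scale] at h1
  by_contra h2
  apply hn
  have h3 : (c ^ n)⁻¹ = 1 := mul_right_cancel₀ h2 (h1.trans (one_mul _).symm)
  rw [inv_eq_one] at h3
  exact h3

end Pool.Agent.ROH
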