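import Pool.Agent.ROH.FLine
import Pool.Agent.ROH.JetMul
import Pool.Agent.ROH.JetLE

/-!
ROH-LineC. Taylor coefficients of `f` on a line in terms of the numbers `J G n k`.

From `F_line`, `H_line`, Leibniz rule for the product `F_k H_j` as functions of `l` (entire by
`ent2_iteratedDeriv` applied to `G`, which is `Ent2` as a product), linearity of `iteratedDeriv` in the finite sum `f`.
`iteratedDeriv i (fun l => iteratedDeriv k (G .. l) 0) 0 / i! = k! J G i k`.
-/

set_option autoImplicit false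

namespace Pool.Agent.ROH

open Complex ComplexConjugate Finset

private theorem ent2_G {s : ℂ → ℂ} (hs : Differentiable ℂ s) (c κ P Q : ℂ) : Ent2 (G s c κ P Q) := by
  unfold G
  exact ((ent2_Ga hs c P).mul
    ((ent2_Gb hs c Q).mul ((ent2_Gb hs c Q).mul (ent2_Gb hs c Q)))).mul (ent2_Gc κ)

/-- Leibniz rule for Taylor coefficients -/
private theorem leib {D E : ℂ → ℂ} (hD : Differentiable ℂ D) (hE : Differentiable ℂ E) (n : ℕ) :
    iteratedDeriv n (fun l => D l * E l) 0 / (n.factorial : ℂ) =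
      ∑ i ∈ range (n + 1), (iteratedDeriv i D 0 / (i.factorial : ℂ)) *
        (iteratedDeriv (n - i) E 0 / ((n - i).factorial : ℂ)) := by
  rw [iteratedDeriv_fun_mul hD.contDiff.contDiffAt hE.contDiff.contDiffAt, Finset.sum_div]
  refine Finset.sum_congr rfl fun i hi => ?_
  have hin : i ≤ n := Nat.lt_succ_iff.1 (Finset.mem_range.1 hi)
  have h1 : ((n.choose i : ℕ) : ℂ) * ((i.factorial : ℕ) : ℂ) * (((n - i).factorial : ℕ) : ℂ) =
      ((n.factorial : ℕ) : ℂ) := by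
    rw [← Nat.choose_mul_factorial_mul_factorial hin]
    push_cast
    ring
  have hn0 : ((n.factorial : ℕ) : ℂ) ≠ 0 := by exact_mod_cast n.factorial_ne_zero
  have hi0 : ((i.factorial : ℕ) : ℂ) ≠ 0 := by exact_mod_cast i.factorial_ne_zero
  have hni0 : (((n - i).factorial : ℕ) : ℂ) ≠ 0 := by exact_mod_cast (n - i).factorial_ne_zero
  rw [div_mul_div_comm, div_eq_div_iff hn0 (mul_ne_zero hi0 hni0), ← h1]
  ring

theorem line_coeff (c : Core) {s1 s2 : ℂ → ℂ} (hs1 : Differentiable ℂ s1) (hs2 : Differentiable ℂ s2)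
    (v w : ℝ) (hv : 0 < v) (hw : 0 < w) (hT1 : c.T1 = TT (fun z => s1 (v * z)))
    (hT2 : c.T2 = TT (fun z => s2 (w * z))) (K : ℕ) (q : ℕ → ℕ → ℂ) (a b e : ℂ) (n : ℕ) :
    iteratedDeriv n (fun t : ℂ => c.f K (fun k j => (1 / (v : ℂ)) ^ k * (1 / (w : ℂ)) ^ j * q k j)
        (t * (a / v)) (t * (b / v)) (t * (e / v))) 0 / (n.factorial : ℂ) =
      ∑ k ∈ range K, ∑ j ∈ range K, q k j * ∑ i ∈ range (n + 1),
        ((k.factorial : ℂ) * J (G s1 1 (2 * c.al * e / v ^ 2) (a + b) (a - b)) i k) *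
        ((j.factorial : ℂ) * J (G s2 (w / v) (2 * c.be * b / (v * w)) (a + e) (a - e)) (n - i) j) := by
  set g1 : ℂ → ℂ → ℂ := G s1 1 (2 * c.al * e / v ^ 2) (a + b) (a - b) with hg1
  set g2 : ℂ → ℂ → ℂ := G s2 (w / v) (2 * c.be * b / (v * w)) (a + e) (a - e) with hg2
  have hE1 : Ent2 g1 := ent2_G hs1 _ _ _ _
  have hE2 : Ent2 g2 := ent2_G hs2 _ _ _ _
  set D : ℕ → ℂ → ℂ := fun k l => iteratedDeriv k (g1 l) 0 with hD
  set E : ℕ → ℂ → ℂ := fun j l => iteratedDeriv j (g2 l) 0 with hE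
  have hDd : ∀ k, Differentiable ℂ (D k) := fun k => ent2_iteratedDeriv hE1 k
  have hEd : ∀ j, Differentiable ℂ (E j) := fun j => ent2_iteratedDeriv hE2 j
  have hv0 : (v : ℂ) ≠ 0 := by exact_mod_cast hv.ne'
  have hw0 : (w : ℂ) ≠ 0 := by exact_mod_cast hw.ne'
  have hfun : (fun t : ℂ => c.f K
      (fun k j => (1 / (v : ℂ)) ^ k * (1 / (w : ℂ)) ^ j * q k j)
        (t * (a / v)) (t * (b / v)) (t * (e / v))) =
      fun t => ∑ k ∈ range K, ∑ j ∈ range K, q k j * (D k t * E j t) := by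
    funext t
    unfold Core.f
    refine Finset.sum_congr rfl fun k _ => Finset.sum_congr rfl fun j _ => ?_
    rw [F_line c hs1 v hv hT1 a b e t k, H_line c hs2 v w hv hw hT2 a b e t j]
    have e1 : (1 / (v : ℂ)) ^ k * (v : ℂ) ^ k = 1 := by
      rw [← mul_pow, one_div, inv_mul_cancel₀ hv0, one_pow]
    have e2 : (1 / (w : ℂ)) ^ j * (w : ℂ) ^ j = 1 := by
      rw [← mul_pow, one_div, inv_mul_cancel₀ hw0, one_pow]
    calc (1 / (v : ℂ)) ^ k * (1 / (w : ℂ)) ^ j * q k j *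
          ((v : ℂ) ^ k * iteratedDeriv k (g1 t) 0 * ((w : ℂ) ^ j * iteratedDeriv j (g2 t) 0))
        = ((1 / (v : ℂ)) ^ k * (v : ℂ) ^ k) * ((1 / (w : ℂ)) ^ j * (w : ℂ) ^ j) *
          (q k j * (iteratedDeriv k (g1 t) 0 * iteratedDeriv j (g2 t) 0)) := by ring
      _ = q k j * (D k t * E j t) := by rw [e1, e2, one_mul, one_mul]
  rw [hfun]
  have hterm : ∀ k j, ContDiffAt ℂ n (fun t => q k j * (D k t * E j t)) 0 := fun k j =>
    (((hDd k).mul (hEd j)).const_mul (q k j)).contDiff.contDiffAt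
  have hinner : ∀ k, ContDiffAt ℂ n (fun t => ∑ j ∈ range K, q k j * (D k t * E j t)) 0 :=
    fun k => ContDiffAt.sum fun j _ => hterm k j
  rw [iteratedDeriv_fun_sum (fun k _ => hinner k), Finset.sum_div]
  refine Finset.sum_congr rfl fun k _ => ?_
  rw [iteratedDeriv_fun_sum (fun j _ => hterm k j), Finset.sum_div]
  refine Finset.sum_congr rfl fun j _ => ?_
  rw [iteratedDeriv_const_mul_field, mul_div_assoc, leib (hDd k) (hEd j) n]
  congr 1
  refine Finset.sum_congr rfl fun i _ => ?_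
  have hk0 : ((k.factorial : ℕ) : ℂ) ≠ 0 := by exact_mod_cast k.factorial_ne_zero
  have hj0 : ((j.factorial : ℕ) : ℂ) ≠ 0 := by exact_mod_cast j.factorial_ne_zero
  have hi0 : ((i.factorial : ℕ) : ℂ) ≠ 0 := by exact_mod_cast i.factorial_ne_zero
  have hni0 : (((n - i).factorial : ℕ) : ℂ) ≠ 0 := by exact_mod_cast (n - i).factorial_ne_zero
  have f1 : (k.factorial : ℂ) * J g1 i k = iteratedDeriv i (D k) 0 / (i.factorial : ℂ) := by
    unfold J
    rw [hD]
    field_simp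
  have f2 : (j.factorial : ℂ) * J g2 (n - i) j =
      iteratedDeriv (n - i) (E j) 0 / ((n - i).factorial : ℂ) := by
    unfold J
    rw [hE]
    field_simp
  rw [f1, f2]

end Pool.Agent.ROH
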