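import Mathlib

/-!
ROH-PolyB. Coefficients of a polynomial in `z, conj z` are bounded by its supremum on the disc (Mathlib only).
-/

set_option autoImplicit false

namespace Pool.Agent.ROH

open Complex ComplexConjugate Finset

/-- Coefficients are bounded by the supremum on the unit disc. -/
private lemma coeff_le_circle (f : Polynomial ℂ) (B : ℝ) (hB : ∀ z : ℂ, ‖z‖ ≤ 1 → ‖f.eval z‖ ≤ B)
    (i : ℕ) : ‖f.coeff i‖ ≤ B := by
  have hB0 : 0 ≤ B := le_trans (norm_nonneg _) (hB 0 (by simp))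
  have h1 : ‖f.coeff i‖ ^ 2 ≤ ∑ i ∈ f.support, ‖f.coeff i‖ ^ 2 := by
    by_cases hi : i ∈ f.support
    · exact Finset.single_le_sum (f := fun i => ‖f.coeff i‖ ^ 2) (fun j _ => by positivity) hi
    · rw [Polynomial.notMem_support_iff.1 hi]
      have : 0 ≤ ∑ i ∈ f.support, ‖f.coeff i‖ ^ 2 := Finset.sum_nonneg (fun j _ => by positivity)
      simpa using this
  have h2 : ∑ i ∈ f.support, ‖f.coeff i‖ ^ 2 ≤ B ^ 2 := by
    rw [Polynomial.sum_sq_norm_coeff_eq_circleAverage]
    refine Real.circleAverage_mono_on_of_le_circle ?_ ?_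
    · refine ContinuousOn.circleIntegrable' ?_
      exact ((f.continuous.norm).pow 2).continuousOn
    · intro x hx
      have hx1 : ‖x‖ ≤ 1 := by
        have := mem_sphere_zero_iff_norm.1 hx
        rw [this]; simp
      have := hB x hx1
      gcongr
  exact le_of_sq_le_sq (h1.trans h2) hB0

/-- The node product. -/
private lemma prod_node (i : ℕ) : ∀ n : ℕ, i + 1 ≤ n →
    ∏ j ∈ (range n).erase i, |(i : ℝ) - (j : ℝ)| = (i.factorial : ℝ) * ((n - 1 - i).factorial : ℝ) := by
  intro n hn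
  induction n, hn using Nat.le_induction with
  | base =>
    have h1 : (range (i + 1)).erase i = range i := by
      rw [Finset.range_add_one]
      exact Finset.erase_insert (by simp)
    rw [h1]
    have h2 : i + 1 - 1 - i = 0 := by omega
    rw [h2, Nat.factorial_zero, Nat.cast_one, mul_one]
    have h3 : ∏ j ∈ range i, |(i : ℝ) - (j : ℝ)| = ∏ j ∈ range i, (((j + 1 : ℕ)) : ℝ) := by
      rw [← Finset.prod_range_reflect]
      refine Finset.prod_congr rfl (fun j hj => ?_)
      have hj' := Finset.mem_range.1 hj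
      have h4 : ((i - 1 - j : ℕ) : ℝ) = (i : ℝ) - 1 - j := by
        rw [Nat.cast_sub (by omega), Nat.cast_sub (by omega)]; simp
      rw [h4]
      have h5 : (i : ℝ) - ((i : ℝ) - 1 - j) = ((j + 1 : ℕ) : ℝ) := by push_cast; ring
      rw [h5, abs_of_nonneg (by positivity)]
    rw [h3, ← Nat.cast_prod, Finset.prod_range_add_one_eq_factorial]
  | succ n hn ih =>
    have h1 : (range (n + 1)).erase i = insert n ((range n).erase i) := by
      rw [Finset.range_add_one, Finset.erase_insert_of_ne (by omega)]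
    rw [h1, Finset.prod_insert (by simp), ih]
    have h2 : n + 1 - 1 - i = (n - 1 - i) + 1 := by omega
    rw [h2, Nat.factorial_succ]
    have h3 : |(i : ℝ) - (n : ℝ)| = (((n - 1 - i) + 1 : ℕ) : ℝ) := by
      have h4 : (((n - 1 - i) + 1 : ℕ) : ℝ) = (n : ℝ) - i := by
        rw [show (n - 1 - i) + 1 = n - i from by omega, Nat.cast_sub (by omega)]
      rw [h4, abs_sub_comm, abs_of_nonneg]
      have : (i : ℝ) ≤ n := by exact_mod_cast (by omega : i ≤ n)
      linarith
    rw [h3]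
    push_cast
    ring

/-- Polynomials are bounded on the disc by their supremum on `[0, 1/2]`. -/
private lemma lagr (n : ℕ) (f : Polynomial ℂ) (B : ℝ) (hn : 1 ≤ n) (hd : f.degree < n)
    (hB : ∀ t : ℝ, 0 ≤ t → t ≤ 1 / 2 → ‖f.eval (t : ℂ)‖ ≤ B) (z : ℂ) (hz : ‖z‖ ≤ 1) :
    ‖f.eval z‖ ≤ (8 * Real.exp 1) ^ n * B := by
  have hB0 : 0 ≤ B := le_trans (norm_nonneg _) (hB 0 le_rfl (by norm_num))
  have hn0 : (0 : ℝ) < n := by exact_mod_cast (by omega : 0 < n)
  set v : ℕ → ℂ := fun i => (((i : ℝ) / (2 * n) : ℝ) : ℂ) with hv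
  have hinj : Set.InjOn v (range n : Finset ℕ) := by
    intro a _ b _ hab
    have h1 : (a : ℝ) / (2 * n) = (b : ℝ) / (2 * n) := Complex.ofReal_injective hab
    have h2 : (a : ℝ) = b := by
      field_simp at h1
      exact h1
    exact_mod_cast h2
  have hint := Lagrange.eq_interpolate (s := range n) (f := f) hinj (by rw [Finset.card_range]; exact hd)
  have heval : f.eval z = ∑ i ∈ range n, f.eval (v i) * (Lagrange.basis (range n) v i).eval z := by
    conv_lhs => rw [hint]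
    rw [Lagrange.interpolate_apply, Polynomial.eval_finsetSum]
    refine Finset.sum_congr rfl (fun i _ => ?_)
    rw [Polynomial.eval_mul, Polynomial.eval_C]
  have hbasis : ∀ i ∈ range n, ‖(Lagrange.basis (range n) v i).eval z‖ ≤
      (4 * n) ^ (n - 1) / ((i.factorial : ℝ) * ((n - 1 - i).factorial : ℝ)) := by
    intro i hi
    have hi' := Finset.mem_range.1 hi
    rw [Lagrange.basis, Polynomial.eval_prod, norm_prod]
    have hterm : ∀ j ∈ (range n).erase i, ‖(Lagrange.basisDivisor (v i) (v j)).eval z‖ ≤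
        (4 * n) * |(i : ℝ) - (j : ℝ)|⁻¹ := by
      intro j hj
      have hj' := Finset.mem_range.1 (Finset.mem_of_mem_erase hj)
      rw [Lagrange.basisDivisor, Polynomial.eval_mul, Polynomial.eval_C, norm_mul, norm_inv]
      simp only [Polynomial.eval_sub, Polynomial.eval_X, Polynomial.eval_C]
      have h1 : ‖v i - v j‖ = |(i : ℝ) - j| / (2 * n) := by
        simp only [hv]
        rw [← Complex.ofReal_sub, Complex.norm_real, Real.norm_eq_abs, ← sub_div, abs_div,
          abs_of_pos (by positivity : (0 : ℝ) < 2 * n)]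
      have h2 : ‖z - v j‖ ≤ 2 := by
        have h3 : ‖v j‖ ≤ 1 := by
          simp only [hv]
          rw [Complex.norm_real, Real.norm_eq_abs, abs_of_nonneg (by positivity), div_le_one (by positivity)]
          have : (j : ℝ) ≤ n := by exact_mod_cast hj'.le
          linarith
        calc ‖z - v j‖ ≤ ‖z‖ + ‖v j‖ := norm_sub_le _ _
          _ ≤ 2 := by linarith
      rw [h1, inv_div]
      calc 2 * (n : ℝ) / |(i : ℝ) - j| * ‖z - v j‖ ≤ 2 * (n : ℝ) / |(i : ℝ) - j| * 2 := by
            gcongr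
        _ = (4 * n) * |(i : ℝ) - (j : ℝ)|⁻¹ := by rw [div_eq_mul_inv]; ring
    refine (Finset.prod_le_prod (fun j _ => norm_nonneg _) hterm).trans ?_
    rw [Finset.prod_mul_distrib, Finset.prod_inv_distrib, prod_node i n hi', Finset.prod_const,
      Finset.card_erase_of_mem hi, Finset.card_range, div_eq_mul_inv]
  rw [heval]
  have hsum : ‖∑ i ∈ range n, f.eval (v i) * (Lagrange.basis (range n) v i).eval z‖ ≤
      ∑ i ∈ range n, B * ((4 * n) ^ (n - 1) / ((i.factorial : ℝ) * ((n - 1 - i).factorial : ℝ))) := by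
    refine (norm_sum_le _ _).trans (Finset.sum_le_sum (fun i hi => ?_))
    rw [norm_mul]
    have hi' := Finset.mem_range.1 hi
    refine mul_le_mul ?_ (hbasis i hi) (norm_nonneg _) hB0
    refine hB _ (by positivity) ?_
    rw [div_le_div_iff₀ (by positivity) (by norm_num)]
    have : (i : ℝ) ≤ n := by exact_mod_cast hi'.le
    linarith
  refine hsum.trans ?_
  have hbin : ∑ i ∈ range n, B * ((4 * n) ^ (n - 1) / ((i.factorial : ℝ) * ((n - 1 - i).factorial : ℝ)))
      = B * ((4 * n) ^ (n - 1) / ((n - 1).factorial : ℝ) * 2 ^ (n - 1)) := by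
    obtain ⟨m, rfl⟩ : ∃ m, n = m + 1 := ⟨n - 1, by omega⟩
    rw [← Finset.mul_sum]
    congr 1
    have h2 : (2 : ℝ) ^ (m + 1 - 1) = ∑ i ∈ range (m + 1), (m.choose i : ℝ) := by
      have := Nat.sum_range_choose m
      have h3 : ((∑ i ∈ range (m + 1), m.choose i : ℕ) : ℝ) = ((2 ^ m : ℕ) : ℝ) := by rw [this]
      push_cast at h3
      rw [Nat.add_sub_cancel, ← h3]
    rw [h2, Finset.mul_sum]
    refine Finset.sum_congr rfl (fun i hi => ?_)
    have hi' := Finset.mem_range.1 hi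
    have h4 := Nat.choose_mul_factorial_mul_factorial (n := m) (k := i) (by omega)
    have h5 : (m.choose i : ℝ) * (i.factorial : ℝ) * ((m - i).factorial : ℝ) = (m.factorial : ℝ) := by
      exact_mod_cast h4
    have hm0 : (m.factorial : ℝ) ≠ 0 := by exact_mod_cast m.factorial_ne_zero
    have hi0 : (i.factorial : ℝ) ≠ 0 := by exact_mod_cast i.factorial_ne_zero
    have hmi0 : ((m - i).factorial : ℝ) ≠ 0 := by exact_mod_cast (m - i).factorial_ne_zero
    rw [Nat.add_sub_cancel]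
    rw [div_mul_eq_mul_div, div_eq_div_iff (mul_ne_zero hi0 hmi0) hm0, ← h5]
    ring
  rw [hbin, mul_comm B]
  refine mul_le_mul_of_nonneg_right ?_ hB0
  -- n^(n-1)/(n-1)! = n^n/n! ≤ exp n
  have hexp : (n : ℝ) ^ n / (n.factorial : ℝ) ≤ Real.exp 1 ^ n := by
    have := Real.pow_div_factorial_le_exp (n : ℝ) hn0.le n
    refine this.trans ?_
    rw [← Real.exp_nat_mul, mul_one]
  have hfact : (n : ℝ) ^ n / (n.factorial : ℝ) = (n : ℝ) ^ (n - 1) / ((n - 1).factorial : ℝ) := by
    obtain ⟨m, rfl⟩ : ∃ m, n = m + 1 := ⟨n - 1, by omega⟩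
    rw [Nat.add_sub_cancel, Nat.factorial_succ, pow_succ, Nat.cast_mul]
    have h1 : ((m + 1 : ℕ) : ℝ) ≠ 0 := by positivity
    have h2 : ((m.factorial : ℕ) : ℝ) ≠ 0 := by exact_mod_cast m.factorial_ne_zero
    field_simp
  calc (4 * (n : ℝ)) ^ (n - 1) / ((n - 1).factorial : ℝ) * 2 ^ (n - 1)
      = 8 ^ (n - 1) * ((n : ℝ) ^ (n - 1) / ((n - 1).factorial : ℝ)) := by
        rw [mul_pow, show (8 : ℝ) = 4 * 2 by norm_num, mul_pow]; ring
    _ ≤ 8 ^ n * Real.exp 1 ^ n := by
        rw [← hfact]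
        refine mul_le_mul ?_ hexp (by positivity) (by positivity)
        exact pow_le_pow_right₀ (by norm_num) (by omega)
    _ = (8 * Real.exp 1) ^ n := by rw [mul_pow]

private lemma deg_lt (K : ℕ) (hK : 1 ≤ K) (p : ℕ → ℕ → ℂ) (a b c d : ℂ) :
    (∑ k ∈ range K, ∑ j ∈ range K, Polynomial.C (p k j) *
      ((Polynomial.C a * Polynomial.X + Polynomial.C b) ^ k *
        (Polynomial.C c * Polynomial.X + Polynomial.C d) ^ j)).degree < ((2 * K : ℕ) : WithBot ℕ) := by
  refine lt_of_le_of_lt (Polynomial.degree_le_natDegree) ?_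
  rw [Nat.cast_lt]
  refine lt_of_le_of_lt (Polynomial.natDegree_sum_le_of_forall_le (n := 2 * K - 2) _ _ ?_) (by omega)
  intro k hk
  refine Polynomial.natDegree_sum_le_of_forall_le _ _ ?_
  intro j hj
  have hk' := Finset.mem_range.1 hk
  have hj' := Finset.mem_range.1 hj
  refine (Polynomial.natDegree_C_mul_le _ _).trans ?_
  refine Polynomial.natDegree_mul_le.trans ?_
  have h1 : ((Polynomial.C a * Polynomial.X + Polynomial.C b) ^ k).natDegree ≤ k * 1 :=
    Polynomial.natDegree_pow_le_of_le k Polynomial.natDegree_linear_le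
  have h2 : ((Polynomial.C c * Polynomial.X + Polynomial.C d) ^ j).natDegree ≤ j * 1 :=
    Polynomial.natDegree_pow_le_of_le j Polynomial.natDegree_linear_le
  omega

private lemma eval_poly (K : ℕ) (p : ℕ → ℕ → ℂ) (a b c d z : ℂ) :
    (∑ k ∈ range K, ∑ j ∈ range K, Polynomial.C (p k j) *
      ((Polynomial.C a * Polynomial.X + Polynomial.C b) ^ k *
        (Polynomial.C c * Polynomial.X + Polynomial.C d) ^ j)).eval z =
      ∑ k ∈ range K, ∑ j ∈ range K, p k j * ((a * z + b) ^ k * (c * z + d) ^ j) := by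
  simp [Polynomial.eval_finsetSum]

theorem coeff_le_sup : ∃ C : ℝ, 1 ≤ C ∧ ∀ (K : ℕ) (p : ℕ → ℕ → ℂ) (B : ℝ), 1 ≤ K →
    (∀ z : ℂ, ‖z‖ ≤ 1 → ‖∑ k ∈ range K, ∑ j ∈ range K, p k j * (z ^ k * conj z ^ j)‖ ≤ B) →
    ∑ k ∈ range K, ∑ j ∈ range K, ‖p k j‖ ≤ C ^ K * B := by
  set A : ℝ := 8 * Real.exp 1 with hA
  have hA1 : 1 ≤ A := by
    have := Real.add_one_le_exp (1 : ℝ)
    rw [hA]; linarith
  refine ⟨4 * A ^ 4, by nlinarith [one_le_pow₀ hA1 (n := 4)], ?_⟩
  intro K p B hK hB
  have hB0 : 0 ≤ B := le_trans (norm_nonneg _) (hB 0 (by simp))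
  have h2K : 1 ≤ 2 * K := by omega
  -- real x, y
  have s0 : ∀ x y : ℝ, 0 ≤ x → x ≤ 1 / 2 → 0 ≤ y → y ≤ 1 / 2 →
      ‖∑ k ∈ range K, ∑ j ∈ range K, p k j * (((x : ℂ) + I * y) ^ k * ((x : ℂ) - I * y) ^ j)‖ ≤ B := by
    intro x y hx0 hx1 hy0 hy1
    have h1 : ‖(x : ℂ) + I * y‖ ≤ 1 := by
      calc ‖(x : ℂ) + I * y‖ ≤ ‖(x : ℂ)‖ + ‖I * (y : ℂ)‖ := norm_add_le _ _
        _ = x + y := by
            rw [norm_mul, Complex.norm_I, one_mul, Complex.norm_real, Complex.norm_real,
              Real.norm_eq_abs, Real.norm_eq_abs, abs_of_nonneg hx0, abs_of_nonneg hy0]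
        _ ≤ 1 := by linarith
    have h2 := hB _ h1
    have h3 : conj ((x : ℂ) + I * y) = (x : ℂ) - I * y := by
      simp [sub_eq_add_neg]
    rw [h3] at h2
    exact h2
  -- complex x, real y
  have s1 : ∀ (x : ℂ) (y : ℝ), ‖x‖ ≤ 1 → 0 ≤ y → y ≤ 1 / 2 →
      ‖∑ k ∈ range K, ∑ j ∈ range K, p k j * ((x + I * y) ^ k * (x - I * y) ^ j)‖ ≤ A ^ (2 * K) * B := by
    intro x y hx hy0 hy1
    have := lagr (2 * K) _ B h2K (deg_lt K hK p 1 (I * y) 1 (-(I * y))) (fun t ht0 ht1 => by
      rw [eval_poly]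
      have := s0 t y ht0 ht1 hy0 hy1
      simpa [sub_eq_add_neg] using this) x hx
    rw [eval_poly] at this
    simpa [sub_eq_add_neg] using this
  have s2 : ∀ (x y : ℂ), ‖x‖ ≤ 1 → ‖y‖ ≤ 1 →
      ‖∑ k ∈ range K, ∑ j ∈ range K, p k j * ((x + I * y) ^ k * (x - I * y) ^ j)‖ ≤
        A ^ (2 * K) * (A ^ (2 * K) * B) := by
    intro x y hx hy
    have := lagr (2 * K) _ (A ^ (2 * K) * B) h2K (deg_lt K hK p I x (-I) x) (fun t ht0 ht1 => by
      rw [eval_poly]
      have := s1 x t hx ht0 ht1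
      have h2 : ∀ k j, p k j * ((I * (t : ℂ) + x) ^ k * (-I * (t : ℂ) + x) ^ j) =
          p k j * ((x + I * t) ^ k * (x - I * t) ^ j) := by
        intro k j
        rw [show I * (t : ℂ) + x = x + I * t by ring, show -I * (t : ℂ) + x = x - I * t by ring]
      simp only [h2]
      exact this) y hy
    rw [eval_poly] at this
    have h2 : ∀ k j, p k j * ((I * y + x) ^ k * (-I * y + x) ^ j) =
        p k j * ((x + I * y) ^ k * (x - I * y) ^ j) := by
      intro k j
      rw [show I * y + x = x + I * y by ring, show -I * y + x = x - I * y by ring]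
    simp only [h2] at this
    exact this
  set M : ℝ := A ^ (2 * K) * (A ^ (2 * K) * B) with hM
  have s3 : ∀ X Y : ℂ, ‖X‖ ≤ 1 → ‖Y‖ ≤ 1 →
      ‖∑ k ∈ range K, ∑ j ∈ range K, p k j * (X ^ k * Y ^ j)‖ ≤ M := by
    intro X Y hX hY
    have h1 : ‖(X + Y) / 2‖ ≤ 1 := by
      rw [norm_div, Complex.norm_ofNat, div_le_one (by norm_num)]
      exact (norm_add_le _ _).trans (by linarith)
    have h2 : ‖(X - Y) / (2 * I)‖ ≤ 1 := by
      rw [norm_div, norm_mul, Complex.norm_I, Complex.norm_ofNat, mul_one, div_le_one (by norm_num)]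
      exact (norm_sub_le _ _).trans (by linarith)
    have h3 := s2 _ _ h1 h2
    have h4 : (X + Y) / 2 + I * ((X - Y) / (2 * I)) = X := by
      field_simp; ring
    have h5 : (X + Y) / 2 - I * ((X - Y) / (2 * I)) = Y := by
      field_simp; ring
    rw [h4, h5] at h3
    exact h3
  have hM0 : 0 ≤ M := by positivity
  -- Cauchy in X
  have s4 : ∀ (Y : ℂ), ‖Y‖ ≤ 1 → ∀ k ∈ range K, ‖∑ j ∈ range K, p k j * Y ^ j‖ ≤ M := by
    intro Y hY k hk
    have h1 := coeff_le_circle (∑ k ∈ range K, Polynomial.C (∑ j ∈ range K, p k j * Y ^ j) * Polynomial.X ^ k) M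
      (fun X hX => by
        have := s3 X Y hX hY
        rw [Polynomial.eval_finsetSum]
        have h2 : ∑ k ∈ range K, (Polynomial.C (∑ j ∈ range K, p k j * Y ^ j) * Polynomial.X ^ k).eval X
            = ∑ k ∈ range K, ∑ j ∈ range K, p k j * (X ^ k * Y ^ j) := by
          refine Finset.sum_congr rfl (fun k _ => ?_)
          rw [Polynomial.eval_mul, Polynomial.eval_C, Polynomial.eval_pow, Polynomial.eval_X, Finset.sum_mul]
          refine Finset.sum_congr rfl (fun j _ => ?_)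
          ring
        rw [h2]
        exact this) k
    rw [Polynomial.finsetSum_coeff] at h1
    simp only [Polynomial.coeff_C_mul, Polynomial.coeff_X_pow, mul_ite, mul_one, mul_zero] at h1
    rw [Finset.sum_ite_eq (range K) k] at h1
    simpa [Finset.mem_range.1 hk] using h1
  have s5 : ∀ k ∈ range K, ∀ j ∈ range K, ‖p k j‖ ≤ M := by
    intro k hk j hj
    have h1 := coeff_le_circle (∑ j ∈ range K, Polynomial.C (p k j) * Polynomial.X ^ j) M
      (fun Y hY => by
        have := s4 Y hY k hk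
        rw [Polynomial.eval_finsetSum]
        simpa using this) j
    rw [Polynomial.finsetSum_coeff] at h1
    simp only [Polynomial.coeff_C_mul, Polynomial.coeff_X_pow, mul_ite, mul_one, mul_zero] at h1
    rw [Finset.sum_ite_eq (range K) j] at h1
    simpa [Finset.mem_range.1 hj] using h1
  have s6 : ∑ k ∈ range K, ∑ j ∈ range K, ‖p k j‖ ≤ (K : ℝ) * ((K : ℝ) * M) := by
    calc ∑ k ∈ range K, ∑ j ∈ range K, ‖p k j‖ ≤ ∑ k ∈ range K, ∑ j ∈ range K, M :=
          Finset.sum_le_sum (fun k hk => Finset.sum_le_sum (fun j hj => s5 k hk j hj))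
      _ = (K : ℝ) * ((K : ℝ) * M) := by simp
  refine s6.trans ?_
  have hK2 : (K : ℝ) ≤ 2 ^ K := by
    exact_mod_cast (Nat.lt_two_pow_self (n := K)).le
  calc (K : ℝ) * ((K : ℝ) * M) ≤ 2 ^ K * (2 ^ K * M) := by gcongr
    _ = (4 * A ^ 4) ^ K * B := by
        have h1 : (4 * A ^ 4) ^ K = (2 : ℝ) ^ K * 2 ^ K * (A ^ (2 * K) * A ^ (2 * K)) := by
          rw [← mul_pow, ← pow_add, mul_pow, ← pow_mul]
          congr 1
          · norm_num
          · congr 1; ring
        rw [hM, h1]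
        ring

end Pool.Agent.ROH
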