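import Pool.Agent.ROH.Defs
import Pool.Agent.ROH.PolyB

/-!
ROH-MaxP. The good point of a polynomial in `z, conj z` (first half of section 5, with `R = 1`, `lam = K`).

`h(d) = ‖P(d, conj d)‖ exp(-K ‖d‖²)` tends to `0` at infinity and is continuous: it has a maximum at some `d`
(`h` is not identically `0` because of `coeff_le_sup` and `p ≠ 0`).
(1) `nP K p ≤ C^K h(d)` : `coeff_le_sup` with `B = exp(K) h(d)`.
(2) `‖d‖ ≤ C`: `h(d) ≤ nP K p * max(1,‖d‖)^(2K) exp(-K ‖d‖²)`, so with (1) `exp(K (‖d‖² - 2 log max(1,‖d‖) - log C)) ≤ 1`.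
-/

set_option autoImplicit false

namespace Pool.Agent.ROH

open Complex ComplexConjugate Finset

private theorem mp_pd (K : ℕ) (p : ℕ → ℕ → ℂ) (z : ℂ) :
    Pd K p 0 0 z (conj z) = ∑ k ∈ range K, ∑ j ∈ range K, p k j * (z ^ k * conj z ^ j) := by
  unfold Pd
  simp

private theorem mp_ub (K : ℕ) (p : ℕ → ℕ → ℂ) (z : ℂ) :
    ‖Pd K p 0 0 z (conj z)‖ * Real.exp (-(K * ‖z‖ ^ 2)) ≤ nP K p * (2 * Real.exp (-(‖z‖ ^ 2 / 2))) ^ K := by
  obtain ⟨m, hm⟩ : ∃ m : ℝ, m = max 1 ‖z‖ := ⟨_, rfl⟩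
  have hm1 : 1 ≤ m := by rw [hm]; exact le_max_left _ _
  have hmz : ‖z‖ ≤ m := by rw [hm]; exact le_max_right _ _
  have hm2 : m ^ 2 ≤ 1 + ‖z‖ ^ 2 := by
    rw [hm]
    rcases le_total 1 ‖z‖ with h | h
    · rw [max_eq_right h]
      linarith
    · rw [max_eq_left h]
      nlinarith [sq_nonneg ‖z‖]
  have h1 : ‖Pd K p 0 0 z (conj z)‖ ≤ nP K p * (m ^ 2) ^ K := by
    rw [mp_pd]
    unfold nP
    rw [Finset.sum_mul]
    refine (norm_sum_le _ _).trans (Finset.sum_le_sum fun k hk => ?_)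
    rw [Finset.sum_mul]
    refine (norm_sum_le _ _).trans (Finset.sum_le_sum fun j hj => ?_)
    rw [norm_mul, norm_mul, norm_pow, norm_pow, RCLike.norm_conj, ← pow_add, ← pow_mul]
    refine mul_le_mul_of_nonneg_left ?_ (norm_nonneg _)
    refine (pow_le_pow_left₀ (norm_nonneg _) hmz _).trans (pow_le_pow_right₀ hm1 ?_)
    rw [Finset.mem_range] at hk hj
    omega
  have h2 : m ^ 2 * Real.exp (-(‖z‖ ^ 2)) ≤ 2 * Real.exp (-(‖z‖ ^ 2 / 2)) := by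
    have h3 : ‖z‖ ^ 2 / 2 + 1 ≤ Real.exp (‖z‖ ^ 2 / 2) := Real.add_one_le_exp _
    have h4 : Real.exp (-(‖z‖ ^ 2)) = Real.exp (-(‖z‖ ^ 2 / 2)) * Real.exp (-(‖z‖ ^ 2 / 2)) := by
      rw [← Real.exp_add]
      congr 1
      ring
    have h5 : Real.exp (‖z‖ ^ 2 / 2) * Real.exp (-(‖z‖ ^ 2 / 2)) = 1 := by
      rw [← Real.exp_add]
      simp
    have h6 : 0 < Real.exp (-(‖z‖ ^ 2 / 2)) := Real.exp_pos _
    have h7 : m ^ 2 ≤ 2 * Real.exp (‖z‖ ^ 2 / 2) := by nlinarith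
    calc m ^ 2 * Real.exp (-(‖z‖ ^ 2)) ≤ (2 * Real.exp (‖z‖ ^ 2 / 2)) * Real.exp (-(‖z‖ ^ 2)) :=
          mul_le_mul_of_nonneg_right h7 (Real.exp_pos _).le
      _ = 2 * (Real.exp (‖z‖ ^ 2 / 2) * Real.exp (-(‖z‖ ^ 2 / 2))) * Real.exp (-(‖z‖ ^ 2 / 2)) := by
          rw [h4]; ring
      _ = 2 * Real.exp (-(‖z‖ ^ 2 / 2)) := by rw [h5]; ring
  have h8 : Real.exp (-(K * ‖z‖ ^ 2)) = Real.exp (-(‖z‖ ^ 2)) ^ K := by
    rw [← Real.exp_nat_mul]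
    congr 1
    ring
  have hn : 0 ≤ nP K p := Finset.sum_nonneg fun _ _ => Finset.sum_nonneg fun _ _ => norm_nonneg _
  calc ‖Pd K p 0 0 z (conj z)‖ * Real.exp (-(K * ‖z‖ ^ 2))
      ≤ nP K p * (m ^ 2) ^ K * Real.exp (-(K * ‖z‖ ^ 2)) := mul_le_mul_of_nonneg_right h1 (Real.exp_pos _).le
    _ = nP K p * (m ^ 2 * Real.exp (-(‖z‖ ^ 2))) ^ K := by rw [h8, mul_pow]; ring
    _ ≤ nP K p * (2 * Real.exp (-(‖z‖ ^ 2 / 2))) ^ K :=
        mul_le_mul_of_nonneg_left (pow_le_pow_left₀ (by positivity) h2 _) hn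

private theorem mp_tend (K : ℕ) (hK : 1 ≤ K) (a : ℝ) :
    Filter.Tendsto (fun z : ℂ => a * (2 * Real.exp (-(‖z‖ ^ 2 / 2))) ^ K) (Filter.cocompact ℂ) (nhds 0) := by
  have h1 : Filter.Tendsto (fun z : ℂ => ‖z‖ ^ 2 / 2) (Filter.cocompact ℂ) Filter.atTop := by
    have h2 : Filter.Tendsto (fun t : ℝ => t ^ 2 / 2) Filter.atTop Filter.atTop :=
      (Filter.tendsto_pow_atTop two_ne_zero).atTop_div_const (by norm_num)
    exact h2.comp tendsto_norm_cocompact_atTop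
  have h3 : Filter.Tendsto (fun z : ℂ => Real.exp (-(‖z‖ ^ 2 / 2))) (Filter.cocompact ℂ) (nhds 0) :=
    Real.tendsto_exp_neg_atTop_nhds_zero.comp h1
  have h4 := ((h3.const_mul 2).pow K).const_mul a
  have h5 : a * (2 * 0) ^ K = (0 : ℝ) := by
    rw [mul_zero, zero_pow (by omega), mul_zero]
  rw [h5] at h4
  exact h4

theorem exists_maxP : ∃ C : ℝ, 1 ≤ C ∧ ∀ (K : ℕ) (p : ℕ → ℕ → ℂ), 1 ≤ K →
    (∃ k < K, ∃ j < K, p k j ≠ 0) → ∃ d : ℂ, ‖d‖ ≤ C ∧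
      (∀ z : ℂ, ‖Pd K p 0 0 z (conj z)‖ * Real.exp (-(K * ‖z‖ ^ 2)) ≤
        ‖Pd K p 0 0 d (conj d)‖ * Real.exp (-(K * ‖d‖ ^ 2))) ∧
      0 < ‖Pd K p 0 0 d (conj d)‖ ∧
      nP K p ≤ C ^ K * (‖Pd K p 0 0 d (conj d)‖ * Real.exp (-(K * ‖d‖ ^ 2))) := by
  obtain ⟨C0, hC0, hcoef⟩ := coeff_le_sup
  have he : (1 : ℝ) ≤ Real.exp 1 := Real.one_le_exp zero_le_one
  have hCe : 1 ≤ C0 * Real.exp 1 := by nlinarith
  refine ⟨4 * (C0 * Real.exp 1), by linarith, ?_⟩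
  intro K p hK hp
  have hnP : 0 < nP K p := by
    obtain ⟨k, hk, j, hj, hkj⟩ := hp
    unfold nP
    refine Finset.sum_pos' (fun _ _ => Finset.sum_nonneg fun _ _ => norm_nonneg _)
      ⟨k, Finset.mem_range.2 hk, Finset.sum_pos' (fun _ _ => norm_nonneg _)
        ⟨j, Finset.mem_range.2 hj, norm_pos_iff.2 hkj⟩⟩
  obtain ⟨h, hh⟩ : ∃ h : ℂ → ℝ, h = fun z => ‖Pd K p 0 0 z (conj z)‖ * Real.exp (-(K * ‖z‖ ^ 2)) := ⟨_, rfl⟩
  have hhz : ∀ z, h z = ‖Pd K p 0 0 z (conj z)‖ * Real.exp (-(K * ‖z‖ ^ 2)) := fun z => by rw [hh]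
  have h0 : ∀ z, 0 ≤ h z := fun z => by rw [hhz]; positivity
  -- the coefficients
  have hco : ∀ M : ℝ, (∀ z, h z ≤ M) → nP K p ≤ (C0 * Real.exp 1) ^ K * M := by
    intro M hM
    have h1 := hcoef K p (Real.exp K * M) hK ?_
    · have h2 : Real.exp (K : ℝ) = Real.exp 1 ^ K := by
        rw [← Real.exp_nat_mul]
        simp
      rw [h2] at h1
      unfold nP
      rw [mul_pow]
      linarith
    · intro z hz
      rw [← mp_pd]
      have h2 := hM z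
      rw [hhz] at h2
      have h3 : 1 ≤ Real.exp (K : ℝ) * Real.exp (-(K * ‖z‖ ^ 2)) := by
        rw [← Real.exp_add]
        apply Real.one_le_exp
        have h4 : ‖z‖ ^ 2 ≤ 1 := by nlinarith [norm_nonneg z]
        have h5 : (0 : ℝ) ≤ K := Nat.cast_nonneg _
        nlinarith
      calc ‖Pd K p 0 0 z (conj z)‖ = ‖Pd K p 0 0 z (conj z)‖ * 1 := (mul_one _).symm
        _ ≤ ‖Pd K p 0 0 z (conj z)‖ * (Real.exp (K : ℝ) * Real.exp (-(K * ‖z‖ ^ 2))) :=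
            mul_le_mul_of_nonneg_left h3 (norm_nonneg _)
        _ = Real.exp (K : ℝ) * (‖Pd K p 0 0 z (conj z)‖ * Real.exp (-(K * ‖z‖ ^ 2))) := by ring
        _ ≤ Real.exp (K : ℝ) * M := mul_le_mul_of_nonneg_left h2 (Real.exp_pos _).le
  -- the maximum
  have hcont : Continuous h := by
    rw [hh]
    refine Continuous.mul ?_ (by fun_prop)
    refine Continuous.norm ?_
    have h1 : (fun z : ℂ => Pd K p 0 0 z (conj z)) =
        fun z => ∑ k ∈ range K, ∑ j ∈ range K, p k j * (z ^ k * conj z ^ j) := funext (mp_pd K p)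
    rw [h1]
    refine continuous_finset_sum _ fun k _ => continuous_finset_sum _ fun j _ => ?_
    exact continuous_const.mul ((continuous_pow k).mul (Complex.continuous_conj.pow j))
  obtain ⟨x0, hx0⟩ : ∃ x0, 0 < h x0 := by
    by_contra hne
    push Not at hne
    have h1 := hco 0 hne
    rw [mul_zero] at h1
    linarith
  obtain ⟨d, hd⟩ : ∃ d, ∀ z, h z ≤ h d := by
    refine hcont.exists_forall_ge' x0 ?_
    have h1 := (mp_tend K hK (nP K p)).eventually (gt_mem_nhds hx0)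
    filter_upwards [h1] with z hz
    have h2 := mp_ub K p z
    rw [← hhz] at h2
    exact h2.trans hz.le
  have hMpos : 0 < h d := hx0.trans_le (hd x0)
  have hc1 := hco (h d) hd
  have hub := mp_ub K p d
  rw [← hhz] at hub
  refine ⟨d, ?_, ?_, ?_, ?_⟩
  · have h1 : 1 ≤ (C0 * Real.exp 1 * (2 * Real.exp (-(‖d‖ ^ 2 / 2)))) ^ K := by
      have h2 : h d ≤ (C0 * Real.exp 1) ^ K * h d * (2 * Real.exp (-(‖d‖ ^ 2 / 2))) ^ K :=
        hub.trans (mul_le_mul_of_nonneg_right hc1 (by positivity))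
      rw [mul_pow]
      by_contra hlt
      push Not at hlt
      have h3 : (C0 * Real.exp 1) ^ K * h d * (2 * Real.exp (-(‖d‖ ^ 2 / 2))) ^ K =
        ((C0 * Real.exp 1) ^ K * (2 * Real.exp (-(‖d‖ ^ 2 / 2))) ^ K) * h d := by ring
      rw [h3] at h2
      have h4 := mul_lt_mul_of_pos_right hlt hMpos
      linarith
    have h2 : 1 ≤ C0 * Real.exp 1 * (2 * Real.exp (-(‖d‖ ^ 2 / 2))) := by
      by_contra hlt
      push Not at hlt
      have h3 := pow_lt_one₀ (by positivity) hlt (by omega : K ≠ 0)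
      linarith
    have h3 : Real.exp (‖d‖ ^ 2 / 2) ≤ 2 * (C0 * Real.exp 1) := by
      have h5 : Real.exp (-(‖d‖ ^ 2 / 2)) * Real.exp (‖d‖ ^ 2 / 2) = 1 := by
        rw [← Real.exp_add]
        simp
      have h6 : 0 < Real.exp (‖d‖ ^ 2 / 2) := Real.exp_pos _
      calc Real.exp (‖d‖ ^ 2 / 2) = 1 * Real.exp (‖d‖ ^ 2 / 2) := (one_mul _).symm
        _ ≤ C0 * Real.exp 1 * (2 * Real.exp (-(‖d‖ ^ 2 / 2))) * Real.exp (‖d‖ ^ 2 / 2) :=
            mul_le_mul_of_nonneg_right h2 h6.le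
        _ = 2 * (C0 * Real.exp 1) * (Real.exp (-(‖d‖ ^ 2 / 2)) * Real.exp (‖d‖ ^ 2 / 2)) := by ring
        _ = 2 * (C0 * Real.exp 1) := by rw [h5, mul_one]
    have h4 : ‖d‖ ^ 2 / 2 + 1 ≤ Real.exp (‖d‖ ^ 2 / 2) := Real.add_one_le_exp _
    have h5 : ‖d‖ ^ 2 ≤ 4 * (C0 * Real.exp 1) := by linarith
    have h6 : ‖d‖ ^ 2 ≤ (4 * (C0 * Real.exp 1)) ^ 2 := by nlinarith
    exact le_of_sq_le_sq h6 (by linarith)
  · intro z
    rw [← hhz, ← hhz]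
    exact hd z
  · rw [hhz] at hMpos
    exact pos_of_mul_pos_left hMpos (Real.exp_pos _).le
  · rw [← hhz]
    refine hc1.trans (mul_le_mul_of_nonneg_right ?_ hMpos.le)
    exact pow_le_pow_left₀ (by linarith) (by linarith) _

end Pool.Agent.ROH
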