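import Pool.Agent.ROH.Defs

/-!
ROH-NetCov. Finite nets modulo `O`.

By `c.cov` with `R = r = √C0 =: ρ` every `(x, y)` is `O`-equivalent to a point with `‖x‖ ≤ ρ`, `‖y‖ ≤ ρ`.
Cover the discs of radius `ρ` by a square grid of mesh `ε` (for `x`) and `ε'` (for `y`): the points
`(a + b I) ε`, `a, b ∈ ℤ`, `|a|, |b| ≤ ρ/ε + 1`; at most `(2ρ/ε + 3)² ≤ C/ε²` of them for `ε ≤ 1`, and every point of the
disc is at distance `≤ ε` from one of them (round the real and imaginary part of `x/ε`).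
-/

set_option autoImplicit false

namespace Pool.Agent.ROH

open Complex ComplexConjugate Finset

private theorem netCov_grid (ρ : ℝ) (hρ : 0 < ρ) (ε : ℝ) (hε : 0 < ε) (hε1 : ε ≤ 1) :
    ∃ G : Finset ℂ, (G.card : ℝ) ≤ (2 * ρ + 5) ^ 2 / ε ^ 2 ∧
      ∀ x : ℂ, ‖x‖ ≤ ρ → ∃ g ∈ G, ‖x - g‖ ≤ ε := by
  classical
  set M : ℕ := ⌈ρ / ε⌉₊ + 1 with hM
  set I : Finset ℤ := Finset.Icc (-(M : ℤ)) M with hI
  refine ⟨(I ×ˢ I).image (fun p => ((p.1 : ℂ) + (p.2 : ℂ) * Complex.I) * (ε : ℂ)), ?_, ?_⟩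
  · have h1 : ((I ×ˢ I).image (fun p : ℤ × ℤ => ((p.1 : ℂ) + (p.2 : ℂ) * Complex.I) * (ε : ℂ))).card
        ≤ (2 * M + 1) ^ 2 := by
      refine Finset.card_image_le.trans ?_
      rw [Finset.card_product, hI, Int.card_Icc]
      have : ((M : ℤ) + 1 - -(M : ℤ)).toNat = 2 * M + 1 := by omega
      rw [this, sq]
    have h2 : (M : ℝ) ≤ ρ / ε + 2 := by
      have := (Nat.ceil_lt_add_one (div_pos hρ hε).le).le
      rw [hM]
      push_cast
      linarith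
    have h3 : (2 * (M : ℝ) + 1) ≤ (2 * ρ + 5) / ε := by
      rw [le_div_iff₀ hε]
      have h4 : (M : ℝ) * ε ≤ ρ + 2 * ε := by
        calc (M : ℝ) * ε ≤ (ρ / ε + 2) * ε := by gcongr
          _ = ρ + 2 * ε := by field_simp
      nlinarith
    calc (((I ×ˢ I).image (fun p : ℤ × ℤ => ((p.1 : ℂ) + (p.2 : ℂ) * Complex.I) * (ε : ℂ))).card : ℝ)
        ≤ (((2 * M + 1) ^ 2 : ℕ) : ℝ) := by exact_mod_cast h1
      _ = (2 * (M : ℝ) + 1) ^ 2 := by push_cast; ring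
      _ ≤ ((2 * ρ + 5) / ε) ^ 2 := by gcongr
      _ = (2 * ρ + 5) ^ 2 / ε ^ 2 := by rw [div_pow]
  · intro x hx
    have hre : |x.re / ε| ≤ ρ / ε := by
      rw [abs_div, abs_of_pos hε]
      gcongr
      exact (Complex.abs_re_le_norm x).trans hx
    have him : |x.im / ε| ≤ ρ / ε := by
      rw [abs_div, abs_of_pos hε]
      gcongr
      exact (Complex.abs_im_le_norm x).trans hx
    have hmem : ∀ t : ℝ, |t| ≤ ρ / ε → round t ∈ I := by
      intro t ht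
      have h1 := abs_sub_round t
      have h2 : (⌈ρ / ε⌉₊ : ℝ) ≥ ρ / ε := Nat.le_ceil _
      have h3 : |(round t : ℝ)| ≤ (M : ℝ) := by
        have : (round t : ℝ) = t - (t - round t) := by ring
        rw [this]
        calc |t - (t - (round t : ℝ))| ≤ |t| + |t - round t| := abs_sub _ _
          _ ≤ ρ / ε + 1 / 2 := by linarith
          _ ≤ (M : ℝ) := by rw [hM]; push_cast; linarith
      rw [hI, Finset.mem_Icc]
      have h4 := abs_le.1 h3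
      constructor
      · have := h4.1
        exact_mod_cast this
      · have := h4.2
        exact_mod_cast this
    refine ⟨(((round (x.re / ε) : ℤ) : ℂ) + ((round (x.im / ε) : ℤ) : ℂ) * Complex.I) * (ε : ℂ),
      Finset.mem_image.2 ⟨(round (x.re / ε), round (x.im / ε)),
        Finset.mem_product.2 ⟨hmem _ hre, hmem _ him⟩, rfl⟩, ?_⟩
    have hεc : (ε : ℂ) ≠ 0 := by exact_mod_cast hε.ne'
    have h1 : x - (((round (x.re / ε) : ℤ) : ℂ) + ((round (x.im / ε) : ℤ) : ℂ) * Complex.I) * (ε : ℂ)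
        = (((x.re / ε - round (x.re / ε) : ℝ) : ℂ) +
          ((x.im / ε - round (x.im / ε) : ℝ) : ℂ) * Complex.I) * (ε : ℂ) := by
      have hx' : x = (x.re : ℂ) + (x.im : ℂ) * Complex.I := (Complex.re_add_im x).symm
      have e1 : (x.re : ℂ) / ε * ε = x.re := div_mul_cancel₀ _ hεc
      have e2 : (x.im : ℂ) / ε * ε = x.im := div_mul_cancel₀ _ hεc
      push_cast
      linear_combination hx' - e1 - Complex.I * e2
    rw [h1, norm_mul, Complex.norm_real, Real.norm_eq_abs, abs_of_pos hε]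
    have h2 : ‖((x.re / ε - round (x.re / ε) : ℝ) : ℂ) +
          ((x.im / ε - round (x.im / ε) : ℝ) : ℂ) * Complex.I‖ ≤ 1 := by
      refine (norm_add_le _ _).trans ?_
      rw [norm_mul, Complex.norm_I, mul_one, Complex.norm_real, Complex.norm_real,
        Real.norm_eq_abs, Real.norm_eq_abs]
      have := abs_sub_round (x.re / ε)
      have := abs_sub_round (x.im / ε)
      linarith
    calc _ ≤ 1 * ε := by gcongr
      _ = ε := one_mul ε

namespace Core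

variable (c : Core)

theorem exists_net : ∃ C : ℝ, 1 ≤ C ∧ ∀ ε ε' : ℝ, 0 < ε → ε ≤ 1 → 0 < ε' → ε' ≤ 1 →
    ∃ Z : Finset (ℂ × ℂ), (Z.card : ℝ) ≤ C / (ε ^ 2 * ε' ^ 2) ∧
      ∀ x y : ℂ, ∃ u ∈ c.O, ∃ z ∈ Z, ‖x + u.1 - z.1‖ ≤ ε ∧ ‖y + u.2 - z.2‖ ≤ ε' := by
  classical
  obtain ⟨C0, hC0, hcov⟩ := c.cov
  set ρ := Real.sqrt C0 with hρd
  have hρ : 0 < ρ := Real.sqrt_pos.2 hC0
  have hρρ : ρ * ρ = C0 := Real.mul_self_sqrt hC0.le
  refine ⟨(2 * ρ + 5) ^ 2 * (2 * ρ + 5) ^ 2, ?_, ?_⟩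
  · have : (1 : ℝ) ≤ 2 * ρ + 5 := by linarith
    have h2 : (1 : ℝ) ≤ (2 * ρ + 5) ^ 2 := one_le_pow₀ this
    nlinarith
  · intro ε ε' hε hε1 hε' hε'1
    obtain ⟨G, hG, hGx⟩ := netCov_grid ρ hρ ε hε hε1
    obtain ⟨G', hG', hGx'⟩ := netCov_grid ρ hρ ε' hε' hε'1
    refine ⟨G ×ˢ G', ?_, ?_⟩
    · rw [Finset.card_product]
      push_cast
      calc (G.card : ℝ) * (G'.card : ℝ) ≤ ((2 * ρ + 5) ^ 2 / ε ^ 2) * ((2 * ρ + 5) ^ 2 / ε' ^ 2) := by
            gcongr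
        _ = _ := by rw [div_mul_div_comm]
    · intro x y
      obtain ⟨u, hu, hux, huy⟩ := hcov ρ ρ hρ hρ hρρ.ge x y
      obtain ⟨g, hg, hgx⟩ := hGx (x - u.1) hux
      obtain ⟨g', hg', hgx'⟩ := hGx' (y - u.2) huy
      refine ⟨-u, c.O.neg_mem hu, (g, g'), Finset.mem_product.2 ⟨hg, hg'⟩, ?_, ?_⟩
      · simpa [sub_eq_add_neg] using hgx
      · simpa [sub_eq_add_neg] using hgx'

end Core

end Pool.Agent.ROH
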