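import Pool.Agent.ROH.SupS

/-!
ROH-Osc. Oscillation of `nf` on `V_R` (section 4 of the note).
-/

set_option autoImplicit false

namespace Pool.Agent.ROH

open Complex ComplexConjugate Finset

private theorem osc_sq (x u : ℂ) : ‖x + u‖ ^ 2 = ‖x‖ ^ 2 + 2 * (conj x * u).re + ‖u‖ ^ 2 := by
  rw [Complex.sq_norm, Complex.sq_norm, Complex.sq_norm, Complex.normSq_apply, Complex.normSq_apply,
    Complex.normSq_apply]
  simp only [Complex.add_re, Complex.add_im, Complex.mul_re, Complex.conj_re, Complex.conj_im]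
  ring

private theorem osc_diff (F : ℂ × ℂ × ℂ → ℂ) (hF : Differentiable ℂ F) (x y w ξ η ζ : ℂ) :
    Differentiable ℂ fun l : ℂ => F (x + l * ξ, y + l * η, w + l * ζ) := by
  have e2 : Differentiable ℂ fun l : ℂ => ((x + l * ξ, y + l * η, w + l * ζ) : ℂ × ℂ × ℂ) := by
    fun_prop
  exact hF.comp e2

namespace Core

variable (c : Core)

/-- the exponent -/
private noncomputable def oq (x y u v w : ℂ) : ℂ :=
  (((c.al + c.be) * (‖x‖ ^ 2 + ‖y‖ ^ 2) : ℝ) : ℂ) + (((2 * (c.al + c.be) : ℝ) : ℂ) * (conj x * u) +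
    ((2 * c.al : ℝ) : ℂ) * (conj y * v) + ((2 * c.be : ℝ) : ℂ) * (y * w))

private theorem oq_re (x y u v w : ℂ) : (c.oq x y u v w).re = (c.al + c.be) * (‖x‖ ^ 2 + ‖y‖ ^ 2) +
    (2 * (c.al + c.be) * (conj x * u).re + 2 * c.al * (conj y * v).re + 2 * c.be * (y * w).re) := by
  unfold oq
  rw [Complex.add_re, Complex.add_re, Complex.add_re, Complex.ofReal_re, Complex.re_ofReal_mul,
    Complex.re_ofReal_mul, Complex.re_ofReal_mul]

private noncomputable def oG (K : ℕ) (p : ℕ → ℕ → ℂ) (x y u v w : ℂ) : ℂ :=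
  c.f K p (x + u) (y + v) (conj y + w) * cexp (-(c.oq x y u v w))

private theorem nf_oG (K : ℕ) (p : ℕ → ℕ → ℂ) (x y u v w : ℂ) :
    c.nf K p (x + u) (y + v) (conj y + w) = ‖c.oG K p x y u v w‖ *
      Real.exp (-((c.al + c.be) * ‖u‖ ^ 2 + c.al * ‖v‖ ^ 2 + c.be * ‖w‖ ^ 2)) := by
  unfold nf oG w1 w2
  rw [norm_mul, Complex.norm_exp, Complex.neg_re, oq_re, mul_assoc, ← Real.exp_add, ← Real.exp_add, osc_sq x u,
    osc_sq y v, osc_sq (conj y) w, Complex.conj_conj, Complex.norm_conj]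
  congr 2
  ring

private theorem oG_norm (K : ℕ) (p : ℕ → ℕ → ℂ) (x y u v w : ℂ) :
    ‖c.oG K p x y u v w‖ = c.nf K p (x + u) (y + v) (conj y + w) *
      Real.exp ((c.al + c.be) * ‖u‖ ^ 2 + c.al * ‖v‖ ^ 2 + c.be * ‖w‖ ^ 2) := by
  rw [nf_oG, mul_assoc, ← Real.exp_add, neg_add_cancel, Real.exp_zero, mul_one]

private theorem osc_core (K : ℕ) (p : ℕ → ℕ → ℂ) (B ρ : ℝ) (hρ : 0 < ρ) (hρ1 : ρ ≤ 1) (hB0 : 0 ≤ B)
    (hB : ∀ d : ℂ, ‖d‖ ≤ 2 * ρ → c.S K p d ≤ B) (x y ξ η ζ : ℂ) (hξ : ‖ξ‖ ≤ 1) (hη : ‖η‖ ≤ ρ) (hζ : ‖ζ‖ ≤ ρ)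
    (ε : ℝ) (hε0 : 0 < ε) (hε1 : ε ≤ 1 / 4) :
    c.nf K p (x + ε * ξ) (y + ε * η) (conj y + ε * ζ) ≤
      c.nf K p x y (conj y) + 2 * Real.exp (2 * (c.al + c.be)) * ε * B := by
  have hal := c.hal
  have hbe := c.hbe
  set g : ℂ → ℂ := fun l => c.oG K p x y (l * ξ) (l * η) (l * ζ) with hg
  have hd : Differentiable ℂ g := by
    have e1 : Differentiable ℂ fun l : ℂ => c.f K p (x + l * ξ) (y + l * η) (conj y + l * ζ) := by
      exact osc_diff (fun z => c.f K p z.1 z.2.1 z.2.2) (c.differentiable_f K p) x y (conj y) ξ η ζ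
    have e3 : Differentiable ℂ fun l : ℂ => cexp (-(c.oq x y (l * ξ) (l * η) (l * ζ))) := by
      unfold oq
      fun_prop
    exact e1.mul e3
  have hbd : ∀ l : ℂ, ‖l‖ ≤ 1 → ‖g l‖ ≤ B * Real.exp (2 * (c.al + c.be)) := by
    intro l hl
    show ‖c.oG K p x y (l * ξ) (l * η) (l * ζ)‖ ≤ _
    rw [oG_norm]
    have n1 : ‖l * ξ‖ ≤ 1 := by
      rw [norm_mul]
      nlinarith [norm_nonneg l, norm_nonneg ξ]
    have n2 : ‖l * η‖ ≤ ρ := by
      rw [norm_mul]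
      nlinarith [norm_nonneg l, norm_nonneg η]
    have n3 : ‖l * ζ‖ ≤ ρ := by
      rw [norm_mul]
      nlinarith [norm_nonneg l, norm_nonneg ζ]
    have n4 : c.nf K p (x + l * ξ) (y + l * η) (conj y + l * ζ) ≤ B := by
      have e1 := c.nf_le_S K p (x + l * ξ) (y + l * η) (l * ζ - conj (l * η))
      have e2 : conj (y + l * η) + (l * ζ - conj (l * η)) = conj y + l * ζ := by
        rw [map_add]
        ring
      rw [e2] at e1
      refine e1.trans (hB _ ?_)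
      have e3 := norm_sub_le (l * ζ) (conj (l * η))
      rw [Complex.norm_conj] at e3
      linarith
    have n5 : Real.exp ((c.al + c.be) * ‖l * ξ‖ ^ 2 + c.al * ‖l * η‖ ^ 2 + c.be * ‖l * ζ‖ ^ 2) ≤
        Real.exp (2 * (c.al + c.be)) := by
      refine Real.exp_le_exp.2 ?_
      have m1 : ‖l * ξ‖ ^ 2 ≤ 1 := by nlinarith [norm_nonneg (l * ξ)]
      have m2 : ‖l * η‖ ^ 2 ≤ 1 := by nlinarith [norm_nonneg (l * η)]
      have m3 : ‖l * ζ‖ ^ 2 ≤ 1 := by nlinarith [norm_nonneg (l * ζ)]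
      have k1 := mul_le_mul_of_nonneg_left m1 (by linarith : 0 ≤ c.al + c.be)
      have k2 := mul_le_mul_of_nonneg_left m2 hal.le
      have k3 := mul_le_mul_of_nonneg_left m3 hbe.le
      linarith
    exact mul_le_mul n4 n5 (Real.exp_pos _).le hB0
  have hder : ∀ z ∈ Metric.closedBall (0 : ℂ) (1 / 2), ‖deriv g z‖ ≤ 2 * (B * Real.exp (2 * (c.al + c.be))) := by
    intro z hz
    have e1 := Complex.norm_deriv_le_of_forall_mem_sphere_norm_le (c := z) (R := 1 / 2)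
      (C := B * Real.exp (2 * (c.al + c.be))) (f := g) (by norm_num) hd.diffContOnCl (fun u hu => by
        refine hbd u ?_
        rw [mem_sphere_iff_norm] at hu
        rw [mem_closedBall_zero_iff] at hz
        have e2 : u = (u - z) + z := by ring
        rw [e2]
        have e3 := norm_add_le (u - z) z
        linarith)
    linarith
  have hmv := Convex.norm_image_sub_le_of_norm_deriv_le (f := g) (s := Metric.closedBall (0 : ℂ) (1 / 2))
    (x := 0) (y := (ε : ℂ)) (fun z _ => hd z) hder (convex_closedBall _ _)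
    (by rw [mem_closedBall_zero_iff, norm_zero]; norm_num)
    (by rw [mem_closedBall_zero_iff, Complex.norm_real, Real.norm_eq_abs, abs_of_pos hε0]; linarith)
  rw [sub_zero, Complex.norm_real, Real.norm_eq_abs, abs_of_pos hε0] at hmv
  have h0 : ‖g 0‖ = c.nf K p x y (conj y) := by
    show ‖c.oG K p x y (0 * ξ) (0 * η) (0 * ζ)‖ = _
    rw [oG_norm, zero_mul, zero_mul, zero_mul, add_zero, add_zero, add_zero, norm_zero]
    norm_num
  have h1 : c.nf K p (x + ε * ξ) (y + ε * η) (conj y + ε * ζ) ≤ ‖g ε‖ := by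
    rw [nf_oG]
    show _ ≤ ‖c.oG K p x y (ε * ξ) (ε * η) (ε * ζ)‖
    refine mul_le_of_le_one_right (norm_nonneg _) ?_
    rw [Real.exp_le_one_iff]
    have k1 : 0 ≤ (c.al + c.be) * ‖(ε : ℂ) * ξ‖ ^ 2 := by positivity
    have k2 : 0 ≤ c.al * ‖(ε : ℂ) * η‖ ^ 2 := by positivity
    have k3 : 0 ≤ c.be * ‖(ε : ℂ) * ζ‖ ^ 2 := by positivity
    linarith
  have h2 : ‖g ε‖ ≤ ‖g 0‖ + ‖g ε - g 0‖ := by
    have e2 : g ε = g 0 + (g ε - g 0) := by ring
    calc ‖g ε‖ = ‖g 0 + (g ε - g 0)‖ := by rw [← e2]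
      _ ≤ _ := norm_add_le _ _
  rw [h0] at h2
  have h3 : 2 * (B * Real.exp (2 * (c.al + c.be))) * ε = 2 * Real.exp (2 * (c.al + c.be)) * ε * B := by ring
  linarith

theorem exists_osc : ∃ C : ℝ, 1 ≤ C ∧ ∀ (K : ℕ) (p : ℕ → ℕ → ℂ) (B ρ ε : ℝ), 0 < ρ → ρ ≤ 1 →
    0 < ε → ε ≤ 1 / 4 → (∀ d : ℂ, ‖d‖ ≤ 2 * ρ → c.S K p d ≤ B) →
    ∀ x y ξ η : ℂ, ‖ξ‖ ≤ ε → ‖η‖ ≤ ε * ρ →
      c.nf K p (x + ξ) (y + η) (conj (y + η)) ≤ c.nf K p x y (conj y) + C * ε * B := by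
  have hal := c.hal
  have hbe := c.hbe
  refine ⟨2 * Real.exp (2 * (c.al + c.be)), ?_, ?_⟩
  · have h1 : 1 ≤ Real.exp (2 * (c.al + c.be)) := Real.one_le_exp (by linarith)
    linarith
  intro K p B ρ ε hρ hρ1 hε0 hε1 hB x y ξ η hξ hη
  have hB0 : 0 ≤ B := (c.S_nonneg K p 0).trans (hB 0 (by rw [norm_zero]; linarith))
  have hεc : (ε : ℂ) ≠ 0 := by
    rw [Ne, Complex.ofReal_eq_zero]
    exact hε0.ne'
  have e1 : (ε : ℂ) * (ξ / ε) = ξ := mul_div_cancel₀ _ hεc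
  have e2 : (ε : ℂ) * (η / ε) = η := mul_div_cancel₀ _ hεc
  have e3 : (ε : ℂ) * (conj η / ε) = conj η := mul_div_cancel₀ _ hεc
  have n0 : ‖(ε : ℂ)‖ = ε := by rw [Complex.norm_real, Real.norm_eq_abs, abs_of_pos hε0]
  have n1 : ‖ξ / ε‖ ≤ 1 := by
    rw [norm_div, n0, div_le_iff₀ hε0]
    linarith
  have n2 : ‖η / ε‖ ≤ ρ := by
    rw [norm_div, n0, div_le_iff₀ hε0]
    linarith
  have n3 : ‖conj η / ε‖ ≤ ρ := by
    rw [norm_div, n0, Complex.norm_conj, div_le_iff₀ hε0]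
    linarith
  have h := c.osc_core K p B ρ hρ hρ1 hB0 hB x y (ξ / ε) (η / ε) (conj η / ε) n1 n2 n3 ε hε0 hε1
  rw [e1, e2, e3, ← map_add] at h
  exact h

end Core

end Pool.Agent.ROH
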