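import Pool.Agent.ROH.RepLin
import Pool.Agent.ROH.RepMul

/-!
ROH-RepJet. Arithmetic of the coefficients `k! J G n k`.

`G = Ga * (Gb * (Gb * Gb)) * Gc`: apply `rep_J_mul` four times to `rep_Ga` (`p = 0`), `rep_Gb` (`p = 1`, three times),
`rep_Gc` (`p = 0`), then multiply by the integer `k! ≤ N^N` (`Rep.int`, `Rep.mul`). All lengths and denominators are
`≤ exp(C N log²(N+2))` (the factors `(N+1)²`, `δ+1` too).
-/

set_option autoImplicit false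

namespace Pool.Agent.ROH

open Complex ComplexConjugate Finset Polynomial Pool.Agent.GP

variable {δ : ℕ} {ω : Fin (δ + 1) → ℂ} {θ : ℂ} {D0 : ℤ[X]} {E : ℕ} {X : ℝ} {c κ : ℂ}

private theorem rj_ent_Ga {s : ℂ → ℂ} (hs : Differentiable ℂ s) (c P : ℂ) : Ent2 (Ga s c P) := by
  have h : Differentiable ℂ (fun z : ℂ × ℂ => c * P / 2 * z.1 + 1 / 2 * z.2) := by fun_prop
  exact hs.comp h

private theorem rj_ent_Gb {s : ℂ → ℂ} (hs : Differentiable ℂ s) (c Q : ℂ) : Ent2 (Gb s c Q) := by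
  have h : Differentiable ℂ (fun z : ℂ × ℂ => c * Q / (2 * r3) * z.1 + -(1 / (2 * r3)) * z.2) := by
    fun_prop
  exact hs.comp h

private theorem rj_ent_Gc (κ : ℂ) : Ent2 (Gc κ) := by
  have h : Differentiable ℂ (fun z : ℂ × ℂ => cexp (-(κ * z.1 * z.2))) := by fun_prop
  exact h

theorem rep_jet (env : Env δ ω θ D0 E X c κ) {s : ℂ → ℂ} (hs : Differentiable ℂ s) (ht : RatTay s) :
    ∃ C : ℝ, 1 ≤ C ∧ ∀ N : ℕ, 1 ≤ N → ∃ D : ℕ, 0 < D ∧
      (D : ℝ) ≤ Real.exp (C * N * Real.log (N + 2) ^ 2) ∧ ∀ n ≤ N, ∀ k ≤ N, ∀ P Q h : ℤ,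
        |P| ≤ 2 * N → |Q| ≤ 2 * N → |h| ≤ N →
        Rep (δ + 1) ω θ (D * aeval θ D0 ^ (n + 3) * ((k.factorial : ℂ) * J (G s c (κ * h) P Q) n k))
          ((n + 3) * E) (Real.exp (C * N * Real.log (N + 2) ^ 2)) := by
  obtain ⟨Ca, hCa, Ha⟩ := rep_Ga env hs ht
  obtain ⟨Cb, hCb, Hb⟩ := rep_Gb env hs ht
  obtain ⟨Cc, hCc, Hc⟩ := rep_Gc env
  refine ⟨9 + 5 * δ + Ca + 3 * Cb + Cc, ?_, fun N hN => ?_⟩
  · have : (0 : ℝ) ≤ δ := Nat.cast_nonneg _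
    linarith
  obtain ⟨Da, hDa, hDa', Ha⟩ := Ha N hN
  obtain ⟨Db, hDb, hDb', Hb⟩ := Hb N hN
  obtain ⟨Dc, hDc, hDc', Hc⟩ := Hc N hN
  have hN1 : (1 : ℝ) ≤ N := by exact_mod_cast hN
  have hlog : 1 ≤ Real.log ((N : ℝ) + 2) := by
    rw [Real.le_log_iff_exp_le (by linarith)]
    have := Real.exp_one_lt_d9
    linarith
  set L : ℝ := Real.log ((N : ℝ) + 2) with hL
  have hLL : L ≤ L ^ 2 := by nlinarith
  set Λ : ℝ := N * L ^ 2 with hΛ
  have hΛL : L ≤ Λ := by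
    rw [hΛ]
    nlinarith [sq_nonneg L]
  have hΛ1 : 1 ≤ Λ := hlog.trans hΛL
  have eqx : ∀ x : ℝ, x * N * L ^ 2 = x * Λ := fun x => by rw [hΛ]; ring
  have hu : ((N : ℝ) + 1) ≤ Real.exp Λ := by
    have h1 : ((N : ℝ) + 2) = Real.exp L := by rw [hL, Real.exp_log (by linarith)]
    have h2 : Real.exp L ≤ Real.exp Λ := Real.exp_le_exp.2 hΛL
    linarith
  have hv : ((δ : ℝ) + 1) ≤ Real.exp (δ * Λ) := by
    have h1 : (δ : ℝ) + 1 ≤ Real.exp δ := Real.add_one_le_exp _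
    have h2 : Real.exp (δ : ℝ) ≤ Real.exp (δ * Λ) := by
      apply Real.exp_le_exp.2
      have : (0 : ℝ) ≤ δ := Nat.cast_nonneg _
      nlinarith
    linarith
  rw [eqx] at hDa' hDb' hDc'
  refine ⟨Da * (Db * (Db * Db)) * Dc, by positivity, ?_, ?_⟩
  · rw [eqx]
    push_cast
    have h1 : (Da : ℝ) * (Db * (Db * Db)) * Dc ≤ Real.exp (Ca * Λ) * (Real.exp (Cb * Λ) *
        (Real.exp (Cb * Λ) * Real.exp (Cb * Λ))) * Real.exp (Cc * Λ) := by
      gcongr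
    refine h1.trans ?_
    rw [← Real.exp_add, ← Real.exp_add, ← Real.exp_add, ← Real.exp_add]
    apply Real.exp_le_exp.2
    have h2 : (0 : ℝ) ≤ δ * Λ := by positivity
    nlinarith
  intro n hn k hk P Q h hP hQ hh
  set Xa : ℝ := Real.exp (Ca * Λ) with hXa
  set Xb : ℝ := Real.exp (Cb * Λ) with hXb
  set Xc : ℝ := Real.exp (Cc * Λ) with hXc
  have ea := rj_ent_Ga hs c P
  have eb := rj_ent_Gb hs c Q
  have ec := rj_ent_Gc (κ * h)
  have ra : ∀ n ≤ N, ∀ i ≤ N, Rep (δ + 1) ω θ (Da * aeval θ D0 ^ (n + 0) * J (Ga s c P) n i)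
      ((n + 0) * E) Xa := by
    intro n hn i hi
    have := Ha n hn i hi P hP
    rw [eqx] at this
    simpa only [add_zero] using this
  have rb : ∀ n ≤ N, ∀ i ≤ N, Rep (δ + 1) ω θ (Db * aeval θ D0 ^ (n + 1) * J (Gb s c Q) n i)
      ((n + 1) * E) Xb := by
    intro n hn i hi
    have := Hb n hn i hi Q hQ
    rwa [eqx] at this
  have rc : ∀ n ≤ N, ∀ i ≤ N, Rep (δ + 1) ω θ (Dc * aeval θ D0 ^ (n + 0) * J (Gc (κ * h)) n i)
      ((n + 0) * E) Xc := by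
    intro n hn i hi
    have := Hc n hn i hi h hh
    rw [eqx] at this
    simpa only [add_zero] using this
  have pa : 0 < Xa := Real.exp_pos _
  have pb : 0 < Xb := Real.exp_pos _
  have pc : 0 < Xc := Real.exp_pos _
  have r1 := rep_J_mul eb eb N 1 1 Db Db Xb Xb pb.le pb.le rb rb
  have e1 := eb.mul eb
  have r2 := rep_J_mul eb e1 N 1 (1 + 1) Db (Db * Db) Xb _ pb.le (by positivity) rb
    (fun n hn i hi => r1 n i hn hi)
  have e2 := eb.mul e1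
  have r3' := rep_J_mul ea e2 N 0 (1 + (1 + 1)) Da (Db * (Db * Db)) Xa _ pa.le (by positivity) ra
    (fun n hn i hi => r2 n i hn hi)
  have e3 := ea.mul e2
  have r4 := rep_J_mul e3 ec N (0 + (1 + (1 + 1))) 0 (Da * (Db * (Db * Db))) Dc _ Xc (by positivity)
    pc.le (fun n hn i hi => r3' n i hn hi) rc n k hn hk
  have r5 := r4.mul (Rep.int ω θ (k.factorial : ℤ)) (Nat.succ_pos δ)
  have hk1 : ((k.factorial : ℕ) : ℝ) ≤ Real.exp Λ := by
    have h1 : k.factorial ≤ N ^ N := (Nat.factorial_le hk).trans (Nat.factorial_le_pow N)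
    have h2 : ((k.factorial : ℕ) : ℝ) ≤ (N : ℝ) ^ N := by exact_mod_cast h1
    refine h2.trans ?_
    have h3 : (N : ℝ) ≤ Real.exp L := by
      rw [hL, Real.exp_log (by linarith)]
      linarith
    calc (N : ℝ) ^ N ≤ (Real.exp L) ^ N := by gcongr
      _ = Real.exp (N * L) := by rw [← Real.exp_nat_mul]
      _ ≤ Real.exp Λ := by
        apply Real.exp_le_exp.2
        rw [hΛ]
        gcongr
  have hfin := r5.mono (E' := (n + 3) * E)
    (X' := Real.exp ((9 + 5 * δ + Ca + 3 * Cb + Cc) * N * L ^ 2)) (le_of_eq (by ring)) ?_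
  · convert hfin using 1
    have hG : G s c (κ * h) P Q = fun l t => (Ga s c P l t * (Gb s c Q l t * (Gb s c Q l t *
        Gb s c Q l t))) * Gc (κ * h) l t := rfl
    rw [hG]
    push_cast
    ring
  · rw [eqx]
    have h1 : (((δ + 1 : ℕ) : ℝ)) * (((N : ℝ) + 1) ^ 2 * ((δ + 1) * (((N : ℝ) + 1) ^ 2 * ((δ + 1) * Xa *
        (((N : ℝ) + 1) ^ 2 * ((δ + 1) * Xb * (((N : ℝ) + 1) ^ 2 * ((δ + 1) * Xb * Xb)))))) * Xc)) *
        |(((k.factorial : ℕ) : ℤ) : ℝ)| ≤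
        Real.exp (δ * Λ) * (Real.exp Λ ^ 2 * (Real.exp (δ * Λ) * (Real.exp Λ ^ 2 * (Real.exp (δ * Λ) * Xa *
        (Real.exp Λ ^ 2 * (Real.exp (δ * Λ) * Xb * (Real.exp Λ ^ 2 * (Real.exp (δ * Λ) * Xb * Xb))))))
          * Xc)) * Real.exp Λ := by
      have hk2 : |(((k.factorial : ℕ) : ℤ) : ℝ)| ≤ Real.exp Λ := by
        rw [Int.cast_natCast, abs_of_nonneg (Nat.cast_nonneg _)]
        exact hk1
      have hv' : (((δ + 1 : ℕ) : ℝ)) ≤ Real.exp (δ * Λ) := by push_cast; exact hv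
      gcongr
    refine h1.trans (le_of_eq ?_)
    rw [hXa, hXb, hXc]
    simp only [← Real.exp_add, ← Real.exp_nat_mul]
    congr 1
    push_cast
    ring

end Pool.Agent.ROH
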