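import Pool.Agent.ROH.JetLE

/-!
ROH-RepLin. Arithmetic of the coefficients of the three factors of `G`.

`RatTay s`: `iteratedDeriv N s 0 / N! = t N`, rational, `|t N| ≤ C`, common denominator `Ds` of `t 0, ..., t (2N)`,
`Ds ≤ exp(C (2N+1) log²(2N+2)) ≤ exp(C' N log²(N+2))`.
(a) `J (Ga s c P) n i = choose (n+i) n (c P/2)^n (1/2)^i t(n+i)` (`J_lin`): times `D = 4^N Ds` and `D0(θ)^n` it is
(integer of size `≤ exp(C N log²(N+2))`) times `(D0(θ) c)^n`: `Rep.int`, `Rep.mul_pow` (degree `n E`, the length contains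
`((δ+1) X)^n`). Note `|P|^n ≤ (2N)^N`.
(b) `J (Gb s c Q) n i = choose (n+i) n (c Q/(2 r3))^n (-1/(2 r3))^i t(n+i)`; `r3^(-M) = 3^(-M/2)` (`M = n+i` even) or
`3^(-(M+1)/2) r3` (`M` odd): times `D = 4^N 9^N Ds` and `D0(θ)^(n+1)`.
(c) `J (Gc (κ h)) n i` is `0` or `(-κ h)^n/n!`: times `D = N!` and `D0(θ)^n`.
-/

set_option autoImplicit false

namespace Pool.Agent.ROH

open Complex ComplexConjugate Finset Polynomial Pool.Agent.GP

variable {δ : ℕ} {ω : Fin (δ + 1) → ℂ} {θ : ℂ} {D0 : ℤ[X]} {E : ℕ} {X : ℝ} {c κ : ℂ}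

private theorem rl_log (N : ℕ) (hN : 1 ≤ N) : 1 ≤ Real.log (N + 2) := by
  have h1 : (1 : ℝ) ≤ N := by exact_mod_cast hN
  rw [Real.le_log_iff_exp_le (by positivity)]
  have h2 := Real.exp_one_lt_d9
  linarith

private theorem rl_N (N : ℕ) (hN : 1 ≤ N) : (N : ℝ) ≤ N * Real.log (N + 2) ^ 2 := by
  have h1 := rl_log N hN
  have h2 : 1 ≤ Real.log (N + 2) ^ 2 := one_le_pow₀ h1
  have h3 : (0 : ℝ) ≤ N := Nat.cast_nonneg N
  nlinarith

private theorem rl_one (N : ℕ) (hN : 1 ≤ N) : (1 : ℝ) ≤ N * Real.log (N + 2) ^ 2 := by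
  have h1 : (1 : ℝ) ≤ N := by exact_mod_cast hN
  exact h1.trans (rl_N N hN)

private theorem rl_pow (K : ℝ) (hK : 0 ≤ K) (N : ℕ) (hN : 1 ≤ N) :
    K ^ N ≤ Real.exp (K * (N * Real.log (N + 2) ^ 2)) := by
  have h1 : K ≤ Real.exp K := by
    have := Real.add_one_le_exp K
    linarith
  calc K ^ N ≤ Real.exp K ^ N := pow_le_pow_left₀ hK h1 N
    _ = Real.exp (N * K) := (Real.exp_nat_mul K N).symm
    _ ≤ _ := by
      apply Real.exp_le_exp.2
      have h2 := mul_le_mul_of_nonneg_left (rl_N N hN) hK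
      linarith

private theorem rl_const (K : ℝ) (hK : 0 ≤ K) (N : ℕ) (hN : 1 ≤ N) :
    K ≤ Real.exp (K * (N * Real.log (N + 2) ^ 2)) := by
  have h1 : K ≤ Real.exp K := by
    have := Real.add_one_le_exp K
    linarith
  refine h1.trans (Real.exp_le_exp.2 ?_)
  have h2 := mul_le_mul_of_nonneg_left (rl_one N hN) hK
  linarith

private theorem rl_NN (N : ℕ) (hN : 1 ≤ N) : (N : ℝ) ^ N ≤ Real.exp (N * Real.log (N + 2) ^ 2) := by
  have h0 : (0 : ℝ) ≤ N := Nat.cast_nonneg N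
  have h1 : (N : ℝ) ≤ Real.exp (Real.log (N + 2)) := by
    rw [Real.exp_log (by positivity)]
    linarith
  calc (N : ℝ) ^ N ≤ Real.exp (Real.log (N + 2)) ^ N := pow_le_pow_left₀ h0 h1 N
    _ = Real.exp (N * Real.log (N + 2)) := (Real.exp_nat_mul _ N).symm
    _ ≤ _ := by
      apply Real.exp_le_exp.2
      refine mul_le_mul_of_nonneg_left ?_ h0
      have h2 := rl_log N hN
      nlinarith

private theorem rl_two (N : ℕ) (hN : 1 ≤ N) : (2 * (N : ℝ)) ^ N ≤ Real.exp (3 * (N * Real.log (N + 2) ^ 2)) := by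
  have h1 := rl_pow 2 (by norm_num) N hN
  have h2 := rl_NN N hN
  rw [mul_pow]
  have h3 : 3 * (N * Real.log (N + 2) ^ 2) = 2 * (N * Real.log (N + 2) ^ 2) + N * Real.log (N + 2) ^ 2 := by ring
  rw [h3, Real.exp_add]
  exact mul_le_mul h1 h2 (by positivity) (Real.exp_pos _).le

private theorem rl_den (C : ℝ) (hC : 0 ≤ C) (N : ℕ) (hN : 1 ≤ N) :
    Real.exp (C * ((2 * N : ℕ) + 1) * Real.log ((2 * N : ℕ) + 2) ^ 2) ≤
      Real.exp (12 * C * (N * Real.log (N + 2) ^ 2)) := by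
  apply Real.exp_le_exp.2
  have h1 : (1 : ℝ) ≤ N := by exact_mod_cast hN
  have h2 : Real.log ((2 * N : ℕ) + 2) ≤ 2 * Real.log (N + 2) := by
    have h3 : 2 * Real.log ((N : ℝ) + 2) = Real.log (((N : ℝ) + 2) ^ 2) := by
      rw [Real.log_pow]
      norm_num
    rw [h3]
    apply Real.log_le_log (by positivity)
    push_cast
    nlinarith
  have h3 : 0 ≤ Real.log ((2 * N : ℕ) + 2) := by
    apply Real.log_nonneg
    have : (0 : ℝ) ≤ ((2 * N : ℕ) : ℝ) := Nat.cast_nonneg _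
    linarith
  have h4 : Real.log ((2 * N : ℕ) + 2) ^ 2 ≤ (2 * Real.log (N + 2)) ^ 2 := pow_le_pow_left₀ h3 h2 2
  have h5 : (((2 * N : ℕ) : ℝ) + 1) ≤ 3 * N := by
    push_cast
    linarith
  calc C * ((2 * N : ℕ) + 1) * Real.log ((2 * N : ℕ) + 2) ^ 2
      ≤ C * (3 * N) * (2 * Real.log (N + 2)) ^ 2 :=
        mul_le_mul (mul_le_mul_of_nonneg_left h5 hC) h4 (by positivity) (by positivity)
    _ = 12 * C * (N * Real.log (N + 2) ^ 2) := by ring

private theorem rl_n (K : ℝ) (hK : 1 ≤ K) (N n : ℕ) (hn : n ≤ N) : K ^ n ≤ K ^ N := pow_le_pow_right₀ hK hn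

private theorem rl_P (N n : ℕ) (hN : 1 ≤ N) (hn : n ≤ N) (P : ℤ) (hP : |P| ≤ 2 * N) :
    |(P : ℝ)| ^ n ≤ Real.exp (3 * (N * Real.log (N + 2) ^ 2)) := by
  have h0 : (1 : ℝ) ≤ N := by exact_mod_cast hN
  have h1 : |(P : ℝ)| ≤ 2 * N := by exact_mod_cast hP
  calc |(P : ℝ)| ^ n ≤ (2 * (N : ℝ)) ^ n := pow_le_pow_left₀ (abs_nonneg _) h1 n
    _ ≤ (2 * (N : ℝ)) ^ N := pow_le_pow_right₀ (by linarith) hn
    _ ≤ _ := rl_two N hN

private theorem rl_ch (N n i : ℕ) (hN : 1 ≤ N) (hn : n ≤ N) (hi : i ≤ N) :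
    (((n + i).choose n : ℕ) : ℝ) ≤ Real.exp (4 * (N * Real.log (N + 2) ^ 2)) := by
  have h1 : (((n + i).choose n : ℕ) : ℝ) ≤ ((2 ^ (n + i) : ℕ) : ℝ) := by
    exact_mod_cast Nat.choose_le_two_pow (n + i) n
  have h2 : ((2 ^ (n + i) : ℕ) : ℝ) ≤ (4 : ℝ) ^ N := by
    push_cast
    calc (2 : ℝ) ^ (n + i) ≤ 2 ^ (2 * N) := pow_le_pow_right₀ (by norm_num) (by omega)
      _ = 4 ^ N := by
        rw [pow_mul]
        norm_num
  exact (h1.trans h2).trans (rl_pow 4 (by norm_num) N hN)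

private theorem rl_w (N m : ℕ) (hN : 1 ≤ N) (hm : m ≤ 2 * N) :
    (2 : ℝ) ^ m ≤ Real.exp (4 * (N * Real.log (N + 2) ^ 2)) := by
  have h2 : (2 : ℝ) ^ m ≤ (4 : ℝ) ^ N := by
    calc (2 : ℝ) ^ m ≤ 2 ^ (2 * N) := pow_le_pow_right₀ (by norm_num) hm
      _ = 4 ^ N := by
        rw [pow_mul]
        norm_num
  exact h2.trans (rl_pow 4 (by norm_num) N hN)

private theorem rl_four (N n i : ℕ) (h : n + i ≤ 2 * N) : (4 : ℂ) ^ N = 2 ^ (2 * N - (n + i)) * (2 ^ n * 2 ^ i) := by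
  rw [← pow_add, ← pow_add, show 2 * N - (n + i) + (n + i) = 2 * N by omega, pow_mul]
  norm_num

private theorem rl_r (N n i : ℕ) (h : n + i ≤ 2 * N) : ∃ (w : ℂ) (k : ℕ), k ≤ N ∧ (w = 1 ∨ w = r3) ∧
    (3 : ℂ) ^ N = 3 ^ k * (r3 ^ n * r3 ^ i * w) := by
  rcases Nat.even_or_odd' (n + i) with ⟨m, hm | hm⟩
  · refine ⟨1, N - m, by omega, Or.inl rfl, ?_⟩
    rw [mul_one, ← pow_add r3, hm, pow_mul, r3_sq, ← pow_add]
    congr 1
    omega
  · refine ⟨r3, N - (m + 1), by omega, Or.inr rfl, ?_⟩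
    rw [← pow_add r3, ← pow_succ, show n + i + 1 = 2 * (m + 1) by omega, pow_mul, r3_sq, ← pow_add]
    congr 1
    omega

private theorem rl_t {s : ℂ → ℂ} {t : ℕ → ℚ} (h : ∀ n, iteratedDeriv n s 0 = (n.factorial : ℂ) * (t n : ℂ)) (M : ℕ) :
    iteratedDeriv M s 0 / (M.factorial : ℂ) = (t M : ℂ) := by
  rw [h M, mul_div_assoc, mul_comm, div_mul_cancel₀]
  exact_mod_cast Nat.factorial_ne_zero M

private theorem rl_a {t : ℕ → ℚ} {Ds : ℕ} {M : ℕ} {a : ℤ} (h : (Ds : ℚ) * t M = a) :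
    (Ds : ℂ) * (t M : ℂ) = (a : ℂ) ∧ |(a : ℝ)| = Ds * |(t M : ℝ)| := by
  constructor
  · exact_mod_cast congrArg (fun x : ℚ => (x : ℂ)) h
  · have h1 : (a : ℝ) = Ds * (t M : ℝ) := by
      exact_mod_cast (congrArg (fun x : ℚ => (x : ℝ)) h).symm
    rw [h1, abs_mul, Nat.abs_cast]

theorem rep_Ga (env : Env δ ω θ D0 E X c κ) {s : ℂ → ℂ} (hs : Differentiable ℂ s) (ht : RatTay s) :
    ∃ C : ℝ, 1 ≤ C ∧ ∀ N : ℕ, 1 ≤ N → ∃ D : ℕ, 0 < D ∧
      (D : ℝ) ≤ Real.exp (C * N * Real.log (N + 2) ^ 2) ∧ ∀ n ≤ N, ∀ i ≤ N, ∀ P : ℤ, |P| ≤ 2 * N →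
        Rep (δ + 1) ω θ (D * aeval θ D0 ^ n * J (Ga s c P) n i) (n * E)
          (Real.exp (C * N * Real.log (N + 2) ^ 2)) := by
  obtain ⟨t, ht0, Ct, hCt, htb, htd⟩ := ht
  have hX := env.hX
  have hY : (1 : ℝ) ≤ ((δ + 1 : ℕ) : ℝ) * X := by
    have h1 : (1 : ℝ) ≤ ((δ + 1 : ℕ) : ℝ) := by exact_mod_cast Nat.succ_le_succ (Nat.zero_le δ)
    nlinarith
  refine ⟨11 + 13 * Ct + ((δ + 1 : ℕ) : ℝ) * X, by linarith, ?_⟩
  intro N hN
  obtain ⟨Ds, hDs, hDsb, hDsi⟩ := htd (2 * N)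
  have hDs' := hDsb.trans (rl_den Ct hCt N hN)
  have hΦ := rl_one N hN
  refine ⟨4 ^ N * Ds, by positivity, ?_, ?_⟩
  · push_cast
    have h1 := mul_le_mul (rl_pow 4 (by norm_num) N hN) hDs' (by positivity) (Real.exp_pos _).le
    refine h1.trans ?_
    rw [← Real.exp_add]
    apply Real.exp_le_exp.2
    nlinarith [mul_nonneg hCt (zero_le_one.trans hΦ), mul_nonneg (zero_le_one.trans hY) (zero_le_one.trans hΦ)]
  · intro n hn i hi P hP
    obtain ⟨a, ha⟩ := hDsi (n + i) (by omega)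
    obtain ⟨ha1, ha2⟩ := rl_a ha
    have key : ((4 ^ N * Ds : ℕ) : ℂ) * aeval θ D0 ^ n * J (Ga s c P) n i =
        ((((n + i).choose n : ℤ) * P ^ n * 2 ^ (2 * N - (n + i)) * a : ℤ) : ℂ) * (aeval θ D0 * c) ^ n := by
      have hJ : J (Ga s c P) n i = ((n + i).choose n : ℂ) * ((c * P / 2) ^ n * (1 / 2) ^ i) * (t (n + i) : ℂ) := by
        rw [← rl_t ht0]
        exact J_lin hs (c * P / 2) (1 / 2) n i
      have hU : (c * P / 2) ^ n * 2 ^ n = c ^ n * (P : ℂ) ^ n := by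
        rw [← mul_pow, ← mul_pow]
        congr 1
        ring
      have hV : (1 / 2 : ℂ) ^ i * 2 ^ i = 1 := by
        rw [← mul_pow]
        norm_num
      rw [hJ]
      push_cast
      rw [rl_four N n i (by omega), mul_pow]
      calc 2 ^ (2 * N - (n + i)) * (2 ^ n * 2 ^ i) * (Ds : ℂ) * aeval θ D0 ^ n *
            (((n + i).choose n : ℂ) * ((c * P / 2) ^ n * (1 / 2) ^ i) * (t (n + i) : ℂ))
          = 2 ^ (2 * N - (n + i)) * aeval θ D0 ^ n * ((n + i).choose n : ℂ) * ((c * P / 2) ^ n * 2 ^ n) *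
            ((1 / 2) ^ i * 2 ^ i) * ((Ds : ℂ) * (t (n + i) : ℂ)) := by ring
        _ = _ := by
          rw [hU, hV, ha1]
          ring
    rw [key]
    refine (Rep.mul_pow (Nat.succ_pos δ) env.c (Rep.int ω θ _) n).mono (by omega) ?_
    have hz : |((((n + i).choose n : ℤ) * P ^ n * 2 ^ (2 * N - (n + i)) * a : ℤ) : ℝ)| ≤
        Real.exp (4 * (N * Real.log (N + 2) ^ 2)) * Real.exp (3 * (N * Real.log (N + 2) ^ 2)) *
          Real.exp (4 * (N * Real.log (N + 2) ^ 2)) *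
          (Real.exp (12 * Ct * (N * Real.log (N + 2) ^ 2)) * Real.exp (Ct * (N * Real.log (N + 2) ^ 2))) := by
      push_cast
      rw [abs_mul, abs_mul, abs_mul, abs_pow, abs_pow, ha2, Nat.abs_cast, show |(2 : ℝ)| = 2 by norm_num]
      refine mul_le_mul (mul_le_mul (mul_le_mul (rl_ch N n i hN hn hi) (rl_P N n hN hn P hP) (by positivity)
        (by positivity)) (rl_w N _ hN (by omega)) (by positivity) (by positivity)) ?_ (by positivity) (by positivity)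
      exact mul_le_mul hDs' ((htb _).trans (rl_const Ct hCt N hN)) (abs_nonneg _) (by positivity)
    have hp : (((δ + 1 : ℕ) : ℝ) * X) ^ n ≤ Real.exp (((δ + 1 : ℕ) : ℝ) * X * (N * Real.log (N + 2) ^ 2)) :=
      (rl_n _ hY N n hn).trans (rl_pow _ (by linarith) N hN)
    refine (mul_le_mul hz hp (by positivity) (by positivity)).trans ?_
    rw [← Real.exp_add, ← Real.exp_add, ← Real.exp_add, ← Real.exp_add, ← Real.exp_add]
    apply Real.exp_le_exp.2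
    linarith

theorem rep_Gb (env : Env δ ω θ D0 E X c κ) {s : ℂ → ℂ} (hs : Differentiable ℂ s) (ht : RatTay s) :
    ∃ C : ℝ, 1 ≤ C ∧ ∀ N : ℕ, 1 ≤ N → ∃ D : ℕ, 0 < D ∧
      (D : ℝ) ≤ Real.exp (C * N * Real.log (N + 2) ^ 2) ∧ ∀ n ≤ N, ∀ i ≤ N, ∀ Q : ℤ, |Q| ≤ 2 * N →
        Rep (δ + 1) ω θ (D * aeval θ D0 ^ (n + 1) * J (Gb s c Q) n i) ((n + 1) * E)
          (Real.exp (C * N * Real.log (N + 2) ^ 2)) := by
  obtain ⟨t, ht0, Ct, hCt, htb, htd⟩ := ht
  have hX := env.hX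
  have hY : (1 : ℝ) ≤ ((δ + 1 : ℕ) : ℝ) * X := by
    have h1 : (1 : ℝ) ≤ ((δ + 1 : ℕ) : ℝ) := by exact_mod_cast Nat.succ_le_succ (Nat.zero_le δ)
    nlinarith
  refine ⟨14 + 13 * Ct + 2 * (((δ + 1 : ℕ) : ℝ) * X), by linarith, ?_⟩
  intro N hN
  obtain ⟨Ds, hDs, hDsb, hDsi⟩ := htd (2 * N)
  have hDs' := hDsb.trans (rl_den Ct hCt N hN)
  have hΦ := rl_one N hN
  refine ⟨4 ^ N * (3 ^ N * Ds), by positivity, ?_, ?_⟩
  · push_cast
    have h1 := mul_le_mul (rl_pow 4 (by norm_num) N hN) (mul_le_mul (rl_pow 3 (by norm_num) N hN) hDs' (by positivity)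
      (Real.exp_pos _).le) (by positivity) (Real.exp_pos _).le
    refine h1.trans ?_
    rw [← Real.exp_add, ← Real.exp_add]
    apply Real.exp_le_exp.2
    nlinarith [mul_nonneg hCt (zero_le_one.trans hΦ), mul_nonneg (zero_le_one.trans hY) (zero_le_one.trans hΦ)]
  · intro n hn i hi Q hQ
    obtain ⟨a, ha⟩ := hDsi (n + i) (by omega)
    obtain ⟨ha1, ha2⟩ := rl_a ha
    obtain ⟨w, k, hk, hw, h3⟩ := rl_r N n i (by omega)
    have hRw : Rep (δ + 1) ω θ (aeval θ D0 * w) E X := by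
      rcases hw with hw | hw
      · rw [hw, mul_one]
        exact env.d
      · rw [hw]
        exact env.r
    have hr := r3_ne
    have key : ((4 ^ N * (3 ^ N * Ds) : ℕ) : ℂ) * aeval θ D0 ^ (n + 1) * J (Gb s c Q) n i =
        (((((n + i).choose n : ℤ) * Q ^ n * 2 ^ (2 * N - (n + i)) * ((-1) ^ i * 3 ^ k * a) : ℤ) : ℂ) *
          (aeval θ D0 * w)) * (aeval θ D0 * c) ^ n := by
      have hJ : J (Gb s c Q) n i =
          ((n + i).choose n : ℂ) * ((c * Q / (2 * r3)) ^ n * (-(1 / (2 * r3))) ^ i) * (t (n + i) : ℂ) := by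
        rw [← rl_t ht0]
        exact J_lin hs (c * Q / (2 * r3)) (-(1 / (2 * r3))) n i
      have hU : (c * Q / (2 * r3)) ^ n * (2 ^ n * r3 ^ n) = c ^ n * (Q : ℂ) ^ n := by
        rw [← mul_pow, ← mul_pow, ← mul_pow]
        congr 1
        rw [div_mul_cancel₀]
        exact mul_ne_zero two_ne_zero hr
      have hV : (-(1 / (2 * r3))) ^ i * (2 ^ i * r3 ^ i) = (-1) ^ i := by
        rw [← mul_pow, ← mul_pow]
        congr 1
        rw [neg_mul, div_mul_cancel₀]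
        exact mul_ne_zero two_ne_zero hr
      rw [hJ]
      push_cast
      rw [rl_four N n i (by omega), h3, mul_pow (aeval θ D0)]
      calc 2 ^ (2 * N - (n + i)) * (2 ^ n * 2 ^ i) * (3 ^ k * (r3 ^ n * r3 ^ i * w) * (Ds : ℂ)) * aeval θ D0 ^ (n + 1) *
            (((n + i).choose n : ℂ) * ((c * Q / (2 * r3)) ^ n * (-(1 / (2 * r3))) ^ i) * (t (n + i) : ℂ))
          = 2 ^ (2 * N - (n + i)) * 3 ^ k * w * aeval θ D0 ^ (n + 1) * ((n + i).choose n : ℂ) *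
            ((c * Q / (2 * r3)) ^ n * (2 ^ n * r3 ^ n)) * ((-(1 / (2 * r3))) ^ i * (2 ^ i * r3 ^ i)) *
            ((Ds : ℂ) * (t (n + i) : ℂ)) := by ring
        _ = _ := by
          rw [hU, hV, ha1]
          ring
    rw [key]
    have hR := Rep.mul_pow (Nat.succ_pos δ) env.c ((Rep.int ω θ
      (((n + i).choose n : ℤ) * Q ^ n * 2 ^ (2 * N - (n + i)) * ((-1) ^ i * 3 ^ k * a))).mul hRw (Nat.succ_pos δ)) n
    refine hR.mono (by ring_nf; omega) ?_
    have hz : |((((n + i).choose n : ℤ) * Q ^ n * 2 ^ (2 * N - (n + i)) * ((-1) ^ i * 3 ^ k * a) : ℤ) : ℝ)| ≤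
        Real.exp (4 * (N * Real.log (N + 2) ^ 2)) * Real.exp (3 * (N * Real.log (N + 2) ^ 2)) *
          Real.exp (4 * (N * Real.log (N + 2) ^ 2)) * (Real.exp (3 * (N * Real.log (N + 2) ^ 2)) *
          (Real.exp (12 * Ct * (N * Real.log (N + 2) ^ 2)) * Real.exp (Ct * (N * Real.log (N + 2) ^ 2)))) := by
      push_cast
      rw [abs_mul, abs_mul, abs_mul, abs_mul, abs_mul, abs_pow, abs_pow, abs_pow, abs_pow, ha2, Nat.abs_cast,
        show |(2 : ℝ)| = 2 by norm_num, show |(-1 : ℝ)| = 1 by norm_num, show |(3 : ℝ)| = 3 by norm_num, one_pow,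
        one_mul]
      refine mul_le_mul (mul_le_mul (mul_le_mul (rl_ch N n i hN hn hi) (rl_P N n hN hn Q hQ) (by positivity)
        (by positivity)) (rl_w N _ hN (by omega)) (by positivity) (by positivity)) ?_ (by positivity) (by positivity)
      refine mul_le_mul ((rl_n 3 (by norm_num) N k hk).trans (rl_pow 3 (by norm_num) N hN)) ?_ (by positivity)
        (by positivity)
      exact mul_le_mul hDs' ((htb _).trans (rl_const Ct hCt N hN)) (abs_nonneg _) (by positivity)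
    have hp : (((δ + 1 : ℕ) : ℝ) * X) ^ n ≤ Real.exp (((δ + 1 : ℕ) : ℝ) * X * (N * Real.log (N + 2) ^ 2)) :=
      (rl_n _ hY N n hn).trans (rl_pow _ (by linarith) N hN)
    have hq : ((δ + 1 : ℕ) : ℝ) * X ≤ Real.exp (((δ + 1 : ℕ) : ℝ) * X * (N * Real.log (N + 2) ^ 2)) :=
      rl_const _ (by linarith) N hN
    have hzq := mul_le_mul hq hz (abs_nonneg _) (Real.exp_pos _).le
    have hX0 : 0 ≤ X := by linarith
    refine le_trans ?_ ((mul_le_mul hzq hp (by positivity) (by positivity)).trans ?_)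
    · refine mul_le_mul_of_nonneg_right (le_of_eq ?_) (by positivity)
      ring
    · rw [← Real.exp_add, ← Real.exp_add, ← Real.exp_add, ← Real.exp_add, ← Real.exp_add, ← Real.exp_add,
        ← Real.exp_add]
      apply Real.exp_le_exp.2
      linarith

theorem rep_Gc (env : Env δ ω θ D0 E X c κ) :
    ∃ C : ℝ, 1 ≤ C ∧ ∀ N : ℕ, 1 ≤ N → ∃ D : ℕ, 0 < D ∧
      (D : ℝ) ≤ Real.exp (C * N * Real.log (N + 2) ^ 2) ∧ ∀ n ≤ N, ∀ i ≤ N, ∀ h : ℤ, |h| ≤ N →
        Rep (δ + 1) ω θ (D * aeval θ D0 ^ n * J (Gc (κ * h)) n i) (n * E)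
          (Real.exp (C * N * Real.log (N + 2) ^ 2)) := by
  have hX := env.hX
  have hY : (1 : ℝ) ≤ ((δ + 1 : ℕ) : ℝ) * X := by
    have h1 : (1 : ℝ) ≤ ((δ + 1 : ℕ) : ℝ) := by exact_mod_cast Nat.succ_le_succ (Nat.zero_le δ)
    nlinarith
  refine ⟨4 + ((δ + 1 : ℕ) : ℝ) * X, by linarith, ?_⟩
  intro N hN
  have hΦ := rl_one N hN
  have hfac : (N.factorial : ℝ) ≤ Real.exp (N * Real.log (N + 2) ^ 2) := by
    refine le_trans ?_ (rl_NN N hN)
    exact_mod_cast Nat.factorial_le_pow N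
  refine ⟨N.factorial, Nat.factorial_pos N, ?_, ?_⟩
  · refine hfac.trans (Real.exp_le_exp.2 ?_)
    nlinarith [mul_nonneg (zero_le_one.trans hY) (zero_le_one.trans hΦ)]
  · intro n hn i hi h hh
    rw [J_exp]
    by_cases hni : n = i
    · rw [if_pos hni]
      obtain ⟨m, hm⟩ := Nat.factorial_dvd_factorial hn
      have hn0 : (n.factorial : ℂ) ≠ 0 := by exact_mod_cast Nat.factorial_ne_zero n
      have key : (N.factorial : ℂ) * aeval θ D0 ^ n * ((-(κ * h)) ^ n / (n.factorial : ℂ)) =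
          (((m : ℤ) * (-h) ^ n : ℤ) : ℂ) * (aeval θ D0 * κ) ^ n := by
        rw [hm]
        push_cast
        have h1 : (-(κ * h)) ^ n = κ ^ n * (-(h : ℂ)) ^ n := by
          rw [← mul_pow]
          congr 1
          ring
        rw [mul_pow (aeval θ D0), h1]
        field_simp
      rw [key]
      refine (Rep.mul_pow (Nat.succ_pos δ) env.k (Rep.int ω θ _) n).mono (by omega) ?_
      have hP : |h| ≤ 2 * (N : ℤ) := by
        have : (0 : ℤ) ≤ N := Int.natCast_nonneg N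
        linarith
      have hz : |(((m : ℤ) * (-h) ^ n : ℤ) : ℝ)| ≤
          Real.exp (N * Real.log (N + 2) ^ 2) * Real.exp (3 * (N * Real.log (N + 2) ^ 2)) := by
        push_cast
        rw [abs_mul, abs_pow, abs_neg, Nat.abs_cast]
        refine mul_le_mul ?_ (rl_P N n hN hn h hP) (by positivity) (by positivity)
        refine le_trans ?_ hfac
        rw [hm]
        have h1 : m ≤ n.factorial * m := Nat.le_mul_of_pos_left m (Nat.factorial_pos n)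
        exact_mod_cast h1
      have hp : (((δ + 1 : ℕ) : ℝ) * X) ^ n ≤ Real.exp (((δ + 1 : ℕ) : ℝ) * X * (N * Real.log (N + 2) ^ 2)) :=
        (rl_n _ hY N n hn).trans (rl_pow _ (by linarith) N hN)
      refine (mul_le_mul hz hp (by positivity) (by positivity)).trans ?_
      rw [← Real.exp_add, ← Real.exp_add]
      apply Real.exp_le_exp.2
      linarith
    · rw [if_neg hni, mul_zero]
      exact (Rep.zero ω θ (n * E)).mono le_rfl (Real.exp_pos _).le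

end Pool.Agent.ROH
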