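import Pool.Agent.ROH.LineC
import Pool.Agent.ROH.RepJet

/-!
ROH-RepXi. Arithmetic of the Taylor coefficients of the auxiliary function on a line (section 7).

`line_coeff` with `q k j = ∑_{d<n^8} N k j d θ^d`, `v = v1`, `w = v2`, `a, b, e` natural numbers `≤ ν`
(`t * (a/v1)`: note `(a : ℂ) * (1/v1)` in the statement). `2 al e/v1² = κ1 e` with `κ1 = 2 al/v1²`; `2 be b/(v1 v2) = κ2 b`.
`rep_jet` for `(s1, c = 1, κ1)` and `(s2, c = v2/v1, κ2)`, both with `N = n^12` (then `ν, k, j, 2ν ≤ 2 N` for large `n`; note that `a - b`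
and `a - e` are integers of absolute value `≤ ν`). Multiply by `D = D1 D2` and `D0(θ)^(ν+6)`:
each term is `(∑ N k j d θ^d) * (D1 D0^(i+3) k! J..) * (D2 D0^(ν-i+3) j! J..)`; `Rep.poly` for the first factor (degree `< n^8`,
length `≤ n^8 exp(n^13)`), `Rep.mul`, `Rep.sum`. Degree `≤ n^8 + (ν+6) E ≤ C n^8`; length `≤ K² (ν+1) n^8 exp(n^13) (δ+1)² exp(2 C n^12 log²(n^12+2))
≤ exp(C' n^13)`.
-/

set_option autoImplicit false

namespace Pool.Agent.ROH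

open Complex ComplexConjugate Finset Polynomial Pool.Agent.GP

private theorem log_bd (n : ℕ) (hn : 1 ≤ n) :
    Real.log (((n ^ 12 : ℕ) : ℝ) + 2) ^ 2 ≤ 1728 * n := by
  have hn' : (1 : ℝ) ≤ n := by exact_mod_cast hn
  have hn0 : (0 : ℝ) < 3 * (n : ℝ) := by linarith
  have hc : (0 : ℝ) ≤ ((n ^ 12 : ℕ) : ℝ) := Nat.cast_nonneg _
  have h1 : ((n ^ 12 : ℕ) : ℝ) + 2 ≤ (3 * (n : ℝ)) ^ 12 := by
    push_cast
    have h : (1 : ℝ) ≤ (n : ℝ) ^ 12 := one_le_pow₀ hn'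
    rw [mul_pow]
    have h3 : (3 : ℝ) ^ 12 = 531441 := by norm_num
    rw [h3]
    linarith
  have h0 : 0 ≤ Real.log (((n ^ 12 : ℕ) : ℝ) + 2) := Real.log_nonneg (by linarith)
  have h2 : Real.log (((n ^ 12 : ℕ) : ℝ) + 2) ≤ 12 * Real.log (3 * (n : ℝ)) := by
    calc Real.log (((n ^ 12 : ℕ) : ℝ) + 2) ≤ Real.log ((3 * (n : ℝ)) ^ 12) :=
          Real.log_le_log (by linarith) h1
      _ = 12 * Real.log (3 * (n : ℝ)) := by
          rw [Real.log_pow]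
          norm_num
  have h3 : Real.log (3 * (n : ℝ)) ≤ 2 * Real.sqrt (3 * (n : ℝ)) := by
    have h : Real.log (3 * (n : ℝ)) = 2 * Real.log (Real.sqrt (3 * (n : ℝ))) := by
      rw [Real.log_sqrt hn0.le]
      ring
    rw [h]
    have h' := Real.log_le_sub_one_of_pos (Real.sqrt_pos.2 hn0)
    linarith
  have h4 : Real.log (((n ^ 12 : ℕ) : ℝ) + 2) ≤ 24 * Real.sqrt (3 * (n : ℝ)) := by linarith
  calc Real.log (((n ^ 12 : ℕ) : ℝ) + 2) ^ 2 ≤ (24 * Real.sqrt (3 * (n : ℝ))) ^ 2 :=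
        pow_le_pow_left₀ h0 h4 2
    _ = 1728 * n := by
        rw [mul_pow, Real.sq_sqrt hn0.le]
        ring

private theorem exp_bd (C : ℝ) (hC : 1 ≤ C) (n : ℕ) (hn : 1 ≤ n) :
    Real.exp (C * ((n ^ 12 : ℕ) : ℝ) * Real.log (((n ^ 12 : ℕ) : ℝ) + 2) ^ 2) ≤
      Real.exp (1728 * C * (n : ℝ) ^ 13) := by
  refine Real.exp_le_exp.2 ?_
  have h := log_bd n hn
  have hc : (0 : ℝ) ≤ C * ((n ^ 12 : ℕ) : ℝ) := mul_nonneg (by linarith) (Nat.cast_nonneg _)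
  calc C * ((n ^ 12 : ℕ) : ℝ) * Real.log (((n ^ 12 : ℕ) : ℝ) + 2) ^ 2 ≤
      C * ((n ^ 12 : ℕ) : ℝ) * (1728 * n) := mul_le_mul_of_nonneg_left h hc
    _ = 1728 * C * (n : ℝ) ^ 13 := by
        push_cast
        ring

/-- the coefficients -/
private theorem rep_q {δ : ℕ} (ω : Fin δ → ℂ) (θ : ℂ) (M : ℕ) (N : ℕ → ℤ) (B : ℝ)
    (hN : ∀ d, |(N d : ℝ)| ≤ B) :
    Rep δ ω θ (∑ d ∈ range M, (N d : ℂ) * θ ^ d) M (M * B) := by
  have h : ∀ d ∈ range M, Rep δ ω θ ((N d : ℂ) * θ ^ d) M B := by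
    intro d hd
    have h1 := Rep.poly ω θ (monomial d (N d))
    rw [aeval_monomial] at h1
    have h2 : l1 (monomial d (N d)) ≤ B := by
      rw [l1_eq_sum (monomial d (N d)) (s := {d}) (support_monomial_subset _ _)]
      rw [Finset.sum_singleton, coeff_monomial_same]
      exact hN d
    have h3 : (monomial d (N d) : ℤ[X]).natDegree ≤ M :=
      (natDegree_monomial_le _).trans (Finset.mem_range.1 hd).le
    have h4 := h1.mono h3 h2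
    have h5 : (algebraMap ℤ ℂ) (N d) * θ ^ d = (N d : ℂ) * θ ^ d := by
      rw [eq_intCast]
    rwa [h5] at h4
  have h6 := Rep.sum (range M) h
  rwa [Finset.sum_const, Finset.card_range, nsmul_eq_mul] at h6

theorem rep_xi {δ : ℕ} {ω : Fin (δ + 1) → ℂ} {θ : ℂ} {D0 : ℤ[X]} {E : ℕ} {X : ℝ} (c : Core)
    {s1 s2 : ℂ → ℂ} (hs1 : Differentiable ℂ s1) (hs2 : Differentiable ℂ s2) (ht1 : RatTay s1)
    (ht2 : RatTay s2) (v1 v2 : ℝ) (hv1 : 0 < v1) (hv2 : 0 < v2)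
    (hT1 : c.T1 = TT (fun z => s1 (v1 * z))) (hT2 : c.T2 = TT (fun z => s2 (v2 * z)))
    (env1 : Env δ ω θ D0 E X 1 (2 * c.al / v1 ^ 2))
    (env2 : Env δ ω θ D0 E X (v2 / v1) (2 * c.be / (v1 * v2))) (C0 : ℕ) :
    ∃ C n0 : ℕ, ∀ n : ℕ, n0 ≤ n → ∀ N : ℕ → ℕ → ℕ → ℤ,
      (∀ k j d, |(N k j d : ℝ)| ≤ Real.exp ((n : ℝ) ^ 13)) →
      ∀ ν : ℕ, ν ≤ C0 * n ^ 8 → ∀ a b e : ℕ, a ≤ ν → b ≤ ν → e ≤ ν →
      ∃ D : ℕ, 0 < D ∧ (D : ℝ) ≤ Real.exp (C * (n : ℝ) ^ 13) ∧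
        Rep (δ + 1) ω θ (D * aeval θ D0 ^ (ν + 6) *
          (iteratedDeriv ν (fun t : ℂ => c.f (n ^ 12) (pc (1 / v1) (1 / v2) θ (n ^ 8) N)
            (t * (a * (1 / v1))) (t * (b * (1 / v1))) (t * (e * (1 / v1)))) 0 / (ν.factorial : ℂ)))
          (C * n ^ 8) (Real.exp (C * (n : ℝ) ^ 13)) := by
  obtain ⟨C1, hC1, H1⟩ := rep_jet env1 hs1 ht1
  obtain ⟨C2, hC2, H2⟩ := rep_jet env2 hs2 ht2
  have hC1n := Nat.le_ceil (1728 * C1)
  have hC2n := Nat.le_ceil (1728 * C2)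
  set c1 : ℕ := ⌈1728 * C1⌉₊ with hc1
  set c2 : ℕ := ⌈1728 * C2⌉₊ with hc2
  refine ⟨(1 + (C0 + 6) * E) + ((C0 + 5) + (δ + 1) ^ 2) + c1 + c2, C0 + 1, ?_⟩
  intro n hn N hN ν hν a b e ha hb he
  have hn1 : 1 ≤ n := by omega
  have hnC : C0 ≤ n := by omega
  have hnr : (1 : ℝ) ≤ n := by exact_mod_cast hn1
  have hn13 : (1 : ℝ) ≤ (n : ℝ) ^ 13 := one_le_pow₀ hnr
  have hK1 : 1 ≤ n ^ 12 := Nat.one_le_pow _ _ hn1
  obtain ⟨D1, hD1, hD1b, R1⟩ := H1 (n ^ 12) hK1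
  obtain ⟨D2, hD2, hD2b, R2⟩ := H2 (n ^ 12) hK1
  have hνK : ν ≤ n ^ 12 := by
    have h1 : C0 ≤ n ^ 4 := hnC.trans (Nat.le_self_pow (by norm_num) n)
    calc ν ≤ C0 * n ^ 8 := hν
      _ ≤ n ^ 4 * n ^ 8 := Nat.mul_le_mul_right _ h1
      _ = n ^ 12 := by ring
  have L1 := exp_bd C1 hC1 n hn1
  have L2 := exp_bd C2 hC2 n hn1
  have L1' : Real.exp (1728 * C1 * (n : ℝ) ^ 13) ≤ Real.exp (c1 * (n : ℝ) ^ 13) :=
    Real.exp_le_exp.2 (mul_le_mul_of_nonneg_right hC1n (by linarith))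
  have L2' : Real.exp (1728 * C2 * (n : ℝ) ^ 13) ≤ Real.exp (c2 * (n : ℝ) ^ 13) :=
    Real.exp_le_exp.2 (mul_le_mul_of_nonneg_right hC2n (by linarith))
  have L1f := L1.trans L1'
  have L2f := L2.trans L2'
  refine ⟨D1 * D2, Nat.mul_pos hD1 hD2, ?_, ?_⟩
  · push_cast
    calc (D1 : ℝ) * D2 ≤ Real.exp (c1 * (n : ℝ) ^ 13) * Real.exp (c2 * (n : ℝ) ^ 13) :=
          mul_le_mul (hD1b.trans L1f) (hD2b.trans L2f) (Nat.cast_nonneg _) (Real.exp_pos _).le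
      _ = Real.exp (c1 * (n : ℝ) ^ 13 + c2 * (n : ℝ) ^ 13) := (Real.exp_add _ _).symm
      _ ≤ _ := by
          refine Real.exp_le_exp.2 ?_
          have h0 : (0 : ℝ) ≤ ((1 + ((C0 : ℝ) + 6) * E) + (((C0 : ℝ) + 5) + ((δ : ℝ) + 1) ^ 2)) :=
            by positivity
          have h1 := mul_nonneg h0 (by linarith : (0 : ℝ) ≤ (n : ℝ) ^ 13)
          nlinarith
  -- the Taylor coefficient
  have hv1c : (v1 : ℂ) ≠ 0 := by exact_mod_cast hv1.ne'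
  have hlc := line_coeff c hs1 hs2 v1 v2 hv1 hv2 hT1 hT2 (n ^ 12)
    (fun k j => ∑ d ∈ range (n ^ 8), (N k j d : ℂ) * θ ^ d) (a : ℂ) (b : ℂ) (e : ℂ) ν
  have hfun : (fun t : ℂ => c.f (n ^ 12) (pc (1 / v1) (1 / v2) θ (n ^ 8) N)
      (t * (a * (1 / v1))) (t * (b * (1 / v1))) (t * (e * (1 / v1)))) =
      (fun t : ℂ => c.f (n ^ 12) (fun k j => (1 / (v1 : ℂ)) ^ k * (1 / (v2 : ℂ)) ^ j *
        ∑ d ∈ range (n ^ 8), (N k j d : ℂ) * θ ^ d)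
        (t * (a / v1)) (t * (b / v1)) (t * (e / v1))) := by
    funext t
    rw [mul_one_div, mul_one_div, mul_one_div]
    rfl
  rw [hfun, hlc]
  -- the integer parameters
  have hP1 : |((a : ℤ) + b)| ≤ 2 * ((n ^ 12 : ℕ) : ℤ) := by
    rw [abs_of_nonneg (by positivity)]
    have : a + b ≤ 2 * n ^ 12 := by omega
    exact_mod_cast this
  have hQ1 : |((a : ℤ) - b)| ≤ 2 * ((n ^ 12 : ℕ) : ℤ) := by
    rw [abs_le]
    constructor <;> omega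
  have hP2 : |((a : ℤ) + e)| ≤ 2 * ((n ^ 12 : ℕ) : ℤ) := by
    rw [abs_of_nonneg (by positivity)]
    have : a + e ≤ 2 * n ^ 12 := by omega
    exact_mod_cast this
  have hQ2 : |((a : ℤ) - e)| ≤ 2 * ((n ^ 12 : ℕ) : ℤ) := by
    rw [abs_le]
    constructor <;> omega
  have hhe : |(e : ℤ)| ≤ ((n ^ 12 : ℕ) : ℤ) := by
    rw [abs_of_nonneg (by positivity)]
    exact_mod_cast he.trans hνK
  have hhb : |(b : ℤ)| ≤ ((n ^ 12 : ℕ) : ℤ) := by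
    rw [abs_of_nonneg (by positivity)]
    exact_mod_cast hb.trans hνK
  have hG1 : G s1 1 (2 * c.al * e / v1 ^ 2) ((a : ℂ) + b) ((a : ℂ) - b) =
      G s1 1 (2 * c.al / v1 ^ 2 * ((e : ℤ) : ℂ)) (((a : ℤ) + b : ℤ) : ℂ)
        (((a : ℤ) - b : ℤ) : ℂ) := by
    have h1 : (2 * c.al * e / v1 ^ 2 : ℂ) = 2 * c.al / v1 ^ 2 * ((e : ℤ) : ℂ) := by
      push_cast
      ring
    rw [h1]
    push_cast
    rfl
  have hG2 : G s2 (v2 / v1) (2 * c.be * b / (v1 * v2)) ((a : ℂ) + e) ((a : ℂ) - e) =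
      G s2 (v2 / v1) (2 * c.be / (v1 * v2) * ((b : ℤ) : ℂ)) (((a : ℤ) + e : ℤ) : ℂ)
        (((a : ℤ) - e : ℤ) : ℂ) := by
    have h1 : (2 * c.be * b / (v1 * v2) : ℂ) = 2 * c.be / (v1 * v2) * ((b : ℤ) : ℂ) := by
      push_cast
      ring
    rw [h1]
    push_cast
    rfl
  rw [hG1, hG2]
  -- the representation of each term
  have hterm : ∀ k ∈ range (n ^ 12), ∀ j ∈ range (n ^ 12), ∀ i ∈ range (ν + 1),
      Rep (δ + 1) ω θ ((∑ d ∈ range (n ^ 8), (N k j d : ℂ) * θ ^ d) *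
        ((D1 * aeval θ D0 ^ (i + 3) * ((k.factorial : ℂ) *
          J (G s1 1 (2 * c.al / v1 ^ 2 * ((e : ℤ) : ℂ)) (((a : ℤ) + b : ℤ) : ℂ)
            (((a : ℤ) - b : ℤ) : ℂ)) i k)) *
        (D2 * aeval θ D0 ^ (ν - i + 3) * ((j.factorial : ℂ) *
          J (G s2 (v2 / v1) (2 * c.be / (v1 * v2) * ((b : ℤ) : ℂ)) (((a : ℤ) + e : ℤ) : ℂ)
            (((a : ℤ) - e : ℤ) : ℂ)) (ν - i) j))))
        (n ^ 8 + ((i + 3) * E + (ν - i + 3) * E))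
        (((δ + 1 : ℕ) : ℝ) * (((n ^ 8 : ℕ) : ℝ) * Real.exp ((n : ℝ) ^ 13)) *
          (((δ + 1 : ℕ) : ℝ) * Real.exp (C1 * ((n ^ 12 : ℕ) : ℝ) *
            Real.log (((n ^ 12 : ℕ) : ℝ) + 2) ^ 2) * Real.exp (C2 * ((n ^ 12 : ℕ) : ℝ) *
            Real.log (((n ^ 12 : ℕ) : ℝ) + 2) ^ 2))) := by
    intro k hk j hj i hi
    have hi' : i ≤ n ^ 12 := by
      have := Finset.mem_range.1 hi
      omega
    have hi2 : ν - i ≤ n ^ 12 := by omega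
    exact (rep_q ω θ (n ^ 8) (fun d => N k j d) (Real.exp ((n : ℝ) ^ 13))
      (fun d => hN k j d)).mul
      ((R1 i hi' k (Finset.mem_range.1 hk).le ((a : ℤ) + b) ((a : ℤ) - b) (e : ℤ) hP1 hQ1 hhe).mul
        (R2 (ν - i) hi2 j (Finset.mem_range.1 hj).le ((a : ℤ) + e) ((a : ℤ) - e) (b : ℤ)
          hP2 hQ2 hhb) (Nat.succ_pos δ)) (Nat.succ_pos δ)
  have hsum := Rep.sum (range (n ^ 12)) fun k hk => Rep.sum (range (n ^ 12)) fun j hj =>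
    Rep.sum (range (ν + 1)) fun i hi => (hterm k hk j hj i hi).mono
      (E' := n ^ 8 + (ν + 6) * E) (by
        have hi' := Finset.mem_range.1 hi
        have h : (i + 3) * E + (ν - i + 3) * E = (ν + 6) * E := by
          rw [← add_mul]
          congr 1
          omega
        rw [h]) (le_refl _)
  rw [Finset.sum_const, Finset.sum_const, Finset.sum_const, Finset.card_range,
    Finset.card_range, nsmul_eq_mul, nsmul_eq_mul, nsmul_eq_mul] at hsum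
  have hid : ((D1 * D2 : ℕ) : ℂ) * aeval θ D0 ^ (ν + 6) *
      (∑ k ∈ range (n ^ 12), ∑ j ∈ range (n ^ 12),
        (∑ d ∈ range (n ^ 8), (N k j d : ℂ) * θ ^ d) * ∑ i ∈ range (ν + 1),
        ((k.factorial : ℂ) *
          J (G s1 1 (2 * c.al / v1 ^ 2 * ((e : ℤ) : ℂ)) (((a : ℤ) + b : ℤ) : ℂ)
            (((a : ℤ) - b : ℤ) : ℂ)) i k) *
        ((j.factorial : ℂ) *
          J (G s2 (v2 / v1) (2 * c.be / (v1 * v2) * ((b : ℤ) : ℂ)) (((a : ℤ) + e : ℤ) : ℂ)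
            (((a : ℤ) - e : ℤ) : ℂ)) (ν - i) j)) =
      ∑ k ∈ range (n ^ 12), ∑ j ∈ range (n ^ 12), ∑ i ∈ range (ν + 1),
      ((∑ d ∈ range (n ^ 8), (N k j d : ℂ) * θ ^ d) *
        ((D1 * aeval θ D0 ^ (i + 3) * ((k.factorial : ℂ) *
          J (G s1 1 (2 * c.al / v1 ^ 2 * ((e : ℤ) : ℂ)) (((a : ℤ) + b : ℤ) : ℂ)
            (((a : ℤ) - b : ℤ) : ℂ)) i k)) *
        (D2 * aeval θ D0 ^ (ν - i + 3) * ((j.factorial : ℂ) *
          J (G s2 (v2 / v1) (2 * c.be / (v1 * v2) * ((b : ℤ) : ℂ)) (((a : ℤ) + e : ℤ) : ℂ)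
            (((a : ℤ) - e : ℤ) : ℂ)) (ν - i) j)))) := by
    rw [Finset.mul_sum]
    refine Finset.sum_congr rfl fun k _ => ?_
    rw [Finset.mul_sum]
    refine Finset.sum_congr rfl fun j _ => ?_
    rw [Finset.mul_sum, Finset.mul_sum]
    refine Finset.sum_congr rfl fun i hi => ?_
    have hi' := Finset.mem_range.1 hi
    have hp : (aeval θ D0 : ℂ) ^ (ν + 6) = aeval θ D0 ^ (i + 3) * aeval θ D0 ^ (ν - i + 3) := by
      rw [← pow_add]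
      congr 1
      omega
    rw [hp]
    push_cast
    ring
  rw [← hid] at hsum
  refine hsum.mono ?_ ?_
  · -- degrees
    have h8 : 1 ≤ n ^ 8 := Nat.one_le_pow _ _ hn1
    calc n ^ 8 + (ν + 6) * E ≤ n ^ 8 + (C0 * n ^ 8 + 6 * n ^ 8) * E := by
          refine Nat.add_le_add_left (Nat.mul_le_mul_right _ ?_) _
          omega
      _ = (1 + (C0 + 6) * E) * n ^ 8 := by ring
      _ ≤ _ := Nat.mul_le_mul_right _ (by omega)
  · -- lengths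
    have hx : ∀ x : ℝ, x ≤ Real.exp x := fun x => by
      have := Real.add_one_le_exp x
      linarith
    have hpos : (0 : ℝ) ≤ (n : ℝ) ^ 13 := by linarith
    have e1 : ((n ^ 12 : ℕ) : ℝ) ≤ Real.exp ((n : ℝ) ^ 13) := by
      refine le_trans ?_ (hx _)
      push_cast
      exact pow_le_pow_right₀ hnr (by norm_num)
    have e8 : ((n ^ 8 : ℕ) : ℝ) ≤ Real.exp ((n : ℝ) ^ 13) := by
      refine le_trans ?_ (hx _)
      push_cast
      exact pow_le_pow_right₀ hnr (by norm_num)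
    have e8' : (n : ℝ) ^ 8 ≤ (n : ℝ) ^ 13 := pow_le_pow_right₀ hnr (by norm_num)
    have eν : ((ν + 1 : ℕ) : ℝ) ≤ Real.exp (((C0 : ℝ) + 1) * (n : ℝ) ^ 13) := by
      refine le_trans ?_ (hx _)
      have h1 : (ν : ℝ) ≤ C0 * (n : ℝ) ^ 8 := by exact_mod_cast hν
      have h2 : (C0 : ℝ) * (n : ℝ) ^ 8 ≤ C0 * (n : ℝ) ^ 13 :=
        mul_le_mul_of_nonneg_left e8' (Nat.cast_nonneg _)
      push_cast
      linarith
    have eδ : (((δ + 1 : ℕ) : ℝ)) * (((δ + 1 : ℕ) : ℝ)) ≤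
        Real.exp (((δ : ℝ) + 1) ^ 2 * (n : ℝ) ^ 13) := by
      refine le_trans ?_ (hx _)
      push_cast
      have h0 : (0 : ℝ) ≤ ((δ : ℝ) + 1) ^ 2 := by positivity
      nlinarith
    have step : ((n ^ 12 : ℕ) : ℝ) * (((n ^ 12 : ℕ) : ℝ) * (((ν + 1 : ℕ) : ℝ) *
        (((δ + 1 : ℕ) : ℝ) * (((n ^ 8 : ℕ) : ℝ) * Real.exp ((n : ℝ) ^ 13)) *
          (((δ + 1 : ℕ) : ℝ) * Real.exp (C1 * ((n ^ 12 : ℕ) : ℝ) *
            Real.log (((n ^ 12 : ℕ) : ℝ) + 2) ^ 2) * Real.exp (C2 * ((n ^ 12 : ℕ) : ℝ) *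
            Real.log (((n ^ 12 : ℕ) : ℝ) + 2) ^ 2))))) ≤
        Real.exp ((n : ℝ) ^ 13) * (Real.exp ((n : ℝ) ^ 13) *
          (Real.exp (((C0 : ℝ) + 1) * (n : ℝ) ^ 13) *
          (Real.exp (((δ : ℝ) + 1) ^ 2 * (n : ℝ) ^ 13) *
            ((Real.exp ((n : ℝ) ^ 13) * Real.exp ((n : ℝ) ^ 13)) *
              (Real.exp (c1 * (n : ℝ) ^ 13) * Real.exp (c2 * (n : ℝ) ^ 13)))))) := by
      have hin : (((δ + 1 : ℕ) : ℝ) * (((n ^ 8 : ℕ) : ℝ) * Real.exp ((n : ℝ) ^ 13)) *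
          (((δ + 1 : ℕ) : ℝ) * Real.exp (C1 * ((n ^ 12 : ℕ) : ℝ) *
            Real.log (((n ^ 12 : ℕ) : ℝ) + 2) ^ 2) * Real.exp (C2 * ((n ^ 12 : ℕ) : ℝ) *
            Real.log (((n ^ 12 : ℕ) : ℝ) + 2) ^ 2))) =
          (((δ + 1 : ℕ) : ℝ) * ((δ + 1 : ℕ) : ℝ)) *
            ((((n ^ 8 : ℕ) : ℝ) * Real.exp ((n : ℝ) ^ 13)) *
            (Real.exp (C1 * ((n ^ 12 : ℕ) : ℝ) *
            Real.log (((n ^ 12 : ℕ) : ℝ) + 2) ^ 2) * Real.exp (C2 * ((n ^ 12 : ℕ) : ℝ) *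
            Real.log (((n ^ 12 : ℕ) : ℝ) + 2) ^ 2))) := by ring
      rw [hin]
      refine mul_le_mul e1 ?_ (by positivity) (Real.exp_pos _).le
      refine mul_le_mul e1 ?_ (by positivity) (Real.exp_pos _).le
      refine mul_le_mul eν ?_ (by positivity) (Real.exp_pos _).le
      refine mul_le_mul eδ ?_ (by positivity) (Real.exp_pos _).le
      refine mul_le_mul (mul_le_mul e8 (le_refl _) (Real.exp_pos _).le (Real.exp_pos _).le) ?_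
        (by positivity) (by positivity)
      exact mul_le_mul L1f L2f (Real.exp_pos _).le (Real.exp_pos _).le
    refine le_trans step ?_
    rw [← Real.exp_add, ← Real.exp_add, ← Real.exp_add, ← Real.exp_add, ← Real.exp_add,
      ← Real.exp_add, ← Real.exp_add]
    refine Real.exp_le_exp.2 ?_
    push_cast
    have h0 : (0 : ℝ) ≤ (1 + ((C0 : ℝ) + 6) * E) := by positivity
    have h1 := mul_nonneg h0 hpos
    nlinarith

end Pool.Agent.ROH
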