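import Pool.Agent.ROH.Ifc

/-!
ROH, block S: the sigma function of a lattice. Definitions.
-/

set_option autoImplicit false

namespace Pool.Agent.ROH

open Complex

/-- the elementary factor of genus two, minus one -/
noncomputable def elm (u : ℂ) : ℂ := (1 - u) * cexp (u + u ^ 2 / 2) - 1

/-- the product over the lattice; the factor of `l = 0` is `1` -/
noncomputable def sgP (L : PeriodPair) (z : ℂ) : ℂ := ∏' l : L.lattice, (1 + elm (z / l))

/-- the sigma function -/
noncomputable def sg (L : PeriodPair) (z : ℂ) : ℂ := z * sgP L z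

/-- the regular part of the zeta function, `ζ(z) - 1 / z` -/
noncomputable def zet (L : PeriodPair) (z : ℂ) : ℂ :=
  ∑' l : L.lattice, if l.1 = 0 then 0 else (1 / (z - l) + 1 / l + z / l ^ 2)

/-- `D x` is an integer -/
def InZ (D : ℕ) (x : ℂ) : Prop := ∃ a : ℤ, (D : ℂ) * x = a

/-- the factor of the common denominators -/
def fcD (q m : ℕ) : ℕ := if m = 6 then q else q * ((m : ℤ) - 6).natAbs

/-- the common denominators -/
def cmD (q k : ℕ) : ℕ := ∏ m ∈ Finset.Icc 1 k, fcD q m ^ (k / m)

end Pool.Agent.ROH
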