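import Pool.Agent.ROH.SDef

/-!
ROH-SElm: the elementary factor.

PLAN. `elm_bound`: the derivative of `elm` is `-(u ^ 2) * cexp (u + u ^ 2 / 2)`, `elm 0 = 0`; for `‖u‖ ≤ 1` the mean value
inequality on the closed ball of radius `‖u‖` (`Convex.norm_image_sub_le_of_norm_hasDerivWithin_le` or
`Convex.norm_image_sub_le_of_norm_deriv_le`) gives `‖elm u‖ ≤ ‖u‖ ^ 2 * exp (3 / 2) * ‖u‖` and `exp (3/2) ≤ 5`
(`Real.exp_one_lt_d9`). `logDeriv_fac`: `logDeriv_mul`/direct computation of the derivative of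
`z ↦ (1 - z / l) * cexp (z / l + (z / l) ^ 2 / 2)`: `-1/l * exp + (1 - z/l) * (1/l + z/l^2) * exp`, divide.
-/

set_option autoImplicit false

namespace Pool.Agent.ROH

open Complex

theorem one_add_elm (u : ℂ) : 1 + elm u = (1 - u) * cexp (u + u ^ 2 / 2) := by
  unfold elm
  ring

theorem one_add_elm_ne {u : ℂ} (hu : u ≠ 1) : 1 + elm u ≠ 0 := by
  rw [one_add_elm]
  exact mul_ne_zero (sub_ne_zero.2 hu.symm) (Complex.exp_ne_zero _)

private theorem se_deriv (u : ℂ) : HasDerivAt elm (-(u ^ 2) * cexp (u + u ^ 2 / 2)) u := by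
  have h1 : HasDerivAt (fun u : ℂ => u + u ^ 2 / 2) (1 + u) u := by
    have h2 := (hasDerivAt_id u).add (((hasDerivAt_id u).pow 2).div_const 2)
    refine h2.congr_deriv ?_
    simp
  have h3 : HasDerivAt (fun u : ℂ => (1 : ℂ) - u) (-1) u := by
    have h4 := (hasDerivAt_id u).const_sub (1 : ℂ)
    exact h4
  have h5 := (h3.mul h1.cexp).sub_const (1 : ℂ)
  have h6 : (-1 : ℂ) * cexp (u + u ^ 2 / 2) + (1 - u) * (cexp (u + u ^ 2 / 2) * (1 + u)) =
      -(u ^ 2) * cexp (u + u ^ 2 / 2) := by ring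
  rw [h6] at h5
  exact h5

theorem differentiable_elm : Differentiable ℂ elm := fun u => (se_deriv u).differentiableAt

theorem elm_bound (u : ℂ) (hu : ‖u‖ ≤ 1) : ‖elm u‖ ≤ 5 * ‖u‖ ^ 3 := by
  have h0 : elm 0 = 0 := by
    unfold elm
    simp
  have he : Real.exp (3 / 2) ≤ 5 := by
    have h1 : Real.exp (3 / 2) ^ 2 = Real.exp 1 ^ 3 := by
      rw [← Real.exp_nat_mul, ← Real.exp_nat_mul]
      norm_num
    have h2 : Real.exp 1 ^ 3 ≤ 2.7182818286 ^ 3 :=
      pow_le_pow_left₀ (Real.exp_pos _).le Real.exp_one_lt_d9.le _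
    have h3 : (2.7182818286 : ℝ) ^ 3 ≤ 5 ^ 2 := by norm_num
    exact le_of_sq_le_sq (by rw [h1]; exact h2.trans h3) (by norm_num)
  have hb : ∀ w ∈ Metric.closedBall (0 : ℂ) ‖u‖, ‖-(w ^ 2) * cexp (w + w ^ 2 / 2)‖ ≤ 5 * ‖u‖ ^ 2 := by
    intro w hw
    rw [mem_closedBall_zero_iff] at hw
    have hw0 : ‖w‖ ^ 2 ≤ ‖u‖ ^ 2 := pow_le_pow_left₀ (norm_nonneg _) hw 2
    rw [norm_mul, norm_neg, norm_pow, Complex.norm_exp]
    have h1 : (w + w ^ 2 / 2).re ≤ 3 / 2 := by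
      refine (Complex.re_le_norm _).trans ?_
      refine (norm_add_le _ _).trans ?_
      rw [norm_div, norm_pow]
      have h2 : ‖(2 : ℂ)‖ = 2 := by simp
      rw [h2]
      have h3 : ‖w‖ ≤ 1 := hw.trans hu
      have h4 : ‖w‖ ^ 2 ≤ 1 := by
        have := norm_nonneg w
        nlinarith
      linarith
    calc ‖w‖ ^ 2 * Real.exp (w + w ^ 2 / 2).re ≤ ‖u‖ ^ 2 * 5 :=
          mul_le_mul hw0 ((Real.exp_le_exp.2 h1).trans he) (Real.exp_pos _).le (by positivity)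
      _ = 5 * ‖u‖ ^ 2 := by ring
  have h1 := (convex_closedBall (0 : ℂ) ‖u‖).norm_image_sub_le_of_norm_hasDerivWithin_le
    (f := elm) (x := 0) (y := u) (fun x _ => (se_deriv x).hasDerivWithinAt) hb
    (by simp) (by simp)
  rw [h0, sub_zero, sub_zero] at h1
  calc ‖elm u‖ ≤ 5 * ‖u‖ ^ 2 * ‖u‖ := h1
    _ = 5 * ‖u‖ ^ 3 := by ring

theorem logDeriv_fac (l z : ℂ) (hl : l ≠ 0) (hz : z ≠ l) :
    logDeriv (fun z => 1 + elm (z / l)) z = 1 / (z - l) + 1 / l + z / l ^ 2 := by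
  have h1 : HasDerivAt (fun z => 1 + elm (z / l))
      (-((z / l) ^ 2) * cexp (z / l + (z / l) ^ 2 / 2) * (1 / l)) z := by
    have h2 : HasDerivAt (fun z : ℂ => z / l) (1 / l) z := by
      have h3 := (hasDerivAt_id z).div_const l
      exact h3
    exact ((se_deriv (z / l)).comp z h2).const_add 1
  rw [logDeriv_apply, h1.deriv, one_add_elm]
  have h4 : cexp (z / l + (z / l) ^ 2 / 2) ≠ 0 := Complex.exp_ne_zero _
  have h5 : z - l ≠ 0 := sub_ne_zero.2 hz
  have h6 : 1 - z / l ≠ 0 := by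
    intro h7
    apply hz
    have h8 : z / l = 1 := by linear_combination -h7
    rw [div_eq_iff hl] at h8
    linear_combination h8
  have h9 : (1 - z / l) = -(z - l) / l := by
    field_simp
    ring
  rw [h9]
  field_simp
  ring

end Pool.Agent.ROH
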