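import Pool.Agent.ROH.SSig

/-!
ROH-SPer: quasi-periodicity.

PLAN. `U = L.latticeᶜ` is open and connected (`Set.Countable.isConnected_compl_of_one_lt_rank`, as in
`PeriodPair.weierstrassPExcept_add_coe_aux`). On `U` the function `z ↦ logDeriv (sg L) (z + l) - logDeriv (sg L) z` has derivative
`- ℘ (z + l) + ℘ z = 0` (`weierstrassP_add_coe`), so it is a constant `α` (`IsOpen.eqOn_of_deriv_eq` or
`IsOpen.is_const_of_deriv_eq_zero`). Then `z ↦ sg L (z + l) * cexp (-(α z)) / sg L z` has derivative `0` on `U`, so it is a constant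
`c`, `c ≠ 0` by `sg_ne`. Both sides of the claim are continuous and `U` is dense (`Dense`: complement of a countable set, or
closure), so the identity holds everywhere.
-/

set_option autoImplicit false

namespace Pool.Agent.ROH

open Complex

private theorem lat_cnt (L : PeriodPair) : (L.lattice : Set ℂ).Countable :=
  countable_of_Lindelof_of_discrete (X := L.lattice)

private theorem lat_conn (L : PeriodPair) : IsPreconnected ((L.lattice : Set ℂ)ᶜ) :=
  (Set.Countable.isConnected_compl_of_one_lt_rank (by simp) (lat_cnt L)).2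

private theorem lat_open (L : PeriodPair) : IsOpen ((L.lattice : Set ℂ)ᶜ) := L.isClosed_lattice.isOpen_compl

private theorem lat_dense (L : PeriodPair) : Dense ((L.lattice : Set ℂ)ᶜ) := (lat_cnt L).dense_compl ℂ

private theorem add_nmem (L : PeriodPair) {l z : ℂ} (hl : l ∈ L.lattice) (hz : z ∉ L.lattice) :
    z + l ∉ L.lattice := by
  intro h
  apply hz
  have := L.lattice.sub_mem h hl
  simpa using this

private theorem hasDeriv_sg (L : PeriodPair) {z : ℂ} (hz : z ∉ L.lattice) :
    HasDerivAt (sg L) (logDeriv (sg L) z * sg L z) z := by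
  have h := (differentiable_sg L z).hasDerivAt
  have e : logDeriv (sg L) z * sg L z = deriv (sg L) z := by
    rw [logDeriv_apply, div_mul_cancel₀ _ (sg_ne L z hz)]
  rwa [e]

theorem sg_add (L : PeriodPair) (l : ℂ) (hl : l ∈ L.lattice) :
    ∃ α c : ℂ, c ≠ 0 ∧ ∀ z, sg L (z + l) = c * cexp (α * z) * sg L z := by
  set U : Set ℂ := (L.lattice : Set ℂ)ᶜ with hU
  have hz0 : L.ω₁ / 2 ∈ U := L.ω₁_div_two_notMem_lattice
  set z₀ : ℂ := L.ω₁ / 2 with hz0def
  -- the difference of the logarithmic derivatives is constant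
  have hf : ∀ z ∈ U, HasDerivAt (fun z => logDeriv (sg L) (z + l) - logDeriv (sg L) z) 0 z := by
    intro z hz
    have hz' : z ∉ L.lattice := hz
    have h1 := (hasDerivAt_logDeriv_sg L (z + l) (add_nmem L hl hz')).comp_add_const z l
    have h2 := h1.sub (hasDerivAt_logDeriv_sg L z hz')
    have h3 : L.weierstrassP (z + l) = L.weierstrassP z := L.weierstrassP_add_coe z ⟨l, hl⟩
    rw [h3, sub_self] at h2
    exact h2
  obtain ⟨α, hα⟩ := (lat_open L).exists_is_const_of_deriv_eq_zero (lat_conn L)
    (fun z hz => (hf z hz).differentiableAt.differentiableWithinAt) (fun z hz => (hf z hz).deriv)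
  have hα' : ∀ z ∈ U, logDeriv (sg L) (z + l) = α + logDeriv (sg L) z := by
    intro z hz
    have := hα z hz
    rw [← this]
    ring
  -- the quotient is constant
  have hg : ∀ z ∈ U, HasDerivAt (fun z => sg L (z + l) * cexp (-(α * z)) / sg L z) 0 z := by
    intro z hz
    have hz' : z ∉ L.lattice := hz
    have h1 := (hasDeriv_sg L (add_nmem L hl hz')).comp_add_const z l
    have h2 : HasDerivAt (fun z : ℂ => cexp (-(α * z))) (cexp (-(α * z)) * (-(α * 1))) z :=
      (((hasDerivAt_id z).const_mul α).neg).cexp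
    have h3 := (h1.mul h2).div (hasDeriv_sg L hz') (sg_ne L z hz')
    refine h3.congr_deriv ?_
    rw [div_eq_zero_iff]
    left
    rw [hα' z hz]
    simp only [Pi.mul_apply]
    ring
  obtain ⟨c, hc⟩ := (lat_open L).exists_is_const_of_deriv_eq_zero (lat_conn L)
    (fun z hz => (hg z hz).differentiableAt.differentiableWithinAt) (fun z hz => (hg z hz).deriv)
  have hc0 : c ≠ 0 := by
    rw [← hc z₀ hz0]
    exact div_ne_zero (mul_ne_zero (sg_ne L _ (add_nmem L hl hz0)) (Complex.exp_ne_zero _)) (sg_ne L _ hz0)
  refine ⟨α, c, hc0, ?_⟩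
  have hon : Set.EqOn (fun z => sg L (z + l)) (fun z => c * cexp (α * z) * sg L z) U := by
    intro z hz
    have h1 := hc z hz
    have h2 := sg_ne L z hz
    simp only
    rw [← h1]
    rw [Complex.exp_neg]
    have h3 := Complex.exp_ne_zero (α * z)
    field_simp
  have hd := differentiable_sg L
  have hcont1 : Continuous (fun z => sg L (z + l)) := hd.continuous.comp (by fun_prop)
  have hcont2 : Continuous (fun z => c * cexp (α * z) * sg L z) :=
    (by fun_prop : Continuous fun z => c * cexp (α * z)).mul hd.continuous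
  intro z
  exact congrFun (hcont1.ext_on (lat_dense L) hcont2 hon) z

end Pool.Agent.ROH
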