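import Pool.Agent.ROH.SDef

/-!
ROH-SPerA: positivity of the weight.

If `κ ≤ 0` then `‖s z‖ exp (-κ ‖z‖^2/2)` is continuous and periodic for the lattice `ℤ + ℤ τ`, so it is bounded, so `s` is bounded, constant
(Liouville), `s = s 0 = 0`: contradiction.
-/

set_option autoImplicit false

namespace Pool.Agent.ROH

open Complex ComplexConjugate

private theorem norm_add_sq_c (z w : ℂ) : ‖z + w‖ ^ 2 = ‖z‖ ^ 2 + 2 * (conj w * z).re + ‖w‖ ^ 2 := by
  rw [← Complex.normSq_eq_norm_sq, ← Complex.normSq_eq_norm_sq, ← Complex.normSq_eq_norm_sq,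
    Complex.normSq_apply, Complex.normSq_apply, Complex.normSq_apply]
  simp only [Complex.add_re, Complex.add_im, Complex.mul_re, Complex.conj_re, Complex.conj_im]
  ring

theorem kpos_of (s : ℂ → ℂ) (hs : Differentiable ℂ s) (h0 : s 0 = 0) (hne : ∃ z, s z ≠ 0) (κ : ℝ) (τ : ℂ)
    (hi : 0 < τ.im)
    (hper : ∀ a b : ℤ, ∃ e : ℂ, ‖e‖ = 1 ∧ ∀ z : ℂ, s (z + (a + b * τ)) =
      e * cexp (κ * (conj (a + b * τ) * z) + κ * ‖(a + b * τ : ℂ)‖ ^ 2 / 2) * s z) : 0 < κ := by
  by_contra hκ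
  rw [not_lt] at hκ
  set N : ℂ → ℝ := fun z => ‖s z‖ * Real.exp (-(κ * ‖z‖ ^ 2 / 2)) with hN
  have hcont : Continuous N := by
    have h1 := hs.continuous
    fun_prop
  have hN0 : ∀ z, ‖s z‖ ≤ N z := by
    intro z
    have h1 : 1 ≤ Real.exp (-(κ * ‖z‖ ^ 2 / 2)) := by
      apply Real.one_le_exp
      have h2 : κ * ‖z‖ ^ 2 ≤ 0 := mul_nonpos_of_nonpos_of_nonneg hκ (by positivity)
      linarith
    exact le_mul_of_one_le_right (norm_nonneg _) h1
  have hNp : ∀ (a b : ℤ) (z : ℂ), N (z + (a + b * τ)) = N z := by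
    intro a b z
    obtain ⟨e, he, h1⟩ := hper a b
    simp only [hN]
    rw [h1 z, norm_mul, norm_mul, he, one_mul, Complex.norm_exp, norm_add_sq_c]
    have h2 : ((κ : ℂ) * (conj ((a : ℂ) + b * τ) * z) + κ * (‖(a + b * τ : ℂ)‖ : ℂ) ^ 2 / 2).re =
        κ * (conj ((a : ℂ) + b * τ) * z).re + κ * ‖(a + b * τ : ℂ)‖ ^ 2 / 2 := by
      rw [Complex.add_re, Complex.re_ofReal_mul]
      congr 1
      have h3 : ((κ : ℂ) * (‖(a + b * τ : ℂ)‖ : ℂ) ^ 2 / 2) =
          ((κ * ‖(a + b * τ : ℂ)‖ ^ 2 / 2 : ℝ) : ℂ) := by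
        push_cast
        rfl
      rw [h3, Complex.ofReal_re]
    rw [h2, mul_comm (Real.exp _) ‖s z‖, mul_assoc, ← Real.exp_add]
    congr 2
    ring
  obtain ⟨B, hB⟩ := (isCompact_closedBall (0 : ℂ) (1 + τ.im)).exists_bound_of_continuousOn
    hcont.continuousOn
  have hb : ∀ z, ‖s z‖ ≤ B := by
    intro z
    set b : ℤ := ⌊z.im / τ.im⌋ with hb
    set a : ℤ := ⌊(z - b * τ).re⌋ with ha
    have h1 : z = (z - (a + b * τ)) + (a + b * τ) := by ring
    have h2 : ‖z - (a + b * τ)‖ ≤ 1 + τ.im := by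
      refine (Complex.norm_le_abs_re_add_abs_im _).trans ?_
      have h3 : (z - (a + b * τ)).re = (z - b * τ).re - a := by
        simp only [Complex.sub_re, Complex.add_re, Complex.intCast_re]
        ring
      have h4 : (z - (a + b * τ)).im = z.im - b * τ.im := by
        simp only [Complex.sub_im, Complex.add_im, Complex.intCast_im, Complex.mul_im,
          Complex.intCast_re]
        ring
      have h5 : |(z - (a + b * τ)).re| ≤ 1 := by
        rw [h3, abs_le]
        have h6 := Int.floor_le (z - b * τ).re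
        have h7 := Int.lt_floor_add_one (z - b * τ).re
        rw [← ha] at h6 h7
        constructor <;> linarith
      have h8 : |(z - (a + b * τ)).im| ≤ τ.im := by
        rw [h4, abs_le]
        have h6 := Int.floor_le (z.im / τ.im)
        have h7 := Int.lt_floor_add_one (z.im / τ.im)
        rw [← hb] at h6 h7
        rw [le_div_iff₀ hi] at h6
        rw [div_lt_iff₀ hi] at h7
        constructor <;> nlinarith
      linarith
    have h9 : N z = N (z - (a + b * τ)) := by
      conv_lhs => rw [h1]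
      exact hNp a b _
    have h10 := hB (z - (a + b * τ)) (by rw [mem_closedBall_zero_iff]; exact h2)
    calc ‖s z‖ ≤ N z := hN0 z
      _ = N (z - (a + b * τ)) := h9
      _ ≤ ‖N (z - (a + b * τ))‖ := Real.le_norm_self _
      _ ≤ B := h10
  have hbd : Bornology.IsBounded (Set.range s) := by
    rw [isBounded_iff_forall_norm_le]
    refine ⟨B, ?_⟩
    rintro _ ⟨z, rfl⟩
    exact hb z
  obtain ⟨z, hz⟩ := hne
  apply hz
  rw [hs.apply_eq_apply_of_bounded hbd z 0, h0]

end Pool.Agent.ROH
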