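import Pool.Agent.ROH.SElm

/-!
ROH-SPrd: the product over the lattice.
-/

set_option autoImplicit false

namespace Pool.Agent.ROH

open Complex

private theorem sprd_cof (L : PeriodPair) (R : ℝ) : ∀ᶠ l : L.lattice in Filter.cofinite, R ≤ ‖(l : ℂ)‖ := by
  rw [Filter.eventually_cofinite]
  refine (isCompact_iff_finite.mp (isCompact_closedBall (0 : L.lattice) R)).subset ?_
  intro l hl
  simp only [Set.mem_ofPred_eq, not_le] at hl
  simp only [Metric.mem_closedBall, dist_zero_right]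
  exact hl.le

private theorem sprd_sum (L : PeriodPair) (C : ℝ) : Summable fun l : L.lattice => C * ‖l‖ ^ (-3 : ℝ) :=
  (ZLattice.summable_norm_rpow _ _ (by simp; norm_num)).mul_left _

private theorem sprd_ev (L : PeriodPair) (r : ℝ) : ∀ᶠ l : L.lattice in Filter.cofinite, ∀ z ∈ Metric.ball (0 : ℂ) r,
    ‖elm (z / l)‖ ≤ 5 * r ^ 3 * ‖l‖ ^ (-3 : ℝ) := by
  filter_upwards [sprd_cof L r] with l hl z hz
  rw [mem_ball_zero_iff] at hz
  have hr : 0 < r := (norm_nonneg z).trans_lt hz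
  have hl0 : 0 < ‖(l : ℂ)‖ := hr.trans_le hl
  have h1 : ‖z / (l : ℂ)‖ ≤ 1 := by
    rw [norm_div, div_le_one hl0]
    exact hz.le.trans hl
  refine (elm_bound _ h1).trans ?_
  have h2 : ‖l‖ ^ (-3 : ℝ) = (‖(l : ℂ)‖ ^ 3)⁻¹ := by
    rw [Real.rpow_neg (norm_nonneg _)]
    congr 1
    exact_mod_cast Real.rpow_natCast ‖l‖ 3
  rw [h2, norm_div, div_pow, div_eq_mul_inv, ← mul_assoc]
  gcongr

theorem sgP_mult (L : PeriodPair) (r : ℝ) :
    MultipliableLocallyUniformlyOn (fun (l : L.lattice) (z : ℂ) => 1 + elm (z / l)) (Metric.ball 0 r) :=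
  Summable.multipliableLocallyUniformlyOn_one_add Metric.isOpen_ball (sprd_sum L (5 * r ^ 3)) (sprd_ev L r)
    fun _ => (differentiable_elm.continuous.comp (continuous_id.div_const _)).continuousOn

private theorem sprd_has (L : PeriodPair) (r : ℝ) :
    HasProdLocallyUniformlyOn (fun (l : L.lattice) (z : ℂ) => 1 + elm (z / l)) (sgP L) (Metric.ball 0 r) :=
  Summable.hasProdLocallyUniformlyOn_one_add Metric.isOpen_ball (sprd_sum L (5 * r ^ 3)) (sprd_ev L r)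
    fun _ => (differentiable_elm.continuous.comp (continuous_id.div_const _)).continuousOn

private theorem sprd_dif (c : ℂ) : Differentiable ℂ fun z : ℂ => 1 + elm (z / c) :=
  (differentiable_const 1).add (differentiable_elm.comp (differentiable_id.div_const _))

theorem differentiable_sgP (L : PeriodPair) : Differentiable ℂ (sgP L) := by
  intro z
  have hz : z ∈ Metric.ball (0 : ℂ) (‖z‖ + 1) := by
    rw [mem_ball_zero_iff]
    linarith
  have h1 : DifferentiableOn ℂ (sgP L) (Metric.ball (0 : ℂ) (‖z‖ + 1)) := by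
    refine (hasProdLocallyUniformlyOn_iff_tendstoLocallyUniformlyOn.mp
      (sprd_has L (‖z‖ + 1))).differentiableOn (.of_forall fun s => ?_) Metric.isOpen_ball
    exact DifferentiableOn.fun_finsetProd fun l _ => (sprd_dif (l : ℂ)).differentiableOn
  exact (h1 z hz).differentiableAt (Metric.isOpen_ball.mem_nhds hz)

theorem sgP_zero (L : PeriodPair) : sgP L 0 = 1 := by
  unfold sgP
  simp [elm]

private theorem sprd_fac_ne (L : PeriodPair) (z : ℂ) (hz : ∀ l ∈ L.lattice, l ≠ 0 → z ≠ l) (l : L.lattice) :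
    1 + elm (z / l) ≠ 0 := by
  apply one_add_elm_ne
  intro h
  by_cases h0 : (l : ℂ) = 0
  · rw [h0, div_zero] at h
    exact zero_ne_one h
  · exact hz l l.2 h0 ((div_eq_one_iff_eq h0).1 h)

theorem sgP_ne (L : PeriodPair) (z : ℂ) (hz : ∀ l ∈ L.lattice, l ≠ 0 → z ≠ l) : sgP L z ≠ 0 := by
  refine tprod_one_add_ne_zero_of_summable (f := fun l : L.lattice => elm (z / l)) (sprd_fac_ne L z hz) ?_
  have hz' : z ∈ Metric.ball (0 : ℂ) (‖z‖ + 1) := by
    rw [mem_ball_zero_iff]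
    linarith
  refine Summable.of_norm_bounded_eventually (sprd_sum L (5 * (‖z‖ + 1) ^ 3)) ?_
  filter_upwards [sprd_ev L (‖z‖ + 1)] with l hl
  rw [norm_norm]
  exact hl z hz'

private theorem sprd_ld (L : PeriodPair) (z : ℂ) (hz : ∀ l ∈ L.lattice, l ≠ 0 → z ≠ l) (l : L.lattice) :
    logDeriv (fun z => 1 + elm (z / l)) z = if l.1 = 0 then 0 else (1 / (z - l) + 1 / l + z / (l : ℂ) ^ 2) := by
  split_ifs with h0
  · rw [h0]
    simp only [div_zero]
    rw [logDeriv_const]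
    rfl
  · exact logDeriv_fac l z h0 (hz l l.2 h0)

private theorem sprd_term (l z : ℂ) (hl : 2 * (‖z‖ + 1) ≤ ‖l‖) :
    ‖1 / (z - l) + 1 / l + z / l ^ 2‖ ≤ 2 * ‖z‖ ^ 2 * (‖l‖ ^ 3)⁻¹ := by
  have hz0 : 0 ≤ ‖z‖ := norm_nonneg z
  have hl0 : 0 < ‖l‖ := by linarith
  have hl1 : l ≠ 0 := norm_pos_iff.1 hl0
  have h1 : ‖l‖ / 2 ≤ ‖z - l‖ := by
    have h2 := norm_sub_norm_le l z
    rw [norm_sub_rev]
    linarith
  have h2 : z - l ≠ 0 := norm_pos_iff.1 (by linarith)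
  have h3 : 1 / (z - l) + 1 / l + z / l ^ 2 = z ^ 2 / (l ^ 2 * (z - l)) := by
    field_simp
    ring
  rw [h3, norm_div, norm_mul, norm_pow, norm_pow]
  have h4 : ‖l‖ ^ 3 / 2 ≤ ‖l‖ ^ 2 * ‖z - l‖ := by
    calc ‖l‖ ^ 3 / 2 = ‖l‖ ^ 2 * (‖l‖ / 2) := by ring
      _ ≤ ‖l‖ ^ 2 * ‖z - l‖ := by gcongr
  calc ‖z‖ ^ 2 / (‖l‖ ^ 2 * ‖z - l‖) ≤ ‖z‖ ^ 2 / (‖l‖ ^ 3 / 2) := by gcongr
    _ = 2 * ‖z‖ ^ 2 * (‖l‖ ^ 3)⁻¹ := by
      field_simp

theorem logDeriv_sgP (L : PeriodPair) (z : ℂ) (hz : ∀ l ∈ L.lattice, l ≠ 0 → z ≠ l) :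
    logDeriv (sgP L) z = zet L z := by
  have hz' : z ∈ Metric.ball (0 : ℂ) (‖z‖ + 1) := by
    rw [mem_ball_zero_iff]
    linarith
  have hm : Summable fun l : L.lattice => logDeriv (fun z => 1 + elm (z / l)) z := by
    refine Summable.of_norm_bounded_eventually (sprd_sum L (2 * ‖z‖ ^ 2)) ?_
    filter_upwards [sprd_cof L (2 * (‖z‖ + 1))] with l hl
    rw [sprd_ld L z hz]
    have h2 : ‖l‖ ^ (-3 : ℝ) = (‖(l : ℂ)‖ ^ 3)⁻¹ := by
      rw [Real.rpow_neg (norm_nonneg _)]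
      congr 1
      exact_mod_cast Real.rpow_natCast ‖l‖ 3
    rw [h2]
    split_ifs with h0
    · rw [norm_zero]
      positivity
    · exact sprd_term l z hl
  have h1 := logDeriv_tprod_eq_tsum (s := Metric.ball (0 : ℂ) (‖z‖ + 1)) Metric.isOpen_ball hz'
    (f := fun (l : L.lattice) (z : ℂ) => 1 + elm (z / l)) (sprd_fac_ne L z hz)
    (fun l => (sprd_dif (l : ℂ)).differentiableOn) hm (sgP_mult L _) (sgP_ne L z hz)
  rw [show (fun z => ∏' l : L.lattice, (1 + elm (z / l))) = sgP L from rfl] at h1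
  rw [h1]
  unfold zet
  exact tsum_congr fun l => sprd_ld L z hz l

end Pool.Agent.ROH
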