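import Pool.Agent.ROH.SDef

/-!
ROH-SRatA: denominators, integrality.

PLAN. `cmD_dvd`: for `i + j ≤ k`, `i, j < k`: `fcD q k * cmD q i * cmD q j ∣ cmD q k`, because `i / m + j / m ≤ k / m` and the factor
`m = k` of `cmD q k` is `fcD q k`. `inZ`: strong induction on `k`: `k = 0` (`d 1 = 1`), `k = 1` (`d 2 = 0`), `k = 6` (`fcD q 6 = q` divides
`cmD q 6`), otherwise the recursion for `N = k - 2` (so `N + 3 = k + 1`), in which the terms with `d (k + 1)` are `N d 1 d (N + 3)` (i = 1 in the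
first product), `-4 d 1 d (N + 3)` (i = 0 in the second one), `d 0 d (N + 4) = 0`; so `(k - 6) d (k + 1) = (N - 4) d (N + 3)` is a sum of integer multiples of
`d (i + 1) d (j + 1)` with `i + j = k`, `1 ≤ i, j ≤ k - 1`, and of `G d (i + 1) d (j + 1)` with `i + j = k - 4`. Multiply by `cmD q k`,
divisible by `q |k - 6| cmD q i cmD q j`. Useful: `InZ` is closed under sums, integer multiples, products
(`InZ D x → InZ E y → InZ (D * E) (x * y)`), and passes to multiples of `D`.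
-/

set_option autoImplicit false

namespace Pool.Agent.ROH

open Complex Finset

private theorem zz_add {D : ℕ} {x y : ℂ} (hx : InZ D x) (hy : InZ D y) : InZ D (x + y) := by
  obtain ⟨a, ha⟩ := hx
  obtain ⟨b, hb⟩ := hy
  exact ⟨a + b, by rw [mul_add, ha, hb]; push_cast; ring⟩

private theorem zz_zmul {D : ℕ} {x : ℂ} (n : ℤ) (hx : InZ D x) : InZ D ((n : ℂ) * x) := by
  obtain ⟨a, ha⟩ := hx
  exact ⟨n * a, by push_cast; rw [← ha]; ring⟩

private theorem zz_mul {D E : ℕ} {x y : ℂ} (hx : InZ D x) (hy : InZ E y) : InZ (D * E) (x * y) := by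
  obtain ⟨a, ha⟩ := hx
  obtain ⟨b, hb⟩ := hy
  exact ⟨a * b, by push_cast; rw [← ha, ← hb]; ring⟩

private theorem zz_dvd {D E : ℕ} {x : ℂ} (h : D ∣ E) (hx : InZ D x) : InZ E x := by
  obtain ⟨a, ha⟩ := hx
  obtain ⟨c, rfl⟩ := h
  exact ⟨c * a, by push_cast; rw [← ha]; ring⟩

private theorem zz_zero (D : ℕ) : InZ D 0 := ⟨0, by simp⟩

private theorem zz_sum {D : ℕ} {ι : Type*} (s : Finset ι) (f : ι → ℂ) (h : ∀ i ∈ s, InZ D (f i)) :
    InZ D (∑ i ∈ s, f i) := by
  classical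
  induction s using Finset.induction_on with
  | empty => simpa using zz_zero D
  | insert a s ha ih =>
    rw [Finset.sum_insert ha]
    exact zz_add (h a (Finset.mem_insert_self _ _))
      (ih (fun i hi => h i (Finset.mem_insert_of_mem hi)))

private theorem cmD_eq (q i n : ℕ) (h : i ≤ n) : cmD q i = ∏ m ∈ Finset.Icc 1 n, fcD q m ^ (i / m) := by
  unfold cmD
  apply Finset.prod_subset (Finset.Icc_subset_Icc_right h)
  intro m hm hm'
  rw [Finset.mem_Icc] at hm hm'
  rw [Nat.div_eq_of_lt (by omega), pow_zero]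

theorem cmD_dvd (q i j k : ℕ) (h : i + j ≤ k) (hi : i < k) (hj : j < k) :
    fcD q k * (cmD q i * cmD q j) ∣ cmD q k := by
  obtain ⟨n, rfl⟩ : ∃ n, k = n + 1 := ⟨k - 1, by omega⟩
  rw [cmD_eq q i n (by omega), cmD_eq q j n (by omega), ← Finset.prod_mul_distrib]
  have h1 : cmD q (n + 1) = fcD q (n + 1) * ∏ m ∈ Finset.Icc 1 n, fcD q m ^ ((n + 1) / m) := by
    unfold cmD
    rw [Finset.prod_Icc_succ_top (by omega), Nat.div_self (by omega), pow_one, mul_comm]
  rw [h1]
  apply mul_dvd_mul_left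
  apply Finset.prod_dvd_prod_of_dvd
  intro m hm
  rw [← pow_add]
  apply pow_dvd_pow
  rw [Finset.mem_Icc] at hm
  exact Nat.div_add_div_le_add_div.trans (Nat.div_le_div_right h)

theorem inZ_rec (d : ℕ → ℂ) (G : ℂ) (q : ℕ) (hG : InZ q G) (h7 : InZ q (d 7)) (h0 : d 0 = 0)
    (h1 : d 1 = 1) (h2 : d 2 = 0)
    (hrec : ∀ N : ℕ, ∑ i ∈ range (N + 1), (N.choose i : ℂ) *
      (d i * d (N - i + 4) - 4 * (d (i + 1) * d (N - i + 3)) + 3 * (d (i + 2) * d (N - i + 2))) =
      G * ∑ i ∈ range (N + 1), (N.choose i : ℂ) * (d i * d (N - i))) (k : ℕ) :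
    InZ (cmD q k) (d (k + 1)) := by
  induction k using Nat.strong_induction_on with
  | _ k ih =>
  by_cases hk0 : k = 0
  · subst hk0
    exact ⟨1, by simp [cmD, h1]⟩
  by_cases hk1 : k = 1
  · subst hk1
    have : d (1 + 1) = 0 := h2
    rw [this]
    exact zz_zero _
  by_cases hk6 : k = 6
  · subst hk6
    refine zz_dvd ?_ h7
    have h3 := cmD_dvd q 0 0 6 (by omega) (by omega) (by omega)
    refine dvd_trans ?_ h3
    simp [fcD, cmD]
  obtain ⟨N, rfl⟩ : ∃ N, k = N + 2 := ⟨k - 2, by omega⟩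
  -- the denominator without the factor
  have hF : fcD q (N + 2) = q * (((N + 2 : ℕ) : ℤ) - 6).natAbs := by
    unfold fcD
    rw [if_neg hk6]
  set F : ℕ := (((N + 2 : ℕ) : ℤ) - 6).natAbs with hFdef
  have hFpos : 0 < F := by omega
  obtain ⟨E, hE⟩ : ∃ E, cmD q (N + 2) = F * E := by
    have h3 := cmD_dvd q 0 0 (N + 2) (by omega) (by omega) (by omega)
    rw [hF] at h3
    have h4 : F ∣ cmD q (N + 2) := dvd_trans (by rw [mul_comm q F, mul_assoc]; exact dvd_mul_right _ _) h3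
    exact h4
  have hEd : ∀ i j, i + j ≤ N + 2 → i < N + 2 → j < N + 2 → q * (cmD q i * cmD q j) ∣ E := by
    intro i j hij hi hj
    have h3 := cmD_dvd q i j (N + 2) hij hi hj
    rw [hF, hE, mul_comm q F, mul_assoc] at h3
    exact Nat.dvd_of_mul_dvd_mul_left hFpos h3
  have hP : ∀ a b, a ≤ N + 2 → b ≤ N + 2 → a + b ≤ N + 4 → InZ E (d a * d b) := by
    intro a b ha hb hab
    rcases Nat.eq_zero_or_pos a with h | h
    · rw [h, h0, zero_mul]; exact zz_zero _
    rcases Nat.eq_zero_or_pos b with h' | h'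
    · rw [h', h0, mul_zero]; exact zz_zero _
    obtain ⟨a', rfl⟩ : ∃ a', a = a' + 1 := ⟨a - 1, by omega⟩
    obtain ⟨b', rfl⟩ : ∃ b', b = b' + 1 := ⟨b - 1, by omega⟩
    have h3 := zz_mul (ih a' (by omega)) (ih b' (by omega))
    exact zz_dvd (dvd_trans (dvd_mul_left _ q) (hEd a' b' (by omega) (by omega) (by omega))) h3
  have hPG : ∀ a b, a ≤ N + 2 → b ≤ N + 2 → a + b ≤ N + 4 → InZ E (G * (d a * d b)) := by
    intro a b ha hb hab
    rcases Nat.eq_zero_or_pos a with h | h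
    · rw [h, h0, zero_mul, mul_zero]; exact zz_zero _
    rcases Nat.eq_zero_or_pos b with h' | h'
    · rw [h', h0, mul_zero, mul_zero]; exact zz_zero _
    obtain ⟨a', rfl⟩ : ∃ a', a = a' + 1 := ⟨a - 1, by omega⟩
    obtain ⟨b', rfl⟩ : ∃ b', b = b' + 1 := ⟨b - 1, by omega⟩
    have h3 := zz_mul hG (zz_mul (ih a' (by omega)) (ih b' (by omega)))
    exact zz_dvd (hEd a' b' (by omega) (by omega) (by omega)) h3
  -- the right-hand side
  have hR : InZ E (G * ∑ i ∈ range (N + 1), (N.choose i : ℂ) * (d i * d (N - i))) := by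
    rw [Finset.mul_sum]
    apply zz_sum
    intro i hi
    rw [Finset.mem_range] at hi
    have h3 := zz_zmul (N.choose i : ℤ) (hPG i (N - i) (by omega) (by omega) (by omega))
    have h4 : G * ((N.choose i : ℂ) * (d i * d (N - i))) =
        (((N.choose i : ℤ) : ℤ) : ℂ) * (G * (d i * d (N - i))) := by push_cast; ring
    rw [h4]
    exact h3
  -- the left-hand side
  have hL : ∀ i ∈ range (N + 1), InZ E ((N.choose i : ℂ) *
      (d i * d (N - i + 4) - 4 * (d (i + 1) * d (N - i + 3)) + 3 * (d (i + 2) * d (N - i + 2))) -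
      (((if i = 0 then (-4 : ℤ) else 0) + (if i = 1 then (N : ℤ) else 0) : ℤ) : ℂ) * d (N + 3)) := by
    intro i hi
    rw [Finset.mem_range] at hi
    rcases Nat.eq_zero_or_pos i with h | h
    · subst h
      have h3 : (N.choose 0 : ℂ) * (d 0 * d (N - 0 + 4) - 4 * (d (0 + 1) * d (N - 0 + 3)) +
          3 * (d (0 + 2) * d (N - 0 + 2))) -
          (((if 0 = 0 then (-4 : ℤ) else 0) + (if 0 = 1 then (N : ℤ) else 0) : ℤ) : ℂ) * d (N + 3) = 0 := by
        have h5 : d (0 + 2) = 0 := h2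
        have h6 : d (0 + 1) = 1 := h1
        rw [h0, h5, h6, Nat.sub_zero]
        simp
      rw [h3]
      exact zz_zero _
    · by_cases hi1 : i = 1
      · subst hi1
        have hN : N - 1 + 4 = N + 3 := by omega
        have hN3 : N - 1 + 3 = N + 2 := by omega
        have hN2 : N - 1 + 2 = N + 1 := by omega
        have h3 : (N.choose 1 : ℂ) * (d 1 * d (N - 1 + 4) - 4 * (d (1 + 1) * d (N - 1 + 3)) +
            3 * (d (1 + 2) * d (N - 1 + 2))) -
            (((if 1 = 0 then (-4 : ℤ) else 0) + (if 1 = 1 then (N : ℤ) else 0) : ℤ) : ℂ) * d (N + 3) =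
            ((3 * N : ℤ) : ℂ) * (d 3 * d (N + 1)) := by
          have h5 : d (1 + 1) = 0 := h2
          rw [h1, hN, hN3, hN2, h5, Nat.choose_one_right]
          push_cast
          simp
          ring
        rw [h3]
        exact zz_zmul _ (hP 3 (N + 1) (by omega) (by omega) (by omega))
      · have h3 : (N.choose i : ℂ) * (d i * d (N - i + 4) - 4 * (d (i + 1) * d (N - i + 3)) +
            3 * (d (i + 2) * d (N - i + 2))) -
            (((if i = 0 then (-4 : ℤ) else 0) + (if i = 1 then (N : ℤ) else 0) : ℤ) : ℂ) * d (N + 3) =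
            (((N.choose i : ℤ) : ℤ) : ℂ) * (d i * d (N - i + 4)) +
            ((-4 * (N.choose i : ℤ) : ℤ) : ℂ) * (d (i + 1) * d (N - i + 3)) +
            ((3 * (N.choose i : ℤ) : ℤ) : ℂ) * (d (i + 2) * d (N - i + 2)) := by
          rw [if_neg (by omega), if_neg hi1]
          push_cast
          ring
        rw [h3]
        exact zz_add (zz_add (zz_zmul _ (hP i (N - i + 4) (by omega) (by omega) (by omega)))
          (zz_zmul _ (hP (i + 1) (N - i + 3) (by omega) (by omega) (by omega))))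
          (zz_zmul _ (hP (i + 2) (N - i + 2) (by omega) (by omega) (by omega)))
  have hS := zz_sum _ _ hL
  rw [Finset.sum_sub_distrib, hrec N, ← Finset.sum_mul] at hS
  have hsum : ∑ i ∈ range (N + 1),
      (((if i = 0 then (-4 : ℤ) else 0) + (if i = 1 then (N : ℤ) else 0) : ℤ) : ℂ) = ((N : ℤ) - 4 : ℤ) := by
    rw [← Int.cast_sum, Finset.sum_add_distrib, Finset.sum_ite_eq', Finset.sum_ite_eq',
      if_pos (by simp)]
    by_cases hN : N = 0
    · subst hN; simp
    · rw [if_pos (by rw [Finset.mem_range]; omega)]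
      congr 1
  rw [hsum] at hS
  have h3 : InZ E ((((N : ℤ) - 4 : ℤ) : ℂ) * d (N + 3)) := by
    have h4 := zz_add hR (zz_zmul (-1) hS)
    have h5 : G * ∑ i ∈ range (N + 1), (N.choose i : ℂ) * (d i * d (N - i)) +
        ((-1 : ℤ) : ℂ) * (G * ∑ i ∈ range (N + 1), (N.choose i : ℂ) * (d i * d (N - i)) -
        (((N : ℤ) - 4 : ℤ) : ℂ) * d (N + 3)) = (((N : ℤ) - 4 : ℤ) : ℂ) * d (N + 3) := by
      push_cast
      ring
    rw [h5] at h4
    exact h4
  obtain ⟨a, ha⟩ := h3
  have hd : d (N + 2 + 1) = d (N + 3) := rfl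
  rw [hd, hE]
  rcases le_total (((N + 2 : ℕ) : ℤ) - 6) 0 with h4 | h4
  · refine ⟨-a, ?_⟩
    have h5 : ((F : ℕ) : ℂ) = -(((N : ℤ) - 4 : ℤ) : ℂ) := by
      have h6 : (F : ℤ) = -((N : ℤ) - 4) := by
        rw [hFdef]; omega
      have h7 : ((F : ℤ) : ℂ) = ((-((N : ℤ) - 4) : ℤ) : ℂ) := by rw [h6]
      push_cast at h7 ⊢
      exact h7
    push_cast at ha h5 ⊢
    rw [h5, ← ha]
    ring
  · refine ⟨a, ?_⟩
    have h5 : ((F : ℕ) : ℂ) = (((N : ℤ) - 4 : ℤ) : ℂ) := by
      have h6 : (F : ℤ) = ((N : ℤ) - 4) := by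
        rw [hFdef]; omega
      have h7 : ((F : ℤ) : ℂ) = ((((N : ℤ) - 4) : ℤ) : ℂ) := by rw [h6]
      push_cast at h7 ⊢
      exact h7
    push_cast at ha h5 ⊢
    rw [h5, ← ha]
    ring

end Pool.Agent.ROH
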