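import Pool.Agent.ROH.SDef

/-!
ROH-SZet: the derivative of the zeta function.

PLAN. `PeriodPair.hasSumLocallyUniformly_aux` with `u r l = 2 * r ^ 2 * ‖l‖ ^ (-3 : ℝ)` gives
`HasSumLocallyUniformly (fun l z => if l.1 = 0 then 0 else 1/(z-l) + 1/l + z/l^2) (zet L)`: for `‖z‖ < r`, `2 r ≤ ‖l‖` the term is
`z^2/(l^2 (z-l))`. Then imitate `PeriodPair.eqOn_deriv_weierstrassPExcept_derivWeierstrassPExcept` (same Mathlib file): the derivative
of the partial sums converges locally uniformly to the derivative of `zet` (`TendstoLocallyUniformlyOn.deriv`) and to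
`- weierstrassPExcept L 0` (`hasSumLocallyUniformly_weierstrassPExcept`), because the derivative of a term is `-(1/(z-l)^2 - 1/l^2)`.
-/

set_option autoImplicit false

namespace Pool.Agent.ROH

open Complex

theorem zet_zero (L : PeriodPair) : zet L 0 = 0 := by
  unfold zet
  have h : ∀ l : L.lattice, (if l.1 = 0 then (0 : ℂ) else
      (1 / ((0 : ℂ) - l) + 1 / (l : ℂ) + (0 : ℂ) / (l : ℂ) ^ 2)) = 0 := by
    intro l
    split_ifs with h
    · rfl
    · rw [zero_sub, div_neg, zero_div]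
      ring
  simp only [h]
  exact tsum_zero

private theorem term_bound (r : ℝ) (hr : 0 < r) (s : ℂ) (hs : ‖s‖ < r) (l : ℂ) (h : 2 * r ≤ ‖l‖) :
    ‖1 / (s - l) + 1 / l + s / l ^ 2‖ ≤ 2 * r ^ 2 * ‖l‖ ^ (-3 : ℝ) := by
  have hne : s ≠ l := by rintro rfl; linarith
  have hl : 0 < ‖l‖ := by linarith
  have hl0 : l ≠ 0 := norm_pos_iff.1 hl
  have hsl : s - l ≠ 0 := sub_ne_zero.2 hne
  have e1 : 1 / (s - l) + 1 / l + s / l ^ 2 = s ^ 2 / (l ^ 2 * (s - l)) := by
    field_simp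
    ring
  have hsub : ‖l‖ / 2 ≤ ‖s - l‖ := by
    rw [norm_sub_rev]
    exact le_trans (by linarith) (norm_sub_norm_le l s)
  rw [e1, norm_div, norm_mul, norm_pow, norm_pow]
  have e2 : ‖l‖ ^ (-3 : ℝ) = 1 / ‖l‖ ^ 3 := by
    rw [Real.rpow_neg hl.le]
    norm_cast
    rw [one_div]
  rw [e2]
  calc ‖s‖ ^ 2 / (‖l‖ ^ 2 * ‖s - l‖) ≤ r ^ 2 / (‖l‖ ^ 2 * (‖l‖ / 2)) := by
        gcongr
    _ = 2 * r ^ 2 * (1 / ‖l‖ ^ 3) := by
        field_simp

private theorem hasSumLU (L : PeriodPair) :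
    HasSumLocallyUniformly
      (fun (l : L.lattice) (z : ℂ) ↦ if l.1 = 0 then 0 else (1 / (z - l) + 1 / l + z / l ^ 2))
      (zet L) := by
  refine L.hasSumLocallyUniformly_aux (u := fun r l => (2 * r ^ 2 * ‖l‖ ^ (-3 : ℝ))) _
    (fun _ _ ↦ (ZLattice.summable_norm_rpow _ _ (by simp; norm_num)).mul_left _) fun r hr ↦
    Filter.eventually_atTop.mpr ⟨2 * r, ?_⟩
  rintro _ h s hs l rfl
  split_ifs
  · rw [norm_zero]
    positivity
  · exact term_bound r hr s hs l h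

private theorem term_deriv (l z : ℂ) (hl : l ≠ 0) (hz : z - l ≠ 0) :
    HasDerivAt (fun z : ℂ => 1 / (z - l) + 1 / l + z / l ^ 2) (-(1 / (z - l) ^ 2 - 1 / l ^ 2)) z := by
  have h1 : HasDerivAt (fun z : ℂ => z - l) 1 z := (hasDerivAt_id z).sub_const l
  have h2 : HasDerivAt (fun z : ℂ => (z - l)⁻¹) (-1 / (z - l) ^ 2) z := h1.inv hz
  have h3 : HasDerivAt (fun z : ℂ => z / l ^ 2) (1 / l ^ 2) z := (hasDerivAt_id z).div_const _
  have h4 := (h2.add_const (1 / l)).add h3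
  have e1 : (-1 / (z - l) ^ 2 + 1 / l ^ 2 : ℂ) = -(1 / (z - l) ^ 2 - 1 / l ^ 2) := by ring
  rw [e1] at h4
  refine h4.congr_of_eventuallyEq (Filter.Eventually.of_forall fun w => ?_)
  simp only [one_div, Pi.add_apply]

theorem hasDerivAt_zet (L : PeriodPair) (z : ℂ) (hz : ∀ l ∈ L.lattice, l ≠ 0 → z ≠ l) :
    HasDerivAt (zet L) (-(L.weierstrassPExcept 0 z)) z := by
  have hopen : IsOpen (((L.lattice : Set ℂ) \ {0})ᶜ) := L.isOpen_compl_lattice_sdiff
  have hzS : z ∈ ((L.lattice : Set ℂ) \ {0})ᶜ := by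
    rintro ⟨h1, h2⟩
    exact hz z h1 h2 rfl
  have hdt : ∀ (l : L.lattice) (x : ℂ), x ∈ ((L.lattice : Set ℂ) \ {0})ᶜ → l.1 ≠ 0 →
      x - l ≠ 0 := by
    intro l x hx hl h
    apply hx
    rw [sub_eq_zero] at h
    rw [h]
    exact ⟨l.2, hl⟩
  have hterm : ∀ (l : L.lattice) (x : ℂ), x ∈ ((L.lattice : Set ℂ) \ {0})ᶜ →
      HasDerivAt (fun z : ℂ => if l.1 = 0 then (0 : ℂ) else (1 / (z - l) + 1 / l + z / l ^ 2))
        (-(if l.1 = 0 then 0 else (1 / (x - l) ^ 2 - 1 / l ^ 2))) x := by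
    intro l x hx
    by_cases h : l.1 = 0
    · simp only [h, if_true, neg_zero]
      exact hasDerivAt_const x 0
    · simp only [h, if_false]
      exact term_deriv l x h (hdt l x hx h)
  have hdiff : ∀ s : Finset L.lattice, DifferentiableOn ℂ
      (fun z => ∑ l ∈ s, if l.1 = 0 then (0 : ℂ) else (1 / (z - l) + 1 / l + z / l ^ 2))
      (((L.lattice : Set ℂ) \ {0})ᶜ) := by
    intro s
    refine DifferentiableOn.fun_sum fun l _ => ?_
    intro x hx
    exact (hterm l x hx).differentiableAt.differentiableWithinAt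
  have hLU := (hasSumLU L).tendstoLocallyUniformlyOn (s := ((L.lattice : Set ℂ) \ {0})ᶜ)
  have hd : DifferentiableOn ℂ (zet L) (((L.lattice : Set ℂ) \ {0})ᶜ) :=
    hLU.differentiableOn (.of_forall hdiff) hopen
  have hderiv : deriv (zet L) z = -(L.weierstrassPExcept 0 z) := by
    have h1 := hLU.deriv (.of_forall hdiff) hopen
    have h2 := h1.tendsto_at hzS
    have h3 := (L.hasSum_weierstrassPExcept 0 z).neg
    refine tendsto_nhds_unique h2 ?_
    refine h3.congr fun s => ?_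
    have h4 : HasDerivAt (fun z => ∑ l ∈ s, if l.1 = 0 then (0 : ℂ) else
        (1 / (z - l) + 1 / l + z / l ^ 2))
        (∑ l ∈ s, -(if l.1 = 0 then 0 else (1 / (z - l) ^ 2 - 1 / l ^ 2))) z :=
      HasDerivAt.fun_sum fun l _ => hterm l z hzS
    exact h4.deriv.symm
  rw [← hderiv]
  exact (hd.differentiableAt (hopen.mem_nhds hzS)).hasDerivAt

end Pool.Agent.ROH
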