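import Pool.Agent.ROH.SPrd
import Pool.Agent.ROH.SZet

/-!
ROH-SSig: the sigma function, its logarithmic derivative and the derivative of the latter.
-/

set_option autoImplicit false

namespace Pool.Agent.ROH

open Complex

theorem differentiable_sg (L : PeriodPair) : Differentiable ℂ (sg L) :=
  differentiable_id.mul (differentiable_sgP L)

theorem sg_zero (L : PeriodPair) : sg L 0 = 0 := by
  unfold sg
  rw [zero_mul]

private theorem ssig_z (L : PeriodPair) (z : ℂ) (hz : z ∉ L.lattice) : z ≠ 0 := by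
  rintro rfl
  exact hz L.lattice.zero_mem

private theorem ssig_l (L : PeriodPair) (z : ℂ) (hz : z ∉ L.lattice) : ∀ l ∈ L.lattice, l ≠ 0 → z ≠ l := by
  rintro l hl _ rfl
  exact hz hl

theorem sg_ne (L : PeriodPair) (z : ℂ) (hz : z ∉ L.lattice) : sg L z ≠ 0 :=
  mul_ne_zero (ssig_z L z hz) (sgP_ne L z (ssig_l L z hz))

theorem logDeriv_sg (L : PeriodPair) (z : ℂ) (hz : z ∉ L.lattice) : logDeriv (sg L) z = 1 / z + zet L z := by
  have h : sg L = fun z => id z * sgP L z := rfl
  rw [h, logDeriv_mul z (ssig_z L z hz) (sgP_ne L z (ssig_l L z hz)) differentiableAt_id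
    (differentiable_sgP L z), logDeriv_sgP L z (ssig_l L z hz)]
  rw [logDeriv_id]

theorem hasDerivAt_logDeriv_sg (L : PeriodPair) (z : ℂ) (hz : z ∉ L.lattice) :
    HasDerivAt (logDeriv (sg L)) (-(L.weierstrassP z)) z := by
  have h1 : HasDerivAt (fun z : ℂ => 1 / z + zet L z) (-(1 / z ^ 2) + -(L.weierstrassPExcept 0 z)) z := by
    have h2 : HasDerivAt (fun y : ℂ => 1 / y) (-(1 / z ^ 2)) z := by
      simpa only [one_div] using hasDerivAt_inv (ssig_z L z hz)
    exact h2.add (hasDerivAt_zet L z (ssig_l L z hz))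
  have h3 : -(1 / z ^ 2) + -(L.weierstrassPExcept 0 z) = -(L.weierstrassP z) := by
    have h4 := L.weierstrassPExcept_add 0 z
    simp only [ZeroMemClass.coe_zero, sub_zero] at h4
    rw [← h4]
    simp
  rw [h3] at h1
  refine h1.congr_of_eventuallyEq ?_
  have h5 : (L.lattice : Set ℂ)ᶜ ∈ nhds z := L.isClosed_lattice.isOpen_compl.mem_nhds hz
  filter_upwards [h5] with w hw
  exact logDeriv_sg L w hw

end Pool.Agent.ROH
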