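import Pool.Agent.ROH.Defs

/-!
ROH-Shift. Covariant expansion of `F_k` and `H_j` when the parameter is moved.
-/

set_option autoImplicit false

namespace Pool.Agent.ROH

open Complex ComplexConjugate Finset

private theorem sh_gen (T : ℂ × ℂ → ℂ) (hT : Differentiable ℂ T) (k : ℕ) (x y a b : ℂ) (f g : ℂ → ℂ)
    (hg : ∀ t, g t = T (x, y + t) * cexp (b * t)) (hf : ∀ t, f t = T (x, y + t) * cexp ((a + b) * t)) :
    iteratedDeriv k f 0 = ∑ i ∈ range (k + 1), (k.choose i : ℂ) * a ^ (k - i) * iteratedDeriv i g 0 := by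
  have h1 : f = g * fun t => cexp (a * t) := by
    funext t
    show f t = g t * cexp (a * t)
    rw [hf, hg, mul_assoc, ← Complex.exp_add]
    congr 2
    ring
  have h2 : Differentiable ℂ g := by
    have h3 : g = fun t => T (x, y + t) * cexp (b * t) := funext hg
    rw [h3]
    refine Differentiable.mul ?_ ?_
    · exact hT.comp ((differentiable_const x).prodMk ((differentiable_const y).add differentiable_id))
    · exact ((differentiable_const b).mul differentiable_id).cexp
  have h3 : Differentiable ℂ fun t => cexp (a * t) := ((differentiable_const a).mul differentiable_id).cexp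
  rw [h1, iteratedDeriv_mul (h2.contDiff (n := k)).contDiffAt (h3.contDiff (n := k)).contDiffAt]
  refine Finset.sum_congr rfl fun i _ => ?_
  rw [iteratedDeriv_cexp_const_mul]
  show (k.choose i : ℂ) * iteratedDeriv i g 0 * (a ^ (k - i) * cexp (a * 0)) = _
  rw [mul_zero, Complex.exp_zero, mul_one]
  ring

namespace Core

variable (c : Core)

theorem F_shift (k : ℕ) (x y w w' : ℂ) : c.F k x y w =
    ∑ i ∈ range (k + 1), (k.choose i : ℂ) * (-(2 * c.al * (w - w'))) ^ (k - i) * c.F i x y w' := by
  exact sh_gen c.T1 c.d1 k x y (-(2 * c.al * (w - w'))) (-(2 * c.al * w')) _ _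
    (fun t => by congr 2; ring) (fun t => by congr 2; ring)

theorem H_shift (j : ℕ) (x y y' w : ℂ) : c.H j x y w =
    ∑ l ∈ range (j + 1), (j.choose l : ℂ) * (-(2 * c.be * (y - y'))) ^ (j - l) * c.H l x y' w := by
  exact sh_gen c.T2 c.d2 j x w (-(2 * c.be * (y - y'))) (-(2 * c.be * y')) _ _
    (fun t => by congr 2; ring) (fun t => by congr 2; ring)

end Core

end Pool.Agent.ROH
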