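import Pool.Agent.ROH.NetCov
import Pool.Agent.ROH.Osc
import Pool.Agent.ROH.Inv

/-!
ROH-Smp. The sampling lemma (section 4 of the note), `G = g²`.

Let `E = C1 g²` be an upper bound for the logarithm of `S(d) exp((al+be) g²/2)` for `‖d‖ = g` (`exists_bound_nf'`:
`log M + 2K log(C(K+g)) + (al+be) g²/2`; use `K log (K+1) ≤ g²`, `log M ≤ g²`, `1 ≤ g`, and `K log g ≤ ...`: if `g ≤ K`
`log(K+g) ≤ log(2K)`; if `g > K`: `K log(2g) ≤ g log(2g) ≤ C g²`). If `S(0) ≥ exp(-g²) ≥ exp(-E)`, `S_grow` with `Y = g`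
gives `S(d) ≤ S(0) exp(2 C1 g ‖d‖)` for `‖d‖ ≤ g`, so `S(d) ≤ S(0) exp(2 C1) =: B` for `‖d‖ ≤ 1/g = 2ρ`.
`exists_osc` with `ρ = 1/(2g)` and a fixed small `ε` such that `C ε exp(2 C1) ≤ 1/4`; net: `exists_net` with
`ε`, `ε' = ε ρ`: at most `C'/(ε² ε² ρ²) = C'' g²` points `z`. Every `(x, y)` is equivalent (`nf_inv`) to
`(z.1 + ξ, z.2 + η)` with `‖ξ‖ ≤ ε`, `‖η‖ ≤ ε ρ`: `nf ≤ exp(-g²)/2 + S(0)/4`, so `S(0) ≤ exp(-g²)/2 + S(0)/4`,
i.e. `S(0) ≤ (2/3) exp(-g²) < exp(-g²)`.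
-/

set_option autoImplicit false

namespace Pool.Agent.ROH

open Complex ComplexConjugate Finset

namespace Core

variable (c : Core)

private theorem smp_log_bound (g K : ℕ) (hg : 1 ≤ g) (hK : 1 ≤ K)
    (hKl : (K : ℝ) * Real.log (K + 1) ≤ (g : ℝ) ^ 2) :
    (K : ℝ) ≤ 2 * (g : ℝ) ^ 2 ∧ (K : ℝ) * Real.log (K + g) ≤ 2 * (g : ℝ) ^ 2 := by
  have hg' : (1 : ℝ) ≤ g := by exact_mod_cast hg
  have hK' : (1 : ℝ) ≤ K := by exact_mod_cast hK
  have hl : (1 : ℝ) / 2 ≤ Real.log (K + 1) := by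
    have h1 : Real.log 2 ≤ Real.log (K + 1) := Real.log_le_log (by norm_num) (by linarith)
    have h2 := Real.log_two_gt_d9
    linarith
  constructor
  · nlinarith
  · have hsum : Real.log (K + g) ≤ Real.log (K + 1) + Real.log (g + 1) := by
      rw [← Real.log_mul (by positivity) (by positivity)]
      apply Real.log_le_log (by positivity)
      nlinarith
    have h2 : (K : ℝ) * Real.log (g + 1) ≤ (g : ℝ) ^ 2 := by
      rcases le_total (g : ℝ) K with h | h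
      · have : Real.log (g + 1) ≤ Real.log (K + 1) := Real.log_le_log (by positivity) (by linarith)
        calc (K : ℝ) * Real.log (g + 1) ≤ K * Real.log (K + 1) := by gcongr
          _ ≤ _ := hKl
      · have h3 : Real.log (g + 1) ≤ g := by
          have := Real.log_le_sub_one_of_pos (show (0 : ℝ) < g + 1 by positivity)
          linarith
        have h4 : 0 ≤ Real.log ((g : ℝ) + 1) := Real.log_nonneg (by linarith)
        calc (K : ℝ) * Real.log (g + 1) ≤ g * g := by gcongr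
          _ = _ := by ring
    have h5 : (K : ℝ) * Real.log (K + g) ≤ K * (Real.log (K + 1) + Real.log (g + 1)) := by gcongr
    nlinarith

private theorem smp_upper (Cb : ℝ) (hCb : 1 ≤ Cb)
    (hb : ∀ (K : ℕ) (p : ℕ → ℕ → ℂ) (M : ℝ), 1 ≤ K →
      (∀ k < K, ∀ j < K, ‖p k j‖ ≤ M) → ∀ x y w : ℂ,
      c.nf K p x y w ≤ M * (Cb * (K + ‖w - conj y‖)) ^ (2 * K))
    (g K : ℕ) (hg : 1 ≤ g) (hK : 1 ≤ K) (p : ℕ → ℕ → ℂ) (M : ℝ)
    (hKl : (K : ℝ) * Real.log (K + 1) ≤ (g : ℝ) ^ 2)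
    (hM : 1 ≤ M) (hMl : Real.log M ≤ (g : ℝ) ^ 2) (hp : ∀ k < K, ∀ j < K, ‖p k j‖ ≤ M)
    (d : ℂ) (hd : ‖d‖ = g) :
    c.S K p d * Real.exp ((c.al + c.be) * (g : ℝ) ^ 2 / 2) ≤
      Real.exp ((5 + 4 * Real.log Cb + (c.al + c.be) / 2) * (g : ℝ) ^ 2) := by
  have hg' : (1 : ℝ) ≤ g := by exact_mod_cast hg
  have hK' : (1 : ℝ) ≤ K := by exact_mod_cast hK
  obtain ⟨h1, h2⟩ := smp_log_bound g K hg hK hKl
  have hlC : 0 ≤ Real.log Cb := Real.log_nonneg hCb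
  have hS : c.S K p d ≤ M * (Cb * (K + g)) ^ (2 * K) := by
    apply c.S_le
    intro x y
    have := hb K p M hK hp x y (conj y + d)
    rwa [add_sub_cancel_left, hd] at this
  have hpos : (0 : ℝ) < M * (Cb * (K + g)) ^ (2 * K) := by positivity
  have hlog : Real.log (M * (Cb * (K + g)) ^ (2 * K)) ≤ (5 + 4 * Real.log Cb) * (g : ℝ) ^ 2 := by
    rw [Real.log_mul (by positivity) (by positivity), Real.log_pow,
      Real.log_mul (by positivity) (by positivity)]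
    push_cast
    nlinarith
  have hS2 : c.S K p d ≤ Real.exp ((5 + 4 * Real.log Cb) * (g : ℝ) ^ 2) := by
    refine hS.trans ?_
    rw [← Real.exp_log hpos]
    exact Real.exp_le_exp.mpr hlog
  calc c.S K p d * Real.exp ((c.al + c.be) * (g : ℝ) ^ 2 / 2)
      ≤ Real.exp ((5 + 4 * Real.log Cb) * (g : ℝ) ^ 2) *
        Real.exp ((c.al + c.be) * (g : ℝ) ^ 2 / 2) := by gcongr
    _ = _ := by rw [← Real.exp_add]; congr 1; ring

theorem sampling : ∃ C : ℝ, 1 ≤ C ∧ ∀ g : ℕ, 1 ≤ g → ∃ Z : Finset (ℂ × ℂ),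
    (Z.card : ℝ) ≤ C * (g : ℝ) ^ 2 ∧
    ∀ (K : ℕ) (p : ℕ → ℕ → ℂ) (M : ℝ), 1 ≤ K → (K : ℝ) * Real.log (K + 1) ≤ (g : ℝ) ^ 2 →
      1 ≤ M → Real.log M ≤ (g : ℝ) ^ 2 → (∀ k < K, ∀ j < K, ‖p k j‖ ≤ M) →
      (∀ z ∈ Z, c.nf K p z.1 z.2 (conj z.2) ≤ Real.exp (-(g : ℝ) ^ 2) / 2) →
      c.S K p 0 ≤ Real.exp (-(g : ℝ) ^ 2) := by
  obtain ⟨Cb, hCb, hb⟩ := c.exists_bound_nf'
  obtain ⟨C2, hC2, hosc⟩ := c.exists_osc
  obtain ⟨C3, hC3, hnet⟩ := c.exists_net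
  have hlC : 0 ≤ Real.log Cb := Real.log_nonneg hCb
  have hab : 0 < c.al + c.be := add_pos c.hal c.hbe
  obtain ⟨C1, hC1def⟩ : ∃ C1, C1 = 5 + 4 * Real.log Cb + (c.al + c.be) / 2 := ⟨_, rfl⟩
  have hC1 : 1 ≤ C1 := by rw [hC1def]; linarith
  obtain ⟨ε, hεdef⟩ : ∃ ε : ℝ, ε = 1 / (4 * (C2 * Real.exp (2 * C1))) := ⟨_, rfl⟩
  have hexp1 : 1 ≤ Real.exp (2 * C1) := Real.one_le_exp (by linarith)
  have hprod : 1 ≤ C2 * Real.exp (2 * C1) := one_le_mul_of_one_le_of_one_le hC2 hexp1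
  have hε0 : 0 < ε := by rw [hεdef]; positivity
  have hε4 : ε ≤ 1 / 4 := by
    rw [hεdef]
    apply one_div_le_one_div_of_le (by norm_num)
    linarith
  have hεeq : C2 * ε * Real.exp (2 * C1) = 1 / 4 := by
    rw [hεdef]
    field_simp
  refine ⟨4 * C3 / ε ^ 4, ?_, ?_⟩
  · rw [le_div_iff₀ (by positivity)]
    have : ε ^ 4 ≤ 1 := pow_le_one₀ hε0.le (by linarith)
    linarith
  intro g hg
  have hg' : (1 : ℝ) ≤ g := by exact_mod_cast hg
  have hg0 : (0 : ℝ) < g := by linarith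
  have hρ0 : (0 : ℝ) < 1 / (2 * g) := by positivity
  have hρ1 : (1 : ℝ) / (2 * g) ≤ 1 := by
    rw [div_le_one (by positivity)]
    linarith
  have hερ1 : ε * (1 / (2 * g)) ≤ 1 := by
    calc ε * (1 / (2 * g)) ≤ 1 * 1 := by
          gcongr
          linarith
      _ = 1 := by norm_num
  obtain ⟨Z, hZc, hZ⟩ := hnet ε (ε * (1 / (2 * g))) hε0 (by linarith) (by positivity) hερ1
  refine ⟨Z, ?_, ?_⟩
  · refine hZc.trans (le_of_eq ?_)
    field_simp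
    ring
  intro K p M hK hKl hM hMl hp hZp
  by_contra hcon
  push Not at hcon
  have hg2 : (0 : ℝ) ≤ (g : ℝ) ^ 2 := by positivity
  have h0 : Real.exp (-(C1 * (g : ℝ) ^ 2)) ≤ c.S K p 0 := by
    refine le_trans (Real.exp_le_exp.mpr ?_) hcon.le
    nlinarith
  have h1 : ∀ d : ℂ, ‖d‖ = g →
      c.S K p d * Real.exp ((c.al + c.be) * (g : ℝ) ^ 2 / 2) ≤ Real.exp (C1 * (g : ℝ) ^ 2) := by
    intro d hd
    rw [hC1def]
    exact c.smp_upper Cb hCb hb g K hg hK p M hKl hM hMl hp d hd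
  have hS0 : 0 ≤ c.S K p 0 := c.S_nonneg K p 0
  have hB : ∀ d : ℂ, ‖d‖ ≤ 2 * (1 / (2 * g)) → c.S K p d ≤ c.S K p 0 * Real.exp (2 * C1) := by
    intro d hd
    have hd1 : ‖d‖ * g ≤ 1 := by
      have : (2 : ℝ) * (1 / (2 * g)) * g = 1 := by field_simp
      calc ‖d‖ * g ≤ 2 * (1 / (2 * g)) * g := by gcongr
        _ = 1 := this
    have hd2 : ‖d‖ ≤ g := by
      have := norm_nonneg d
      nlinarith
    have h2 := c.S_grow K p g (C1 * (g : ℝ) ^ 2) hg0 (by positivity) h0 h1 d hd2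
    refine h2.trans ?_
    gcongr
    have : 2 * (C1 * (g : ℝ) ^ 2) * ‖d‖ / g = 2 * C1 * (‖d‖ * g) := by
      field_simp
    rw [this]
    calc 2 * C1 * (‖d‖ * g) ≤ 2 * C1 * 1 := by gcongr
      _ = 2 * C1 := by ring
  have hfin : c.S K p 0 ≤ Real.exp (-(g : ℝ) ^ 2) / 2 + c.S K p 0 / 4 := by
    apply c.S_le
    intro x y
    obtain ⟨u, hu, z, hz, hzx, hzy⟩ := hZ x y
    have hinv := c.nf_inv K p u hu x y (conj y)
    have hstep := hosc K p (c.S K p 0 * Real.exp (2 * C1)) (1 / (2 * g)) ε hρ0 hρ1 hε0 hε4 hB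
      z.1 z.2 (x + u.1 - z.1) (y + u.2 - z.2) hzx hzy
    have e1 : z.1 + (x + u.1 - z.1) = x + u.1 := by ring
    have e2 : z.2 + (y + u.2 - z.2) = y + u.2 := by ring
    rw [e1, e2, map_add, hinv] at hstep
    have hz' := hZp z hz
    have e3 : C2 * ε * (c.S K p 0 * Real.exp (2 * C1)) = c.S K p 0 / 4 := by
      calc C2 * ε * (c.S K p 0 * Real.exp (2 * C1))
          = c.S K p 0 * (C2 * ε * Real.exp (2 * C1)) := by ring
        _ = _ := by rw [hεeq]; ring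
    rw [e3] at hstep
    rw [add_zero]
    linarith
  have hexpos := Real.exp_pos (-(g : ℝ) ^ 2)
  linarith

end Core

end Pool.Agent.ROH
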