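import Pool.Agent.ROH.Defs
import Pool.Agent.ROH.Ifc

/-!
Project ROH: the theta functions `T1`, `T2` and the lattice `O` (section 1 of the note, `m = 3`).
-/

set_option autoImplicit false

namespace Pool.Agent.ROH

open Complex ComplexConjugate Finset

noncomputable section

/-- `√3` -/
def r3 : ℂ := ((Real.sqrt 3 : ℝ) : ℂ)

/-- `S((x+y)/2) S((x-y)/(2√3))³` -/
def TT (S : ℂ → ℂ) (z : ℂ × ℂ) : ℂ := S ((z.1 + z.2) / 2) * S ((z.1 - z.2) / (2 * r3)) ^ 3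

/-- the lattice vector with coordinates `n1, n2, n3, n4`: `(A + √3 B, A - √3 B)`, `A = n1 + 3 n4 i`,
`B = n2 + n3 i` -/
def uv (n1 n2 n3 n4 : ℤ) : ℂ × ℂ :=
  ((n1 + 3 * n4 * I) + r3 * (n2 + n3 * I), (n1 + 3 * n4 * I) - r3 * (n2 + n3 * I))

end

theorem r3_sq : r3 ^ 2 = 3 := by
  rw [r3, ← ofReal_pow, Real.sq_sqrt (by norm_num)]
  norm_num

theorem r3_ne : r3 ≠ 0 := by
  intro h
  have := r3_sq
  rw [h] at this
  norm_num at this

theorem conj_r3 : conj r3 = r3 := by rw [r3, conj_ofReal]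

/-- `conj u_y = A' - √3 B'` with `A' = n1 + √3 n3 i`, `B' = n2 + √3 n4 i` -/
theorem conj_uv (n1 n2 n3 n4 : ℤ) : conj (uv n1 n2 n3 n4).2 =
    (n1 + n3 * (r3 * I)) - r3 * (n2 + n4 * (r3 * I)) := by
  have h := r3_sq
  simp only [uv, map_sub, map_add, map_mul, conj_I, conj_r3, map_intCast, map_ofNat]
  linear_combination (n4 : ℂ) * I * h

/-- `u_x = A' + √3 B'` -/
theorem uv_fst (n1 n2 n3 n4 : ℤ) : (uv n1 n2 n3 n4).1 =
    (n1 + n3 * (r3 * I)) + r3 * (n2 + n4 * (r3 * I)) := by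
  have h := r3_sq
  simp only [uv]
  linear_combination (-(n4 : ℂ)) * I * h

end Pool.Agent.ROH
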