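import Pool.Agent.ROH.Hol
import Pool.Agent.ROH.BndS

/-!
ROH-ThreeL. The convexity statement (section 3 of the note): three lines theorem in the imaginary direction.

Let `d ≠ 0`, `ν = conj(d) * I / ‖d‖`... precisely choose `ν` with `‖ν‖ = 1` and `2 I η conj ν = d` for `η = ‖d‖/2`.
Fix `x`, `y0`. For `t ∈ ℂ` put `g t = f(x, y0 + t ν, conj y0 + t conj ν) * exp(-q t)`,
`q t = (al+be)(‖x‖² + ‖y0‖² + t²) + 2 t (al ν conj y0 + be conj ν y0)`.
With `t = t1 + i t2`: the point has `w - conj y = 2 i t2 conj ν` and `‖g t‖ = nf(point) * exp(2 (al+be) t2²)`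
(`‖y0+tν‖² = ‖y0‖² + 2 Re(t ν conj y0) + ‖t‖²`, and the same for `w`). On `t2 = 0`: `≤ A`. On `t2 = η`: `≤ B exp((al+be)‖d‖²/2)`.
`g` is entire (`differentiable_f`) and bounded in the strip `0 ≤ t2 ≤ η` (`exists_bound_nf'`, `‖w - conj y‖ = 2 t2 ≤ ‖d‖`).
Apply `Complex.HadamardThreeLines.norm_le_interp_of_mem_verticalClosedStrip₀₁'` to `z ↦ g (I * η * z)`. The point with
`w - conj y = s d` is `t = t1 + i s η`; every `(x, y)` is reached with `t1 = 0`, `y0 = y - i s η ν`.
`rpow` with `A = 0` is covered by the Mathlib statement (check `0 ^ 0`).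
-/

set_option autoImplicit false

namespace Pool.Agent.ROH

open Complex ComplexConjugate Finset

namespace Core

variable (c : Core)

theorem three_lines (K : ℕ) (p : ℕ → ℕ → ℂ) (d : ℂ) (s A B : ℝ) (hs0 : 0 ≤ s) (hs1 : s ≤ 1)
    (hA0 : 0 ≤ A) (hB0 : 0 ≤ B)
    (hA : ∀ x y : ℂ, c.nf K p x y (conj y) ≤ A) (hB : ∀ x y : ℂ, c.nf K p x y (conj y + d) ≤ B)
    (x y : ℂ) :
    c.nf K p x y (conj y + s * d) * Real.exp ((c.al + c.be) * (s * ‖d‖) ^ 2 / 2) ≤
      A ^ (1 - s) * (B * Real.exp ((c.al + c.be) * ‖d‖ ^ 2 / 2)) ^ s := by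
  obtain ⟨C, hC1, hC⟩ := c.exists_bound_nf
  have hal := c.hal
  have hbe := c.hbe
  have nfn : ∀ x y w : ℂ, 0 ≤ c.nf K p x y w := fun x y w =>
    mul_nonneg (norm_nonneg _) (mul_nonneg (Real.exp_nonneg _) (Real.exp_nonneg _))
  rcases eq_or_ne d 0 with hd | hd
  · subst hd
    have h1 := hA x y
    have h2 := hB x y
    simp only [add_zero] at h2
    simp only [mul_zero, add_zero, norm_zero, ne_eq, OfNat.ofNat_ne_zero, not_false_eq_true, zero_pow,
      zero_div, Real.exp_zero, mul_one]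
    rcases (nfn x y (conj y)).eq_or_lt with h0 | h0
    · rw [← h0]
      positivity
    · calc c.nf K p x y (conj y) = c.nf K p x y (conj y) ^ (1 - s) * c.nf K p x y (conj y) ^ s := by
            rw [← Real.rpow_add h0]; simp
        _ ≤ A ^ (1 - s) * B ^ s := by
            apply mul_le_mul
            · exact Real.rpow_le_rpow h0.le h1 (by linarith)
            · exact Real.rpow_le_rpow h0.le h2 hs0
            · positivity
            · positivity
  have hδ : 0 < ‖d‖ := norm_pos_iff.mpr hd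
  have hδc : (‖d‖ : ℂ) ≠ 0 := by exact_mod_cast hδ.ne'
  set ν : ℂ := I * conj d / ‖d‖ with hν
  have hcν : conj ν = -I * d / ‖d‖ := by simp [hν]
  have hνν : ν * conj ν = 1 := by
    rw [hcν, hν]
    have : conj d * d = (‖d‖ : ℂ) ^ 2 := Complex.conj_mul' d
    field_simp
    linear_combination (-I ^ 2) * this + (‖d‖ : ℂ) ^ 2 * (-Complex.I_sq)
  -- the base point
  set y0 : ℂ := y - I * s * (‖d‖ / 2) * ν with hy0
  set q : ℂ → ℂ := fun t => (c.al + c.be) * ((‖x‖ : ℂ) ^ 2 + (‖y0‖ : ℂ) ^ 2 + t ^ 2) +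
    2 * t * (c.al * ν * conj y0 + c.be * conj ν * y0) with hq
  have hqre : ∀ t : ℂ, (q t).re = c.al * (‖x‖ ^ 2 + ‖y0 + t * ν‖ ^ 2) +
      c.be * (‖x‖ ^ 2 + ‖conj y0 + t * conj ν‖ ^ 2) - 2 * (c.al + c.be) * t.im ^ 2 := by
    intro t
    apply Complex.ofReal_injective
    rw [Complex.re_eq_add_conj]
    push_cast
    rw [Complex.im_eq_sub_conj, ← Complex.mul_conj' (y0 + t * ν),
      ← Complex.mul_conj' (conj y0 + t * conj ν)]
    simp only [hq, map_add, map_mul, map_pow, Complex.conj_ofReal, Complex.conj_conj, map_ofNat]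
    rw [← Complex.mul_conj' y0]
    have hI : (2 * I) ^ 2 = -4 := by rw [mul_pow, Complex.I_sq]; norm_num
    rw [div_pow, hI]
    linear_combination (-(c.al + c.be) * t * conj t) * hνν
  set g : ℂ → ℂ := fun t => c.f K p x (y0 + t * ν) (conj y0 + t * conj ν) * cexp (-q t) with hg
  have hgn : ∀ t : ℂ, ‖g t‖ = c.nf K p x (y0 + t * ν) (conj y0 + t * conj ν) *
      Real.exp (2 * (c.al + c.be) * t.im ^ 2) := by
    intro t
    simp only [hg, norm_mul, Complex.norm_exp, Complex.neg_re, hqre, nf, w1, w2]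
    rw [← Real.exp_add, mul_assoc (‖_‖ : ℝ), ← Real.exp_add]
    congr 2
    ring
  have hpt : ∀ t : ℂ, conj y0 + t * conj ν = conj (y0 + t * ν) + (2 * t.im / ‖d‖ : ℝ) * d := by
    intro t
    push_cast
    rw [Complex.im_eq_sub_conj]
    simp only [map_add, map_mul]
    rw [hcν]
    have hI : I * I = -1 := Complex.I_mul_I
    have hI0 : I ≠ 0 := Complex.I_ne_zero
    field_simp
    linear_combination (-(t - conj t) * d) * hI
  have hgd : Differentiable ℂ g := by
    have h1 : Differentiable ℂ (fun t : ℂ => ((x, y0 + t * ν, conj y0 + t * conj ν) : ℂ × ℂ × ℂ)) := by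
      fun_prop
    have h2 := (c.differentiable_f K p).comp h1
    have h3 : Differentiable ℂ q := by
      simp only [hq]
      fun_prop
    exact h2.mul (h3.neg.cexp)
  set G : ℂ → ℂ := fun z => g (I * (‖d‖ / 2) * z) with hG
  have him : ∀ z : ℂ, (I * (‖d‖ / 2) * z).im = ‖d‖ / 2 * z.re := by
    intro z
    simp [Complex.mul_im, Complex.mul_re]
  have hGn : ∀ z : ℂ, ∃ Y : ℂ, ‖G z‖ = c.nf K p x Y (conj Y + (z.re : ℂ) * d) *
      Real.exp ((c.al + c.be) * ‖d‖ ^ 2 / 2 * z.re ^ 2) := by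
    intro z
    refine ⟨y0 + (I * (‖d‖ / 2) * z) * ν, ?_⟩
    rw [hG]
    simp only
    rw [hgn, hpt, him]
    have e1 : (2 * (‖d‖ / 2 * z.re) / ‖d‖ : ℝ) = z.re := by field_simp
    rw [e1]
    congr 2
    ring
  have hGd : Differentiable ℂ G := hgd.comp (by fun_prop)
  have hBd : BddAbove ((norm ∘ G) '' HadamardThreeLines.verticalClosedStrip 0 1) := by
    refine ⟨(C * ∑ k ∈ range K, ∑ j ∈ range K, ‖p k j‖ * (C * (Real.sqrt K + ‖d‖)) ^ (k + j)) *
      Real.exp ((c.al + c.be) * ‖d‖ ^ 2 / 2 * 1 ^ 2), ?_⟩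
    rintro _ ⟨z, hz, rfl⟩
    have hz0 : 0 ≤ z.re := hz.1
    have hz1 : z.re ≤ 1 := hz.2
    obtain ⟨Y, hY⟩ := hGn z
    simp only [Function.comp_apply]
    rw [hY]
    have hn : ‖conj Y + (z.re : ℂ) * d - conj Y‖ ≤ ‖d‖ := by
      rw [add_sub_cancel_left, norm_mul, Complex.norm_real, Real.norm_of_nonneg hz0]
      nlinarith [norm_nonneg d]
    have hCn : 0 ≤ C := by linarith
    apply mul_le_mul
    · refine (hC K p x Y _).trans ?_
      gcongr
    · apply Real.exp_le_exp.mpr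
      gcongr
    · positivity
    · positivity
  have hmain := HadamardThreeLines.norm_le_interp_of_mem_verticalClosedStrip₀₁' G (z := (s : ℂ))
    (a := A) (b := B * Real.exp ((c.al + c.be) * ‖d‖ ^ 2 / 2))
    (by
      show ((s : ℂ)).re ∈ Set.Icc (0 : ℝ) 1
      simpa using ⟨hs0, hs1⟩) hGd.diffContOnCl hBd
    (by
      intro z hz
      have hz' : z.re = 0 := hz
      obtain ⟨Y, hY⟩ := hGn z
      rw [hY, hz']
      simpa using hA x Y)
    (by
      intro z hz
      have hz' : z.re = 1 := hz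
      obtain ⟨Y, hY⟩ := hGn z
      rw [hY, hz']
      have h1 := hB x Y
      simp only [Complex.ofReal_one, one_mul, one_pow, mul_one]
      gcongr)
  have hGs : ‖G (s : ℂ)‖ = c.nf K p x y (conj y + s * d) *
      Real.exp ((c.al + c.be) * (s * ‖d‖) ^ 2 / 2) := by
    rw [hG]
    simp only
    rw [hgn, hpt, him]
    have e1 : y0 + (I * (‖d‖ / 2) * s) * ν = y := by rw [hy0]; ring
    have e2 : (2 * (‖d‖ / 2 * (s : ℂ).re) / ‖d‖ : ℝ) = s := by
      rw [Complex.ofReal_re]; field_simp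
    rw [e1, e2]
    congr 2
    rw [Complex.ofReal_re]
    ring
  rw [hGs, Complex.ofReal_re] at hmain
  exact hmain

end Core

end Pool.Agent.ROH
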