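import Pool.Agent.ROH.MaxP

/-!
ROH-TubeP. Bound of the complexified polynomial near the good point (section 5, `R = 1`, `lam = K`).

`Φ(X, Y) = P(X,Y) exp(-K X Y)`, `h* = max over `Y = conj X` of ‖Φ‖` (attained at `d`, from `exists_maxP`).
Claim A (`tube_A`): `‖Φ(X, Y)‖ ≤ h* exp(K L ‖v‖)` for `X = X0 + v`, `Y = conj X0 - conj v`, `‖v‖ ≤ 1`, by the
three lines theorem.
-/

set_option autoImplicit false

namespace Pool.Agent.ROH

open Complex ComplexConjugate Finset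

private lemma tube_pd (K : ℕ) (p : ℕ → ℕ → ℂ) (X Y : ℂ) :
    Pd K p 0 0 X Y = ∑ k ∈ range K, ∑ j ∈ range K, p k j * (X ^ k * Y ^ j) := by
  unfold Pd
  refine Finset.sum_congr rfl (fun k _ => Finset.sum_congr rfl (fun j _ => ?_))
  rw [Nat.choose_zero_right, Nat.choose_zero_right, Nat.sub_zero, Nat.sub_zero]
  push_cast
  ring

private lemma tube_bound (K : ℕ) (p : ℕ → ℕ → ℂ) (X Y : ℂ) (r : ℝ) (hr : 1 ≤ r) (hX : ‖X‖ ≤ r)
    (hY : ‖Y‖ ≤ r) : ‖Pd K p 0 0 X Y‖ ≤ nP K p * (r ^ K * r ^ K) := by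
  have hr0 : 0 ≤ r := zero_le_one.trans hr
  rw [tube_pd]
  unfold nP
  rw [Finset.sum_mul]
  refine (norm_sum_le _ _).trans (Finset.sum_le_sum (fun k hk => ?_))
  rw [Finset.sum_mul]
  refine (norm_sum_le _ _).trans (Finset.sum_le_sum (fun j hj => ?_))
  rw [norm_mul, norm_mul, norm_pow, norm_pow]
  refine mul_le_mul_of_nonneg_left ?_ (norm_nonneg _)
  have h1 : ‖X‖ ^ k ≤ r ^ K := (pow_le_pow_left₀ (norm_nonneg _) hX k).trans
    (pow_le_pow_right₀ hr (Finset.mem_range.1 hk).le)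
  have h2 : ‖Y‖ ^ j ≤ r ^ K := (pow_le_pow_left₀ (norm_nonneg _) hY j).trans
    (pow_le_pow_right₀ hr (Finset.mem_range.1 hj).le)
  exact mul_le_mul h1 h2 (by positivity) (by positivity)

private lemma tube_nP_nonneg (K : ℕ) (p : ℕ → ℕ → ℂ) : 0 ≤ nP K p :=
  Finset.sum_nonneg (fun _ _ => Finset.sum_nonneg (fun _ _ => norm_nonneg _))

private lemma tube_num (K : ℕ) (r w : ℝ) (hr : 0 ≤ r) (hw0 : 0 ≤ w) (hw : w ≤ 1) :
    (1 + r) ^ K * (1 + r) ^ K * Real.exp (-(K * (r ^ 2 - w ^ 2))) ≤ (2 * Real.exp 1) ^ K := by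
  have e1 : -((K : ℝ) * (r ^ 2 - w ^ 2)) = (K : ℝ) * (w ^ 2 - r ^ 2) := by ring
  rw [e1, Real.exp_nat_mul, ← mul_pow, ← mul_pow]
  refine pow_le_pow_left₀ (by positivity) ?_ K
  have h1 : r ^ 2 + 1 ≤ Real.exp (r ^ 2) := Real.add_one_le_exp _
  have h2 : (1 + r) * (1 + r) ≤ 2 * Real.exp (r ^ 2) := by nlinarith [sq_nonneg (r - 1)]
  have h3 : Real.exp (w ^ 2 - r ^ 2) ≤ Real.exp 1 * Real.exp (-(r ^ 2)) := by
    rw [← Real.exp_add]
    refine Real.exp_le_exp.2 ?_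
    nlinarith
  calc (1 + r) * (1 + r) * Real.exp (w ^ 2 - r ^ 2)
      ≤ (2 * Real.exp (r ^ 2)) * (Real.exp 1 * Real.exp (-(r ^ 2))) :=
        mul_le_mul h2 h3 (Real.exp_pos _).le (by positivity)
    _ = 2 * Real.exp 1 * (Real.exp (r ^ 2) * Real.exp (-(r ^ 2))) := by ring
    _ = 2 * Real.exp 1 := by
        rw [← Real.exp_add, add_neg_cancel, Real.exp_zero, mul_one]

private lemma tube_strip (K : ℕ) (p : ℕ → ℕ → ℂ) (X0 e w : ℂ) (he : ‖e‖ = 1) (h0 : 0 ≤ w.re)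
    (h1 : w.re ≤ 1) :
    ‖Pd K p 0 0 (X0 + w * e) (conj X0 - w * conj e) *
      cexp (-(K * ((X0 + w * e) * (conj X0 - w * conj e))))‖ ≤ nP K p * (2 * Real.exp 1) ^ K := by
  have hX : X0 + w * e = (X0 + w.im * I * e) + w.re * e := by
    conv_lhs => rw [← Complex.re_add_im w]
    ring
  have hY : conj X0 - w * conj e = conj (X0 + w.im * I * e) - w.re * conj e := by
    conv_lhs => rw [← Complex.re_add_im w]
    rw [map_add, map_mul, map_mul, Complex.conj_ofReal, Complex.conj_I]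
    ring
  have hce : ‖conj e‖ = 1 := by rw [RCLike.norm_conj, he]
  have hw : ‖(w.re : ℂ)‖ ≤ 1 := by
    rw [Complex.norm_real, Real.norm_eq_abs, abs_of_nonneg h0]
    exact h1
  rw [hX, hY]
  generalize X0 + w.im * I * e = z
  have hXn : ‖z + w.re * e‖ ≤ 1 + ‖z‖ := by
    refine (norm_add_le _ _).trans ?_
    rw [norm_mul, he, mul_one]
    linarith
  have hYn : ‖conj z - w.re * conj e‖ ≤ 1 + ‖z‖ := by
    refine (norm_sub_le _ _).trans ?_
    rw [norm_mul, hce, mul_one, RCLike.norm_conj]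
    linarith
  have hre : ((z + w.re * e) * (conj z - w.re * conj e)).re = ‖z‖ ^ 2 - w.re ^ 2 := by
    have h3 : e.re * e.re + e.im * e.im = 1 := by
      have h4 : ‖e‖ ^ 2 = 1 := by rw [he, one_pow]
      rw [Complex.sq_norm, Complex.normSq_apply] at h4
      exact h4
    rw [Complex.sq_norm, Complex.normSq_apply]
    simp only [Complex.mul_re, Complex.add_re, Complex.sub_re, Complex.add_im, Complex.sub_im,
      Complex.mul_im, Complex.conj_re, Complex.conj_im, Complex.ofReal_re, Complex.ofReal_im]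
    linear_combination (-(w.re ^ 2)) * h3
  rw [norm_mul, Complex.norm_exp]
  have hre2 : (-((K : ℂ) * ((z + w.re * e) * (conj z - w.re * conj e)))).re =
      -(K * (‖z‖ ^ 2 - w.re ^ 2)) := by
    rw [Complex.neg_re, ← hre]
    have h5 : ((K : ℂ) * ((z + w.re * e) * (conj z - w.re * conj e))).re =
        (K : ℝ) * ((z + w.re * e) * (conj z - w.re * conj e)).re := by
      have h6 : ((K : ℕ) : ℂ) = (((K : ℕ) : ℝ) : ℂ) := by push_cast; rfl
      rw [h6, Complex.re_ofReal_mul]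
    rw [h5]
  rw [hre2]
  have h6 := tube_bound K p (z + w.re * e) (conj z - w.re * conj e) (1 + ‖z‖)
    (by linarith [norm_nonneg z]) hXn hYn
  calc ‖Pd K p 0 0 (z + w.re * e) (conj z - w.re * conj e)‖ *
        Real.exp (-(K * (‖z‖ ^ 2 - w.re ^ 2)))
      ≤ nP K p * ((1 + ‖z‖) ^ K * (1 + ‖z‖) ^ K) * Real.exp (-(K * (‖z‖ ^ 2 - w.re ^ 2))) :=
        mul_le_mul_of_nonneg_right h6 (Real.exp_pos _).le
    _ = nP K p * ((1 + ‖z‖) ^ K * (1 + ‖z‖) ^ K * Real.exp (-(K * (‖z‖ ^ 2 - w.re ^ 2)))) := by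
        ring
    _ ≤ nP K p * (2 * Real.exp 1) ^ K :=
        mul_le_mul_of_nonneg_left (tube_num K ‖z‖ w.re (norm_nonneg _) h0 h1)
          (tube_nP_nonneg K p)

private lemma tube_diag (K : ℕ) (p : ℕ → ℕ → ℂ) (z : ℂ) :
    ‖Pd K p 0 0 z (conj z) * cexp (-(K * (z * conj z)))‖ =
      ‖Pd K p 0 0 z (conj z)‖ * Real.exp (-(K * ‖z‖ ^ 2)) := by
  rw [norm_mul, Complex.norm_exp]
  congr 2
  have h1 : (-((K : ℂ) * (z * conj z))) = ((-((K : ℝ) * ‖z‖ ^ 2) : ℝ) : ℂ) := by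
    rw [Complex.mul_conj, Complex.normSq_eq_norm_sq]
    push_cast
    ring
  rw [h1, Complex.ofReal_re]

/-- Claim A -/
private lemma tube_A (K : ℕ) (p : ℕ → ℕ → ℂ) (hs L : ℝ) (hs0 : 0 < hs)
    (hmax : ∀ z : ℂ, ‖Pd K p 0 0 z (conj z)‖ * Real.exp (-(K * ‖z‖ ^ 2)) ≤ hs)
    (hL : nP K p * (2 * Real.exp 1) ^ K ≤ Real.exp (K * L) * hs) (X0 v : ℂ) (hv : ‖v‖ ≤ 1) :
    ‖Pd K p 0 0 (X0 + v) (conj X0 - conj v) *
      cexp (-(K * ((X0 + v) * (conj X0 - conj v))))‖ ≤ hs * Real.exp (K * L * ‖v‖) := by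
  rcases eq_or_ne v 0 with hv0 | hv0
  · subst hv0
    rw [map_zero, add_zero, sub_zero, norm_zero, mul_zero, Real.exp_zero, mul_one, tube_diag]
    exact hmax X0
  · have hn : 0 < ‖v‖ := norm_pos_iff.2 hv0
    have hnc : (‖v‖ : ℂ) ≠ 0 := by
      rw [Ne, Complex.ofReal_eq_zero]
      exact hn.ne'
    have he : ‖v / (‖v‖ : ℂ)‖ = 1 := by
      rw [norm_div, Complex.norm_real, norm_norm, div_self hn.ne']
    have hdf : Differentiable ℂ (fun w : ℂ =>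
        Pd K p 0 0 (X0 + w * (v / (‖v‖ : ℂ))) (conj X0 - w * conj (v / (‖v‖ : ℂ))) *
        cexp (-(K * ((X0 + w * (v / (‖v‖ : ℂ))) * (conj X0 - w * conj (v / (‖v‖ : ℂ))))))) := by
      simp only [tube_pd]
      fun_prop
    have hz : ((‖v‖ : ℝ) : ℂ) ∈ HadamardThreeLines.verticalClosedStrip 0 1 := by
      change ((‖v‖ : ℝ) : ℂ).re ∈ Set.Icc (0 : ℝ) 1
      rw [Complex.ofReal_re]
      exact ⟨hn.le, hv⟩
    have h3 := HadamardThreeLines.norm_le_interp_of_mem_verticalClosedStrip₀₁'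
      (fun w : ℂ => Pd K p 0 0 (X0 + w * (v / (‖v‖ : ℂ))) (conj X0 - w * conj (v / (‖v‖ : ℂ))) *
        cexp (-(K * ((X0 + w * (v / (‖v‖ : ℂ))) * (conj X0 - w * conj (v / (‖v‖ : ℂ)))))))
      (a := hs) (b := Real.exp (K * L) * hs) hz hdf.diffContOnCl
      (by
        refine ⟨nP K p * (2 * Real.exp 1) ^ K, ?_⟩
        rintro _ ⟨w, hw, rfl⟩
        exact tube_strip K p X0 _ w he hw.1 hw.2)
      (by
        intro w hw
        have hw0 : w.re = 0 := hw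
        have h4 : conj X0 - w * conj (v / (‖v‖ : ℂ)) = conj (X0 + w * (v / (‖v‖ : ℂ))) := by
          rw [map_add, map_mul]
          have h5 : conj w = -w := by
            apply Complex.ext
            · rw [Complex.conj_re, Complex.neg_re, hw0, neg_zero]
            · rw [Complex.conj_im, Complex.neg_im]
          rw [h5]
          ring
        change ‖Pd K p 0 0 (X0 + w * (v / (‖v‖ : ℂ))) (conj X0 - w * conj (v / (‖v‖ : ℂ))) *
          cexp (-(K * ((X0 + w * (v / (‖v‖ : ℂ))) * (conj X0 - w * conj (v / (‖v‖ : ℂ))))))‖ ≤ hs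
        rw [h4, tube_diag]
        exact hmax _)
      (by
        intro w hw
        have hw0 : w.re = 1 := hw
        exact (tube_strip K p X0 _ w he (by rw [hw0]; exact zero_le_one) hw0.le).trans hL)
    have h6 : ((‖v‖ : ℝ) : ℂ) * (v / (‖v‖ : ℂ)) = v := mul_div_cancel₀ v hnc
    have h7 : ((‖v‖ : ℝ) : ℂ) * conj (v / (‖v‖ : ℂ)) = conj v := by
      rw [map_div₀, Complex.conj_ofReal]
      exact mul_div_cancel₀ _ hnc
    simp only [h6, h7, Complex.ofReal_re] at h3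
    refine h3.trans (le_of_eq ?_)
    rw [Real.mul_rpow (Real.exp_pos _).le hs0.le, ← Real.exp_mul]
    have h8 : hs ^ (1 - ‖v‖) * hs ^ ‖v‖ = hs := by
      rw [← Real.rpow_add hs0, sub_add_cancel, Real.rpow_one]
    calc hs ^ (1 - ‖v‖) * (Real.exp (K * L * ‖v‖) * hs ^ ‖v‖)
        = (hs ^ (1 - ‖v‖) * hs ^ ‖v‖) * Real.exp (K * L * ‖v‖) := by ring
      _ = hs * Real.exp (K * L * ‖v‖) := by rw [h8]

theorem exists_tube : ∃ C : ℝ, 1 ≤ C ∧ ∀ (K : ℕ) (p : ℕ → ℕ → ℂ), 1 ≤ K →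
    (∃ k < K, ∃ j < K, p k j ≠ 0) → ∃ d : ℂ, ‖d‖ ≤ C ∧
      0 < ‖Pd K p 0 0 d (conj d)‖ ∧ nP K p ≤ C ^ K * ‖Pd K p 0 0 d (conj d)‖ ∧
      ∀ ρ : ℝ, 0 ≤ ρ → ρ ≤ 1 → ∀ ξ ζ : ℂ, ‖ξ‖ ≤ ρ → ‖ζ‖ ≤ ρ →
        ‖Pd K p 0 0 (d + ξ) (conj d + ζ)‖ ≤ ‖Pd K p 0 0 d (conj d)‖ * Real.exp (C * K * ρ) := by
  obtain ⟨C, hC1, hC⟩ := exists_maxP
  have hC0 : 0 < C := zero_lt_one.trans_le hC1
  have hL0 : 0 ≤ Real.log (2 * Real.exp 1 * C) := by
    refine Real.log_nonneg ?_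
    have h1 : (1 : ℝ) ≤ Real.exp 1 := Real.one_le_exp zero_le_one
    nlinarith
  refine ⟨3 * C + 1 + Real.log (2 * Real.exp 1 * C), by linarith, fun K p hK hp => ?_⟩
  obtain ⟨d, hd1, hd2, hd3, hd4⟩ := hC K p hK hp
  have hK0 : (0 : ℝ) ≤ K := Nat.cast_nonneg K
  have hs0 : 0 < ‖Pd K p 0 0 d (conj d)‖ * Real.exp (-(K * ‖d‖ ^ 2)) :=
    mul_pos hd3 (Real.exp_pos _)
  refine ⟨d, by linarith, hd3, ?_, ?_⟩
  · refine hd4.trans ?_
    have h1 : C ^ K ≤ (3 * C + 1 + Real.log (2 * Real.exp 1 * C)) ^ K :=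
      pow_le_pow_left₀ hC0.le (by linarith) K
    have h2 : ‖Pd K p 0 0 d (conj d)‖ * Real.exp (-(K * ‖d‖ ^ 2)) ≤ ‖Pd K p 0 0 d (conj d)‖ := by
      refine mul_le_of_le_one_right (norm_nonneg _) ?_
      rw [Real.exp_le_one_iff]
      have : (0 : ℝ) ≤ K * ‖d‖ ^ 2 := by positivity
      linarith
    exact mul_le_mul h1 h2 hs0.le (by positivity)
  · intro ρ hρ0 hρ1 ξ ζ hξ hζ
    have hL : nP K p * (2 * Real.exp 1) ^ K ≤
        Real.exp (K * Real.log (2 * Real.exp 1 * C)) *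
          (‖Pd K p 0 0 d (conj d)‖ * Real.exp (-(K * ‖d‖ ^ 2))) := by
      rw [Real.exp_nat_mul, Real.exp_log (by positivity), mul_pow (2 * Real.exp 1) C K]
      calc nP K p * (2 * Real.exp 1) ^ K
          ≤ (C ^ K * (‖Pd K p 0 0 d (conj d)‖ * Real.exp (-(K * ‖d‖ ^ 2)))) *
            (2 * Real.exp 1) ^ K := mul_le_mul_of_nonneg_right hd4 (by positivity)
        _ = _ := by ring
    have hv : ‖(ξ - conj ζ) / 2‖ ≤ ρ := by
      rw [norm_div, Complex.norm_ofNat]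
      have h1 : ‖ξ - conj ζ‖ ≤ ‖ξ‖ + ‖ζ‖ := by
        refine (norm_sub_le _ _).trans ?_
        rw [RCLike.norm_conj]
      linarith
    have h1 := tube_A K p _ _ hs0 hd2 hL (d + (ξ + conj ζ) / 2) ((ξ - conj ζ) / 2)
      (hv.trans hρ1)
    have e1 : d + (ξ + conj ζ) / 2 + (ξ - conj ζ) / 2 = d + ξ := by ring
    have e2 : conj (d + (ξ + conj ζ) / 2) - conj ((ξ - conj ζ) / 2) = conj d + ζ := by
      rw [map_add, map_div₀, map_div₀, map_add, map_sub, Complex.conj_conj]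
      have h2 : conj (2 : ℂ) = 2 := Complex.conj_ofNat 2
      rw [h2]
      ring
    rw [e1, e2] at h1
    have h3 : ‖Pd K p 0 0 (d + ξ) (conj d + ζ)‖ =
        ‖Pd K p 0 0 (d + ξ) (conj d + ζ) * cexp (-(K * ((d + ξ) * (conj d + ζ))))‖ *
          Real.exp (((K : ℂ) * ((d + ξ) * (conj d + ζ))).re) := by
      rw [norm_mul, Complex.norm_exp, mul_assoc, ← Real.exp_add, Complex.neg_re, neg_add_cancel,
        Real.exp_zero, mul_one]
    have h4 : ((K : ℂ) * ((d + ξ) * (conj d + ζ))).re ≤ K * (‖d‖ ^ 2 + (2 * C + 1) * ρ) := by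
      refine (Complex.re_le_norm _).trans ?_
      rw [norm_mul, Complex.norm_natCast]
      refine mul_le_mul_of_nonneg_left ?_ hK0
      rw [norm_mul]
      have h5 : ‖d + ξ‖ ≤ ‖d‖ + ρ := (norm_add_le _ _).trans (by linarith)
      have h6 : ‖conj d + ζ‖ ≤ ‖d‖ + ρ := by
        refine (norm_add_le _ _).trans ?_
        rw [RCLike.norm_conj]
        linarith
      have h7 : ‖d + ξ‖ * ‖conj d + ζ‖ ≤ (‖d‖ + ρ) * (‖d‖ + ρ) :=
        mul_le_mul h5 h6 (norm_nonneg _) (by positivity)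
      have h8 : ‖d‖ * ρ ≤ C * ρ := mul_le_mul_of_nonneg_right hd1 hρ0
      have h9 : ρ * ρ ≤ 1 * ρ := mul_le_mul_of_nonneg_right hρ1 hρ0
      nlinarith
    rw [h3]
    calc ‖Pd K p 0 0 (d + ξ) (conj d + ζ) * cexp (-(K * ((d + ξ) * (conj d + ζ))))‖ *
          Real.exp (((K : ℂ) * ((d + ξ) * (conj d + ζ))).re)
        ≤ (‖Pd K p 0 0 d (conj d)‖ * Real.exp (-(K * ‖d‖ ^ 2)) *
            Real.exp (K * Real.log (2 * Real.exp 1 * C) * ‖(ξ - conj ζ) / 2‖)) *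
          Real.exp (K * (‖d‖ ^ 2 + (2 * C + 1) * ρ)) :=
          mul_le_mul h1 (Real.exp_le_exp.2 h4) (Real.exp_pos _).le (by positivity)
      _ = ‖Pd K p 0 0 d (conj d)‖ * Real.exp (-(K * ‖d‖ ^ 2) +
            K * Real.log (2 * Real.exp 1 * C) * ‖(ξ - conj ζ) / 2‖ +
            K * (‖d‖ ^ 2 + (2 * C + 1) * ρ)) := by
          rw [Real.exp_add, Real.exp_add]
          ring
      _ ≤ ‖Pd K p 0 0 d (conj d)‖ *
            Real.exp ((3 * C + 1 + Real.log (2 * Real.exp 1 * C)) * K * ρ) := by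
          refine mul_le_mul_of_nonneg_left (Real.exp_le_exp.2 ?_) (norm_nonneg _)
          have h10 : K * Real.log (2 * Real.exp 1 * C) * ‖(ξ - conj ζ) / 2‖ ≤
              K * Real.log (2 * Real.exp 1 * C) * ρ :=
            mul_le_mul_of_nonneg_left hv (mul_nonneg hK0 hL0)
          have h11 : 0 ≤ (K : ℝ) * C * ρ := by positivity
          nlinarith

end Pool.Agent.ROH
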