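import Pool.Agent.Helper99.Rohr.Link

/-!
Project ROH, block Z, part 2: level 12. Every odd distribution of level 12 is determined, up to
2-torsion, by its values at `1/4` and `1/3`.
-/

set_option autoImplicit false

namespace Pool.Agent.ROH

open Finset Pool.Agent.Helper99.Rohr

theorem pt12 {j : ℕ} (h1 : 0 < j) (h2 : j < 12) : IsPt 12 ((j : ℚ) / 12) := by
  have h1' : (0 : ℚ) < j := by exact_mod_cast h1
  have h2' : (j : ℚ) < 12 := by exact_mod_cast h2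
  refine ⟨by positivity, by rw [div_lt_one (by norm_num)]; exact h2', j, ?_⟩
  push_cast
  field_simp

theorem pt12_of {x : ℚ} (hx : IsPt 12 x) : ∃ j : ℕ, 0 < j ∧ j < 12 ∧ x = (j : ℚ) / 12 := by
  obtain ⟨h0, h1, z, hz⟩ := hx
  have h2 : (0 : ℚ) < z := by rw [← hz]; positivity
  have h3 : (z : ℚ) < 12 := by rw [← hz]; push_cast; linarith
  have h4 : 0 < z := by exact_mod_cast h2
  have h5 : z < 12 := by exact_mod_cast h3
  obtain ⟨j, rfl⟩ : ∃ j : ℕ, z = j := ⟨z.toNat, (Int.toNat_of_nonneg h4.le).symm⟩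
  refine ⟨j, by exact_mod_cast h4, by exact_mod_cast h5, ?_⟩
  push_cast at hz
  linarith

/-- the relations of level 12 -/
theorem rel12 {j : ℕ} (h1 : 0 < j) (h2 : j < 12) : ∃ α β : ℤ, ∀ (A : Type) [AddCommGroup A]
    (f : ℚ → A), OddDist 12 f →
      (2 : ℤ) • f ((j : ℚ) / 12) = (2 * α) • f (1 / 4) + (2 * β) • f (1 / 3) := by
  have key : ∀ (A : Type) [AddCommGroup A] (f : ℚ → A), OddDist 12 f →
      (∀ k : ℕ, 0 < k → k < 12 → f (((12 - k : ℕ) : ℚ) / 12) = - f ((k : ℚ) / 12)) ∧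
      (∀ k : ℕ, 0 < k → k < 6 → f ((k : ℚ) / 12) + f (((k + 6 : ℕ) : ℚ) / 12) =
        f (((2 * k : ℕ) : ℚ) / 12)) ∧
      f (((1 : ℕ) : ℚ) / 12) + f (((5 : ℕ) : ℚ) / 12) + f (((9 : ℕ) : ℚ) / 12) =
        f (((3 : ℕ) : ℚ) / 12) := by
    intro A _ f hf
    refine ⟨fun k hk1 hk2 => ?_, fun k hk1 hk2 => ?_, ?_⟩
    · rw [← hf.odd _ (pt12 hk1 hk2)]
      congr 1
      rw [Nat.cast_sub hk2.le]
      push_cast
      ring
    · have h := hf.dist 2 two_pos _ (pt12 (j := 2 * k) (by omega) (by omega)) (fun l hl => by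
        have h3 : (((2 * k : ℕ) : ℚ) / 12 + (l : ℚ)) / ((2 : ℕ) : ℚ) =
            ((k + 6 * l : ℕ) : ℚ) / 12 := by push_cast; ring
        rw [h3]
        exact pt12 (by omega) (by omega))
      rw [sum_range_succ, sum_range_one] at h
      rw [← h]
      congr 2 <;> · push_cast; ring
    · have h := hf.dist 3 three_pos _ (pt12 (j := 3) (by omega) (by omega)) (fun l hl => by
        have h3 : (((3 : ℕ) : ℚ) / 12 + (l : ℚ)) / ((3 : ℕ) : ℚ) =
            ((1 + 4 * l : ℕ) : ℚ) / 12 := by push_cast; ring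
        rw [h3]
        exact pt12 (by omega) (by omega))
      rw [sum_range_succ, sum_range_succ, sum_range_one] at h
      have e0 : (((3 : ℕ) : ℚ) / 12 + ((0 : ℕ) : ℚ)) / ((3 : ℕ) : ℚ) = ((1 : ℕ) : ℚ) / 12 := by
        norm_num
      have e1 : (((3 : ℕ) : ℚ) / 12 + ((1 : ℕ) : ℚ)) / ((3 : ℕ) : ℚ) = ((5 : ℕ) : ℚ) / 12 := by
        norm_num
      have e2 : (((3 : ℕ) : ℚ) / 12 + ((2 : ℕ) : ℚ)) / ((3 : ℕ) : ℚ) = ((9 : ℕ) : ℚ) / 12 := by
        norm_num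
      rw [e0, e1, e2] at h
      exact h
  have e4 : (1 / 4 : ℚ) = ((3 : ℕ) : ℚ) / 12 := by norm_num
  have e3 : (1 / 3 : ℚ) = ((4 : ℕ) : ℚ) / 12 := by norm_num
  rw [e4, e3]
  have key2 : ∀ (A : Type) [AddCommGroup A] (f : ℚ → A), OddDist 12 f →
      f (((11 : ℕ) : ℚ) / 12) = - f (((1 : ℕ) : ℚ) / 12) ∧
      f (((10 : ℕ) : ℚ) / 12) = - f (((2 : ℕ) : ℚ) / 12) ∧
      f (((9 : ℕ) : ℚ) / 12) = - f (((3 : ℕ) : ℚ) / 12) ∧
      f (((8 : ℕ) : ℚ) / 12) = - f (((4 : ℕ) : ℚ) / 12) ∧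
      f (((7 : ℕ) : ℚ) / 12) = - f (((5 : ℕ) : ℚ) / 12) ∧
      f (((3 : ℕ) : ℚ) / 12) + f (((9 : ℕ) : ℚ) / 12) = f (((6 : ℕ) : ℚ) / 12) ∧
      f (((1 : ℕ) : ℚ) / 12) + f (((7 : ℕ) : ℚ) / 12) = f (((2 : ℕ) : ℚ) / 12) ∧
      f (((2 : ℕ) : ℚ) / 12) + f (((8 : ℕ) : ℚ) / 12) = f (((4 : ℕ) : ℚ) / 12) ∧
      f (((1 : ℕ) : ℚ) / 12) + f (((5 : ℕ) : ℚ) / 12) + f (((9 : ℕ) : ℚ) / 12) =
        f (((3 : ℕ) : ℚ) / 12) := by
    intro A _ f hf
    obtain ⟨k1, k2, k3⟩ := key A f hf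
    exact ⟨k1 1 (by norm_num) (by norm_num), k1 2 (by norm_num) (by norm_num),
      k1 3 (by norm_num) (by norm_num), k1 4 (by norm_num) (by norm_num),
      k1 5 (by norm_num) (by norm_num), k2 3 (by norm_num) (by norm_num),
      k2 1 (by norm_num) (by norm_num), k2 2 (by norm_num) (by norm_num), k3⟩
  interval_cases j
  · refine ⟨1, 1, fun A _ f hf => ?_⟩
    obtain ⟨r1, r2, r3, r4, r5, r6, r7, r8, r9⟩ := key2 A f hf
    rw [r5] at r7; rw [r4] at r8; rw [r3] at r9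
    linear_combination (norm := module) r7 + r8 + r9
  · refine ⟨0, 2, fun A _ f hf => ?_⟩
    obtain ⟨r1, r2, r3, r4, r5, r6, r7, r8, r9⟩ := key2 A f hf
    rw [r4] at r8
    linear_combination (norm := module) (2 : ℤ) • r8
  · refine ⟨1, 0, fun A _ f hf => ?_⟩
    module
  · refine ⟨0, 1, fun A _ f hf => ?_⟩
    module
  · refine ⟨1, -1, fun A _ f hf => ?_⟩
    obtain ⟨r1, r2, r3, r4, r5, r6, r7, r8, r9⟩ := key2 A f hf
    rw [r5] at r7; rw [r4] at r8; rw [r3] at r9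
    linear_combination (norm := module) r9 - r7 - r8
  · refine ⟨0, 0, fun A _ f hf => ?_⟩
    obtain ⟨r1, r2, r3, r4, r5, r6, r7, r8, r9⟩ := key2 A f hf
    rw [r3] at r6
    linear_combination (norm := module) (-2 : ℤ) • r6
  · refine ⟨-1, 1, fun A _ f hf => ?_⟩
    obtain ⟨r1, r2, r3, r4, r5, r6, r7, r8, r9⟩ := key2 A f hf
    rw [r4] at r8; rw [r3] at r9
    linear_combination (norm := module) (2 : ℤ) • r5 - r9 + r7 + r8 - r5
  · refine ⟨0, -1, fun A _ f hf => ?_⟩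
    obtain ⟨r1, r2, r3, r4, r5, r6, r7, r8, r9⟩ := key2 A f hf
    linear_combination (norm := module) (2 : ℤ) • r4
  · refine ⟨-1, 0, fun A _ f hf => ?_⟩
    obtain ⟨r1, r2, r3, r4, r5, r6, r7, r8, r9⟩ := key2 A f hf
    linear_combination (norm := module) (2 : ℤ) • r3
  · refine ⟨0, -2, fun A _ f hf => ?_⟩
    obtain ⟨r1, r2, r3, r4, r5, r6, r7, r8, r9⟩ := key2 A f hf
    rw [r4] at r8
    linear_combination (norm := module) (2 : ℤ) • r2 - (2 : ℤ) • r8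
  · refine ⟨-1, -1, fun A _ f hf => ?_⟩
    obtain ⟨r1, r2, r3, r4, r5, r6, r7, r8, r9⟩ := key2 A f hf
    rw [r5] at r7; rw [r4] at r8; rw [r3] at r9
    linear_combination (norm := module) (2 : ℤ) • r1 - r7 - r8 - r9

end Pool.Agent.ROH
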